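import Mathlib

/-!
# [H44 AC ADN] Adapted seminorms

`N v = sup_n ν (T^n v) / α^n` (between `ν v` (`n = 0`) and `K ν v`).  `N (T v) = sup_n ν (T^(n+1) v) / α^n ≤ α N v`.
(`Seminorm.of` or the structure with `ciSup`; all suprema are bounded by `K ν v`: `ciSup_le`, `le_ciSup`.)
-/

set_option autoImplicit false

namespace Pool.Agent.H44.AC

theorem adn {V : Type*} [AddCommGroup V] [Module ℝ V] (ν : Seminorm ℝ V) (T : V →ₗ[ℝ] V) (α K : ℝ)
    (hα : 0 < α) (h : ∀ (n : ℕ) v, ν ((T ^ n) v) ≤ K * α ^ n * ν v) :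
    ∃ N : Seminorm ℝ V, (∀ v, ν v ≤ N v) ∧ (∀ v, N v ≤ K * ν v) ∧ ∀ v, N (T v) ≤ α * N v := by
  have hbd : ∀ v, BddAbove (Set.range fun n : ℕ => ν ((T ^ n) v) / α ^ n) := by
    intro v
    refine ⟨K * ν v, ?_⟩
    rintro _ ⟨n, rfl⟩
    rw [div_le_iff₀ (by positivity)]
    calc ν ((T ^ n) v) ≤ K * α ^ n * ν v := h n v
      _ = K * ν v * α ^ n := by ring
  have hle : ∀ v, (⨆ n : ℕ, ν ((T ^ n) v) / α ^ n) ≤ K * ν v := by
    intro v
    refine ciSup_le fun n => ?_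
    rw [div_le_iff₀ (by positivity)]
    calc ν ((T ^ n) v) ≤ K * α ^ n * ν v := h n v
      _ = K * ν v * α ^ n := by ring
  have hge : ∀ v, ν v ≤ ⨆ n : ℕ, ν ((T ^ n) v) / α ^ n := by
    intro v
    have := le_ciSup (hbd v) 0
    simpa using this
  refine ⟨Seminorm.of (fun v => ⨆ n : ℕ, ν ((T ^ n) v) / α ^ n) ?_ ?_, hge, hle, ?_⟩
  · intro x y
    refine ciSup_le fun n => ?_
    have h1 := le_ciSup (hbd x) n
    have h2 := le_ciSup (hbd y) n
    rw [map_add]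
    calc ν ((T ^ n) x + (T ^ n) y) / α ^ n ≤ (ν ((T ^ n) x) + ν ((T ^ n) y)) / α ^ n := by
          gcongr
          exact map_add_le_add ν _ _
      _ = ν ((T ^ n) x) / α ^ n + ν ((T ^ n) y) / α ^ n := add_div _ _ _
      _ ≤ _ := add_le_add h1 h2
  · intro a x
    rw [Real.mul_iSup_of_nonneg (norm_nonneg a)]
    congr 1
    funext n
    rw [map_smul, map_smul_eq_mul, mul_div_assoc]
  · intro v
    change (⨆ n : ℕ, ν ((T ^ n) (T v)) / α ^ n) ≤ α * ⨆ n : ℕ, ν ((T ^ n) v) / α ^ n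
    refine ciSup_le fun n => ?_
    have h1 := le_ciSup (hbd v) (n + 1)
    have e1 : (T ^ n) (T v) = (T ^ (n + 1)) v := by
      rw [pow_succ]
      rfl
    rw [e1]
    calc ν ((T ^ (n + 1)) v) / α ^ n = α * (ν ((T ^ (n + 1)) v) / α ^ (n + 1)) := by
          rw [pow_succ α n]
          field_simp
      _ ≤ _ := mul_le_mul_of_nonneg_left h1 hα.le

end Pool.Agent.H44.AC
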