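import Pool.Agent.H44.AC.Per

/-!
# [H44 AC SWA] The explicit stable bundle: the series

* `h_shift`: `h (x + n) - h x` does not depend on `x` (continuous with integral values; or from `Dif.shift` for `s.f` (`Ok.dif`) and the vectors `(x, 0)`, `(n, 0)`, `f_apply`).
* `Dh_per`: from `h_shift`.  `Dh_bdd`: from `Dif.bdd` for `s.f` and `fderiv_apply` at `(x, 0)`, `(w, 0)`: `‖Dh x w‖ ≤ ‖D s.f (x,0) (w, 0)‖`.
* `S_term`: the term `j` of the series has norm at most `K r^j`: `‖b^(j+1)‖ ‖Dh‖ ‖a^j ps‖ ≤ ‖b‖ H (‖a^j ps‖ ‖b^j‖) ≤ ‖b‖ H C r^j` (`Dom.est`).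
* `S_bdd`, `S_cont` (`continuous_tsum`; `ContDiff.continuous_fderiv`).
* `S_apply`: evaluation is continuous and linear (`ContinuousLinearMap.apply`, `Summable.of_norm_bounded`, `HasSum.mapL`, ...).
-/

set_option autoImplicit false

namespace Pool.Agent.H44.AC

variable {d k : ℕ}

namespace Sk

theorem Ok.h_shift {s : Sk d k} (hs : s.Ok) (x y n : X d) (hn : Int1 n) :
    s.h (x + n) - s.h x = s.h (y + n) - s.h y := by
  obtain ⟨z', -, hz'⟩ := hs.dif.shift ((n, 0) : E d k) ⟨hn, Int1.zero⟩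
  have key : ∀ x : X d, s.h (x + n) - s.h x = z'.2 := by
    intro x
    have h1 := congrArg Prod.snd (hz' ((x, 0) : E d k))
    rw [f_apply] at h1
    change s.B ((0 : X k) + 0) + s.h (x + n) = (s.B 0 + s.h x) + z'.2 at h1
    rw [add_zero, map_zero, zero_add, zero_add] at h1
    rw [h1]
    abel
  rw [key x, key y]

theorem Ok.Dh_per {s : Sk d k} (hs : s.Ok) (x n : X d) (hn : Int1 n) :
    fderiv ℝ s.h (x + n) = fderiv ℝ s.h x := by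
  have h1 : fderiv ℝ (fun x => s.h (x + n)) x = fderiv ℝ s.h (x + n) := fderiv_comp_add_right n
  have h2 : (fun x => s.h (x + n)) = fun y => s.h y + (s.h (x + n) - s.h x) := by
    funext y
    rw [← hs.h_shift y x n hn]
    abel
  rw [← h1, h2, fderiv_add_const]

theorem Ok.Dh_bdd {s : Sk d k} (hs : s.Ok) : ∃ H : ℝ, 0 < H ∧ ∀ x, ‖fderiv ℝ s.h x‖ ≤ H := by
  obtain ⟨K, hK, hb⟩ := hs.dif.bdd
  refine ⟨K, hK, fun x => ContinuousLinearMap.opNorm_le_bound _ hK.le fun w => ?_⟩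
  have h1 := (fderiv ℝ s.f ((x, 0) : E d k)).le_opNorm ((w, 0) : E d k)
  rw [fderiv_apply hs] at h1
  have h2 : ‖((w, 0) : E d k)‖ = ‖w‖ := by
    rw [Prod.norm_def]
    simp
  have h3 : ‖fderiv ℝ s.h x w‖ ≤
      ‖((s.A w, s.B 0 + fderiv ℝ s.h x w) : E d k)‖ := by
    rw [map_zero, zero_add]
    exact norm_snd_le ((s.A w, fderiv ℝ s.h x w) : E d k)
  rw [h2] at h1
  calc ‖fderiv ℝ s.h x w‖ ≤ _ := h3
    _ ≤ ‖fderiv ℝ s.f ((x, 0) : E d k)‖ * ‖w‖ := h1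
    _ ≤ K * ‖w‖ := by
      have := hb ((x, 0) : E d k)
      gcongr

theorem S_term {s : Sk d k} (hs : s.Ok) : ∃ K r : ℝ, 0 < K ∧ 0 < r ∧ r < 1 ∧ ∀ (j : ℕ) (x : X d),
    ‖(s.b ^ (j + 1)).comp ((fderiv ℝ s.h ((s.a ^ j) x)).comp (s.a ^ j * s.ps))‖ ≤ K * r ^ j := by
  obtain ⟨C, r, hC, hr, hr1, hest⟩ := hs.dom.est
  obtain ⟨H, hH, hHb⟩ := hs.Dh_bdd
  refine ⟨(‖s.b‖ + 1) * H * C, r, by positivity, hr, hr1, fun j x => ?_⟩
  have h1 : ‖s.a ^ j * s.ps‖ * ‖s.b ^ j‖ ≤ C * r ^ j := (hest j).2.2.1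
  have h2 : ‖s.b ^ (j + 1)‖ ≤ (‖s.b‖ + 1) * ‖s.b ^ j‖ := by
    rw [pow_succ']
    refine (norm_mul_le _ _).trans ?_
    have := norm_nonneg (s.b ^ j)
    nlinarith
  calc ‖(s.b ^ (j + 1)).comp ((fderiv ℝ s.h ((s.a ^ j) x)).comp (s.a ^ j * s.ps))‖
      ≤ ‖s.b ^ (j + 1)‖ * ‖(fderiv ℝ s.h ((s.a ^ j) x)).comp (s.a ^ j * s.ps)‖ :=
        ContinuousLinearMap.opNorm_comp_le _ _
    _ ≤ ‖s.b ^ (j + 1)‖ * (‖fderiv ℝ s.h ((s.a ^ j) x)‖ * ‖s.a ^ j * s.ps‖) := by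
        gcongr
        exact ContinuousLinearMap.opNorm_comp_le _ _
    _ ≤ ((‖s.b‖ + 1) * ‖s.b ^ j‖) * (H * ‖s.a ^ j * s.ps‖) := by
        have := hHb ((s.a ^ j) x)
        gcongr
    _ = (‖s.b‖ + 1) * H * (‖s.a ^ j * s.ps‖ * ‖s.b ^ j‖) := by ring
    _ ≤ (‖s.b‖ + 1) * H * (C * r ^ j) := by gcongr
    _ = _ := by ring

theorem S_bdd {s : Sk d k} (hs : s.Ok) : ∃ K : ℝ, 0 < K ∧ ∀ x, ‖s.S x‖ ≤ K := by
  obtain ⟨K, r, hK, hr, hr1, h⟩ := S_term hs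
  have hsum : HasSum (fun j : ℕ => K * r ^ j) (K * (1 - r)⁻¹) :=
    (hasSum_geometric_of_lt_one hr.le hr1).mul_left K
  have h1 : 0 < 1 - r := by linarith
  refine ⟨K * (1 - r)⁻¹, by positivity, fun x => ?_⟩
  unfold S
  rw [norm_neg]
  exact tsum_of_norm_bounded hsum fun j => h j x

theorem S_cont {s : Sk d k} (hs : s.Ok) : Continuous s.S := by
  obtain ⟨K, r, hK, hr, hr1, h⟩ := S_term hs
  have hc : Continuous (fderiv ℝ s.h) := hs.c1.continuous_fderiv one_ne_zero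
  have h1 : Continuous fun x => ∑' j : ℕ,
      (s.b ^ (j + 1)).comp ((fderiv ℝ s.h ((s.a ^ j) x)).comp (s.a ^ j * s.ps)) := by
    refine continuous_tsum (fun j => ?_) ((summable_geometric_of_lt_one hr.le hr1).mul_left K)
      (fun j x => h j x)
    exact continuous_const.clm_comp ((hc.comp (s.a ^ j).continuous).clm_comp continuous_const)
  exact h1.neg

theorem S_apply {s : Sk d k} (hs : s.Ok) (x y : X d) :
    (Summable fun j : ℕ => (s.b ^ (j + 1)) (fderiv ℝ s.h ((s.a ^ j) x) ((s.a ^ j) (s.ps y)))) ∧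
      s.S x y = -∑' j : ℕ, (s.b ^ (j + 1)) (fderiv ℝ s.h ((s.a ^ j) x) ((s.a ^ j) (s.ps y))) := by
  obtain ⟨K, r, hK, hr, hr1, h⟩ := S_term hs
  have hsum : Summable fun j : ℕ =>
      (s.b ^ (j + 1)).comp ((fderiv ℝ s.h ((s.a ^ j) x)).comp (s.a ^ j * s.ps)) :=
    Summable.of_norm_bounded ((summable_geometric_of_lt_one hr.le hr1).mul_left K)
      (fun j => h j x)
  have h1 := hsum.hasSum.mapL (ContinuousLinearMap.apply ℝ (X k) y)
  have h2 : HasSum (fun j : ℕ => (s.b ^ (j + 1)) (fderiv ℝ s.h ((s.a ^ j) x)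
      ((s.a ^ j) (s.ps y)))) ((∑' j : ℕ,
      (s.b ^ (j + 1)).comp ((fderiv ℝ s.h ((s.a ^ j) x)).comp (s.a ^ j * s.ps))) y) := h1
  refine ⟨h2.summable, ?_⟩
  rw [h2.tsum_eq]
  rfl

end Sk

end Pool.Agent.H44.AC
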