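import Pool.Agent.H44.AC.AdaptA
import Pool.Agent.H44.AC.Adn
import Pool.Agent.H44.AC.SWa

/-!
# [H44 AC ADAPT] Adapted seminorms for an affine skew product

`Ad s Ns Nw a b η c C`: `Ns` is a norm on the stable part (`Π v = (ps v.1, 0)`), `Nw` a norm on the complement
`ker Π = {v : ps v.1 = 0}`, and the derivative of `s.f` contracts `Ns` by `a` and expands `Nw` by `b > a + η` up to `η Ns`.

`adapt`: (1) `‖D h x‖ ≤ H` (`Dh_bdd`).  (2) `op_rates` gives `α, β, K`, `α β < 1`, `1 ≤ K`.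
(3) `F v = (A v.1, B v.2)`, `T v = F (Π v) = (A (ps v.1), 0)`, `G v = F⁻¹ (v - Π v) = (A⁻¹ (pu v.1), B⁻¹ v.2)`, `ν v = max ‖v.1‖ (κ ‖v.2‖)`
(a seminorm: supremum of `(normSeminorm).comp fst` and `κ • (normSeminorm).comp snd`, or define it with `Seminorm.of`; `0 < κ ≤ 1` chosen below).  For `n ≥ 1`
`T^n v = (A^n ps v.1, 0)`, `G^n v = (A^(-n) pu v.1, B^(-n) v.2)`, so `ν (T^n v) ≤ K α^n ν v`, `ν (G^n v) ≤ K β^n ν v` (`n = 0`: the identity, `1 ≤ K`).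
(4) `adn` gives `N_T`, `N_G`.  `Ns = N_T ∘ Π`, `Nw = N_G ∘ (1 - Π)`.  `fs`: `Π (Df v) = T (Π v)`, so `Ns (Df v) = N_T (T Π v) ≤ α Ns v`.
`fw`: `(1 - Π)(Df v) = F (1-Π) v + (0, Dh v.1)`, `Nw v = N_G (G F (1-Π) v) ≤ β N_G (F (1-Π) v)`, and
`N_G (0, Dh v.1) ≤ K κ H ‖v.1‖ ≤ K κ H (Ns v + Nw v)` because `‖v.1‖ ≤ ‖ps v.1‖ + ‖pu v.1‖ ≤ Ns v + Nw v`.  So `fw` with
`b = β⁻¹ - K κ H`, `η = K κ H`; `κ` small enough for `α + 2 K κ H < β⁻¹`.
(5) `low` with `c = κ`: `κ ‖v.1‖ ≤ ‖v.1‖ ≤ Ns v + Nw v`, `κ ‖v.2‖ ≤ ν (v - Π v) ≤ Nw v`.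
-/

set_option autoImplicit false

namespace Pool.Agent.H44.AC

variable {d k : ℕ}

/-- adapted seminorms -/
structure Ad (s : Sk d k) (Ns Nw : Seminorm ℝ (E d k)) (a b η c C : ℝ) : Prop where
  ha : 0 ≤ a
  hη : 0 ≤ η
  hab : a + η < b
  hc : 0 < c
  hC : 0 < C
  low : ∀ v, c * ‖v‖ ≤ Ns v + Nw v
  ups : ∀ v, Ns v ≤ C * ‖v‖
  upw : ∀ v, Nw v ≤ C * ‖v‖
  /-- `Ns` vanishes on `ker Π` -/
  s0 : ∀ v, s.ps v.1 = 0 → Ns v = 0
  /-- `Nw` vanishes on `im Π` -/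
  w0 : ∀ x, Nw ((s.ps x, 0) : E d k) = 0
  fs : ∀ p v, Ns (fderiv ℝ s.f p v) ≤ a * Ns v
  fw : ∀ p v, b * Nw v - η * Ns v ≤ Nw (fderiv ℝ s.f p v)

/-- the seminorm `max ‖v.1‖ (κ ‖v.2‖)` -/
private theorem ad_nu (κ : ℝ) (hκ : 0 ≤ κ) : ∃ ν : Seminorm ℝ (E d k),
    ∀ v, ν v = max ‖v.1‖ (κ * ‖v.2‖) := by
  refine ⟨Seminorm.of (fun v : E d k => max ‖v.1‖ (κ * ‖v.2‖)) ?_ ?_, fun v => rfl⟩
  · intro v w
    refine max_le ?_ ?_
    · have h1 : ‖(v + w).1‖ ≤ ‖v.1‖ + ‖w.1‖ := norm_add_le _ _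
      have h2 := le_max_left ‖v.1‖ (κ * ‖v.2‖)
      have h3 := le_max_left ‖w.1‖ (κ * ‖w.2‖)
      linarith
    · have h1 : ‖(v + w).2‖ ≤ ‖v.2‖ + ‖w.2‖ := norm_add_le _ _
      have h2 := le_max_right ‖v.1‖ (κ * ‖v.2‖)
      have h3 := le_max_right ‖w.1‖ (κ * ‖w.2‖)
      have h4 := mul_le_mul_of_nonneg_left h1 hκ
      linarith
  · intro a v
    rw [mul_max_of_nonneg _ _ (norm_nonneg a)]
    congr 1
    · exact norm_smul a v.1
    · have : ‖(a • v).2‖ = ‖a‖ * ‖v.2‖ := norm_smul a v.2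
      rw [this]
      ring

private theorem ad_comm {a p : X d →L[ℝ] X d} (h : ∀ x, p (a x) = a (p x)) (n : ℕ) (x : X d) :
    p ((a ^ n) x) = (a ^ n) (p x) := by
  induction n with
  | zero => rfl
  | succ n ih =>
    rw [pow_succ']
    change p (a ((a ^ n) x)) = a ((a ^ n) (p x))
    rw [h, ih]

/-- powers of `v ↦ (a p v.1, b v.2)` -/
private theorem ad_pow (a p : X d →L[ℝ] X d) (b : X k →L[ℝ] X k) (h : ∀ x, p (a x) = a (p x))
    (hp : ∀ x, p (p x) = p x) (T : E d k →ₗ[ℝ] E d k) (hT : ∀ v, T v = (a (p v.1), b v.2))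
    (n : ℕ) (v : E d k) : (T ^ (n + 1)) v = ((a ^ (n + 1)) (p v.1), (b ^ (n + 1)) v.2) := by
  induction n with
  | zero =>
    rw [zero_add, pow_one, pow_one, pow_one]
    exact hT v
  | succ n ih =>
    rw [pow_succ' T]
    change T ((T ^ (n + 1)) v) = _
    rw [ih, hT, pow_succ' a (n + 1), pow_succ' b (n + 1)]
    change (a (p ((a ^ (n + 1)) (p v.1))), b ((b ^ (n + 1)) v.2)) =
      (a ((a ^ (n + 1)) (p v.1)), b ((b ^ (n + 1)) v.2))
    rw [ad_comm h, hp]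

private theorem ad_rate (κ : ℝ) (hκ : 0 ≤ κ) (ν : Seminorm ℝ (E d k))
    (hν : ∀ v, ν v = max ‖v.1‖ (κ * ‖v.2‖)) (a p : X d →L[ℝ] X d) (b : X k →L[ℝ] X k)
    (h : ∀ x, p (a x) = a (p x)) (hp : ∀ x, p (p x) = p x) (T : E d k →ₗ[ℝ] E d k)
    (hT : ∀ v, T v = (a (p v.1), b v.2)) (K α : ℝ) (hK : 1 ≤ K) (hα : 0 < α)
    (h1 : ∀ n : ℕ, ‖a ^ n * p‖ ≤ K * α ^ n) (h2 : ∀ n : ℕ, 1 ≤ n → ‖b ^ n‖ ≤ K * α ^ n) :
    ∀ (n : ℕ) v, ν ((T ^ n) v) ≤ K * α ^ n * ν v := by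
  intro n v
  rcases n with _ | n
  · rw [pow_zero, pow_zero, mul_one]
    change ν v ≤ K * ν v
    have := apply_nonneg ν v
    nlinarith
  · rw [ad_pow a p b h hp T hT, hν, hν v]
    refine max_le ?_ ?_
    · change ‖(a ^ (n + 1) * p) v.1‖ ≤ _
      refine ((a ^ (n + 1) * p).le_opNorm v.1).trans ?_
      have h3 := le_max_left ‖v.1‖ (κ * ‖v.2‖)
      exact mul_le_mul (h1 _) h3 (norm_nonneg _) (by positivity)
    · change κ * ‖(b ^ (n + 1)) v.2‖ ≤ _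
      have h3 := le_max_right ‖v.1‖ (κ * ‖v.2‖)
      have h4 := (b ^ (n + 1)).le_opNorm v.2
      have h5 := h2 (n + 1) (by omega)
      calc κ * ‖(b ^ (n + 1)) v.2‖ ≤ κ * (‖b ^ (n + 1)‖ * ‖v.2‖) := by gcongr
        _ = ‖b ^ (n + 1)‖ * (κ * ‖v.2‖) := by ring
        _ ≤ K * α ^ (n + 1) * max ‖v.1‖ (κ * ‖v.2‖) :=
          mul_le_mul h5 h3 (by positivity) (by positivity)

theorem adapt {s : Sk d k} (hs : s.Ok) : ∃ (Ns Nw : Seminorm ℝ (E d k)) (a b η c C : ℝ),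
    Ad s Ns Nw a b η c C := by
  obtain ⟨H, hH, hHb⟩ := hs.Dh_bdd
  obtain ⟨α, β, K, hα, hβ, hαβ, hK, hrate⟩ := op_rates hs.dom
  have hK0 : 0 < K := by linarith
  have hgap : α < β⁻¹ := by
    rw [lt_inv_comm₀ hα hβ]
    rw [lt_inv_comm₀ hβ hα, ← one_div, lt_div_iff₀ hβ]
    exact hαβ
  -- the constant `κ`
  obtain ⟨κ, hκ, hκ1, hκ2⟩ : ∃ κ : ℝ, 0 < κ ∧ κ ≤ 1 ∧ α + 2 * (K * κ * H) < β⁻¹ := by
    refine ⟨min 1 ((β⁻¹ - α) / (4 * K * H)), ?_, min_le_left _ _, ?_⟩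
    · refine lt_min one_pos ?_
      have : 0 < β⁻¹ - α := by linarith
      positivity
    · have h1 := min_le_right 1 ((β⁻¹ - α) / (4 * K * H))
      have h2 : K * ((β⁻¹ - α) / (4 * K * H)) * H = (β⁻¹ - α) / 4 := by
        field_simp
      have h3 : K * min 1 ((β⁻¹ - α) / (4 * K * H)) * H ≤ (β⁻¹ - α) / 4 := by
        rw [← h2]
        gcongr
      linarith
  obtain ⟨ν, hν⟩ := ad_nu (d := d) (k := k) κ hκ.le
  -- the two linear maps
  let T : E d k →ₗ[ℝ] E d k := LinearMap.prodMap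
    ((s.A : X d →L[ℝ] X d).comp s.ps : X d →ₗ[ℝ] X d) 0
  have hT : ∀ v, T v = ((s.A : X d →L[ℝ] X d) (s.ps v.1), (0 : X k →L[ℝ] X k) v.2) :=
    fun v => rfl
  let G : E d k →ₗ[ℝ] E d k := LinearMap.prodMap
    ((s.A.symm : X d →L[ℝ] X d).comp s.pu : X d →ₗ[ℝ] X d)
    ((s.B.symm : X k →L[ℝ] X k) : X k →ₗ[ℝ] X k)
  have hG : ∀ v, G v = ((s.A.symm : X d →L[ℝ] X d) (s.pu v.1),
      (s.B.symm : X k →L[ℝ] X k) v.2) := fun v => rfl
  obtain ⟨NT, hNT1, hNT2, hNT3⟩ := adn ν T α K hα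
    (ad_rate κ hκ.le ν hν _ _ _ hs.dom.comm hs.dom.ss T hT K α hK hα (fun n => (hrate n).1)
      (fun n hn => by
        rw [zero_pow (by omega), norm_zero]
        positivity))
  obtain ⟨NG, hNG1, hNG2, hNG3⟩ := adn ν G β K hβ
    (ad_rate κ hκ.le ν hν _ _ _ hs.dom.inv.comm hs.dom.uu G hG K β hK hβ
      (fun n => (hrate n).2.1) (fun n _ => (hrate n).2.2))
  let Pi1 : E d k →ₗ[ℝ] E d k := LinearMap.prodMap (s.ps : X d →ₗ[ℝ] X d) 0
  let Pi2 : E d k →ₗ[ℝ] E d k := LinearMap.prodMap (s.pu : X d →ₗ[ℝ] X d) LinearMap.id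
  have hPi1 : ∀ v, Pi1 v = (s.ps v.1, 0) := fun v => rfl
  have hPi2 : ∀ v, Pi2 v = (s.pu v.1, v.2) := fun v => rfl
  have hNs : ∀ v, (NT.comp Pi1) v = NT ((s.ps v.1, 0) : E d k) := fun v => rfl
  have hNw : ∀ v, (NG.comp Pi2) v = NG ((s.pu v.1, v.2) : E d k) := fun v => rfl
  have hps : ∀ v : E d k, ‖s.ps v.1‖ ≤ (NT.comp Pi1) v := by
    intro v
    rw [hNs]
    refine le_trans ?_ (hNT1 _)
    rw [hν]
    exact le_max_left _ _
  have hpu : ∀ v : E d k, ‖s.pu v.1‖ ≤ (NG.comp Pi2) v := by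
    intro v
    rw [hNw]
    refine le_trans ?_ (hNG1 _)
    rw [hν]
    exact le_max_left _ _
  have h2w : ∀ v : E d k, κ * ‖v.2‖ ≤ (NG.comp Pi2) v := by
    intro v
    rw [hNw]
    refine le_trans ?_ (hNG1 _)
    rw [hν]
    exact le_max_right _ _
  have hv1 : ∀ v : E d k, ‖v.1‖ ≤ (NT.comp Pi1) v + (NG.comp Pi2) v := by
    intro v
    have h1 : ‖v.1‖ ≤ ‖s.ps v.1‖ + ‖s.pu v.1‖ := by
      have := norm_add_le (s.ps v.1) (s.pu v.1)
      rwa [hs.dom.sum] at this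
    have h2 := hps v
    have h3 := hpu v
    linarith
  have hNs0 : ∀ v : E d k, 0 ≤ (NT.comp Pi1) v := fun v => apply_nonneg _ v
  have hNw0 : ∀ v : E d k, 0 ≤ (NG.comp Pi2) v := fun v => apply_nonneg _ v
  refine ⟨NT.comp Pi1, NG.comp Pi2, α, β⁻¹ - K * κ * H, K * κ * H, κ,
    K * (‖s.ps‖ + ‖s.pu‖ + 1), ?_⟩
  have hvn1 : ∀ v : E d k, ‖v.1‖ ≤ ‖v‖ := fun v => norm_fst_le v
  have hvn2 : ∀ v : E d k, ‖v.2‖ ≤ ‖v‖ := fun v => norm_snd_le v
  exact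
  { ha := hα.le
    hη := by positivity
    hab := by linarith
    hc := hκ
    hC := by positivity
    low := fun v => by
      have h1 : κ * ‖v‖ = max (κ * ‖v.1‖) (κ * ‖v.2‖) := by
        rw [Prod.norm_def, mul_max_of_nonneg _ _ hκ.le]
      rw [h1]
      refine max_le ?_ ?_
      · have h2 := hv1 v
        have h3 := norm_nonneg v.1
        nlinarith
      · have h2 := h2w v
        have h3 := hNs0 v
        linarith
    ups := fun v => by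
      rw [hNs]
      refine (hNT2 _).trans ?_
      rw [hν]
      have h1 : max ‖s.ps v.1‖ (κ * ‖(0 : X k)‖) = ‖s.ps v.1‖ := by
        rw [norm_zero, mul_zero, max_eq_left (norm_nonneg _)]
      change K * max ‖s.ps v.1‖ (κ * ‖(0 : X k)‖) ≤ _
      rw [h1, mul_assoc]
      apply mul_le_mul_of_nonneg_left _ hK0.le
      have h2 := s.ps.le_opNorm v.1
      have h3 := mul_le_mul_of_nonneg_left (hvn1 v) (norm_nonneg s.ps)
      have h4 := norm_nonneg s.pu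
      have h5 := norm_nonneg v
      nlinarith
    upw := fun v => by
      rw [hNw]
      refine (hNG2 _).trans ?_
      rw [hν, mul_assoc]
      apply mul_le_mul_of_nonneg_left _ hK0.le
      have h4 := norm_nonneg s.pu
      have h4' := norm_nonneg s.ps
      have h5 := norm_nonneg v
      refine max_le ?_ ?_
      · change ‖s.pu v.1‖ ≤ _
        have h2 := s.pu.le_opNorm v.1
        have h3 := mul_le_mul_of_nonneg_left (hvn1 v) (norm_nonneg s.pu)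
        nlinarith
      · change κ * ‖v.2‖ ≤ _
        have h2 := hvn2 v
        have h3 : κ * ‖v.2‖ ≤ 1 * ‖v‖ := mul_le_mul hκ1 h2 (norm_nonneg _) zero_le_one
        nlinarith
    s0 := fun v hv => by
      rw [hNs, hv]
      exact map_zero NT
    w0 := fun x => by
      rw [hNw]
      change NG ((s.pu (s.ps x), 0) : E d k) = 0
      rw [hs.dom.us]
      exact map_zero NG
    fs := fun p v => by
      rw [Sk.fderiv_apply hs, hNs, hNs]
      change NT ((s.ps (s.A v.1), 0) : E d k) ≤ _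
      have h1 := hNT3 ((s.ps v.1, 0) : E d k)
      have h2 : T ((s.ps v.1, 0) : E d k) = ((s.ps (s.A v.1), 0) : E d k) := by
        rw [hT]
        change ((s.A (s.ps (s.ps v.1)), (0 : X k)) : E d k) = _
        rw [hs.dom.ss, hs.dom.comm]
      rw [h2] at h1
      exact h1
    fw := fun p v => by
      rw [Sk.fderiv_apply hs]
      have e1 : (NG.comp Pi2) ((s.A v.1, s.B v.2 + fderiv ℝ s.h p.1 v.1) : E d k) =
          NG ((s.A (s.pu v.1), s.B v.2 + fderiv ℝ s.h p.1 v.1) : E d k) := by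
        rw [hNw]
        change NG ((s.pu (s.A v.1), _) : E d k) = _
        rw [hs.dom.comm_u]
      rw [e1]
      have e2 : ((s.A (s.pu v.1), s.B v.2) : E d k) =
          ((s.A (s.pu v.1), s.B v.2 + fderiv ℝ s.h p.1 v.1) : E d k) +
            -((0, fderiv ℝ s.h p.1 v.1) : E d k) := by
        refine Prod.ext ?_ ?_
        · change s.A (s.pu v.1) = s.A (s.pu v.1) + -0
          rw [neg_zero, add_zero]
        · change s.B v.2 = s.B v.2 + fderiv ℝ s.h p.1 v.1 + -(fderiv ℝ s.h p.1 v.1)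
          abel
      have h1 := map_add_le_add NG
        ((s.A (s.pu v.1), s.B v.2 + fderiv ℝ s.h p.1 v.1) : E d k)
        (-((0, fderiv ℝ s.h p.1 v.1) : E d k))
      rw [← e2, map_neg_eq_map] at h1
      have h2 : NG ((0, fderiv ℝ s.h p.1 v.1) : E d k) ≤ K * (κ * (H * ‖v.1‖)) := by
        refine (hNG2 _).trans ?_
        rw [hν]
        change K * max ‖(0 : X d)‖ (κ * ‖fderiv ℝ s.h p.1 v.1‖) ≤ _
        rw [norm_zero, max_eq_right (by positivity)]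
        have h3 : ‖fderiv ℝ s.h p.1 v.1‖ ≤ H * ‖v.1‖ :=
          ((fderiv ℝ s.h p.1).le_opNorm v.1).trans
            (mul_le_mul_of_nonneg_right (hHb _) (norm_nonneg _))
        gcongr
      have h3 := hNG3 ((s.A (s.pu v.1), s.B v.2) : E d k)
      have e3 : G ((s.A (s.pu v.1), s.B v.2) : E d k) = ((s.pu v.1, v.2) : E d k) := by
        rw [hG]
        change ((s.A.symm (s.pu (s.A (s.pu v.1))), s.B.symm (s.B v.2)) : E d k) = _
        rw [hs.dom.comm_u, hs.dom.uu, s.A.symm_apply_apply, s.B.symm_apply_apply]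
      rw [e3, ← hNw v] at h3
      have h4 := hv1 v
      have h5 : (NG.comp Pi2) v ≤ β * (NG ((s.A (s.pu v.1),
          s.B v.2 + fderiv ℝ s.h p.1 v.1) : E d k) + K * (κ * (H * ‖v.1‖))) := by
        refine h3.trans (mul_le_mul_of_nonneg_left ?_ hβ.le)
        linarith
      have h6 : β⁻¹ * (NG.comp Pi2) v ≤ NG ((s.A (s.pu v.1),
          s.B v.2 + fderiv ℝ s.h p.1 v.1) : E d k) + K * (κ * (H * ‖v.1‖)) := by
        rw [inv_mul_le_iff₀ hβ]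
        exact h5
      have h7 : K * (κ * (H * ‖v.1‖)) ≤ K * κ * H * ((NT.comp Pi1) v + (NG.comp Pi2) v) := by
        calc K * (κ * (H * ‖v.1‖)) = K * κ * H * ‖v.1‖ := by ring
          _ ≤ _ := mul_le_mul_of_nonneg_left h4 (by positivity)
      nlinarith }

end Pool.Agent.H44.AC
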