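import Mathlib

/-!
# [H44 AC RATES] From a rate for the product to two rates

`u`, `w` submultiplicative and nonnegative, `u n * w n ≤ C r^n`, `r < 1`.  Choose `N ≥ 1` with `C r^N < 1`, so `u N * w N < 1`, and
`e > 0` so small that `U = max (u N) e`, `T = max (w N) e` satisfy `U T < 1`.  `α = U^(1/N)`, `β = T^(1/N)` (`Real.rpow`), so
`α^N = U`, `β^N = T`, `α β < 1` (`(αβ)^N = U T < 1`).  For `n = q N + j`, `j < N`: `u n ≤ (u N)^q * u j` (induction on `q`)
`≤ U^q * u j = α^n α^(-j) u j ≤ K α^n` with `K ≥ α^(-j) u j` for all `j < N` (a sum or a finite supremum); the same for `w`.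
(`q = 0`: `u j ≤ u j`; no assumption on `u 0` is needed.)
-/

set_option autoImplicit false

namespace Pool.Agent.H44.AC

private theorem rates_one (u : ℕ → ℝ) (hu : ∀ n, 0 ≤ u n)
    (hsu : ∀ m n, u (m + n) ≤ u m * u n) (N : ℕ) (hN : 1 ≤ N) (U α : ℝ) (hU : u N ≤ U)
    (hα : 0 < α) (hαN : α ^ N = U) : ∃ K : ℝ, 0 < K ∧ ∀ n, u n ≤ K * α ^ n := by
  have hU0 : 0 ≤ U := (hu N).trans hU
  have hq : ∀ q j : ℕ, u (q * N + j) ≤ U ^ q * u j := by
    intro q j
    induction q with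
    | zero => simp
    | succ q ih =>
      have e1 : (q + 1) * N + j = N + (q * N + j) := by ring
      rw [e1]
      calc u (N + (q * N + j)) ≤ u N * u (q * N + j) := hsu _ _
        _ ≤ U * (U ^ q * u j) := mul_le_mul hU ih (hu _) hU0
        _ = U ^ (q + 1) * u j := by rw [pow_succ]; ring
  have hS : ∀ j ∈ Finset.range N, 0 ≤ u j / α ^ j := fun j _ => div_nonneg (hu j) (by positivity)
  refine ⟨1 + ∑ j ∈ Finset.range N, u j / α ^ j, ?_, ?_⟩
  · have := Finset.sum_nonneg hS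
    linarith
  · intro n
    obtain ⟨q, j, hj, hn⟩ : ∃ q j : ℕ, j < N ∧ n = q * N + j :=
      ⟨n / N, n % N, Nat.mod_lt _ (by omega), by rw [mul_comm]; exact (Nat.div_add_mod n N).symm⟩
    have h1 : u j / α ^ j ≤ 1 + ∑ j ∈ Finset.range N, u j / α ^ j := by
      have := Finset.single_le_sum hS (Finset.mem_range.2 hj)
      linarith
    have h2 : u j ≤ (1 + ∑ j ∈ Finset.range N, u j / α ^ j) * α ^ j := by
      rwa [div_le_iff₀ (by positivity)] at h1
    rw [hn]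
    calc u (q * N + j) ≤ U ^ q * u j := hq q j
      _ ≤ U ^ q * ((1 + ∑ j ∈ Finset.range N, u j / α ^ j) * α ^ j) := by gcongr
      _ = (1 + ∑ j ∈ Finset.range N, u j / α ^ j) * α ^ (q * N + j) := by
          rw [← hαN, ← pow_mul, pow_add, mul_comm N q]
          ring

private theorem rates_root (N : ℕ) (hN : 1 ≤ N) (U : ℝ) (hU : 0 < U) :
    ∃ α : ℝ, 0 < α ∧ α ^ N = U := by
  refine ⟨U ^ ((1 : ℝ) / N), by positivity, ?_⟩
  rw [← Real.rpow_natCast, ← Real.rpow_mul hU.le]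
  have : (N : ℝ) ≠ 0 := by
    have : N ≠ 0 := by omega
    exact_mod_cast this
  rw [one_div, inv_mul_cancel₀ this, Real.rpow_one]

theorem two_rates (u w : ℕ → ℝ) (hu : ∀ n, 0 ≤ u n) (hw : ∀ n, 0 ≤ w n)
    (hsu : ∀ m n, u (m + n) ≤ u m * u n) (hsw : ∀ m n, w (m + n) ≤ w m * w n) (C r : ℝ)
    (hr : 0 < r) (hr1 : r < 1) (h : ∀ n, u n * w n ≤ C * r ^ n) :
    ∃ α β K : ℝ, 0 < α ∧ 0 < β ∧ α * β < 1 ∧ 0 < K ∧
      ∀ n, u n ≤ K * α ^ n ∧ w n ≤ K * β ^ n := by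
  obtain ⟨N, hN1, hN⟩ : ∃ N : ℕ, 1 ≤ N ∧ C * r ^ N < 1 := by
    have h1 : Filter.Tendsto (fun n : ℕ => C * r ^ n) Filter.atTop (nhds (C * 0)) :=
      (tendsto_pow_atTop_nhds_zero_of_lt_one hr.le hr1).const_mul C
    rw [mul_zero] at h1
    have h2 := h1.eventually (gt_mem_nhds (show (0 : ℝ) < 1 by norm_num))
    obtain ⟨N, h3, h4⟩ := ((Filter.eventually_ge_atTop 1).and h2).exists
    exact ⟨N, h3, h4⟩
  have hab : u N * w N < 1 := (h N).trans_lt hN
  have ha := hu N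
  have hb := hw N
  obtain ⟨e, he, he1, he2, he3⟩ : ∃ e : ℝ, 0 < e ∧ e ≤ 1 / 2 ∧ u N * e ≤ 1 / 2 ∧
      w N * e ≤ 1 / 2 := by
    refine ⟨1 / (2 * (u N + w N + 1)), by positivity, ?_, ?_, ?_⟩
    · rw [div_le_div_iff₀ (by positivity) (by norm_num)]
      linarith
    · rw [mul_one_div, div_le_div_iff₀ (by positivity) (by norm_num)]
      linarith
    · rw [mul_one_div, div_le_div_iff₀ (by positivity) (by norm_num)]
      linarith
  have hUT : max (u N) e * max (w N) e < 1 := by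
    rcases max_cases (u N) e with ⟨h1, -⟩ | ⟨h1, -⟩ <;>
      rcases max_cases (w N) e with ⟨h2, -⟩ | ⟨h2, -⟩ <;> rw [h1, h2]
    · exact hab
    · linarith
    · linarith
    · nlinarith
  have hU0 : 0 < max (u N) e := lt_max_of_lt_right he
  have hT0 : 0 < max (w N) e := lt_max_of_lt_right he
  obtain ⟨α, hα, hαN⟩ := rates_root N hN1 _ hU0
  obtain ⟨β, hβ, hβN⟩ := rates_root N hN1 _ hT0
  obtain ⟨K1, hK1, h1⟩ := rates_one u hu hsu N hN1 _ α (le_max_left _ _) hα hαN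
  obtain ⟨K2, hK2, h2⟩ := rates_one w hw hsw N hN1 _ β (le_max_left _ _) hβ hβN
  refine ⟨α, β, K1 + K2, hα, hβ, ?_, by positivity, fun n => ⟨?_, ?_⟩⟩
  · by_contra hcon
    push Not at hcon
    have h3 : 1 ≤ (α * β) ^ N := one_le_pow₀ hcon
    rw [mul_pow, hαN, hβN] at h3
    linarith
  · have h3 : 0 < α ^ n := by positivity
    have h4 := h1 n
    nlinarith
  · have h3 : 0 < β ^ n := by positivity
    have h4 := h2 n
    nlinarith

end Pool.Agent.H44.AC
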