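import Pool.Agent.H44.AC.Basic
import Pool.Agent.H44.AC.Rates

/-!
# [H44 AC ADAPTA] Two rates for an affine skew product

`two_rates` for `u n = ‖A^n ps‖`, `w n = max ‖A^(-n) pu‖ ‖B^(-n)‖` (submultiplicative because `ps`, `pu` are idempotent and commute with `A`: `A^(m+n) ps = (A^m ps)(A^n ps)`, and
`‖B^(-m-n)‖ ≤ ‖B^(-m)‖ ‖B^(-n)‖`), `u n w n ≤ (C + C²) r^n` by `Dom.est` (`r^(2n) ≤ r^n`).  This gives `α, β, K` with `α β < 1`; replace `K` by `max K 1`.
-/

set_option autoImplicit false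

namespace Pool.Agent.H44.AC

variable {d k : ℕ}

private theorem submul_aux {V : Type*} [NormedAddCommGroup V] [NormedSpace ℝ V] (T P : V →L[ℝ] V)
    (hP : P * P = P) (hc : P * T = T * P) (m n : ℕ) :
    ‖T ^ (m + n) * P‖ ≤ ‖T ^ m * P‖ * ‖T ^ n * P‖ := by
  have hc' : Commute P T := hc
  have h1 : P * T ^ n = T ^ n * P := (hc'.pow_right n).eq
  have h2 : T ^ (m + n) * P = (T ^ m * P) * (T ^ n * P) := by
    rw [mul_assoc, ← mul_assoc P, h1, mul_assoc (T ^ n), hP, ← mul_assoc, pow_add]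
  rw [h2]
  exact norm_mul_le _ _

theorem op_rates {A : X d ≃L[ℝ] X d} {B : X k ≃L[ℝ] X k} {ps pu : X d →L[ℝ] X d}
    (hD : Dom A B ps pu) : ∃ α β K : ℝ, 0 < α ∧ 0 < β ∧ α * β < 1 ∧ 1 ≤ K ∧ ∀ n : ℕ,
      ‖(A : X d →L[ℝ] X d) ^ n * ps‖ ≤ K * α ^ n ∧
      ‖(A.symm : X d →L[ℝ] X d) ^ n * pu‖ ≤ K * β ^ n ∧
      ‖(B.symm : X k →L[ℝ] X k) ^ n‖ ≤ K * β ^ n := by
  obtain ⟨C, r, hC, hr, hr1, hest⟩ := hD.est
  have hss : ps * ps = ps := by
    ext1 x
    exact hD.ss x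
  have huu : pu * pu = pu := by
    ext1 x
    exact hD.uu x
  have hsA : ps * (A : X d →L[ℝ] X d) = (A : X d →L[ℝ] X d) * ps := by
    ext1 x
    exact hD.comm x
  have huA : pu * (A.symm : X d →L[ℝ] X d) = (A.symm : X d →L[ℝ] X d) * pu := by
    ext1 x
    exact hD.inv.comm x
  obtain ⟨α, β, K, hα, hβ, hαβ, _, hK⟩ := two_rates
    (fun n => ‖(A : X d →L[ℝ] X d) ^ n * ps‖)
    (fun n => max ‖(A.symm : X d →L[ℝ] X d) ^ n * pu‖ ‖(B.symm : X k →L[ℝ] X k) ^ n‖)
    (fun n => norm_nonneg _) (fun n => le_max_of_le_left (norm_nonneg _))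
    (fun m n => submul_aux _ _ hss hsA m n)
    (fun m n => by
      have h1 := submul_aux _ _ huu huA m n
      have h2 : ‖(B.symm : X k →L[ℝ] X k) ^ (m + n)‖ ≤
          ‖(B.symm : X k →L[ℝ] X k) ^ m‖ * ‖(B.symm : X k →L[ℝ] X k) ^ n‖ := by
        rw [pow_add]
        exact norm_mul_le _ _
      refine max_le (h1.trans ?_) (h2.trans ?_)
      · exact mul_le_mul (le_max_left _ _) (le_max_left _ _) (norm_nonneg _)
          (le_max_of_le_left (norm_nonneg _))
      · exact mul_le_mul (le_max_right _ _) (le_max_right _ _) (norm_nonneg _)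
          (le_max_of_le_left (norm_nonneg _)))
    (C + C * C) r hr hr1
    (fun n => by
      obtain ⟨h1, h2, h3, _⟩ := hest n
      have hrn : 0 < r ^ n := pow_pos hr n
      have hrn1 : r ^ n ≤ 1 := pow_le_one₀ hr.le hr1.le
      have h4 : C * r ^ n * (C * r ^ n) ≤ C * C * r ^ n := by
        have : C * r ^ n * (C * r ^ n) = C * C * r ^ n * r ^ n := by ring
        rw [this]
        exact mul_le_of_le_one_right (by positivity) hrn1
      have h5 : 0 ≤ C * r ^ n := by positivity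
      have h6 : 0 ≤ C * C * r ^ n := by positivity
      rcases max_cases ‖(A.symm : X d →L[ℝ] X d) ^ n * pu‖ ‖(B.symm : X k →L[ℝ] X k) ^ n‖ with
        ⟨h, _⟩ | ⟨h, _⟩
      · simp only [h]
        have h7 := mul_le_mul h1 h2 (norm_nonneg _) h5
        linarith
      · simp only [h]
        linarith)
  refine ⟨α, β, max K 1, hα, hβ, hαβ, le_max_right _ _, fun n => ?_⟩
  obtain ⟨h1, h2⟩ := hK n
  have hα' : K * α ^ n ≤ max K 1 * α ^ n :=
    mul_le_mul_of_nonneg_right (le_max_left _ _) (pow_nonneg hα.le n)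
  have hβ' : K * β ^ n ≤ max K 1 * β ^ n :=
    mul_le_mul_of_nonneg_right (le_max_left _ _) (pow_nonneg hβ.le n)
  exact ⟨h1.trans hα', ((le_max_left _ _).trans h2).trans hβ',
    ((le_max_right _ _).trans h2).trans hβ'⟩

end Pool.Agent.H44.AC
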