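import Pool.Agent.H44.AC.Sk

/-!
# [H44 AC BASIC] Basic facts (proved)
-/

set_option autoImplicit false

namespace Pool.Agent.H44.AC

variable {d k : ℕ}

/-! ### integral vectors -/

theorem Int1.zero : Int1 (0 : X d) := fun _ => ⟨0, by simp⟩

theorem Int1.add {m n : X d} (hm : Int1 m) (hn : Int1 n) : Int1 (m + n) := fun i => by
  obtain ⟨a, ha⟩ := hm i
  obtain ⟨b, hb⟩ := hn i
  exact ⟨a + b, by rw [Pi.add_apply, ha, hb]; push_cast; rfl⟩

theorem Int1.neg {m : X d} (hm : Int1 m) : Int1 (-m) := fun i => by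
  obtain ⟨a, ha⟩ := hm i
  exact ⟨-a, by rw [Pi.neg_apply, ha]; push_cast; rfl⟩

theorem Int1.sub {m n : X d} (hm : Int1 m) (hn : Int1 n) : Int1 (m - n) := by
  rw [sub_eq_add_neg]; exact hm.add hn.neg

theorem Int2.zero : Int2 (0 : E d k) := ⟨Int1.zero, Int1.zero⟩

theorem Int2.add {m n : E d k} (hm : Int2 m) (hn : Int2 n) : Int2 (m + n) :=
  ⟨hm.1.add hn.1, hm.2.add hn.2⟩

theorem Int2.neg {m : E d k} (hm : Int2 m) : Int2 (-m) := ⟨hm.1.neg, hm.2.neg⟩

theorem Int2.sub {m n : E d k} (hm : Int2 m) (hn : Int2 n) : Int2 (m - n) :=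
  ⟨hm.1.sub hn.1, hm.2.sub hn.2⟩

/-- every vector is an integral vector plus a vector of norm at most `1` -/
theorem exists_int2 (v : E d k) : ∃ z : E d k, Int2 z ∧ ‖v - z‖ ≤ 1 := by
  refine ⟨(fun i => (⌊v.1 i⌋ : ℝ), fun i => (⌊v.2 i⌋ : ℝ)), ⟨fun i => ⟨_, rfl⟩, fun i => ⟨_, rfl⟩⟩, ?_⟩
  have key : ∀ t : ℝ, ‖t - ⌊t⌋‖ ≤ 1 := by
    intro t
    rw [Real.norm_eq_abs, abs_le]
    constructor
    · linarith [Int.floor_le t]
    · linarith [Int.lt_floor_add_one t]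
  rw [Prod.norm_def]
  refine max_le ?_ ?_
  · exact (pi_norm_le_iff_of_nonneg zero_le_one).2 fun i => key _
  · exact (pi_norm_le_iff_of_nonneg zero_le_one).2 fun i => key _

/-! ### diffeomorphisms -/

theorem Dif.inv {f : Equiv.Perm (E d k)} (hf : Dif f) : Dif f⁻¹ :=
  ⟨hf.c1', by rw [inv_inv]; exact hf.c1, hf.per', by rw [inv_inv]; exact hf.per⟩

/-! ### skew products -/

theorem Dom.uu {A : X d ≃L[ℝ] X d} {B : X k ≃L[ℝ] X k} {ps pu : X d →L[ℝ] X d} (h : Dom A B ps pu)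
    (x : X d) : pu (pu x) = pu x := by
  have h1 : ∀ y, pu y = y - ps y := fun y => by rw [eq_sub_iff_add_eq, add_comm]; exact h.sum y
  rw [h1 (pu x), h1 x, map_sub, h.ss]; simp

theorem Dom.su {A : X d ≃L[ℝ] X d} {B : X k ≃L[ℝ] X k} {ps pu : X d →L[ℝ] X d} (h : Dom A B ps pu)
    (x : X d) : ps (pu x) = 0 := by
  have h1 : ps (ps x + pu x) = ps x := by rw [h.sum]
  rw [map_add, h.ss] at h1
  simpa using h1

theorem Dom.us {A : X d ≃L[ℝ] X d} {B : X k ≃L[ℝ] X k} {ps pu : X d →L[ℝ] X d} (h : Dom A B ps pu)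
    (x : X d) : pu (ps x) = 0 := by
  have h1 := h.sum (ps x)
  rw [h.ss] at h1
  simpa using h1

theorem Dom.comm_u {A : X d ≃L[ℝ] X d} {B : X k ≃L[ℝ] X k} {ps pu : X d →L[ℝ] X d}
    (h : Dom A B ps pu) (x : X d) : pu (A x) = A (pu x) := by
  have h1 := h.sum (A x)
  rw [h.comm] at h1
  have h2 : A (ps x) + A (pu x) = A x := by rw [← map_add, h.sum]
  exact add_left_cancel (h1.trans h2.symm)

theorem Dom.inv {A : X d ≃L[ℝ] X d} {B : X k ≃L[ℝ] X k} {ps pu : X d →L[ℝ] X d}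
    (h : Dom A B ps pu) : Dom A.symm B.symm pu ps where
  intA n := by rw [← h.intA (A.symm n)]; simp
  intB n := by rw [← h.intB (B.symm n)]; simp
  sum x := by rw [add_comm]; exact h.sum x
  ss := h.uu
  comm x := by
    apply A.injective
    rw [← h.comm_u]; simp
  nonzero_s := h.nonzero_u
  nonzero_u := h.nonzero_s
  est := by
    obtain ⟨C, r, hC, hr, hr1, hest⟩ := h.est
    refine ⟨C, r, hC, hr, hr1, fun n => ?_⟩
    obtain ⟨h1, h2, h3, h4⟩ := hest n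
    exact ⟨h2, h1, h4, h3⟩

namespace Sk

theorem Ok.inv {s : Sk d k} (hs : s.Ok) : s.inv.Ok where
  dom := hs.dom.inv
  c1 := by
    have h1 : ContDiff ℝ 1 fun x => s.h (s.A.symm x) := hs.c1.comp s.A.symm.contDiff
    exact (s.B.symm.contDiff.comp h1).neg
  per x n hn := by
    have h1 : Int1 (s.A.symm n) := (hs.dom.inv.intA n).2 hn
    have h2 := hs.per (s.A.symm x) _ h1
    have h3 : Int1 (s.B.symm (s.h (s.A.symm x + s.A.symm n) - s.h (s.A.symm x))) :=
      (hs.dom.inv.intB _).2 h2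
    have h4 : s.inv.h (x + n) - s.inv.h x = -s.B.symm (s.h (s.A.symm x + s.A.symm n) - s.h (s.A.symm x)) := by
      show -s.B.symm (s.h (s.A.symm (x + n))) - -s.B.symm (s.h (s.A.symm x)) = _
      rw [map_add, map_sub]
      abel
    rw [h4]
    exact h3.neg

theorem inv_inv (s : Sk d k) : s.inv.inv = s := by
  obtain ⟨A, B, ps, pu, h⟩ := s
  simp [inv]

theorem inv_f (s : Sk d k) : s.inv.f = s.f⁻¹ := by
  ext1 v
  show (s.A.symm v.1, s.B.symm v.2 + -s.B.symm (s.h (s.A.symm v.1))) =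
    (s.A.symm v.1, s.B.symm (v.2 - s.h (s.A.symm v.1)))
  rw [map_sub, sub_eq_add_neg]

theorem f_apply (s : Sk d k) (v : E d k) : s.f v = (s.A v.1, s.B v.2 + s.h v.1) := rfl

/-- the derivative of the skew product -/
theorem hasFDerivAt {s : Sk d k} (hs : s.Ok) (v : E d k) :
    HasFDerivAt s.f (((s.A : X d →L[ℝ] X d).comp (ContinuousLinearMap.fst ℝ (X d) (X k))).prod
      ((s.B : X k →L[ℝ] X k).comp (ContinuousLinearMap.snd ℝ (X d) (X k)) +
        (fderiv ℝ s.h v.1).comp (ContinuousLinearMap.fst ℝ (X d) (X k)))) v := by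
  have h1 : HasFDerivAt (fun v : E d k => s.A v.1)
      ((s.A : X d →L[ℝ] X d).comp (ContinuousLinearMap.fst ℝ (X d) (X k))) v :=
    ((s.A : X d →L[ℝ] X d).comp (ContinuousLinearMap.fst ℝ (X d) (X k))).hasFDerivAt
  have h2 : HasFDerivAt (fun v : E d k => s.B v.2)
      ((s.B : X k →L[ℝ] X k).comp (ContinuousLinearMap.snd ℝ (X d) (X k))) v :=
    ((s.B : X k →L[ℝ] X k).comp (ContinuousLinearMap.snd ℝ (X d) (X k))).hasFDerivAt
  have h3 : HasFDerivAt (fun v : E d k => s.h v.1)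
      ((fderiv ℝ s.h v.1).comp (ContinuousLinearMap.fst ℝ (X d) (X k))) v :=
    ((hs.c1.differentiable one_ne_zero v.1).hasFDerivAt).comp v (hasFDerivAt_fst)
  exact h1.prodMk (h2.add h3)

theorem fderiv_apply {s : Sk d k} (hs : s.Ok) (v w : E d k) :
    fderiv ℝ s.f v w = (s.A w.1, s.B w.2 + fderiv ℝ s.h v.1 w.1) := by
  rw [(hasFDerivAt hs v).fderiv]
  rfl

theorem Ok.dif {s : Sk d k} (hs : s.Ok) : Dif s.f := by
  have key : ∀ s : Sk d k, s.Ok → ContDiff ℝ 1 s.f ∧ ∀ v z, Int2 z → Int2 (s.f (v + z) - s.f v) := by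
    intro s hs
    constructor
    · have h1 : ContDiff ℝ 1 fun v : E d k => s.A v.1 := s.A.contDiff.comp contDiff_fst
      have h2 : ContDiff ℝ 1 fun v : E d k => s.B v.2 := s.B.contDiff.comp contDiff_snd
      have h3 : ContDiff ℝ 1 fun v : E d k => s.h v.1 := hs.c1.comp contDiff_fst
      exact h1.prodMk (h2.add h3)
    · intro v z hz
      have e : s.f (v + z) - s.f v = (s.A z.1, s.B z.2 + (s.h (v.1 + z.1) - s.h v.1)) := by
        rw [f_apply, f_apply]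
        ext i
        · simp
        · simp; ring
      rw [e]
      exact ⟨(hs.dom.intA _).2 hz.1, ((hs.dom.intB _).2 hz.2).add (hs.per _ _ hz.1)⟩
  obtain ⟨h1, h2⟩ := key s hs
  obtain ⟨h3, h4⟩ := key s.inv hs.inv
  rw [inv_f] at h3 h4
  exact ⟨h1, h3, h2, h4⟩

end Sk

end Pool.Agent.H44.AC
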