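import Pool.Agent.H44.AC.BpiB

/-!
# [H44 AC BPI] A bounded continuous perturbation of the identity is onto

For `U n`: `F x = x + h x`, `‖h x‖ ≤ m`, `m ≥ 0`.  It is enough that `0` is in the image (for the point `q` take `h - q`).  Suppose not.  On the closed ball of radius `m + 2`
`‖F x‖ ≥ κ`, `0 < κ ≤ 1`.  There is a `C^1` (even smooth) function `f` with `‖f x - h x‖ < κ / 2` on this ball (for example convolution with a `ContDiffBump`:
`ContDiffBump.convolution`, or Stone-Weierstrass for the components: polynomials in the coordinates; or `Mathlib`'s smooth approximation: search `exists_contDiff`, `exists_smooth_forall_mem_convex_of_local`).  Let `χ` be a smooth function with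
values in `[0, 1]`, `χ = 1` for `‖x‖ ≤ m + 1`, `χ = 0` for `‖x‖ ≥ m + 2` (`ContDiffBump`).  `g = χ • f`, `bpi_c1` with `R = m + 2`: there is `x` with `x + χ(x) f(x) = 0`.
If `‖x‖ ≤ m + 1` then `‖x + f x‖ ≥ κ - κ/2 > 0`, contradiction; if `m + 1 < ‖x‖ < m + 2` then `‖χ f‖ ≤ m + κ/2 < ‖x‖`; if `‖x‖ ≥ m + 2` then `x = 0`, contradiction.
General `V`: transport by a continuous linear equivalence `V ≃L U n` (`toEuclidean`), the transported `h` is bounded.
-/

set_option autoImplicit false

namespace Pool.Agent.H44.AC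

theorem bpi_euclidean {n : ℕ} (h : U n → U n) (hc : Continuous h) (m : ℝ) (hm : ∀ x, ‖h x‖ ≤ m) :
    Function.Surjective fun x => x + h x := by
  intro q
  suffices hs : ∃ x, x + (h x - q) = 0 by
    obtain ⟨x, hx⟩ := hs
    refine ⟨x, ?_⟩
    show x + h x = q
    rw [← add_sub_assoc] at hx
    exact sub_eq_zero.mp hx
  by_contra hne
  push Not at hne
  obtain ⟨M, hM⟩ : ∃ M, M = m + ‖q‖ := ⟨_, rfl⟩
  have hm0 : 0 ≤ m := le_trans (norm_nonneg _) (hm 0)
  have hM0 : 0 ≤ M := by
    rw [hM]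
    exact add_nonneg hm0 (norm_nonneg _)
  have hbd : ∀ x, ‖h x - q‖ ≤ M := by
    intro x
    rw [hM]
    exact (norm_sub_le _ _).trans (add_le_add (hm x) le_rfl)
  have hc' : Continuous fun x => h x - q := hc.sub continuous_const
  have hK : IsCompact (Metric.closedBall (0 : U n) (M + 2)) := isCompact_closedBall _ _
  have hKne : (Metric.closedBall (0 : U n) (M + 2)).Nonempty :=
    ⟨0, by simp only [Metric.mem_closedBall, dist_self]; linarith⟩
  have hFc : Continuous fun x : U n => ‖x + (h x - q)‖ := (continuous_id.add hc').norm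
  obtain ⟨x1, hx1, hmin⟩ := hK.exists_isMinOn hKne hFc.continuousOn
  obtain ⟨κ, hκ⟩ : ∃ κ, κ = min ‖x1 + (h x1 - q)‖ 1 := ⟨_, rfl⟩
  have hκ0 : 0 < κ := by
    rw [hκ]
    exact lt_min (norm_pos_iff.mpr (hne x1)) one_pos
  have hκ1 : κ ≤ 1 := by
    rw [hκ]
    exact min_le_right _ _
  have hκK : ∀ x ∈ Metric.closedBall (0 : U n) (M + 2), κ ≤ ‖x + (h x - q)‖ := by
    intro x hx
    rw [hκ]
    exact (min_le_left _ _).trans (hmin hx)
  obtain ⟨f, hf, happ, -⟩ := hc'.exists_contDiff_approx 1 (ε := fun _ => κ / 2)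
    continuous_const (fun _ => by linarith)
  obtain ⟨χ, hχ⟩ : ∃ χ : ContDiffBump (0 : U n), χ = ⟨M + 1, M + 2, by linarith, by linarith⟩ :=
    ⟨_, rfl⟩
  have hχin : χ.rIn = M + 1 := by rw [hχ]
  have hχout : χ.rOut = M + 2 := by rw [hχ]
  have hg : ContDiff ℝ 1 fun x => χ x • f x := χ.contDiff.smul hf
  have h0 : ∀ x : U n, M + 2 ≤ ‖x‖ → χ x • f x = 0 := by
    intro x hx
    rw [χ.zero_of_le_dist (by rw [hχout, dist_zero_right]; exact hx), zero_smul]
  obtain ⟨x, hx⟩ := bpi_c1 (fun x => χ x • f x) hg (M + 2) (by linarith) h0 0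
  have hx' : x + χ x • f x = 0 := hx
  have hfx : ‖f x - (h x - q)‖ < κ / 2 := by
    have := happ x
    rwa [dist_eq_norm] at this
  by_cases hxM : ‖x‖ ≤ M + 1
  · have h1 : χ x = 1 := χ.one_of_mem_closedBall (by rw [hχin]; simpa using hxM)
    rw [h1, one_smul] at hx'
    have h2 : x + (h x - q) = (x + f x) - (f x - (h x - q)) := by abel
    have h3 := hκK x (by simp only [Metric.mem_closedBall, dist_zero_right]; linarith)
    rw [h2, hx', zero_sub, norm_neg] at h3
    linarith
  · push Not at hxM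
    have h1 : ‖x‖ ≤ ‖f x‖ := by
      have h2 : x = -(χ x • f x) := eq_neg_of_add_eq_zero_left hx'
      calc ‖x‖ = ‖χ x • f x‖ := by
            conv_lhs => rw [h2]
            rw [norm_neg]
        _ = |χ x| * ‖f x‖ := by rw [norm_smul, Real.norm_eq_abs]
        _ ≤ 1 * ‖f x‖ := by
            refine mul_le_mul_of_nonneg_right ?_ (norm_nonneg _)
            rw [abs_of_nonneg χ.nonneg]
            exact χ.le_one
        _ = ‖f x‖ := one_mul _
    have h3 : ‖f x‖ ≤ ‖f x - (h x - q)‖ + ‖h x - q‖ := by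
      calc ‖f x‖ = ‖(f x - (h x - q)) + (h x - q)‖ := by rw [sub_add_cancel]
        _ ≤ _ := norm_add_le _ _
    have h4 := hbd x
    linarith

theorem bpi {V : Type*} [NormedAddCommGroup V] [NormedSpace ℝ V] [FiniteDimensional ℝ V]
    (h : V → V) (hc : Continuous h) (m : ℝ) (hm : ∀ x, ‖h x‖ ≤ m) :
    Function.Surjective fun x => x + h x := by
  obtain ⟨E, -⟩ : ∃ E : V ≃L[ℝ] EuclideanSpace ℝ (Fin (Module.finrank ℝ V)), E = toEuclidean :=
    ⟨_, rfl⟩
  have hsur := bpi_euclidean (fun x : U (Module.finrank ℝ V) => E (h (E.symm x)))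
    (E.continuous.comp (hc.comp E.symm.continuous))
    (‖(E : V →L[ℝ] EuclideanSpace ℝ (Fin (Module.finrank ℝ V)))‖ * m) (fun x => by
      have h1 := (E : V →L[ℝ] EuclideanSpace ℝ (Fin (Module.finrank ℝ V))).le_opNorm
        (h (E.symm x))
      exact h1.trans (mul_le_mul_of_nonneg_left (hm _) (norm_nonneg _)))
  intro y
  obtain ⟨x, hx⟩ := hsur (E y)
  have hx' : x + E (h (E.symm x)) = E y := hx
  refine ⟨E.symm x, ?_⟩
  show E.symm x + h (E.symm x) = y
  apply E.injective
  rw [map_add, E.apply_symm_apply]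
  exact hx'

end Pool.Agent.H44.AC
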