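import Mathlib

/-!
# [H44 AC BPIA] Change of variables for `x + t g x`, `t` small

`g` is `C^1` and vanishes for `‖x‖ ≥ R`, so `D g` is bounded (it vanishes for `‖x‖ > R` and is continuous) and `g` is `L`-Lipschitz (`L > 0`).  `τ = 1 / (2 L)` (and `L ≥ 1`).
For `|t| < τ`: `φ x = x + t g x` is injective (`‖t g x - t g y‖ ≤ ‖x - y‖ / 2`), surjective (`y - t g x` is a contraction in `x`: `ContractingWith.exists_fixedPoint`, or
`LipschitzWith`/`AntilipschitzWith` results on perturbations of the identity), and it is the identity outside the ball, so it maps the ball onto the ball.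
`det (1 + t D g x) > 0`: for `s ∈ [0, t]` the operator `1 + s D g x` is injective (`‖s D g x v‖ ≤ ‖v‖ / 2`), so its determinant is not `0`, it is continuous in `s` and `1` for `s = 0`
(intermediate value theorem).  `MeasureTheory.integral_image_eq_integral_abs_det_fderiv_smul`.
-/

set_option autoImplicit false

open MeasureTheory

namespace Pool.Agent.H44.AC

/-- the Euclidean space -/
abbrev U (n : ℕ) : Type := EuclideanSpace ℝ (Fin n)

/-- the derivative is bounded -/
theorem fd_bound {n : ℕ} (g : U n → U n) (hg : ContDiff ℝ 1 g) (R : ℝ)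
    (h0 : ∀ x, R ≤ ‖x‖ → g x = 0) : ∃ L : NNReal, 0 < L ∧ ∀ x, ‖fderiv ℝ g x‖₊ ≤ L := by
  have hc : Continuous (fderiv ℝ g) := hg.continuous_fderiv (by norm_num)
  have hK : IsCompact (Metric.closedBall (0 : U n) R) := isCompact_closedBall _ _
  obtain ⟨C, hC⟩ := hK.exists_bound_of_continuousOn hc.continuousOn
  refine ⟨Real.toNNReal C + 1, by positivity, fun x => ?_⟩
  by_cases hx : ‖x‖ ≤ R
  · have h1 := hC x (by simpa using hx)
    have h2 : ‖fderiv ℝ g x‖₊ ≤ Real.toNNReal C := by
      rw [← NNReal.coe_le_coe, coe_nnnorm]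
      exact h1.trans (Real.le_coe_toNNReal C)
    exact h2.trans (le_add_of_nonneg_right zero_le_one)
  · push Not at hx
    have h2 : g =ᶠ[nhds x] fun _ => (0 : U n) := by
      have h3 : {y : U n | R < ‖y‖} ∈ nhds x :=
        (isOpen_lt continuous_const continuous_norm).mem_nhds hx
      filter_upwards [h3] with y hy
      exact h0 y (le_of_lt hy)
    rw [h2.fderiv_eq]
    simp

/-- the determinant of a small perturbation of the identity is positive -/
theorem det_pos_small {n : ℕ} (A : U n →L[ℝ] U n) (t : ℝ) (h : |t| * ‖A‖ ≤ 1 / 2) :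
    0 < (ContinuousLinearMap.id ℝ (U n) + t • A).det := by
  have hne : ∀ s : ℝ, s ∈ Set.Icc (0 : ℝ) 1 →
      (ContinuousLinearMap.id ℝ (U n) + (s * t) • A).det ≠ 0 := by
    intro s hs hdet
    have h1 : LinearMap.det ((ContinuousLinearMap.id ℝ (U n) + (s * t) • A : U n →L[ℝ] U n) :
        U n →ₗ[ℝ] U n) = 0 := hdet
    have h2 := LinearMap.bot_lt_ker_of_det_eq_zero h1
    obtain ⟨v, hv, hv0⟩ := (Submodule.ne_bot_iff _).mp (ne_of_gt h2)
    have h3 : v + (s * t) • A v = 0 := by
      have := LinearMap.mem_ker.mp hv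
      simpa using this
    have h4 : ‖v‖ ≤ 1 / 2 * ‖v‖ := by
      have h5 : v = -((s * t) • A v) := eq_neg_of_add_eq_zero_left h3
      calc ‖v‖ = ‖(s * t) • A v‖ := by
            conv_lhs => rw [h5]
            rw [norm_neg]
        _ = |s * t| * ‖A v‖ := by rw [norm_smul, Real.norm_eq_abs]
        _ ≤ |t| * (‖A‖ * ‖v‖) := by
            have h6 : |s * t| ≤ |t| := by
              rw [abs_mul, abs_of_nonneg hs.1]
              exact mul_le_of_le_one_left (abs_nonneg t) hs.2
            exact mul_le_mul h6 (A.le_opNorm v) (norm_nonneg _) (abs_nonneg t)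
        _ = (|t| * ‖A‖) * ‖v‖ := by ring
        _ ≤ 1 / 2 * ‖v‖ := mul_le_mul_of_nonneg_right h (norm_nonneg v)
    have h7 : 0 < ‖v‖ := norm_pos_iff.mpr hv0
    linarith
  by_contra hneg
  push Not at hneg
  have hcont : Continuous fun s : ℝ => (ContinuousLinearMap.id ℝ (U n) + (s * t) • A).det := by
    refine ContinuousLinearMap.continuous_det.comp ?_
    exact continuous_const.add ((continuous_id.mul continuous_const).smul continuous_const)
  have h0 : (ContinuousLinearMap.id ℝ (U n) + ((0 : ℝ) * t) • A).det = 1 := by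
    have hz : ContinuousLinearMap.id ℝ (U n) + ((0 : ℝ) * t) • A
        = ContinuousLinearMap.id ℝ (U n) := by
      ext v
      simp
    rw [hz]
    exact LinearMap.det_id
  have h1 : (ContinuousLinearMap.id ℝ (U n) + ((1 : ℝ) * t) • A).det ≤ 0 := by
    rw [one_mul]
    exact hneg
  have hivt := intermediate_value_Icc' (zero_le_one' ℝ) hcont.continuousOn
  have hmem : (0 : ℝ) ∈ Set.Icc ((ContinuousLinearMap.id ℝ (U n) + ((1 : ℝ) * t) • A).det)
      ((ContinuousLinearMap.id ℝ (U n) + ((0 : ℝ) * t) • A).det) :=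
    ⟨h1, by rw [h0]; exact zero_le_one⟩
  obtain ⟨s, hs, hs0⟩ := hivt hmem
  exact hne s hs hs0

theorem bpi_small {n : ℕ} (g : U n → U n) (hg : ContDiff ℝ 1 g) (R : ℝ) (hR : 0 < R)
    (h0 : ∀ x, R ≤ ‖x‖ → g x = 0) (u : U n → ℝ) (hu : Continuous u) :
    ∃ τ : ℝ, 0 < τ ∧ ∀ t : ℝ, |t| < τ →
      ∫ x in Metric.ball (0 : U n) R,
        u (x + t • g x) * (ContinuousLinearMap.id ℝ (U n) + t • fderiv ℝ g x).det =
      ∫ x in Metric.ball (0 : U n) R, u x := by
  obtain ⟨L, hL0, hL⟩ := fd_bound g hg R h0
  have hL0' : (0 : ℝ) < L := by exact_mod_cast hL0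
  have hdiff : Differentiable ℝ g := hg.differentiable (by norm_num)
  have hlip : LipschitzWith L g := lipschitzWith_of_nnnorm_fderiv_le hdiff hL
  refine ⟨1 / (2 * L), by positivity, fun t ht => ?_⟩
  have htL : |t| * L ≤ 1 / 2 := by
    have h1 := (lt_div_iff₀ (by positivity : (0 : ℝ) < 2 * L)).mp ht
    linarith
  have hdist : ∀ x y : U n, ‖t • g x - t • g y‖ ≤ 1 / 2 * ‖x - y‖ := by
    intro x y
    rw [← smul_sub, norm_smul, Real.norm_eq_abs]
    have h1 : ‖g x - g y‖ ≤ L * ‖x - y‖ := by
      have := hlip.dist_le_mul x y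
      rwa [dist_eq_norm, dist_eq_norm] at this
    calc |t| * ‖g x - g y‖ ≤ |t| * (L * ‖x - y‖) :=
          mul_le_mul_of_nonneg_left h1 (abs_nonneg t)
      _ = (|t| * L) * ‖x - y‖ := by ring
      _ ≤ 1 / 2 * ‖x - y‖ := mul_le_mul_of_nonneg_right htL (norm_nonneg _)
  have hinj : Function.Injective fun x : U n => x + t • g x := by
    intro x y hxy
    have h1 : x - y = -(t • g x - t • g y) := by
      have h2 : x + t • g x = y + t • g y := hxy
      have h3 : x - y = t • g y - t • g x := by
        rw [sub_eq_sub_iff_add_eq_add, h2, add_comm]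
      rw [h3, neg_sub]
    have h4 : ‖x - y‖ ≤ 1 / 2 * ‖x - y‖ := by
      calc ‖x - y‖ = ‖t • g x - t • g y‖ := by rw [h1, norm_neg]
        _ ≤ 1 / 2 * ‖x - y‖ := hdist x y
    have h5 : ‖x - y‖ = 0 := by
      have := norm_nonneg (x - y)
      linarith
    exact sub_eq_zero.mp (norm_eq_zero.mp h5)
  have himg : (fun x : U n => x + t • g x) '' Metric.ball (0 : U n) R
      = Metric.ball (0 : U n) R := by
    apply Set.Subset.antisymm
    · rintro _ ⟨x, hx, rfl⟩
      by_contra hy
      have hx' : ‖x‖ < R := by simpa using hx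
      have hy' : R ≤ ‖x + t • g x‖ := by simpa using hy
      have h1 : g (x + t • g x) = 0 := h0 _ hy'
      have h2 : (fun x : U n => x + t • g x) (x + t • g x) = (fun x : U n => x + t • g x) x := by
        simp only [h1, smul_zero, add_zero]
      have h3 := hinj h2
      rw [h3] at hy'
      exact absurd hx' (not_lt.mpr hy')
    · intro y hy
      have hcon : ContractingWith (1 / 2 : NNReal) fun x : U n => y - t • g x := by
        refine ⟨?_, ?_⟩
        · rw [← NNReal.coe_lt_coe]
          norm_num
        · refine LipschitzWith.of_dist_le_mul fun a b => ?_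
          rw [dist_eq_norm, dist_eq_norm]
          have h1 : y - t • g a - (y - t • g b) = -(t • g a - t • g b) := by abel
          rw [h1, norm_neg]
          have h2 := hdist a b
          simpa using h2
      have hfix := hcon.fixedPoint_isFixedPt
      obtain ⟨x, hx⟩ : ∃ x, x = ContractingWith.fixedPoint (fun x : U n => y - t • g x) hcon :=
        ⟨_, rfl⟩
      rw [← hx] at hfix
      have hfx : y - t • g x = x := hfix
      have hxy : x + t • g x = y := by
        rw [← hfx]
        have h3 : y - t • g x + t • g (y - t • g x) = y := by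
          rw [hfx]
          rw [← hfx]
          rw [hfx]
          calc x + t • g x = (y - t • g x) + t • g x := by rw [hfx]
            _ = y := by abel
        exact h3
      refine ⟨x, ?_, hxy⟩
      by_contra hxR
      have hxR' : R ≤ ‖x‖ := by simpa using hxR
      rw [h0 x hxR', smul_zero, add_zero] at hxy
      rw [hxy] at hxR'
      have hy' : ‖y‖ < R := by simpa using hy
      linarith
  have hfd : ∀ x ∈ Metric.ball (0 : U n) R, HasFDerivWithinAt (fun x : U n => x + t • g x)
      (ContinuousLinearMap.id ℝ (U n) + t • fderiv ℝ g x) (Metric.ball (0 : U n) R) x := by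
    intro x _
    exact ((hasFDerivAt_id x).add ((hdiff x).hasFDerivAt.const_smul t)).hasFDerivWithinAt
  have hmain := integral_image_eq_integral_abs_det_fderiv_smul (volume : Measure (U n))
    (measurableSet_ball : MeasurableSet (Metric.ball (0 : U n) R)) hfd hinj.injOn u
  rw [himg] at hmain
  rw [hmain]
  refine integral_congr_ae (Filter.Eventually.of_forall fun x => ?_)
  have hA : |t| * ‖fderiv ℝ g x‖ ≤ 1 / 2 := by
    have h1 : ‖fderiv ℝ g x‖ ≤ L := by
      have := hL x
      exact_mod_cast this
    exact (mul_le_mul_of_nonneg_left h1 (abs_nonneg t)).trans htL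
  have hpos := det_pos_small (fderiv ℝ g x) t hA
  show u (x + t • g x) * (ContinuousLinearMap.id ℝ (U n) + t • fderiv ℝ g x).det
    = |(ContinuousLinearMap.id ℝ (U n) + t • fderiv ℝ g x).det| • u (x + t • g x)
  rw [abs_of_pos hpos, smul_eq_mul, mul_comm]

end Pool.Agent.H44.AC
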