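import Pool.Agent.H44.AC.BpiP

/-!
# [H44 AC BPIB] `x + g x` is onto if `g` is `C^1` with compact support

`bpi_small` and `bpi_polyn`: the polynomial takes the value `∫ (1 - c ‖x - q‖²)^N` for all small `t`, so for all `t` (`Polynomial.eq_of_infinite_eval_eq`), in particular for
`t = 1`: `∫_ball (1 - c ‖x + g x - q‖²)^N det (1 + D g x) = ∫_ball (1 - c ‖x - q‖²)^N`.
Suppose `q` is not in the image of `G x = x + g x`.  Then `‖q‖ < R` (otherwise `G q = q`).  `G` maps the ball `B_R` into a bounded set: `‖G x - q‖ ≤ T` for `‖x‖ ≤ R`, with `T ≥ 2 R`, and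
`‖G x - q‖ ≥ ρ > 0` for `‖x‖ ≤ R` (compactness).  Take `c = 1 / (2 T²)`: on `B_R` `|1 - c ‖G x - q‖²| ≤ 1 - c ρ²`, so the left side is at most
`(1 - c ρ²)^N K`, `K` = volume times a bound of `|det|`.  The right side is at least `(1 - c ρ'^2)^N vol(B(q, ρ'))` with `ρ' < ρ`, `B(q, ρ') ⊆ B_R` (the integrand is
nonnegative as `‖x - q‖ ≤ 2 R ≤ T`).  For `N → ∞` a contradiction, since `((1 - c ρ²)/(1 - c ρ'²))^N → 0`.
-/

set_option autoImplicit false

open MeasureTheory

namespace Pool.Agent.H44.AC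

/-- the integral identity for t = 1 -/
theorem bpi_one {n : ℕ} (g : U n → U n) (hg : ContDiff ℝ 1 g) (R : ℝ) (hR : 0 < R)
    (h0 : ∀ x, R ≤ ‖x‖ → g x = 0) (q : U n) (c : ℝ) (N : ℕ) :
    ∫ x in Metric.ball (0 : U n) R, (1 - c * ‖x + g x - q‖ ^ 2) ^ N *
        (ContinuousLinearMap.id ℝ (U n) + fderiv ℝ g x).det
      = ∫ x in Metric.ball (0 : U n) R, (1 - c * ‖x - q‖ ^ 2) ^ N := by
  obtain ⟨P, hP⟩ := bpi_polyn g hg R q c N
  have hu : Continuous fun x : U n => (1 - c * ‖x - q‖ ^ 2) ^ N := by fun_prop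
  obtain ⟨τ, hτ, hs⟩ := bpi_small g hg R hR h0 (fun x => (1 - c * ‖x - q‖ ^ 2) ^ N) hu
  have hPC : P = Polynomial.C (∫ x in Metric.ball (0 : U n) R, (1 - c * ‖x - q‖ ^ 2) ^ N) := by
    refine Polynomial.eq_of_infinite_eval_eq _ _ ?_
    refine Set.Infinite.mono (s := Set.Ioo (-τ) τ) ?_ (Set.Ioo_infinite (by linarith))
    intro t ht
    show P.eval t = _
    rw [Polynomial.eval_C, hP t]
    exact hs t (abs_lt.mpr ht)
  have h1 := hP 1
  rw [hPC, Polynomial.eval_C] at h1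
  rw [h1]
  simp only [one_smul]

theorem bpi_c1 {n : ℕ} (g : U n → U n) (hg : ContDiff ℝ 1 g) (R : ℝ) (hR : 0 < R)
    (h0 : ∀ x, R ≤ ‖x‖ → g x = 0) : Function.Surjective fun x => x + g x := by
  intro q
  by_contra hq
  push Not at hq
  have hqR : ‖q‖ < R := by
    by_contra hqR
    push Not at hqR
    apply hq q
    simp only [h0 q hqR, add_zero]
  have hgc : Continuous g := hg.continuous
  have hK : IsCompact (Metric.closedBall (0 : U n) R) := isCompact_closedBall _ _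
  have hKne : (Metric.closedBall (0 : U n) R).Nonempty := ⟨0, by simp [hR.le]⟩
  have hGc : Continuous fun x : U n => ‖x + g x - q‖ := by fun_prop
  obtain ⟨x1, hx1, hmin⟩ := hK.exists_isMinOn hKne hGc.continuousOn
  obtain ⟨x2, hx2, hmax⟩ := hK.exists_isMaxOn hKne hGc.continuousOn
  obtain ⟨ρ, hρ⟩ : ∃ ρ, ρ = ‖x1 + g x1 - q‖ := ⟨_, rfl⟩
  have hρ0 : 0 < ρ := by
    rw [hρ, norm_pos_iff, sub_ne_zero]
    exact hq x1
  obtain ⟨T, hT⟩ : ∃ T, T = max ‖x2 + g x2 - q‖ (2 * R) := ⟨_, rfl⟩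
  have hT0 : 0 < T := by
    rw [hT]
    exact lt_max_of_lt_right (by linarith)
  have hT2 : 2 * R ≤ T := by
    rw [hT]
    exact le_max_right _ _
  have hlow : ∀ x ∈ Metric.closedBall (0 : U n) R, ρ ≤ ‖x + g x - q‖ := by
    intro x hx
    rw [hρ]
    exact hmin hx
  have hup : ∀ x ∈ Metric.closedBall (0 : U n) R, ‖x + g x - q‖ ≤ T := by
    intro x hx
    rw [hT]
    exact le_trans (hmax hx) (le_max_left _ _)
  obtain ⟨c, hc⟩ : ∃ c, c = 1 / (2 * T ^ 2) := ⟨_, rfl⟩
  have hc0 : 0 < c := by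
    rw [hc]
    positivity
  have hcT : c * T ^ 2 = 1 / 2 := by
    rw [hc]
    field_simp
  -- bound of the determinant
  have hdc : Continuous fun x : U n => (ContinuousLinearMap.id ℝ (U n) + fderiv ℝ g x).det :=
    ContinuousLinearMap.continuous_det.comp
      (continuous_const.add (hg.continuous_fderiv (by norm_num)))
  obtain ⟨D, hD⟩ := hK.exists_bound_of_continuousOn hdc.continuousOn
  have hD0 : 0 ≤ D := le_trans (norm_nonneg _) (hD 0 (by simp [hR.le]))
  obtain ⟨a, ha⟩ : ∃ a, a = 1 - c * ρ ^ 2 := ⟨_, rfl⟩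
  have hρT : ρ ≤ T := le_trans (hlow x1 hx1) (hup x1 hx1)
  have ha0 : 0 ≤ a := by
    have h1 : ρ ^ 2 ≤ T ^ 2 := pow_le_pow_left₀ hρ0.le hρT 2
    have h2 : c * ρ ^ 2 ≤ c * T ^ 2 := mul_le_mul_of_nonneg_left h1 hc0.le
    rw [ha]
    linarith
  obtain ⟨ρ', hρ'⟩ : ∃ ρ', ρ' = min (ρ / 2) (R - ‖q‖) := ⟨_, rfl⟩
  have hρ'0 : 0 < ρ' := by
    rw [hρ']
    exact lt_min (by linarith) (by linarith)
  have hρ'1 : ρ' ≤ ρ / 2 := by
    rw [hρ']
    exact min_le_left _ _
  have hρ'2 : ρ' ≤ R - ‖q‖ := by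
    rw [hρ']
    exact min_le_right _ _
  obtain ⟨b, hb⟩ : ∃ b, b = 1 - c * ρ' ^ 2 := ⟨_, rfl⟩
  have hab : a < b := by
    rw [ha, hb]
    have h1 : ρ' ^ 2 < ρ ^ 2 := pow_lt_pow_left₀ (by linarith) hρ'0.le (by norm_num)
    have h2 : c * ρ' ^ 2 < c * ρ ^ 2 := mul_lt_mul_of_pos_left h1 hc0
    linarith
  have hb0 : 0 < b := lt_of_le_of_lt ha0 hab
  have hsub : Metric.ball q ρ' ⊆ Metric.ball (0 : U n) R := by
    intro x hx
    have h1 : ‖x - q‖ < ρ' := by simpa [dist_eq_norm] using hx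
    have h2 : ‖x‖ ≤ ‖x - q‖ + ‖q‖ := by
      calc ‖x‖ = ‖(x - q) + q‖ := by rw [sub_add_cancel]
        _ ≤ ‖x - q‖ + ‖q‖ := norm_add_le _ _
    have h3 : ‖x‖ < R := by linarith
    simpa using h3
  have hVfin : (volume : Measure (U n)) (Metric.ball (0 : U n) R) < ⊤ := measure_ball_lt_top
  have hV'fin : (volume : Measure (U n)) (Metric.ball q ρ') < ⊤ := measure_ball_lt_top
  have hV'pos : 0 < (volume : Measure (U n)).real (Metric.ball q ρ') := by
    refine ENNReal.toReal_pos ?_ hV'fin.ne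
    exact (Metric.measure_ball_pos _ _ hρ'0).ne'
  have hkey : ∀ N : ℕ, b ^ N * (volume : Measure (U n)).real (Metric.ball q ρ')
      ≤ (a ^ N * D) * (volume : Measure (U n)).real (Metric.ball (0 : U n) R) := by
    intro N
    have hone := bpi_one g hg R hR h0 q c N
    have hleft : ‖∫ x in Metric.ball (0 : U n) R, (1 - c * ‖x + g x - q‖ ^ 2) ^ N *
        (ContinuousLinearMap.id ℝ (U n) + fderiv ℝ g x).det‖
        ≤ (a ^ N * D) * (volume : Measure (U n)).real (Metric.ball (0 : U n) R) := by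
      refine norm_setIntegral_le_of_norm_le_const hVfin ?_
      intro x hx
      have hx' : x ∈ Metric.closedBall (0 : U n) R := Metric.ball_subset_closedBall hx
      rw [norm_mul, norm_pow]
      have h1 : c * ‖x + g x - q‖ ^ 2 ≤ 1 / 2 := by
        have h2 : ‖x + g x - q‖ ^ 2 ≤ T ^ 2 := pow_le_pow_left₀ (norm_nonneg _) (hup x hx') 2
        have h3 : c * ‖x + g x - q‖ ^ 2 ≤ c * T ^ 2 := mul_le_mul_of_nonneg_left h2 hc0.le
        linarith
      have h4 : c * ρ ^ 2 ≤ c * ‖x + g x - q‖ ^ 2 :=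
        mul_le_mul_of_nonneg_left (pow_le_pow_left₀ hρ0.le (hlow x hx') 2) hc0.le
      have h5 : ‖1 - c * ‖x + g x - q‖ ^ 2‖ ≤ a := by
        rw [Real.norm_eq_abs, abs_of_nonneg (by linarith), ha]
        linarith
      exact mul_le_mul (pow_le_pow_left₀ (norm_nonneg _) h5 N) (hD x hx') (norm_nonneg _)
        (pow_nonneg ha0 N)
    have huc : Continuous fun x : U n => (1 - c * ‖x - q‖ ^ 2) ^ N := by fun_prop
    have hint : IntegrableOn (fun x : U n => (1 - c * ‖x - q‖ ^ 2) ^ N)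
        (Metric.ball (0 : U n) R) :=
      (huc.continuousOn.integrableOn_compact hK).mono_set Metric.ball_subset_closedBall
    have hright : b ^ N * (volume : Measure (U n)).real (Metric.ball q ρ')
        ≤ ∫ x in Metric.ball (0 : U n) R, (1 - c * ‖x - q‖ ^ 2) ^ N := by
      have h1 : b ^ N * (volume : Measure (U n)).real (Metric.ball q ρ')
          ≤ ∫ x in Metric.ball q ρ', (1 - c * ‖x - q‖ ^ 2) ^ N := by
        refine setIntegral_ge_of_const_le_real measurableSet_ball hV'fin.ne ?_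
          (hint.mono_set hsub)
        intro x hx
        have h2 : ‖x - q‖ < ρ' := by simpa [dist_eq_norm] using hx
        refine pow_le_pow_left₀ hb0.le ?_ N
        rw [hb]
        have h3 : c * ‖x - q‖ ^ 2 ≤ c * ρ' ^ 2 :=
          mul_le_mul_of_nonneg_left (pow_le_pow_left₀ (norm_nonneg _) h2.le 2) hc0.le
        linarith
      refine h1.trans ?_
      refine setIntegral_mono_set hint ?_ hsub.eventuallyLE
      refine (ae_restrict_iff' measurableSet_ball).mpr (Filter.Eventually.of_forall fun x hx => ?_)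
      show 0 ≤ (1 - c * ‖x - q‖ ^ 2) ^ N
      refine pow_nonneg ?_ N
      have hxR : ‖x‖ < R := by simpa using hx
      have h2 : ‖x - q‖ ≤ T := by
        have := norm_sub_le x q
        linarith
      have h3 : c * ‖x - q‖ ^ 2 ≤ c * T ^ 2 :=
        mul_le_mul_of_nonneg_left (pow_le_pow_left₀ (norm_nonneg _) h2 2) hc0.le
      linarith
    rw [hone] at hleft
    exact hright.trans ((le_abs_self _).trans hleft)
  -- the limit
  have hlim : Filter.Tendsto (fun N : ℕ => (a / b) ^ N * (D * (volume : Measure (U n)).real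
      (Metric.ball (0 : U n) R))) Filter.atTop (nhds (0 * (D * (volume : Measure (U n)).real
      (Metric.ball (0 : U n) R)))) := by
    refine Filter.Tendsto.mul_const _ ?_
    exact tendsto_pow_atTop_nhds_zero_of_lt_one (div_nonneg ha0 hb0.le)
      ((div_lt_one hb0).mpr hab)
  rw [zero_mul] at hlim
  obtain ⟨N, hN⟩ := (hlim.eventually (gt_mem_nhds hV'pos)).exists
  have h1 := hkey N
  have hbN : 0 < b ^ N := pow_pos hb0 N
  have h2 : b ^ N * ((a / b) ^ N * (D * (volume : Measure (U n)).real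
      (Metric.ball (0 : U n) R))) < b ^ N * (volume : Measure (U n)).real (Metric.ball q ρ') :=
    mul_lt_mul_of_pos_left hN hbN
  have h3 : b ^ N * ((a / b) ^ N * (D * (volume : Measure (U n)).real
      (Metric.ball (0 : U n) R))) = (a ^ N * D) * (volume : Measure (U n)).real
      (Metric.ball (0 : U n) R) := by
    rw [div_pow]
    field_simp
  linarith

end Pool.Agent.H44.AC
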