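import Pool.Agent.H44.AC.BpiA

/-!
# [H44 AC BPIP] The integral is a polynomial in `t`

Call `Φ : ℝ → U n → ℝ` good if `Φ t x = ∑_{j < m} t^j c_j x` for some `m` and continuous functions `c_j`.  Good functions are closed under finite sums and products (for products of
two: Cauchy product; or represent `Φ` by a polynomial with coefficients in the ring `C(U n, ℝ)`, then closure is ring operations).  Continuous functions of `x` and `t` are good.
`‖x + t g x - q‖² = ‖x - q‖² + 2 t ⟪x - q, g x⟫ + t² ‖g x‖²` is good.  The determinant is the determinant of the matrix of `1 + t D g x` (`LinearMap.det_toMatrix`), Leibniz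
formula (`Matrix.det_apply`): sums and products of the entries `δ_ij + t (D g x)_ij`, continuous in `x` because `g` is `C^1`.  So the integrand is good, and its integral over the ball
is `∑_j t^j ∫ c_j` (continuous functions are integrable on the ball: `ContinuousOn.integrableOn_compact` for the closed ball).
-/

set_option autoImplicit false

open MeasureTheory

namespace Pool.Agent.H44.AC

/-- evaluation of a polynomial with continuous coefficients -/
private noncomputable def bev {n : ℕ} (t : ℝ) (x : U n) : Polynomial C(U n, ℝ) →+* ℝ :=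
  RingHom.comp (⟨⟨⟨fun f => f x, rfl⟩, fun _ _ => rfl⟩, rfl, fun _ _ => rfl⟩ : C(U n, ℝ) →+* ℝ)
    (Polynomial.evalRingHom (ContinuousMap.const (U n) t))

private theorem bev_C {n : ℕ} (t : ℝ) (x : U n) (f : C(U n, ℝ)) :
    bev t x (Polynomial.C f) = f x := by
  simp [bev]

private theorem bev_X {n : ℕ} (t : ℝ) (x : U n) : bev t x Polynomial.X = t := by
  simp [bev]

private theorem bev_sum {n : ℕ} (t : ℝ) (x : U n) (p : Polynomial C(U n, ℝ)) :
    bev t x p = ∑ j ∈ Finset.range (p.natDegree + 1), p.coeff j x * t ^ j := by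
  conv_lhs => rw [p.as_sum_range_C_mul_X_pow]
  rw [map_sum]
  exact Finset.sum_congr rfl fun j _ => by rw [map_mul, map_pow, bev_C, bev_X]

private theorem bint {n : ℕ} (R : ℝ) (p : Polynomial C(U n, ℝ)) :
    ∃ P : Polynomial ℝ, ∀ t : ℝ, P.eval t = ∫ x in Metric.ball (0 : U n) R, bev t x p := by
  refine ⟨∑ j ∈ Finset.range (p.natDegree + 1),
    Polynomial.C (∫ x in Metric.ball (0 : U n) R, p.coeff j x) * Polynomial.X ^ j, fun t => ?_⟩
  have h1 : ∀ j : ℕ, IntegrableOn (fun x => p.coeff j x * t ^ j) (Metric.ball (0 : U n) R) := by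
    intro j
    have hc : Continuous (fun x => p.coeff j x * t ^ j) :=
      ((p.coeff j).continuous).mul continuous_const
    exact (hc.continuousOn.integrableOn_compact (isCompact_closedBall 0 R)).mono_set
      Metric.ball_subset_closedBall
  simp only [bev_sum]
  rw [integral_finsetSum _ fun j _ => h1 j, Polynomial.eval_finsetSum]
  refine Finset.sum_congr rfl fun j _ => ?_
  rw [Polynomial.eval_mul, Polynomial.eval_C, Polynomial.eval_pow, Polynomial.eval_X,
    integral_mul_const]

theorem bpi_polyn {n : ℕ} (g : U n → U n) (hg : ContDiff ℝ 1 g) (R : ℝ) (q : U n) (c : ℝ) (N : ℕ) :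
    ∃ P : Polynomial ℝ, ∀ t : ℝ, P.eval t =
      ∫ x in Metric.ball (0 : U n) R, (1 - c * ‖x + t • g x - q‖ ^ 2) ^ N *
        (ContinuousLinearMap.id ℝ (U n) + t • fderiv ℝ g x).det := by
  classical
  have hgc : Continuous g := hg.continuous
  have hdc : Continuous (fderiv ℝ g) := hg.continuous_fderiv one_ne_zero
  let b := (EuclideanSpace.basisFun (Fin n) ℝ).toBasis
  have hac : ∀ i j : Fin n, Continuous fun x : U n => (fderiv ℝ g x (b j)) i := by
    intro i j
    exact (EuclideanSpace.proj (𝕜 := ℝ) i).continuous.comp (hdc.clm_apply continuous_const)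
  let a : Fin n → Fin n → C(U n, ℝ) := fun i j => ⟨_, hac i j⟩
  let M : Matrix (Fin n) (Fin n) (Polynomial C(U n, ℝ)) :=
    fun i j => (if i = j then 1 else 0) + Polynomial.X * Polynomial.C (a i j)
  let f0 : C(U n, ℝ) := ⟨fun x => ‖x - q‖ ^ 2, by fun_prop⟩
  let f1 : C(U n, ℝ) := ⟨fun x => inner ℝ (x - q) (g x), by fun_prop⟩
  let f2 : C(U n, ℝ) := ⟨fun x => ‖g x‖ ^ 2, by fun_prop⟩
  let w : Polynomial C(U n, ℝ) := 1 - Polynomial.C (ContinuousMap.const (U n) c) *
    (Polynomial.C f0 + 2 * Polynomial.X * Polynomial.C f1 + Polynomial.X ^ 2 * Polynomial.C f2)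
  obtain ⟨P, hP⟩ := bint R (w ^ N * M.det)
  refine ⟨P, fun t => ?_⟩
  rw [hP]
  refine integral_congr_ae (Filter.Eventually.of_forall fun x => ?_)
  simp only
  rw [map_mul, map_pow]
  congr 1
  · congr 1
    simp only [w, map_sub, map_one, map_mul, map_add, map_pow, map_ofNat, bev_C, bev_X]
    have h1 : ‖x + t • g x - q‖ ^ 2 = ‖x - q‖ ^ 2 + 2 * inner ℝ (x - q) (t • g x) +
        ‖t • g x‖ ^ 2 := by
      rw [← norm_add_sq_real, add_sub_right_comm]
    rw [h1, inner_smul_right, norm_smul, mul_pow, Real.norm_eq_abs, sq_abs]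
    simp only [ContinuousMap.const_apply, ContinuousMap.coe_mk, f0, f1, f2]
    ring
  · rw [RingHom.map_det]
    have h2 : (ContinuousLinearMap.id ℝ (U n) + t • fderiv ℝ g x).det =
        (LinearMap.toMatrix b b
          ((ContinuousLinearMap.id ℝ (U n) + t • fderiv ℝ g x : U n →L[ℝ] U n) :
            U n →ₗ[ℝ] U n)).det := by
      rw [LinearMap.det_toMatrix]
    rw [h2]
    congr 1
    ext i j
    rw [RingHom.mapMatrix_apply, Matrix.map_apply, LinearMap.toMatrix_apply]
    have h3 : b.repr (((ContinuousLinearMap.id ℝ (U n) + t • fderiv ℝ g x : U n →L[ℝ] U n) :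
        U n →ₗ[ℝ] U n) (b j)) i = (b j) i + t * (fderiv ℝ g x (b j)) i := by
      simp [b]
    rw [h3]
    have h4 : (b j) i = if i = j then 1 else 0 := by
      simp [b, EuclideanSpace.basisFun_apply]
    rw [h4]
    simp only [M, map_add, map_mul, bev_C, bev_X]
    congr 1
    split_ifs <;> simp

end Pool.Agent.H44.AC
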