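import Pool.Agent.H44.AC.PHB

/-!
# [H44 AC CONEB] Growth on the sum of a stable vector and the centre-unstable space

`PH.fwd` gives `C_g`, `r`; `n₀` with `C_g r^n ≤ 1` for `n ≥ n₀`; `PH.proj_bdd` gives `K` (take `K ≥ 1`); `Pc (Dn x) = Dn (Pc x)`, ... by `PH.inv_n`.  Write `D = Dn g n p`, `w^c = Pc p w`, `w^u = Pu p w`,
`w = w^c + w^u` (`PH.sum`, `Ps p w = 0`).
`‖D w^c‖ ‖v₀‖ ≥ ‖D v₀‖ ‖w^c‖` (third inequality of `fwd`) and `‖D w^u‖ ≥ ‖w^u‖` (second), `‖D v₀‖ ≤ ‖v₀‖` (first), so `‖D w^u‖ ‖v₀‖ ≥ ‖D v₀‖ ‖w^u‖`.  With `D w^c = Pc (D w)`: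
`‖D w^c‖ ≤ K ‖D w‖`, `‖D w^u‖ ≤ K ‖D w‖`, so `2 K ‖D w‖ ‖v₀‖ ≥ ‖D v₀‖ ‖w‖`.
For `x = t v₀ + w`: `t D v₀ = Ps (D x)`, so `|t| ‖D v₀‖ ≤ K ‖D x‖`, `‖D w‖ ≤ (1 + K) ‖D x‖`, and
`‖x‖ ‖D v₀‖ ≤ |t| ‖v₀‖ ‖D v₀‖ + ‖w‖ ‖D v₀‖ ≤ K ‖v₀‖ ‖D x‖ + 2 K (1 + K) ‖v₀‖ ‖D x‖`.
-/

set_option autoImplicit false

namespace Pool.Agent.H44.AC

variable {d k : ℕ}

theorem growth {g : Equiv.Perm (E d k)} (hg : Dif g) {Ps Pc Pu : E d k → (E d k →L[ℝ] E d k)}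
    (h : PH g Ps Pc Pu) (p v₀ : E d k) (h0 : Ps p v₀ = v₀) (hv : v₀ ≠ 0) :
    ∃ c₁ : ℝ, 0 < c₁ ∧ ∃ n₀ : ℕ, ∀ n : ℕ, n₀ ≤ n → ∀ (t : ℝ) (w : E d k), Ps p w = 0 →
      c₁ * ‖t • v₀ + w‖ * ‖Dn g n p v₀‖ ≤ ‖Dn g n p (t • v₀ + w)‖ := by
  obtain ⟨C, r, hC, hr0, hr1, hfwd⟩ := PH.fwd hg h
  obtain ⟨K, hK, hproj⟩ := PH.proj_bdd h
  have hv0 : 0 < ‖v₀‖ := norm_pos_iff.2 hv
  obtain ⟨n₀, hn₀⟩ : ∃ n₀ : ℕ, ∀ n : ℕ, n₀ ≤ n → C * r ^ n ≤ 1 := by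
    have h1 := tendsto_pow_atTop_nhds_zero_of_lt_one hr0.le hr1
    have h2 := h1.const_mul C
    rw [mul_zero] at h2
    have h3 := h2.eventually (gt_mem_nhds (show (0 : ℝ) < 1 by norm_num))
    obtain ⟨n₀, hn₀⟩ := Filter.eventually_atTop.1 h3
    exact ⟨n₀, fun n hn => (hn₀ n hn).le⟩
  refine ⟨1 / (3 * K * ‖v₀‖), by positivity, n₀, ?_⟩
  intro n hn t w hw
  have hCr := hn₀ n hn
  have hCr0 : 0 ≤ C * r ^ n := by positivity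
  obtain ⟨hf1, hf2, hf3⟩ := hfwd p n
  obtain ⟨wc, hwc⟩ : ∃ wc, wc = Pc p w := ⟨_, rfl⟩
  obtain ⟨wu, hwu⟩ : ∃ wu, wu = Pu p w := ⟨_, rfl⟩
  obtain ⟨y, hy⟩ : ∃ y, y = t • v₀ + w := ⟨_, rfl⟩
  have hsum : w = wc + wu := by
    have h1 := h.sum p w
    rw [hw, zero_add, ← hwc, ← hwu] at h1
    exact h1.symm
  have hcv : Pc p v₀ = 0 := by
    rw [← h0]
    exact h.cs p v₀
  have huv : Pu p v₀ = 0 := by
    rw [← h0]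
    exact h.us p v₀
  have hpy : Ps p y = t • v₀ := by
    rw [hy, map_add, map_smul, h0, hw, add_zero]
  have hcy : Pc p y = wc := by
    rw [hy, map_add, map_smul, hcv, smul_zero, zero_add, hwc]
  have huy : Pu p y = wu := by
    rw [hy, map_add, map_smul, huv, smul_zero, zero_add, hwu]
  have hcc : Pc p wc = wc := by
    rw [hwc]
    exact h.cc p w
  have huu : Pu p wu = wu := by
    rw [hwu]
    exact h.uu p w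
  obtain ⟨i1, i2, i3⟩ := PH.inv_n hg h n p y
  obtain ⟨k1, k2, k3⟩ := hproj ((g ^ n) p)
  rw [hpy] at i1
  rw [hcy] at i2
  rw [huy] at i3
  obtain ⟨N, hN⟩ : ∃ N : ℝ, N = ‖Dn g n p y‖ := ⟨_, rfl⟩
  obtain ⟨M, hM⟩ : ∃ M : ℝ, M = ‖Dn g n p v₀‖ := ⟨_, rfl⟩
  have hM0 : 0 ≤ M := by rw [hM]; exact norm_nonneg _
  have hN0 : 0 ≤ N := by rw [hN]; exact norm_nonneg _
  have a1 : |t| * M ≤ K * N := by
    have h1 : ‖Dn g n p (t • v₀)‖ ≤ K * N := by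
      rw [← i1, hN]
      exact (ContinuousLinearMap.le_opNorm _ _).trans
        (mul_le_mul_of_nonneg_right k1 (norm_nonneg _))
    rw [map_smul, norm_smul, Real.norm_eq_abs, ← hM] at h1
    exact h1
  have a2 : ‖Dn g n p wc‖ ≤ K * N := by
    rw [← i2, hN]
    exact (ContinuousLinearMap.le_opNorm _ _).trans
      (mul_le_mul_of_nonneg_right k2 (norm_nonneg _))
  have a3 : ‖Dn g n p wu‖ ≤ K * N := by
    rw [← i3, hN]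
    exact (ContinuousLinearMap.le_opNorm _ _).trans
      (mul_le_mul_of_nonneg_right k3 (norm_nonneg _))
  have b1 : M * ‖wc‖ ≤ K * N * ‖v₀‖ := by
    have h1 := hf3 v₀ wc h0 hcc
    rw [← hM] at h1
    refine h1.trans ?_
    refine mul_le_mul_of_nonneg_right ?_ hv0.le
    calc C * r ^ n * ‖Dn g n p wc‖ ≤ 1 * ‖Dn g n p wc‖ :=
          mul_le_mul_of_nonneg_right hCr (norm_nonneg _)
      _ ≤ K * N := by rw [one_mul]; exact a2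
  have b2 : ‖wu‖ ≤ K * N := by
    refine (hf2 wu huu).trans ?_
    calc C * r ^ n * ‖Dn g n p wu‖ ≤ 1 * ‖Dn g n p wu‖ :=
          mul_le_mul_of_nonneg_right hCr (norm_nonneg _)
      _ ≤ K * N := by rw [one_mul]; exact a3
  have b3 : M ≤ ‖v₀‖ := by
    have h1 := hf1 v₀ h0
    rw [← hM] at h1
    refine h1.trans ?_
    calc C * r ^ n * ‖v₀‖ ≤ 1 * ‖v₀‖ := mul_le_mul_of_nonneg_right hCr hv0.le
      _ = ‖v₀‖ := one_mul _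
  have b4 : ‖wu‖ * M ≤ K * N * ‖v₀‖ := mul_le_mul b2 b3 hM0 (by positivity)
  have hyn : ‖y‖ ≤ |t| * ‖v₀‖ + (‖wc‖ + ‖wu‖) := by
    rw [hy]
    refine (norm_add_le _ _).trans ?_
    rw [norm_smul, Real.norm_eq_abs]
    have h1 : ‖w‖ ≤ ‖wc‖ + ‖wu‖ := by
      rw [hsum]
      exact norm_add_le _ _
    linarith
  have c1 : ‖y‖ * M ≤ 3 * K * ‖v₀‖ * N := by
    have h1 := mul_le_mul_of_nonneg_right hyn hM0
    have h2 := mul_le_mul_of_nonneg_right a1 hv0.le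
    have h3 : (|t| * ‖v₀‖ + (‖wc‖ + ‖wu‖)) * M =
        |t| * M * ‖v₀‖ + M * ‖wc‖ + ‖wu‖ * M := by ring
    rw [h3] at h1
    have h4 : 3 * K * ‖v₀‖ * N = K * N * ‖v₀‖ + K * N * ‖v₀‖ + K * N * ‖v₀‖ := by ring
    rw [h4]
    linarith
  rw [← hy, ← hN, ← hM]
  have hpos : 0 < 3 * K * ‖v₀‖ := by positivity
  have h5 : 1 / (3 * K * ‖v₀‖) * ‖y‖ * M = (‖y‖ * M) / (3 * K * ‖v₀‖) := by ring
  rw [h5, div_le_iff₀ hpos]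
  linarith

end Pool.Agent.H44.AC
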