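import Pool.Agent.H44.AC.ConeA
import Pool.Agent.H44.AC.ConeB

/-!
# [H44 AC CONE] The stable bundle of a nearby diffeomorphism lies in a cone

`meet`: the subspace `Q = ℝ v₀ + ker (Ps p)` has dimension `1 + (dim E - rs)` (`v₀ ∉ ker (Ps p)`, rank-nullity, `Rk`); the subspace `im Π = {(ps x, 0)}` has dimension `rs`
(it is the image of `range ps` under the injective `x ↦ (x, 0)`), and its preimage under the bijective `Dn g n p` (injective by `Dn_neg_cancel`, so bijective as `E` is finite dimensional) has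
dimension `rs`; the sum of the dimensions is `dim E + 1`, so they share a vector `≠ 0` (`Submodule.finrank_sup_add_finrank_inf_eq`).

`cone`: take `δ`, `a'`, `b'` from `iter`.  Suppose `Ps p v₀ = v₀`, `Ns v₀ < Nw v₀` (so `v₀ ≠ 0`).  By `iter` and `upw`: `b'^n Nw v₀ ≤ C ‖Dn v₀‖`.  `growth` gives `c₁`, `n₀`.  For `n ≥ n₀` let
`x = t v₀ + w ≠ 0` be the vector of `meet`: `Nw (Dn x) = 0 ≤ Ns (Dn x)` (`w0`), so `Ns (Dn x) ≤ a'^n Ns x ≤ a'^n C ‖x‖`, `c ‖Dn x‖ ≤ Ns (Dn x)` (`low`).  So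
`c c₁ ‖x‖ b'^n Nw v₀ / C ≤ c c₁ ‖x‖ ‖Dn v₀‖ ≤ c ‖Dn x‖ ≤ a'^n C ‖x‖`, so `(b'/a')^n ≤ C² / (c c₁ Nw v₀)` for all `n ≥ n₀`, impossible as `b' / a' > 1`.
-/

set_option autoImplicit false

namespace Pool.Agent.H44.AC

variable {d k : ℕ}

theorem meet (s : Sk d k) {g : Equiv.Perm (E d k)} (hg : Dif g)
    {Ps Pc Pu : E d k → (E d k →L[ℝ] E d k)} (h : PH g Ps Pc Pu) (hr : Rk Ps s.rs) (p v₀ : E d k)
    (h0 : Ps p v₀ = v₀) (hv : v₀ ≠ 0) (n : ℕ) :
    ∃ (t : ℝ) (w : E d k), Ps p w = 0 ∧ t • v₀ + w ≠ 0 ∧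
      ∃ x : X d, Dn g n p (t • v₀ + w) = (s.ps x, 0) := by
  set D : E d k →ₗ[ℝ] E d k := (Dn g n p : E d k →ₗ[ℝ] E d k) with hD
  have hDinj : Function.Injective D := by
    intro x y hxy
    have h1 := Dn_neg_cancel hg n p x
    have h2 := Dn_neg_cancel hg n p y
    have h3 : Dn g n p x = Dn g n p y := hxy
    rw [← h1, ← h2, h3]
  set P : E d k →ₗ[ℝ] E d k := (Ps p : E d k →ₗ[ℝ] E d k) with hP
  have hPr : Module.finrank ℝ (LinearMap.range P) = s.rs := hr p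
  have hrn := LinearMap.finrank_range_add_finrank_ker P
  -- the subspace `Q`
  set Q : Submodule ℝ (E d k) := Submodule.span ℝ {v₀} ⊔ LinearMap.ker P with hQ
  have hdisj : Submodule.span ℝ {v₀} ⊓ LinearMap.ker P = ⊥ := by
    rw [Submodule.eq_bot_iff]
    intro x hx
    rw [Submodule.mem_inf] at hx
    obtain ⟨t, rfl⟩ := Submodule.mem_span_singleton.1 hx.1
    have h1 : P (t • v₀) = 0 := hx.2
    have h2 : P v₀ = v₀ := h0
    rw [map_smul, h2] at h1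
    exact h1
  have hQd : Module.finrank ℝ Q = 1 + Module.finrank ℝ (LinearMap.ker P) := by
    have h1 := Submodule.finrank_sup_add_finrank_inf_eq (Submodule.span ℝ {v₀}) (LinearMap.ker P)
    rw [hdisj, finrank_bot, add_zero, finrank_span_singleton hv] at h1
    exact h1
  -- the image of `(ps x, 0)`
  set L : X d →ₗ[ℝ] E d k := (LinearMap.inl ℝ (X d) (X k)).comp (s.ps : X d →ₗ[ℝ] X d) with hL
  have hLd : Module.finrank ℝ (LinearMap.range L) = s.rs := by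
    rw [hL, LinearMap.range_comp]
    have h1 := (Submodule.equivMapOfInjective (LinearMap.inl ℝ (X d) (X k))
      LinearMap.inl_injective (LinearMap.range (s.ps : X d →ₗ[ℝ] X d))).finrank_eq
    rw [← h1]
    rfl
  have hQD : Module.finrank ℝ (Q.map D) = Module.finrank ℝ Q :=
    ((Submodule.equivMapOfInjective D hDinj Q).finrank_eq).symm
  have hne : Q.map D ⊓ LinearMap.range L ≠ ⊥ := by
    intro hbot
    have h1 := Submodule.finrank_sup_add_finrank_inf_eq (Q.map D) (LinearMap.range L)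
    rw [hbot, finrank_bot, add_zero, hQD, hQd, hLd] at h1
    have h2 := Submodule.finrank_le (Q.map D ⊔ LinearMap.range L)
    omega
  obtain ⟨y, hy, hy0⟩ := Submodule.exists_mem_ne_zero_of_ne_bot hne
  rw [Submodule.mem_inf] at hy
  obtain ⟨q, hq, hqy⟩ := Submodule.mem_map.1 hy.1
  obtain ⟨x, hx⟩ := hy.2
  obtain ⟨a, ha, w, hw, haw⟩ := Submodule.mem_sup.1 hq
  obtain ⟨t, rfl⟩ := Submodule.mem_span_singleton.1 ha
  refine ⟨t, w, hw, ?_, x, ?_⟩
  · rw [haw]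
    rintro rfl
    rw [map_zero] at hqy
    exact hy0 hqy.symm
  · rw [haw]
    have h1 : Dn g n p q = y := hqy
    rw [h1, ← hx]
    rfl

theorem cone {s : Sk d k} (hs : s.Ok) {Ns Nw : Seminorm ℝ (E d k)} {a b η c C : ℝ}
    (hA : Ad s Ns Nw a b η c C) : ∃ δ : ℝ, 0 < δ ∧ ∀ g : Equiv.Perm (E d k), Dif g →
      (∀ v, ‖fderiv ℝ g v - fderiv ℝ s.f v‖ < δ) →
      ∀ Ps Pc Pu, PH g Ps Pc Pu → Rk Ps s.rs → ∀ p v, Ps p v = v → Nw v ≤ Ns v := by
  obtain ⟨δ, a', b', hδ, ha', hab', hit⟩ := iter hA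
  refine ⟨δ, hδ, ?_⟩
  intro g hg hgf Ps Pc Pu hPH hRk p v₀ h0
  by_contra hcon
  push Not at hcon
  have hv : v₀ ≠ 0 := by
    rintro rfl
    rw [map_zero, map_zero] at hcon
    exact lt_irrefl _ hcon
  have hNw : 0 < Nw v₀ := lt_of_le_of_lt (apply_nonneg Ns v₀) hcon
  have hc := hA.hc
  have hC := hA.hC
  have hb' : 0 < b' := ha'.trans hab'
  obtain ⟨c₁, hc₁, n₀, hgr⟩ := growth hg hPH p v₀ h0 hv
  have key : ∀ n : ℕ, n₀ ≤ n → c * c₁ * (b' ^ n * Nw v₀) ≤ C ^ 2 * a' ^ n := by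
    intro n hn
    have h1 : b' ^ n * Nw v₀ ≤ C * ‖Dn g n p v₀‖ :=
      ((hit g hg hgf p v₀ n).1 hcon).trans (hA.upw _)
    obtain ⟨t, w, hw, hx, y, hy⟩ := meet s hg hPH hRk p v₀ h0 hv n
    have h2 := hgr n hn t w hw
    set x := t • v₀ + w with hxdef
    have hxn : 0 < ‖x‖ := norm_pos_iff.2 hx
    have h3 : Nw (Dn g n p x) = 0 := by rw [hy]; exact hA.w0 y
    have h4 : Ns (Dn g n p x) ≤ a' ^ n * Ns x := by
      apply (hit g hg hgf p x n).2
      rw [h3]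
      exact apply_nonneg Ns _
    have h5 : Ns x ≤ C * ‖x‖ := hA.ups x
    have h6 := hA.low (Dn g n p x)
    rw [h3, add_zero] at h6
    have h7 : a' ^ n * Ns x ≤ a' ^ n * (C * ‖x‖) := mul_le_mul_of_nonneg_left h5 (by positivity)
    have h8 : c * (c₁ * ‖x‖ * ‖Dn g n p v₀‖) ≤ a' ^ n * (C * ‖x‖) := by
      have := mul_le_mul_of_nonneg_left h2 hc.le
      linarith
    have h9 : (c * c₁ * ‖Dn g n p v₀‖) * ‖x‖ ≤ (a' ^ n * C) * ‖x‖ := by
      calc (c * c₁ * ‖Dn g n p v₀‖) * ‖x‖ = c * (c₁ * ‖x‖ * ‖Dn g n p v₀‖) := by ring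
        _ ≤ _ := h8
        _ = _ := by ring
    have h10 := le_of_mul_le_mul_right h9 hxn
    calc c * c₁ * (b' ^ n * Nw v₀) ≤ c * c₁ * (C * ‖Dn g n p v₀‖) :=
          mul_le_mul_of_nonneg_left h1 (by positivity)
      _ = C * (c * c₁ * ‖Dn g n p v₀‖) := by ring
      _ ≤ C * (a' ^ n * C) := mul_le_mul_of_nonneg_left h10 hC.le
      _ = _ := by ring
  -- `(a'/b')^n → 0`
  have hq : a' / b' < 1 := (div_lt_one hb').2 hab'
  have ht : Filter.Tendsto (fun n : ℕ => C ^ 2 * (a' / b') ^ n) Filter.atTop (nhds (C ^ 2 * 0)) :=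
    (tendsto_pow_atTop_nhds_zero_of_lt_one (by positivity) hq).const_mul _
  rw [mul_zero] at ht
  have hpos : 0 < c * c₁ * Nw v₀ := by positivity
  obtain ⟨n, hn, hn2⟩ := ((Filter.eventually_ge_atTop n₀).and
    (ht.eventually (gt_mem_nhds hpos))).exists
  have h1 := key n hn
  have h2 : 0 < b' ^ n := by positivity
  have h3 : C ^ 2 * a' ^ n < c * c₁ * Nw v₀ * b' ^ n := by
    rw [div_pow, ← mul_div_assoc, div_lt_iff₀ h2] at hn2
    exact hn2
  have h4 : c * c₁ * (b' ^ n * Nw v₀) = c * c₁ * Nw v₀ * b' ^ n := by ring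
  linarith

end Pool.Agent.H44.AC
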