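import Pool.Agent.H44.AC.Per

/-!
# [H44 AC PHB] Derivatives of iterates, and the inequalities of partial hyperbolicity for all vectors

* `Dn f n v` is the derivative of `f ^ n` (`n : ℤ`), chain rule (`fderiv_comp`; the iterates of `f` and `f⁻¹` are `C^1` by
  induction).
* `PH.symm`: the splitting of `f` with `Ps` and `Pu` exchanged is a splitting for `f⁻¹`.  `inv`: from `PH.inv_u` at `f⁻¹ v`, with
  `Dif.fderiv_inv` for `f⁻¹` and for `f`.
* `PH.inv_n`: induction.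
* `PH.fwd`: the inequalities of `PH.est` for all vectors (divide by the norm; `x = 0` or `y = 0` trivial); the second one is the
  inequality for `f^(-n)` at the point `f^n v` and the unit vector `Dn f n v x / ‖…‖` (`PH.inv_n`, `Dn f (-n) (f^n v) ∘ Dn f n v = id`).
* `PH.proj_bdd`: `per_unif` for the three projections.
-/

set_option autoImplicit false

namespace Pool.Agent.H44.AC

variable {d k : ℕ}

private theorem phb_c1_nat {f : Equiv.Perm (E d k)} (hf : ContDiff ℝ 1 f) (n : ℕ) :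
    ContDiff ℝ 1 (f ^ n : Equiv.Perm (E d k)) := by
  induction n with
  | zero =>
    rw [pow_zero]
    exact contDiff_id
  | succ n ih =>
    rw [pow_succ']
    exact hf.comp ih

private theorem phb_c1_inv {f : Equiv.Perm (E d k)} (hf : Dif f) (n : ℕ) :
    ContDiff ℝ 1 ((f ^ n)⁻¹ : Equiv.Perm (E d k)) := by
  rw [← inv_pow]
  exact phb_c1_nat hf.c1' n

theorem Dn_zero (f : Equiv.Perm (E d k)) (v x : E d k) : Dn f 0 v x = x := by
  unfold Dn
  rw [zpow_zero]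
  change fderiv ℝ (id : E d k → E d k) v x = x
  rw [fderiv_id]
  rfl

theorem Dn_inv (f : Equiv.Perm (E d k)) (n : ℤ) (v : E d k) : Dn f⁻¹ n v = Dn f (-n) v := by
  unfold Dn
  rw [inv_zpow']

theorem Dn_succ {f : Equiv.Perm (E d k)} (hf : Dif f) (n : ℕ) (v x : E d k) :
    Dn f ((n + 1 : ℕ) : ℤ) v x = fderiv ℝ f ((f ^ n) v) (Dn f n v x) := by
  unfold Dn
  rw [zpow_natCast, zpow_natCast, pow_succ']
  have h1 : DifferentiableAt ℝ f ((f ^ n) v) := hf.c1.differentiable one_ne_zero _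
  have h2 : DifferentiableAt ℝ (f ^ n : Equiv.Perm (E d k)) v :=
    (phb_c1_nat hf.c1 n).differentiable one_ne_zero _
  have h3 : fderiv ℝ (f ∘ (f ^ n : Equiv.Perm (E d k))) v =
      (fderiv ℝ f ((f ^ n) v)).comp (fderiv ℝ (f ^ n : Equiv.Perm (E d k)) v) :=
    fderiv_comp v h1 h2
  have h4 := congrArg (fun T : E d k →L[ℝ] E d k => T x) h3
  exact h4

theorem Dn_neg_cancel {f : Equiv.Perm (E d k)} (hf : Dif f) (n : ℕ) (v x : E d k) :
    Dn f (-(n : ℤ)) ((f ^ n) v) (Dn f n v x) = x := by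
  unfold Dn
  rw [zpow_neg, zpow_natCast]
  have h1 : DifferentiableAt ℝ ((f ^ n)⁻¹ : Equiv.Perm (E d k)) ((f ^ n) v) :=
    (phb_c1_inv hf n).differentiable one_ne_zero _
  have h2 : DifferentiableAt ℝ (f ^ n : Equiv.Perm (E d k)) v :=
    (phb_c1_nat hf.c1 n).differentiable one_ne_zero _
  have h3 : fderiv ℝ (((f ^ n)⁻¹ : Equiv.Perm (E d k)) ∘ (f ^ n : Equiv.Perm (E d k))) v =
      (fderiv ℝ ((f ^ n)⁻¹ : Equiv.Perm (E d k)) ((f ^ n) v)).comp
        (fderiv ℝ (f ^ n : Equiv.Perm (E d k)) v) := fderiv_comp v h1 h2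
  have h4 : (((f ^ n)⁻¹ : Equiv.Perm (E d k)) ∘ (f ^ n : Equiv.Perm (E d k))) = id :=
    funext fun w => (f ^ n).symm_apply_apply w
  rw [h4, fderiv_id] at h3
  have h5 := congrArg (fun T : E d k →L[ℝ] E d k => T x) h3
  exact h5.symm

theorem PH.symm {f : Equiv.Perm (E d k)} (hf : Dif f) {Ps Pc Pu : E d k → (E d k →L[ℝ] E d k)}
    (h : PH f Ps Pc Pu) : PH f⁻¹ Pu Pc Ps := by
  have hinv : ∀ (P : E d k → (E d k →L[ℝ] E d k)),
      (∀ v x, fderiv ℝ f v (P v x) = P (f v) (fderiv ℝ f v x)) →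
      ∀ v x, fderiv ℝ (f⁻¹ : Equiv.Perm (E d k)) v (P v x) =
        P ((f⁻¹ : Equiv.Perm (E d k)) v) (fderiv ℝ (f⁻¹ : Equiv.Perm (E d k)) v x) := by
    intro P hP v x
    obtain ⟨w, rfl⟩ : ∃ w, v = f w := ⟨f.symm v, (f.apply_symm_apply v).symm⟩
    have e1 : (f⁻¹ : Equiv.Perm (E d k)) (f w) = w := f.symm_apply_apply w
    rw [e1]
    -- `x = D f w y`
    obtain ⟨y, rfl⟩ : ∃ y, x = fderiv ℝ f w y := by
      refine ⟨fderiv ℝ (f⁻¹ : Equiv.Perm (E d k)) (f w) x, ?_⟩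
      have h1 := hf.inv.fderiv_inv (f w) x
      rw [inv_inv, e1] at h1
      exact h1.symm
    rw [← hP w y, hf.fderiv_inv, hf.fderiv_inv]
  obtain ⟨C, r, hC, hr, hr1, hest⟩ := h.est
  exact
  { cont_s := h.cont_u
    cont_c := h.cont_c
    cont_u := h.cont_s
    per_s := h.per_u
    per_c := h.per_c
    per_u := h.per_s
    sum := fun v x => by
      rw [← h.sum v x]
      simp only [map_add, h.ss, h.sc, h.su, h.cs, h.cc, h.cu, h.us, h.uc, h.uu]
      abel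
    ss := h.uu
    cc := h.cc
    uu := h.ss
    sc := h.uc
    su := h.us
    cs := h.cu
    cu := h.cs
    us := h.su
    uc := h.sc
    nonzero_s := h.nonzero_u
    nonzero_u := h.nonzero_s
    inv_s := hinv Pu h.inv_u
    inv_c := hinv Pc h.inv_c
    inv_u := hinv Ps h.inv_s
    est := by
      refine ⟨C, r, hC, hr, hr1, fun v n => ?_⟩
      obtain ⟨h1, h2, h3, h4⟩ := hest v n
      refine ⟨fun x hx hx1 => ?_, fun x hx hx1 => ?_, fun x y hx hx1 hy hy1 => ?_,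
        fun x y hx hx1 hy hy1 => ?_⟩
      · rw [Dn_inv]; exact h2 x hx hx1
      · rw [Dn_inv, neg_neg]; exact h1 x hx hx1
      · rw [Dn_inv]; exact h4 x y hx hx1 hy hy1
      · rw [Dn_inv, neg_neg]; exact h3 x y hx hx1 hy hy1 }

theorem PH.inv_n {f : Equiv.Perm (E d k)} (hf : Dif f) {Ps Pc Pu : E d k → (E d k →L[ℝ] E d k)}
    (h : PH f Ps Pc Pu) (n : ℕ) (v x : E d k) :
    Ps ((f ^ n) v) (Dn f n v x) = Dn f n v (Ps v x) ∧
    Pc ((f ^ n) v) (Dn f n v x) = Dn f n v (Pc v x) ∧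
    Pu ((f ^ n) v) (Dn f n v x) = Dn f n v (Pu v x) := by
  induction n with
  | zero =>
    rw [pow_zero]
    change Ps v (Dn f 0 v x) = Dn f 0 v (Ps v x) ∧ Pc v (Dn f 0 v x) = Dn f 0 v (Pc v x) ∧
      Pu v (Dn f 0 v x) = Dn f 0 v (Pu v x)
    simp only [Dn_zero]
    exact ⟨trivial, trivial, trivial⟩
  | succ n ih =>
    obtain ⟨h1, h2, h3⟩ := ih
    have e : (f ^ (n + 1)) v = f ((f ^ n) v) := by
      rw [pow_succ']
      rfl
    rw [e]
    simp only [Dn_succ hf]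
    refine ⟨?_, ?_, ?_⟩
    · rw [← h.inv_s, h1]
    · rw [← h.inv_c, h2]
    · rw [← h.inv_u, h3]

theorem PH.fwd {f : Equiv.Perm (E d k)} (hf : Dif f) {Ps Pc Pu : E d k → (E d k →L[ℝ] E d k)}
    (h : PH f Ps Pc Pu) : ∃ C r : ℝ, 0 < C ∧ 0 < r ∧ r < 1 ∧ ∀ (v : E d k) (n : ℕ),
      (∀ x, Ps v x = x → ‖Dn f n v x‖ ≤ C * r ^ n * ‖x‖) ∧
      (∀ x, Pu v x = x → ‖x‖ ≤ C * r ^ n * ‖Dn f n v x‖) ∧
      (∀ x y, Ps v x = x → Pc v y = y → ‖Dn f n v x‖ * ‖y‖ ≤ C * r ^ n * ‖Dn f n v y‖ * ‖x‖) := by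
  obtain ⟨C, r, hC, hr, hr1, hest⟩ := h.est
  refine ⟨C, r, hC, hr, hr1, fun v n => ⟨fun x hx => ?_, fun x hx => ?_, fun x y hx hy => ?_⟩⟩
  · rcases eq_or_ne x 0 with h0 | h0
    · rw [h0, map_zero, norm_zero, mul_zero]
    · have hn : ‖x‖ ≠ 0 := norm_ne_zero_iff.2 h0
      have h1 := (hest v n).1 (‖x‖⁻¹ • x) (by rw [map_smul, hx])
        (by rw [norm_smul, norm_inv, norm_norm, inv_mul_cancel₀ hn])
      rw [map_smul, norm_smul, norm_inv, norm_norm] at h1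
      have h2 : 0 < ‖x‖ := norm_pos_iff.2 h0
      rw [inv_mul_le_iff₀ h2] at h1
      linarith
  · rcases eq_or_ne (Dn f n v x) 0 with h0 | h0
    · have h1 := Dn_neg_cancel hf n v x
      rw [h0, map_zero] at h1
      rw [← h1, norm_zero]
      positivity
    · have hn : ‖Dn f n v x‖ ≠ 0 := norm_ne_zero_iff.2 h0
      have h1 := (hest ((f ^ n) v) n).2.1 (‖Dn f n v x‖⁻¹ • Dn f n v x) (by
          rw [map_smul, (h.inv_n hf n v x).2.2, hx])
        (by rw [norm_smul, norm_inv, norm_norm, inv_mul_cancel₀ hn])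
      rw [map_smul, Dn_neg_cancel hf, norm_smul, norm_inv, norm_norm] at h1
      have h2 : 0 < ‖Dn f n v x‖ := norm_pos_iff.2 h0
      rw [inv_mul_le_iff₀ h2] at h1
      linarith
  · rcases eq_or_ne x 0 with h0 | h0
    · rw [h0, map_zero, norm_zero, zero_mul, mul_zero]
    · rcases eq_or_ne y 0 with h0' | h0'
      · rw [h0', map_zero, norm_zero, mul_zero, mul_zero, zero_mul]
      · have hn : ‖x‖ ≠ 0 := norm_ne_zero_iff.2 h0
        have hn' : ‖y‖ ≠ 0 := norm_ne_zero_iff.2 h0'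
        have h1 := (hest v n).2.2.1 (‖x‖⁻¹ • x) (‖y‖⁻¹ • y) (by rw [map_smul, hx])
          (by rw [norm_smul, norm_inv, norm_norm, inv_mul_cancel₀ hn]) (by rw [map_smul, hy])
          (by rw [norm_smul, norm_inv, norm_norm, inv_mul_cancel₀ hn'])
        rw [map_smul, map_smul, norm_smul, norm_smul, norm_inv, norm_inv, norm_norm,
          norm_norm] at h1
        have h2 : 0 < ‖x‖ := norm_pos_iff.2 h0
        have h3 : 0 < ‖y‖ := norm_pos_iff.2 h0'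
        rw [inv_mul_le_iff₀ h2] at h1
        have h4 : ‖x‖ * (C * r ^ n * (‖y‖⁻¹ * ‖Dn f n v y‖)) * ‖y‖ =
            C * r ^ n * ‖Dn f n v y‖ * ‖x‖ := by
          field_simp
        rw [← h4]
        exact mul_le_mul_of_nonneg_right h1 h3.le

theorem PH.proj_bdd {f : Equiv.Perm (E d k)} {Ps Pc Pu : E d k → (E d k →L[ℝ] E d k)}
    (h : PH f Ps Pc Pu) : ∃ K : ℝ, 0 < K ∧ ∀ v, ‖Ps v‖ ≤ K ∧ ‖Pc v‖ ≤ K ∧ ‖Pu v‖ ≤ K := by
  obtain ⟨K1, hK1, h1⟩ := (per_unif Ps h.cont_s h.per_s).2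
  obtain ⟨K2, hK2, h2⟩ := (per_unif Pc h.cont_c h.per_c).2
  obtain ⟨K3, hK3, h3⟩ := (per_unif Pu h.cont_u h.per_u).2
  refine ⟨K1 + K2 + K3, by positivity, fun v => ⟨?_, ?_, ?_⟩⟩
  · have := h1 v; linarith
  · have := h2 v; linarith
  · have := h3 v; linarith

end Pool.Agent.H44.AC
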