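import Pool.Agent.H44.AC.Adapt
import Pool.Agent.H44.AC.PHB

/-!
# [H44 AC CONEA] Cones along the orbit of a nearby diffeomorphism

`ad_step`: `Ns (M v) ≤ Ns (Df v) + Ns ((M - Df) v)`, `ups`; the same for `Nw`, `upw`.

`iter`: choose `δ > 0` with `κ = C δ`, `t = 2 κ / c`, `a' = a + t`, `b' = b - η - t`, `a' < b'` (then `a' > 0`).  One step (`M = fderiv ℝ g p`, `ad_step`): in `{Ns v ≤ Nw v}`
`‖v‖ ≤ (Ns v + Nw v)/c ≤ 2 Nw v / c`, so `Nw (M v) ≥ b' Nw v` and `Ns (M v) ≤ a' Nw v`; in `{Nw v ≤ Ns v}`: `Ns (M v) ≤ a' Ns v`.  So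
(I) `Ns v < Nw v` implies `Ns (M v) < Nw (M v)` (`Nw v > 0`) and `Nw (M v) ≥ b' Nw v`;
(II) `Nw (M v) ≤ Ns (M v)` implies `Nw v ≤ Ns v` (contrapositive of (I)) and `Ns (M v) ≤ a' Ns v`.
The claim by induction on `n` with `Dn_succ` (first part: `Ns (Dn v) < Nw (Dn v)` along the orbit).
-/

set_option autoImplicit false

namespace Pool.Agent.H44.AC

variable {d k : ℕ}

theorem ad_step {s : Sk d k} {Ns Nw : Seminorm ℝ (E d k)} {a b η c C : ℝ}
    (hA : Ad s Ns Nw a b η c C) {δ : ℝ} (p : E d k) (M : E d k →L[ℝ] E d k)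
    (hM : ‖M - fderiv ℝ s.f p‖ ≤ δ) (v : E d k) :
    Ns (M v) ≤ a * Ns v + C * δ * ‖v‖ ∧ b * Nw v - η * Ns v - C * δ * ‖v‖ ≤ Nw (M v) := by
  have hd : ‖(M - fderiv ℝ s.f p) v‖ ≤ δ * ‖v‖ :=
    ((M - fderiv ℝ s.f p).le_opNorm v).trans (mul_le_mul_of_nonneg_right hM (norm_nonneg _))
  have e : M v = fderiv ℝ s.f p v + (M - fderiv ℝ s.f p) v := by
    rw [_root_.sub_apply]
    abel
  constructor
  · rw [e]
    have h1 := map_add_le_add Ns (fderiv ℝ s.f p v) ((M - fderiv ℝ s.f p) v)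
    have h2 := hA.ups ((M - fderiv ℝ s.f p) v)
    have h3 := hA.fs p v
    have h4 : C * ‖(M - fderiv ℝ s.f p) v‖ ≤ C * (δ * ‖v‖) :=
      mul_le_mul_of_nonneg_left hd hA.hC.le
    linarith
  · have e' : fderiv ℝ s.f p v = M v + -((M - fderiv ℝ s.f p) v) := by
      rw [_root_.sub_apply]
      abel
    have h1 := map_add_le_add Nw (M v) (-((M - fderiv ℝ s.f p) v))
    rw [← e', map_neg_eq_map] at h1
    have h2 := hA.upw ((M - fderiv ℝ s.f p) v)
    have h3 := hA.fw p v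
    have h4 : C * ‖(M - fderiv ℝ s.f p) v‖ ≤ C * (δ * ‖v‖) :=
      mul_le_mul_of_nonneg_left hd hA.hC.le
    linarith

theorem iter {s : Sk d k} {Ns Nw : Seminorm ℝ (E d k)} {a b η c C : ℝ}
    (hA : Ad s Ns Nw a b η c C) : ∃ δ a' b' : ℝ, 0 < δ ∧ 0 < a' ∧ a' < b' ∧
      ∀ g : Equiv.Perm (E d k), Dif g → (∀ v, ‖fderiv ℝ g v - fderiv ℝ s.f v‖ < δ) →
        ∀ (p v : E d k) (n : ℕ),
          (Ns v < Nw v → b' ^ n * Nw v ≤ Nw (Dn g n p v)) ∧
          (Nw (Dn g n p v) ≤ Ns (Dn g n p v) → Ns (Dn g n p v) ≤ a' ^ n * Ns v) := by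
  have ha := hA.ha
  have hη := hA.hη
  have hab := hA.hab
  have hc := hA.hc
  have hC := hA.hC
  -- the gap
  set e : ℝ := b - η - a with he
  have hep : 0 < e := by rw [he]; linarith
  set t : ℝ := e / 4 with ht
  have htp : 0 < t := by positivity
  set δ : ℝ := c * t / (2 * C) with hδ
  have hδp : 0 < δ := by positivity
  refine ⟨δ, a + t, b - η - t, hδp, by linarith, by linarith, ?_⟩
  intro g hg hgf p
  have hCδ : C * δ = c * t / 2 := by
    rw [hδ]
    field_simp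
  have hb' : 0 < b - η - t := by linarith
  have hns : ∀ v, 0 ≤ Ns v := fun v => apply_nonneg Ns v
  have hnw : ∀ v, 0 ≤ Nw v := fun v => apply_nonneg Nw v
  -- one step
  have step1 : ∀ q v, Ns v ≤ Nw v → (b - η - t) * Nw v ≤ Nw (fderiv ℝ g q v) ∧
      Ns (fderiv ℝ g q v) ≤ (a + t) * Nw v := by
    intro q v hv
    obtain ⟨h1, h2⟩ := ad_step hA q (fderiv ℝ g q) (hgf q).le v
    have h3 := hA.low v
    have h4 : C * δ * ‖v‖ ≤ t * Nw v := by
      rw [hCδ]
      nlinarith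
    have h5 : η * Ns v ≤ η * Nw v := mul_le_mul_of_nonneg_left hv hη
    have h6 : a * Ns v ≤ a * Nw v := mul_le_mul_of_nonneg_left hv ha
    constructor
    · nlinarith
    · nlinarith
  have step2 : ∀ q v, Nw v ≤ Ns v → Ns (fderiv ℝ g q v) ≤ (a + t) * Ns v := by
    intro q v hv
    obtain ⟨h1, h2⟩ := ad_step hA q (fderiv ℝ g q) (hgf q).le v
    have h3 := hA.low v
    have h4 : C * δ * ‖v‖ ≤ t * Ns v := by
      rw [hCδ]
      nlinarith
    nlinarith
  have stepI : ∀ q v, Ns v < Nw v → Ns (fderiv ℝ g q v) < Nw (fderiv ℝ g q v) ∧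
      (b - η - t) * Nw v ≤ Nw (fderiv ℝ g q v) := by
    intro q v hv
    obtain ⟨h1, h2⟩ := step1 q v hv.le
    have h3 : 0 < Nw v := lt_of_le_of_lt (hns v) hv
    refine ⟨?_, h1⟩
    have h4 : (a + t) * Nw v < (b - η - t) * Nw v := mul_lt_mul_of_pos_right (by linarith) h3
    linarith
  intro v n
  have hD0 : ∀ w, Dn g ((0 : ℕ) : ℤ) p w = w := fun w => Dn_zero g p w
  constructor
  · intro hv
    have key : Ns (Dn g n p v) < Nw (Dn g n p v) ∧
        (b - η - t) ^ n * Nw v ≤ Nw (Dn g n p v) := by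
      induction n with
      | zero =>
        rw [hD0, pow_zero, one_mul]
        exact ⟨hv, le_refl _⟩
      | succ n ih =>
        rw [Dn_succ hg]
        obtain ⟨h1, h2⟩ := stepI ((g ^ n) p) (Dn g n p v) ih.1
        refine ⟨h1, ?_⟩
        calc (b - η - t) ^ (n + 1) * Nw v = (b - η - t) * ((b - η - t) ^ n * Nw v) := by
              rw [pow_succ]; ring
          _ ≤ (b - η - t) * Nw (Dn g n p v) := mul_le_mul_of_nonneg_left ih.2 hb'.le
          _ ≤ _ := h2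
    exact key.2
  · induction n with
    | zero =>
      intro _
      rw [hD0, pow_zero, one_mul]
    | succ n ih =>
      intro hv
      rw [Dn_succ hg] at hv ⊢
      have h1 : Nw (Dn g n p v) ≤ Ns (Dn g n p v) := by
        by_contra hcon
        push Not at hcon
        have := (stepI ((g ^ n) p) (Dn g n p v) hcon).1
        linarith
      calc Ns (fderiv ℝ g ((g ^ n) p) (Dn g n p v)) ≤ (a + t) * Ns (Dn g n p v) :=
            step2 _ _ h1
        _ ≤ (a + t) * ((a + t) ^ n * Ns v) :=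
            mul_le_mul_of_nonneg_left (ih h1) (by linarith)
        _ = (a + t) ^ (n + 1) * Ns v := by rw [pow_succ]; ring

end Pool.Agent.H44.AC
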