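import Pool.Agent.H44.AC.SWb

/-!
# [H44 AC SWC] Curves in the stable leaves

`γ : ℝ → ℝ^d` a `C^1` curve, `γ' t ∈ im ps` for `t ∈ [0, 1]`.  `W (γ 0) (γ 1 - γ 0) = ∫_0^1 S (γ t) (γ' t) dt`.
Proof.  First `γ t - γ 0 ∈ im ps` for `t ∈ [0, 1]` (`(1 - ps) (γ t)` is constant).  For each `j`, the function
`φ_j t = b^(j+1) (h (a^j (γ t)))` has derivative `b^(j+1) Dh(a^j γ t) (a^j γ' t)` and `γ' t = ps (γ' t)`, so by the fundamental theorem of calculus
(`intervalIntegral.integral_eq_sub_of_hasDerivAt`) the term `j` of `W` (with `ps (γ 1 - γ 0) = γ 1 - γ 0`) is the integral of the term `j` of `S`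
applied to `γ' t`.  Sum over `j`: `intervalIntegral.hasSum_integral_of_dominated_convergence` with the bounds `K r^j sup ‖γ'‖` (`S_term`), and
`(∑' T_j) v = ∑' T_j v` (`ContinuousLinearMap.apply` is continuous, `Summable.of_norm_bounded`).

`W_seg`: the case `γ t = x + t ps ℓ`.
-/

set_option autoImplicit false

open MeasureTheory intervalIntegral

namespace Pool.Agent.H44.AC

variable {d k : ℕ}

namespace Sk

theorem SWc_fix {s : Sk d k} (γ γ' : ℝ → X d) (hc : Continuous γ')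
    (hd : ∀ t, HasDerivAt γ (γ' t) t) (hp : ∀ t ∈ Set.Icc (0 : ℝ) 1, s.ps (γ' t) = γ' t) :
    s.ps (γ 1 - γ 0) = γ 1 - γ 0 := by
  have hI : IntervalIntegrable γ' volume 0 1 := hc.intervalIntegrable 0 1
  have h1 : ∫ t in (0 : ℝ)..1, γ' t = γ 1 - γ 0 :=
    integral_eq_sub_of_hasDerivAt (fun t _ => hd t) hI
  have h2 : ∫ t in (0 : ℝ)..1, s.ps (γ' t) = s.ps (∫ t in (0 : ℝ)..1, γ' t) :=
    s.ps.intervalIntegral_comp_comm hI
  have h3 : ∫ t in (0 : ℝ)..1, s.ps (γ' t) = ∫ t in (0 : ℝ)..1, γ' t := by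
    refine integral_congr fun t ht => ?_
    rw [Set.uIcc_of_le zero_le_one] at ht
    exact hp t ht
  rw [← h1, ← h2, h3]

theorem SWc_term {s : Sk d k} (hs : s.Ok) (γ γ' : ℝ → X d) (hc : Continuous γ')
    (hd : ∀ t, HasDerivAt γ (γ' t) t) (j : ℕ) :
    Continuous (fun t => (s.b ^ (j + 1)) (fderiv ℝ s.h ((s.a ^ j) (γ t)) ((s.a ^ j) (γ' t)))) ∧
      ∫ t in (0 : ℝ)..1, (s.b ^ (j + 1)) (fderiv ℝ s.h ((s.a ^ j) (γ t)) ((s.a ^ j) (γ' t))) =
        (s.b ^ (j + 1)) (s.h ((s.a ^ j) (γ 1))) - (s.b ^ (j + 1)) (s.h ((s.a ^ j) (γ 0))) := by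
  have hcγ : Continuous γ := continuous_iff_continuousAt.2 fun t => (hd t).continuousAt
  have hcD : Continuous (fderiv ℝ s.h) := hs.c1.continuous_fderiv one_ne_zero
  have hcont : Continuous
      (fun t => (s.b ^ (j + 1)) (fderiv ℝ s.h ((s.a ^ j) (γ t)) ((s.a ^ j) (γ' t)))) :=
    (s.b ^ (j + 1)).continuous.comp
      ((hcD.comp ((s.a ^ j).continuous.comp hcγ)).clm_apply ((s.a ^ j).continuous.comp hc))
  refine ⟨hcont, ?_⟩
  refine integral_eq_sub_of_hasDerivAt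
    (f := fun t => (s.b ^ (j + 1)) (s.h ((s.a ^ j) (γ t)))) (fun t _ => ?_)
    (hcont.intervalIntegrable 0 1)
  have h1 : HasDerivAt (fun t => (s.a ^ j) (γ t)) ((s.a ^ j) (γ' t)) t :=
    (s.a ^ j).hasFDerivAt.comp_hasDerivAt t (hd t)
  have h2 : HasDerivAt (fun t => s.h ((s.a ^ j) (γ t)))
      (fderiv ℝ s.h ((s.a ^ j) (γ t)) ((s.a ^ j) (γ' t))) t :=
    (hs.c1.differentiable one_ne_zero _).hasFDerivAt.comp_hasDerivAt t h1
  exact (s.b ^ (j + 1)).hasFDerivAt.comp_hasDerivAt t h2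

theorem W_curve {s : Sk d k} (hs : s.Ok) (γ γ' : ℝ → X d) (hc : Continuous γ')
    (hd : ∀ t, HasDerivAt γ (γ' t) t) (hp : ∀ t ∈ Set.Icc (0 : ℝ) 1, s.ps (γ' t) = γ' t) :
    s.ps (γ 1 - γ 0) = γ 1 - γ 0 ∧
      s.W (γ 0) (γ 1 - γ 0) = ∫ t in (0 : ℝ)..1, s.S (γ t) (γ' t) := by
  have hfix := SWc_fix (s := s) γ γ' hc hd hp
  refine ⟨hfix, ?_⟩
  obtain ⟨K, r, hK, hr, hr1, hterm⟩ := S_term hs
  obtain ⟨M, hM⟩ := isCompact_Icc.exists_bound_of_continuousOn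
    (s := Set.Icc (0 : ℝ) 1) hc.continuousOn
  have hM0 : 0 ≤ M := (norm_nonneg _).trans (hM 0 (Set.left_mem_Icc.2 zero_le_one))
  have hIoc : ∀ t, t ∈ Set.uIoc (0 : ℝ) 1 → t ∈ Set.Icc (0 : ℝ) 1 := by
    intro t ht
    rw [Set.uIoc_of_le zero_le_one] at ht
    exact Set.Ioc_subset_Icc_self ht
  have hsum := intervalIntegral.hasSum_integral_of_dominated_convergence (μ := volume)
    (a := (0 : ℝ)) (b := 1)
    (F := fun (j : ℕ) t => (s.b ^ (j + 1)) (fderiv ℝ s.h ((s.a ^ j) (γ t)) ((s.a ^ j) (γ' t))))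
    (f := fun t => -s.S (γ t) (γ' t)) (fun j _ => K * r ^ j * M)
    (fun j => (SWc_term hs γ γ' hc hd j).1.aestronglyMeasurable)
    (fun j => Filter.Eventually.of_forall fun t ht => by
      have h1 := hterm j (γ t)
      have h2 := hM t (hIoc t ht)
      have h3 : (s.b ^ (j + 1)) (fderiv ℝ s.h ((s.a ^ j) (γ t)) ((s.a ^ j) (γ' t))) =
          ((s.b ^ (j + 1)).comp ((fderiv ℝ s.h ((s.a ^ j) (γ t))).comp (s.a ^ j * s.ps))) (γ' t) := by
        change _ = (s.b ^ (j + 1)) (fderiv ℝ s.h ((s.a ^ j) (γ t)) ((s.a ^ j) (s.ps (γ' t))))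
        rw [hp t (hIoc t ht)]
      change ‖(s.b ^ (j + 1)) (fderiv ℝ s.h ((s.a ^ j) (γ t)) ((s.a ^ j) (γ' t)))‖ ≤ K * r ^ j * M
      rw [h3]
      refine (ContinuousLinearMap.le_opNorm _ _).trans ?_
      have h4 : 0 ≤ K * r ^ j := by positivity
      exact mul_le_mul h1 h2 (norm_nonneg _) h4)
    (Filter.Eventually.of_forall fun t _ =>
      ((summable_geometric_of_lt_one hr.le hr1).mul_left K).mul_right M)
    intervalIntegrable_const
    (Filter.Eventually.of_forall fun t ht => by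
      obtain ⟨h1, h2⟩ := S_apply hs (γ t) (γ' t)
      rw [hp t (hIoc t ht)] at h1 h2
      change HasSum _ (-s.S (γ t) (γ' t))
      rw [h2, neg_neg]
      exact h1.hasSum)
  have h1 : s.W (γ 0) (γ 1 - γ 0) = -∑' j : ℕ, ∫ t in (0 : ℝ)..1,
      (s.b ^ (j + 1)) (fderiv ℝ s.h ((s.a ^ j) (γ t)) ((s.a ^ j) (γ' t))) := by
    unfold W
    congr 1
    refine tsum_congr fun j => ?_
    rw [(SWc_term hs γ γ' hc hd j).2, hfix, add_sub_cancel, map_sub]
  rw [h1, hsum.tsum_eq, intervalIntegral.integral_neg, neg_neg]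

theorem W_seg {s : Sk d k} (hs : s.Ok) (x ℓ : X d) :
    s.W x ℓ = ∫ t in (0 : ℝ)..1, s.S (x + t • s.ps ℓ) ℓ := by
  have h1 := (W_curve hs (fun t => x + t • s.ps ℓ) (fun _ => s.ps ℓ) continuous_const
    (fun t => by
      have h2 : HasDerivAt (fun t : ℝ => t • s.ps ℓ) ((1 : ℝ) • s.ps ℓ) t :=
        (hasDerivAt_id t).smul_const (s.ps ℓ)
      rw [one_smul] at h2
      exact h2.const_add x)
    (fun t _ => hs.dom.ss ℓ)).2
  simp only [zero_smul, add_zero, one_smul, add_sub_cancel_left, S_ps hs, W_ps hs] at h1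
  exact h1

end Sk

end Pool.Agent.H44.AC
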