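import Pool.Agent.H44.AC.Per

/-!
# [H44 AC INVC] Inverses of `C^1` close diffeomorphisms are `C^1` close

`f` fixed.  Let `L` be a bound for `‖D f⁻¹‖` (`Dif.bdd hf.inv`), so `f⁻¹` is `L`-Lipschitz (`lipschitzWith_of_nnnorm_fderiv_le` or
`Convex.norm_image_sub_le_of_norm_fderiv_le` on `univ`), and let `D f` be uniformly continuous (`Dif.unif`).  For `v = g w`:
`‖g⁻¹ v - f⁻¹ v‖ = ‖f⁻¹ (f w) - f⁻¹ (g w)‖ ≤ L ‖f w - g w‖ < L δ`.
Derivative: `T = D g⁻¹ (v)` and `R = D f⁻¹ (v)` are two sided inverses of `D g (g⁻¹ v)` and `D f (f⁻¹ v)` (`Dif.fderiv_inv` for `g`, `f`, `g⁻¹`, `f⁻¹`), and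
`T - R = R (D f (f⁻¹ v) - D g (g⁻¹ v)) T`, `‖T‖ ≤ ‖R‖ + ‖T - R‖`, `‖R‖ ≤ L`; with `e = ‖D f (f⁻¹ v) - D g (g⁻¹ v)‖ ≤
‖D f (f⁻¹ v) - D f (g⁻¹ v)‖ + δ` small, `L e ≤ 1/2`: `‖T‖ ≤ 2 L`, `‖T - R‖ ≤ 2 L² e < ε`.
-/

set_option autoImplicit false

namespace Pool.Agent.H44.AC

variable {d k : ℕ}

theorem inv_close {f : Equiv.Perm (E d k)} (hf : Dif f) (ε : ℝ) (hε : 0 < ε) :
    ∃ δ : ℝ, 0 < δ ∧ ∀ g : Equiv.Perm (E d k), Dif g →
      (∀ v, ‖g v - f v‖ < δ ∧ ‖fderiv ℝ g v - fderiv ℝ f v‖ < δ) →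
      ∀ v, ‖(g⁻¹ : Equiv.Perm (E d k)) v - (f⁻¹ : Equiv.Perm (E d k)) v‖ < ε ∧
        ‖fderiv ℝ (g⁻¹ : Equiv.Perm (E d k)) v - fderiv ℝ (f⁻¹ : Equiv.Perm (E d k)) v‖ < ε := by
  obtain ⟨L, hL, hLb⟩ := hf.inv.bdd
  set e1 : ℝ := min (1 / (4 * L)) (ε / (8 * L ^ 2)) with he1
  have he1p : 0 < e1 := lt_min (by positivity) (by positivity)
  have he1a : e1 ≤ 1 / (4 * L) := min_le_left _ _
  have he1b : e1 ≤ ε / (8 * L ^ 2) := min_le_right _ _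
  obtain ⟨η, hη, hηu⟩ := Metric.uniformContinuous_iff.1 hf.unif e1 he1p
  set δ : ℝ := min e1 (min (η / L) (ε / L)) with hδ
  have hδp : 0 < δ := lt_min he1p (lt_min (by positivity) (by positivity))
  have hδ1 : δ ≤ e1 := min_le_left _ _
  have hδ2 : δ ≤ η / L := (min_le_right _ _).trans (min_le_left _ _)
  have hδ3 : δ ≤ ε / L := (min_le_right _ _).trans (min_le_right _ _)
  refine ⟨δ, hδp, ?_⟩
  intro g hg hgf v
  have hlip : ∀ x y : E d k, ‖(f⁻¹ : Equiv.Perm (E d k)) y - (f⁻¹ : Equiv.Perm (E d k)) x‖ ≤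
      L * ‖y - x‖ := by
    intro x y
    exact Convex.norm_image_sub_le_of_norm_fderiv_le (s := Set.univ)
      (fun x _ => hf.c1'.differentiable one_ne_zero x) (fun x _ => hLb x) convex_univ
      (Set.mem_univ _) (Set.mem_univ _)
  obtain ⟨w, rfl⟩ : ∃ w, v = g w := ⟨g.symm v, (g.apply_symm_apply v).symm⟩
  have eg : (g⁻¹ : Equiv.Perm (E d k)) (g w) = w := g.symm_apply_apply w
  have ef : (f⁻¹ : Equiv.Perm (E d k)) (f w) = w := f.symm_apply_apply w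
  rw [eg]
  have hdist : ‖w - (f⁻¹ : Equiv.Perm (E d k)) (g w)‖ < L * δ := by
    have h1 := hlip (g w) (f w)
    rw [ef] at h1
    have h2 := (hgf w).1
    rw [norm_sub_rev] at h2
    exact lt_of_le_of_lt h1 (mul_lt_mul_of_pos_left h2 hL)
  have hLδη : L * δ ≤ η := by
    rw [le_div_iff₀ hL] at hδ2
    linarith
  have hLδε : L * δ ≤ ε := by
    rw [le_div_iff₀ hL] at hδ3
    linarith
  refine ⟨lt_of_lt_of_le hdist hLδε, ?_⟩
  set T : E d k →L[ℝ] E d k := fderiv ℝ (g⁻¹ : Equiv.Perm (E d k)) (g w) with hT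
  set R : E d k →L[ℝ] E d k := fderiv ℝ (f⁻¹ : Equiv.Perm (E d k)) (g w) with hR
  set u : E d k := (f⁻¹ : Equiv.Perm (E d k)) (g w) with hu
  have hfu : f u = g w := f.apply_symm_apply (g w)
  set D : E d k →L[ℝ] E d k := fderiv ℝ f u - fderiv ℝ g w with hD
  have hRL : ‖R‖ ≤ L := hLb _
  have hDn : ‖D‖ ≤ 2 * e1 := by
    have h1 : D = (fderiv ℝ f u - fderiv ℝ f w) + (fderiv ℝ f w - fderiv ℝ g w) := by
      rw [hD]; abel
    have h2 : ‖fderiv ℝ f u - fderiv ℝ f w‖ < e1 := by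
      rw [← dist_eq_norm]
      apply hηu
      rw [dist_eq_norm, norm_sub_rev]
      exact lt_of_lt_of_le hdist hLδη
    have h3 : ‖fderiv ℝ f w - fderiv ℝ g w‖ < δ := by
      rw [norm_sub_rev]
      exact (hgf w).2
    rw [h1]
    refine (norm_add_le _ _).trans ?_
    linarith
  have hTR : T - R = R.comp (D.comp T) := by
    refine ContinuousLinearMap.ext fun x => ?_
    have h1 : R (fderiv ℝ f u (T x)) = T x := by
      have := hf.fderiv_inv u (T x)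
      rw [hfu] at this
      exact this
    have h2 : fderiv ℝ g w (T x) = x := by
      have := hg.inv.fderiv_inv (g w) x
      rw [inv_inv, eg] at this
      exact this
    change T x - R x = R (fderiv ℝ f u (T x) - fderiv ℝ g w (T x))
    rw [map_sub, h1, h2]
  have hn1 : ‖T - R‖ ≤ L * (2 * e1 * ‖T‖) := by
    rw [hTR]
    calc ‖R.comp (D.comp T)‖ ≤ ‖R‖ * ‖D.comp T‖ := ContinuousLinearMap.opNorm_comp_le _ _
      _ ≤ L * (2 * e1 * ‖T‖) := by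
        have h1 : ‖D.comp T‖ ≤ ‖D‖ * ‖T‖ := ContinuousLinearMap.opNorm_comp_le _ _
        have h2 : ‖D‖ * ‖T‖ ≤ 2 * e1 * ‖T‖ := by gcongr
        exact mul_le_mul hRL (h1.trans h2) (norm_nonneg _) hL.le
  have hn2 : ‖T‖ ≤ L + ‖T - R‖ := by
    have h1 : ‖T‖ ≤ ‖R‖ + ‖T - R‖ := by
      have := norm_add_le R (T - R)
      rwa [add_sub_cancel] at this
    linarith
  have h4 : L * (2 * e1) ≤ 1 / 2 := by
    rw [le_div_iff₀ (by positivity)] at he1a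
    linarith
  have h5 : L * (2 * e1) * L ≤ ε / 4 := by
    rw [le_div_iff₀ (by positivity)] at he1b
    nlinarith
  have h6 : 0 ≤ ‖T - R‖ := norm_nonneg _
  have h7 : ‖T - R‖ ≤ L * (2 * e1) * L + L * (2 * e1) * ‖T - R‖ := by
    calc ‖T - R‖ ≤ L * (2 * e1 * ‖T‖) := hn1
      _ = L * (2 * e1) * ‖T‖ := by ring
      _ ≤ L * (2 * e1) * (L + ‖T - R‖) := by
        apply mul_le_mul_of_nonneg_left hn2 (by positivity)
      _ = _ := by ring
  have h8 : L * (2 * e1) * ‖T - R‖ ≤ 1 / 2 * ‖T - R‖ := mul_le_mul_of_nonneg_right h4 h6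
  linarith

end Pool.Agent.H44.AC
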