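import Pool.Agent.H44.AC.Near
import Pool.Agent.H44.AC.InvC

/-!
# [H44 AC VFIELD] Continuous vector fields tangent to the bundles of a nearby diffeomorphism

`near_s` for `s` and `g` gives the stable bundle, `near_s` for `s.inv` and `g⁻¹` (`inv_close`, `PH.symm`, `Ok.inv`, `inv_f`, `s.inv.rs = s.ru`) the unstable one.
`V true p ℓ` is the vector `v` with `Ps p v = v` and `ps v.1 = ps ℓ` (it exists; unique: for two such vectors the difference `w` satisfies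
`Ps p w = w`, `ps w.1 = 0`, so `‖w - 0‖ ≤ ε ‖ps w.1‖ = 0`).  `‖V true p ℓ - (ps ℓ, S(p.1) ℓ)‖ ≤ ε ‖ps ℓ‖ ≤ ε ‖ps‖ ‖ℓ‖` (`S_ps`), so use `near_s` with
`ε / (1 + ‖ps‖)`.
Continuity of `(p, ℓ) ↦ V true p ℓ`: `(p, ℓ) → (p₀, ℓ₀)`; the values stay in a compact ball (the norm is at most `K ‖ℓ‖`), and every cluster point `v` satisfies
`Ps p₀ v = v`, `ps v.1 = ps ℓ₀` (closed conditions, `Ps` is continuous), so `v = V true p₀ ℓ₀`.  (A function into a compact set with closed graph is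
continuous: `isClosed_graph`-type lemma, or `tendsto_of_subseq_tendsto` with sequences, as `E` is a metric space.)
-/

set_option autoImplicit false

namespace Pool.Agent.H44.AC

variable {d k : ℕ}

private theorem vfield_one (P : E d k → (E d k →L[ℝ] E d k)) (hPc : Continuous P)
    (q : X d →L[ℝ] X d) (S : X d → (X d →L[ℝ] X k)) (hSq : ∀ x y, S x (q y) = S x y) {K ε : ℝ}
    (hK : ∀ x, ‖S x‖ ≤ K) (hε : 0 ≤ ε)
    (h1 : ∀ p v, P p v = v → ‖v - (q v.1, S p.1 v.1)‖ ≤ ε * ‖q v.1‖)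
    (h2 : ∀ p a, ∃ v, P p v = v ∧ q v.1 = q a) :
    ∃ V : E d k → X d → E d k, (Continuous fun z : E d k × X d => V z.1 z.2) ∧
      (∀ p ℓ, P p (V p ℓ) = V p ℓ) ∧
      ∀ p ℓ, ‖V p ℓ - (q ℓ, S p.1 ℓ)‖ ≤ ε * ‖q‖ * ‖ℓ‖ := by
  choose V hVP hVq using h2
  have hest : ∀ p ℓ, ‖V p ℓ - (q ℓ, S p.1 ℓ)‖ ≤ ε * ‖q‖ * ‖ℓ‖ := by
    intro p ℓ
    have e1 := h1 p (V p ℓ) (hVP p ℓ)
    have e2 : S p.1 (V p ℓ).1 = S p.1 ℓ := by
      rw [← hSq p.1 (V p ℓ).1, hVq, hSq]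
    rw [e2, hVq] at e1
    refine e1.trans ?_
    rw [mul_assoc]
    exact mul_le_mul_of_nonneg_left (q.le_opNorm ℓ) hε
  have huniq : ∀ p v ℓ, P p v = v → q v.1 = q ℓ → v = V p ℓ := by
    intro p v ℓ hv hq
    have e0 : P p (v - V p ℓ) = v - V p ℓ := by rw [map_sub, hv, hVP]
    have e3 : q (v - V p ℓ).1 = 0 := by
      change q (v.1 - (V p ℓ).1) = 0
      rw [map_sub, hq, hVq, sub_self]
    have e1 := h1 p (v - V p ℓ) e0
    have e2 : S p.1 (v - V p ℓ).1 = 0 := by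
      rw [← hSq, e3, map_zero]
    rw [e2, e3, norm_zero, mul_zero] at e1
    have e4 : v - V p ℓ - (0, 0) = 0 := norm_le_zero_iff.1 e1
    have e5 : ((0, 0) : E d k) = 0 := rfl
    rw [e5, sub_zero] at e4
    exact sub_eq_zero.1 e4
  have hbd : ∀ p ℓ, ‖V p ℓ‖ ≤ (‖q‖ + K + ε * ‖q‖) * ‖ℓ‖ := by
    intro p ℓ
    have e1 : ‖V p ℓ‖ ≤ ‖V p ℓ - (q ℓ, S p.1 ℓ)‖ + ‖((q ℓ, S p.1 ℓ) : E d k)‖ := by
      have := norm_add_le (V p ℓ - (q ℓ, S p.1 ℓ)) ((q ℓ, S p.1 ℓ) : E d k)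
      rwa [sub_add_cancel] at this
    have hK0 : 0 ≤ K := (norm_nonneg _).trans (hK 0)
    have e2 : ‖((q ℓ, S p.1 ℓ) : E d k)‖ ≤ (‖q‖ + K) * ‖ℓ‖ := by
      rw [Prod.norm_def]
      refine max_le ?_ ?_
      · refine (q.le_opNorm ℓ).trans ?_
        exact mul_le_mul_of_nonneg_right (by linarith) (norm_nonneg _)
      · refine ((S p.1).le_opNorm ℓ).trans ?_
        refine mul_le_mul_of_nonneg_right ?_ (norm_nonneg _)
        have e4 := hK p.1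
        have e5 := norm_nonneg q
        linarith
    have e3 := hest p ℓ
    have e4 : (‖q‖ + K + ε * ‖q‖) * ‖ℓ‖ = ε * ‖q‖ * ‖ℓ‖ + (‖q‖ + K) * ‖ℓ‖ := by ring
    rw [e4]
    linarith
  refine ⟨V, ?_, hVP, hest⟩
  rw [continuous_iff_continuousAt]
  rintro ⟨p₀, ℓ₀⟩
  have hK0 : 0 ≤ K := (norm_nonneg _).trans (hK 0)
  have hcomp : IsCompact (Metric.closedBall (0 : E d k) ((‖q‖ + K + ε * ‖q‖) * (‖ℓ₀‖ + 1))) :=
    isCompact_closedBall _ _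
  refine hcomp.tendsto_nhds_of_unique_mapClusterPt ?_ ?_
  · have e1 : ∀ᶠ z : E d k × X d in nhds (p₀, ℓ₀), ‖z.2‖ < ‖ℓ₀‖ + 1 :=
      (continuous_snd.norm.tendsto (p₀, ℓ₀)).eventually (gt_mem_nhds (by
        change ‖ℓ₀‖ < ‖ℓ₀‖ + 1
        linarith))
    filter_upwards [e1] with z hz
    rw [mem_closedBall_zero_iff]
    refine (hbd z.1 z.2).trans ?_
    exact mul_le_mul_of_nonneg_left hz.le (by positivity)
  · intro v _ hv
    have hcl : ((p₀, ℓ₀), v) ∈ closure {w : (E d k × X d) × E d k | w.2 = V w.1.1 w.1.2} := by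
      rw [mem_closure_iff_nhds]
      intro t ht
      rw [nhds_prod_eq, Filter.mem_prod_iff] at ht
      obtain ⟨t1, ht1, t2, ht2, hsub⟩ := ht
      have e1 : ∃ᶠ z : E d k × X d in nhds (p₀, ℓ₀), V z.1 z.2 ∈ t2 :=
        (mapClusterPt_iff_frequently.1 hv) t2 ht2
      obtain ⟨z, hz1, hz2⟩ := (e1.and_eventually ht1).exists
      exact ⟨(z, V z.1 z.2), hsub ⟨hz2, hz1⟩, rfl⟩
    have hclosed : IsClosed {w : (E d k × X d) × E d k | P w.1.1 w.2 = w.2 ∧ q w.2.1 = q w.1.2} := by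
      refine IsClosed.inter (isClosed_eq ?_ continuous_snd) (isClosed_eq ?_ ?_)
      · exact (hPc.comp (continuous_fst.comp continuous_fst)).clm_apply continuous_snd
      · exact q.continuous.comp (continuous_fst.comp continuous_snd)
      · exact q.continuous.comp (continuous_snd.comp continuous_fst)
    have hsub : {w : (E d k × X d) × E d k | w.2 = V w.1.1 w.1.2} ⊆
        {w : (E d k × X d) × E d k | P w.1.1 w.2 = w.2 ∧ q w.2.1 = q w.1.2} := by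
      rintro ⟨⟨p, ℓ⟩, v⟩ hw
      have hw' : v = V p ℓ := hw
      subst hw'
      exact ⟨hVP p ℓ, hVq p ℓ⟩
    have hmem := closure_minimal hsub hclosed hcl
    exact huniq p₀ v ℓ₀ hmem.1 hmem.2

theorem vfield {s : Sk d k} (hs : s.Ok) (ε : ℝ) (hε : 0 < ε) : ∃ δ : ℝ, 0 < δ ∧
    ∀ g : Equiv.Perm (E d k), Dif g →
      (∀ v, ‖g v - s.f v‖ < δ ∧ ‖fderiv ℝ g v - fderiv ℝ s.f v‖ < δ) →
      ∀ Ps Pc Pu, PH g Ps Pc Pu → Rk Ps s.rs → Rk Pu s.ru →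
        ∃ V : Bool → E d k → X d → E d k,
          (∀ c, Continuous fun q : E d k × X d => V c q.1 q.2) ∧
          (∀ p ℓ, Ps p (V true p ℓ) = V true p ℓ) ∧ (∀ p ℓ, Pu p (V false p ℓ) = V false p ℓ) ∧
          ∀ c p ℓ, ‖V c p ℓ - s.vf c p ℓ‖ ≤ ε * ‖ℓ‖ := by
  set M : ℝ := 1 + ‖s.ps‖ + ‖s.pu‖ with hM
  have hMp : 0 < M := by positivity
  have hε1 : 0 < ε / M := by positivity
  obtain ⟨δ₁, hδ₁, H1⟩ := near_s hs (ε / M) hε1
  obtain ⟨δ₂, hδ₂, H2⟩ := near_s hs.inv (ε / M) hε1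
  obtain ⟨δ₃, hδ₃, H3⟩ := inv_close hs.dif δ₂ hδ₂
  obtain ⟨K1, -, hK1⟩ := Sk.S_bdd hs
  obtain ⟨K2, -, hK2⟩ := Sk.S_bdd hs.inv
  refine ⟨min δ₁ δ₃, lt_min hδ₁ hδ₃, ?_⟩
  intro g hg hgf Ps Pc Pu hP hRs hRu
  obtain ⟨A1, A2⟩ := H1 g hg (fun v => ⟨lt_of_lt_of_le (hgf v).1 (min_le_left _ _),
    lt_of_lt_of_le (hgf v).2 (min_le_left _ _)⟩) Ps Pc Pu hP hRs
  have H3' := H3 g hg (fun v => ⟨lt_of_lt_of_le (hgf v).1 (min_le_right _ _),
    lt_of_lt_of_le (hgf v).2 (min_le_right _ _)⟩)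
  rw [← Sk.inv_f] at H3'
  obtain ⟨B1, B2⟩ := H2 g⁻¹ hg.inv H3' Pu Pc Ps (hP.symm hg) hRu
  obtain ⟨V1, hV1c, hV1P, hV1e⟩ := vfield_one Ps hP.cont_s s.ps s.S (Sk.S_ps hs) hK1 hε1.le A1 A2
  obtain ⟨V2, hV2c, hV2P, hV2e⟩ := vfield_one Pu hP.cont_u s.pu s.inv.S (Sk.S_ps hs.inv) hK2
    hε1.le B1 B2
  have hfin : ∀ N : ℝ, N ≤ M → ∀ ℓ : X d, ε / M * N * ‖ℓ‖ ≤ ε * ‖ℓ‖ := by
    intro N hN ℓ
    refine mul_le_mul_of_nonneg_right ?_ (norm_nonneg _)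
    rw [div_mul_eq_mul_div, div_le_iff₀ hMp]
    exact mul_le_mul_of_nonneg_left hN hε.le
  refine ⟨fun c => if c then V1 else V2, ?_, ?_, ?_, ?_⟩
  · intro c
    cases c
    · exact hV2c
    · exact hV1c
  · exact hV1P
  · exact hV2P
  · intro c p ℓ
    cases c
    · refine (hV2e p ℓ).trans (hfin _ ?_ ℓ)
      have := norm_nonneg s.ps
      rw [hM]
      linarith
    · refine (hV1e p ℓ).trans (hfin _ ?_ ℓ)
      have := norm_nonneg s.pu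
      rw [hM]
      linarith

end Pool.Agent.H44.AC
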