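import Pool.Agent.H44.AC.Run
import Pool.Agent.H44.AC.SWc
import Pool.Agent.H44.AC.VField

/-!
# [H44 AC CONV] If `f` is accessible then `V = ⊤`

`near_eq` for `s` and for `s.inv` (with `PH.symm`, `inv_f`): `E^s = {(a, S a)}`, `E^u = {(b, S^u b)}`.
`leaf_leg`: if `Leaf Ps p q` then `q = s.leg true (q.1 - p.1) p`: the curve `γ` has `γ' = (γ₁', γ₂')` with `ps γ₁' = γ₁'`, `γ₂' = S(γ₁) γ₁'` on `[0, 1]`, so by `W_curve`
`ps (q.1 - p.1) = q.1 - p.1` and `q.2 - p.2 = ∫ S(γ₁) γ₁' = W p.1 (q.1 - p.1)`.  The same for `Pu` and `s.inv`.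
So `SuPath Ps Pu p q` gives a list `L` with `q = s.run L p` (induction on `Relation.ReflTransGen`).
Accessibility from `(0, 0)` to `(0, y)`: there are integral `n`, `m` and `L` with `(n, y + m) = run L (0, 0)`, so `y + m - base 0 n ∈ V` (`run_mem_V`).  Hence the
countable set of the classes of `base 0 n - m` is everything in the quotient `X k ⧸ V`.  A nonzero real vector space is uncountable
(it contains a line: `Cardinal.mk_real`/`not_countable`, `Set.not_countable_univ`, `Function.Injective.countable` for `t ↦ t • e`), so the quotient is trivial and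
`V = ⊤` (`Submodule.subsingleton_quotient_iff_eq_top`).  (`{n : X d | Int1 n}` is countable: the range of a function on `Fin d → ℤ`.)
-/

set_option autoImplicit false

namespace Pool.Agent.H44.AC

variable {d k : ℕ}

theorem leaf_leg {s : Sk d k} (hs : s.Ok) {Ps Pc Pu : E d k → (E d k →L[ℝ] E d k)}
    (hP : PH s.f Ps Pc Pu) (hr : Rk Ps s.rs) {p q : E d k} (h : Leaf Ps p q) :
    q = s.leg true (q.1 - p.1) p := by
  obtain ⟨γ, γ', hγ', hd, h0, h1, ht⟩ := h
  have hn : ∀ t ∈ Set.Icc (0 : ℝ) 1, s.ps (γ' t).1 = (γ' t).1 ∧ (γ' t).2 = s.S (γ t).1 (γ' t).1 :=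
    fun t h2 => (near_eq hs hP hr (γ t) (γ' t)).1 (ht t h2)
  have hd1 : ∀ t, HasDerivAt (fun t => (γ t).1) (γ' t).1 t := fun t =>
    (ContinuousLinearMap.fst ℝ (X d) (X k)).hasFDerivAt.comp_hasDerivAt t (hd t)
  have hd2 : ∀ t, HasDerivAt (fun t => (γ t).2) (γ' t).2 t := fun t =>
    (ContinuousLinearMap.snd ℝ (X d) (X k)).hasFDerivAt.comp_hasDerivAt t (hd t)
  have hW := Sk.W_curve hs (fun t => (γ t).1) (fun t => (γ' t).1) (continuous_fst.comp hγ') hd1
    fun t h2 => (hn t h2).1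
  simp only [h0, h1] at hW
  have hI : ∫ t in (0 : ℝ)..1, (γ' t).2 = q.2 - p.2 := by
    have h3 := intervalIntegral.integral_eq_sub_of_hasDerivAt (a := 0) (b := 1)
      (fun t _ => hd2 t) ((continuous_snd.comp hγ').intervalIntegrable 0 1)
    rw [h0, h1] at h3
    exact h3
  have hI2 : ∫ t in (0 : ℝ)..1, (γ' t).2 = ∫ t in (0 : ℝ)..1, s.S (γ t).1 (γ' t).1 := by
    refine intervalIntegral.integral_congr fun t h2 => ?_
    rw [Set.uIcc_of_le zero_le_one] at h2
    exact (hn t h2).2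
  have h4 : s.W p.1 (q.1 - p.1) = q.2 - p.2 := by rw [hW.2, ← hI2, hI]
  show q = (p.1 + s.ps (q.1 - p.1), p.2 + s.W p.1 (q.1 - p.1))
  rw [hW.1, h4]
  ext i <;> simp

theorem leaf_leg_u {s : Sk d k} (hs : s.Ok) {Ps Pc Pu : E d k → (E d k →L[ℝ] E d k)}
    (hP : PH s.f Ps Pc Pu) (hu : Rk Pu s.ru) {p q : E d k} (h : Leaf Pu p q) :
    q = s.leg false (q.1 - p.1) p := by
  have h1 : PH s.inv.f Pu Pc Ps := by
    rw [Sk.inv_f]
    exact hP.symm hs.dif
  exact leaf_leg hs.inv h1 hu h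

theorem path_run {s : Sk d k} (hs : s.Ok) {Ps Pc Pu : E d k → (E d k →L[ℝ] E d k)}
    (hP : PH s.f Ps Pc Pu) (hr : Rk Ps s.rs) (hu : Rk Pu s.ru) {p q : E d k}
    (h : SuPath Ps Pu p q) : ∃ L, q = s.run L p := by
  induction h with
  | refl => exact ⟨[], rfl⟩
  | @tail b c _ hbc ih =>
    obtain ⟨L, rfl⟩ := ih
    rcases hbc with h1 | h1
    · have h2 := leaf_leg hs hP hr h1
      refine ⟨L ++ [(true, c.1 - (s.run L p).1)], h2.trans ?_⟩
      unfold Sk.run
      rw [List.foldl_append]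
      rfl
    · have h2 := leaf_leg_u hs hP hu h1
      refine ⟨L ++ [(false, c.1 - (s.run L p).1)], h2.trans ?_⟩
      unfold Sk.run
      rw [List.foldl_append]
      rfl

theorem conv {s : Sk d k} (hs : s.Ok) {Ps Pc Pu : E d k → (E d k →L[ℝ] E d k)}
    (hP : PH s.f Ps Pc Pu) (hr : Rk Ps s.rs) (hu : Rk Pu s.ru) (hA : Acc Ps Pu) : s.V = ⊤ := by
  have key : ∀ y : X k, s.V.mkQ y ∈ Set.range fun nm : (Fin d → ℤ) × (Fin k → ℤ) =>
      s.V.mkQ (s.base 0 (fun i => (nm.1 i : ℝ)) - fun i => (nm.2 i : ℝ)) := by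
    intro y
    obtain ⟨z, hz, hpath⟩ := hA (0, 0) (0, y)
    obtain ⟨L, hL⟩ := path_run hs hP hr hu hpath
    rw [Sk.run_eq] at hL
    have h1 : z.1 = s.runx L 0 := by
      have := congrArg Prod.fst hL
      simpa using this
    have h2 : y + z.2 = s.inc L 0 := by
      have := congrArg Prod.snd hL
      simpa using this
    have h3 := Sk.run_mem_V hs L 0
    rw [← h1, ← h2] at h3
    choose n hn using hz.1
    choose m hm using hz.2
    have en : z.1 = fun i => (n i : ℝ) := funext hn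
    have em : z.2 = fun i => (m i : ℝ) := funext hm
    refine ⟨(n, m), ?_⟩
    simp only
    rw [← en, ← em]
    have h4 : s.V.mkQ (y + z.2 - s.base 0 z.1) = 0 := by
      rw [Submodule.mkQ_apply, Submodule.Quotient.mk_eq_zero]
      exact h3
    rw [map_sub, map_add] at h4
    rw [map_sub, eq_comm, eq_sub_iff_add_eq]
    exact sub_eq_zero.1 h4
  have hcount : Countable (X k ⧸ s.V) := by
    have h1 : (Set.univ : Set (X k ⧸ s.V)) ⊆ Set.range fun nm : (Fin d → ℤ) × (Fin k → ℤ) =>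
        s.V.mkQ (s.base 0 (fun i => (nm.1 i : ℝ)) - fun i => (nm.2 i : ℝ)) := by
      intro c _
      obtain ⟨y, rfl⟩ := s.V.mkQ_surjective c
      exact key y
    exact Set.countable_univ_iff.1 ((Set.countable_range _).mono h1)
  rw [← Submodule.Quotient.subsingleton_iff]
  refine subsingleton_of_forall_eq 0 fun c => ?_
  by_contra hc
  have hinj : Function.Injective fun t : ℝ => t • c := smul_left_injective ℝ hc
  exact not_countable (hinj.countable)

end Pool.Agent.H44.AC
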