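import Mathlib

/-!
# Accessibility of affine skew products on tori (MP_5280cd_an): definitions

The torus is `T^(d+k) = E d k / ℤ^(d+k)`, `E d k = ℝ^d × ℝ^k`.  Diffeomorphisms of the torus are given by their lifts
`f : E ≃ E` (`Dif`).  A splitting `TM = E^s ⊕ E^c ⊕ E^u` is given by the projections `Ps v`, `Pc v`, `Pu v` onto the
bundles at the point `v`; they are continuous and periodic functions of `v` (`PH`).
-/

set_option autoImplicit false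

namespace Pool.Agent.H44.AC

/-! ### the torus and its diffeomorphisms -/

/-- the vector space `ℝ^d` -/
abbrev X (d : ℕ) : Type := Fin d → ℝ

/-- the universal cover of the torus `T^(d+k)` -/
abbrev E (d k : ℕ) : Type := X d × X k

/-- integral vectors -/
def Int1 {d : ℕ} (n : X d) : Prop := ∀ i, ∃ m : ℤ, n i = m

/-- the lattice `ℤ^(d+k)` -/
def Int2 {d k : ℕ} (z : E d k) : Prop := Int1 z.1 ∧ Int1 z.2

variable {d k : ℕ}

/-- lifts of `C^1` diffeomorphisms of the torus -/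
structure Dif (f : Equiv.Perm (E d k)) : Prop where
  c1 : ContDiff ℝ 1 f
  c1' : ContDiff ℝ 1 (f⁻¹ : Equiv.Perm (E d k))
  per : ∀ v z, Int2 z → Int2 (f (v + z) - f v)
  per' : ∀ v z, Int2 z → Int2 ((f⁻¹ : Equiv.Perm (E d k)) (v + z) - (f⁻¹ : Equiv.Perm (E d k)) v)

/-! ### partial hyperbolicity -/

/-- the derivative of `f^n` at `v`, `n : ℤ` -/
noncomputable def Dn (f : Equiv.Perm (E d k)) (n : ℤ) (v : E d k) : E d k →L[ℝ] E d k :=
  fderiv ℝ (f ^ n : Equiv.Perm (E d k)) v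

/-- `f` is partially hyperbolic with the splitting `E^s ⊕ E^c ⊕ E^u` given by the projections `Ps`, `Pc`, `Pu` -/
structure PH (f : Equiv.Perm (E d k)) (Ps Pc Pu : E d k → (E d k →L[ℝ] E d k)) : Prop where
  /-- the projections are continuous -/
  cont_s : Continuous Ps
  cont_c : Continuous Pc
  cont_u : Continuous Pu
  /-- they are defined on the torus -/
  per_s : ∀ v z, Int2 z → Ps (v + z) = Ps v
  per_c : ∀ v z, Int2 z → Pc (v + z) = Pc v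
  per_u : ∀ v z, Int2 z → Pu (v + z) = Pu v
  /-- they are the projections of a direct sum decomposition -/
  sum : ∀ v x, Ps v x + Pc v x + Pu v x = x
  ss : ∀ v x, Ps v (Ps v x) = Ps v x
  cc : ∀ v x, Pc v (Pc v x) = Pc v x
  uu : ∀ v x, Pu v (Pu v x) = Pu v x
  sc : ∀ v x, Ps v (Pc v x) = 0
  su : ∀ v x, Ps v (Pu v x) = 0
  cs : ∀ v x, Pc v (Ps v x) = 0
  cu : ∀ v x, Pc v (Pu v x) = 0
  us : ∀ v x, Pu v (Ps v x) = 0
  uc : ∀ v x, Pu v (Pc v x) = 0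
  /-- `E^s` and `E^u` are nonzero -/
  nonzero_s : ∀ v, Ps v ≠ 0
  nonzero_u : ∀ v, Pu v ≠ 0
  /-- the splitting is `Df`-invariant -/
  inv_s : ∀ v x, fderiv ℝ f v (Ps v x) = Ps (f v) (fderiv ℝ f v x)
  inv_c : ∀ v x, fderiv ℝ f v (Pc v x) = Pc (f v) (fderiv ℝ f v x)
  inv_u : ∀ v x, fderiv ℝ f v (Pu v x) = Pu (f v) (fderiv ℝ f v x)
  /-- the four inequalities, for unit vectors -/
  est : ∃ C r : ℝ, 0 < C ∧ 0 < r ∧ r < 1 ∧ ∀ (v : E d k) (n : ℕ),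
    (∀ x, Ps v x = x → ‖x‖ = 1 → ‖Dn f n v x‖ ≤ C * r ^ n) ∧
    (∀ x, Pu v x = x → ‖x‖ = 1 → ‖Dn f (-n) v x‖ ≤ C * r ^ n) ∧
    (∀ x y, Ps v x = x → ‖x‖ = 1 → Pc v y = y → ‖y‖ = 1 →
      ‖Dn f n v x‖ ≤ C * r ^ n * ‖Dn f n v y‖) ∧
    (∀ x y, Pu v x = x → ‖x‖ = 1 → Pc v y = y → ‖y‖ = 1 →
      ‖Dn f (-n) v x‖ ≤ C * r ^ n * ‖Dn f (-n) v y‖)

/-- the dimension of the bundle is `r` -/
def Rk (P : E d k → (E d k →L[ℝ] E d k)) (r : ℕ) : Prop :=
  ∀ v, Module.finrank ℝ (LinearMap.range (P v : E d k →ₗ[ℝ] E d k)) = r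

/-! ### accessibility -/

/-- `p` and `q` lie in one leaf of the foliation tangent to the bundle given by `P`: there is a `C^1` curve from `p`
to `q` tangent to the bundle -/
def Leaf (P : E d k → (E d k →L[ℝ] E d k)) (p q : E d k) : Prop :=
  ∃ γ γ' : ℝ → E d k, Continuous γ' ∧ (∀ t, HasDerivAt γ (γ' t) t) ∧ γ 0 = p ∧ γ 1 = q ∧
    ∀ t ∈ Set.Icc (0 : ℝ) 1, P (γ t) (γ' t) = γ' t

/-- `p` and `q` are joined by an `su`-path (in the universal cover) -/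
def SuPath (Ps Pu : E d k → (E d k →L[ℝ] E d k)) : E d k → E d k → Prop :=
  Relation.ReflTransGen fun a b => Leaf Ps a b ∨ Leaf Pu a b

/-- accessibility: any two points of the torus are joined by an `su`-path -/
def Acc (Ps Pu : E d k → (E d k →L[ℝ] E d k)) : Prop :=
  ∀ p q, ∃ z, Int2 z ∧ SuPath Ps Pu p (q + z)

/-- every partially hyperbolic diffeomorphism which is `C^1` close to `f`, with stable and unstable bundles of
dimension `ds` and `du`, is accessible -/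
def StAcc (ds du : ℕ) (f : Equiv.Perm (E d k)) : Prop :=
  ∃ δ : ℝ, 0 < δ ∧ ∀ g : Equiv.Perm (E d k), Dif g →
    (∀ v, ‖g v - f v‖ < δ ∧ ‖fderiv ℝ g v - fderiv ℝ f v‖ < δ) →
    ∀ Ps Pc Pu, PH g Ps Pc Pu → Rk Ps ds → Rk Pu du → Acc Ps Pu

/-! ### affine skew products -/

/-- `A × B` is partially hyperbolic on `T^(d+k)` with centre `{0} × ℝ^k`: `A`, `B` are automorphisms of the lattices,
`ℝ^d = im ps ⊕ im pu` is an `A`-invariant decomposition with the inequalities -/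
structure Dom (A : X d ≃L[ℝ] X d) (B : X k ≃L[ℝ] X k) (ps pu : X d →L[ℝ] X d) : Prop where
  intA : ∀ n, Int1 (A n) ↔ Int1 n
  intB : ∀ n, Int1 (B n) ↔ Int1 n
  sum : ∀ x, ps x + pu x = x
  ss : ∀ x, ps (ps x) = ps x
  comm : ∀ x, ps (A x) = A (ps x)
  nonzero_s : ps ≠ 0
  nonzero_u : pu ≠ 0
  est : ∃ C r : ℝ, 0 < C ∧ 0 < r ∧ r < 1 ∧ ∀ n : ℕ,
    ‖(A : X d →L[ℝ] X d) ^ n * ps‖ ≤ C * r ^ n ∧
    ‖(A.symm : X d →L[ℝ] X d) ^ n * pu‖ ≤ C * r ^ n ∧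
    ‖(A : X d →L[ℝ] X d) ^ n * ps‖ * ‖(B.symm : X k →L[ℝ] X k) ^ n‖ ≤ C * r ^ n ∧
    ‖(A.symm : X d →L[ℝ] X d) ^ n * pu‖ * ‖(B : X k →L[ℝ] X k) ^ n‖ ≤ C * r ^ n

/-- the data of an affine skew product `(x, y) ↦ (A x, B y + h x)` -/
structure Sk (d k : ℕ) where
  A : X d ≃L[ℝ] X d
  B : X k ≃L[ℝ] X k
  ps : X d →L[ℝ] X d
  pu : X d →L[ℝ] X d
  h : X d → X k

/-- `h` is the lift of a `C^1` map `T^d → T^k` -/
structure Sk.Ok (s : Sk d k) : Prop where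
  dom : Dom s.A s.B s.ps s.pu
  c1 : ContDiff ℝ 1 s.h
  per : ∀ x n, Int1 n → Int1 (s.h (x + n) - s.h x)

/-- the affine skew product `(x, y) ↦ (A x, B y + h x)` -/
def Sk.f (s : Sk d k) : Equiv.Perm (E d k) where
  toFun v := (s.A v.1, s.B v.2 + s.h v.1)
  invFun v := (s.A.symm v.1, s.B.symm (v.2 - s.h (s.A.symm v.1)))
  left_inv v := by simp
  right_inv v := by simp

end Pool.Agent.H44.AC
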