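import Pool.Agent.H44.AC.SWb

/-!
# [H44 AC DET] At most `k` bad parameters

* `W_lin`, `J_lin`: `W` is linear in `h` (`W_term` gives the summability, `Summable.tsum_add`, `tsum_const_smul`), for `s` and for `s.inv`
  (the data `-B⁻¹ (h₁ + t h₂)(A⁻¹ x)` of the inverse is again of this form), so `J` is linear in `h`.
* `det_count`: choose `q : Fin k → ι` with `v (q i)` a basis (`span = ⊤`, finrank `X k = k`), `P` the matrix with rows `v (q i)` (invertible), `R` the matrix with rows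
  `u (q i)`.  If `det (R + t P) ≠ 0` then the rows span `X k`.  `det (R + t P) = det P * det (t + P⁻¹ R)` (or `R P⁻¹`) `= det P * (charpoly of -P⁻¹ R) (t)`
  (`Matrix.eval_charpoly`), which has at most `k` roots (`Polynomial.card_roots'`, `Matrix.charpoly_natDegree_eq_dim`, `Matrix.charpoly_monic`).
-/

set_option autoImplicit false

namespace Pool.Agent.H44.AC

variable {d k : ℕ}

private theorem W_summable {s : Sk d k} (hs : s.Ok) (x ℓ : X d) :
    Summable fun j : ℕ => (s.b ^ (j + 1)) (s.h ((s.a ^ j) (x + s.ps ℓ)) - s.h ((s.a ^ j) x)) := by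
  obtain ⟨K, r, hK, hr, hr1, h⟩ := Sk.W_term hs
  refine Summable.of_norm_bounded (g := fun j : ℕ => K * r ^ j * ‖ℓ‖) ?_ (fun j => h j x ℓ)
  exact ((summable_geometric_of_lt_one hr.le hr1).mul_left K).mul_right _

theorem W_lin {A : X d ≃L[ℝ] X d} {B : X k ≃L[ℝ] X k} {ps pu : X d →L[ℝ] X d} {h₁ h₂ : X d → X k}
    (h1 : (⟨A, B, ps, pu, h₁⟩ : Sk d k).Ok) (h2 : (⟨A, B, ps, pu, h₂⟩ : Sk d k).Ok) (t : ℝ)
    (x ℓ : X d) : (⟨A, B, ps, pu, h₁ + t • h₂⟩ : Sk d k).W x ℓ =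
      (⟨A, B, ps, pu, h₁⟩ : Sk d k).W x ℓ + t • (⟨A, B, ps, pu, h₂⟩ : Sk d k).W x ℓ := by
  have s1 := W_summable h1 x ℓ
  have s2 := W_summable h2 x ℓ
  unfold Sk.W
  rw [smul_neg, ← neg_add, ← s2.tsum_const_smul, ← s1.tsum_add (s2.const_smul t)]
  congr 1
  refine tsum_congr fun j => ?_
  have key : ∀ (L : X k →L[ℝ] X k) (y y' : X d), L ((h₁ + t • h₂) y - (h₁ + t • h₂) y') =
      L (h₁ y - h₁ y') + t • L (h₂ y - h₂ y') := by
    intro L y y'
    rw [← map_smul, ← map_add]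
    congr 1
    simp only [Pi.add_apply, Pi.smul_apply, smul_sub]
    abel
  exact key _ _ _

theorem J_lin {A : X d ≃L[ℝ] X d} {B : X k ≃L[ℝ] X k} {ps pu : X d →L[ℝ] X d} {h₁ h₂ : X d → X k}
    (h1 : (⟨A, B, ps, pu, h₁⟩ : Sk d k).Ok) (h2 : (⟨A, B, ps, pu, h₂⟩ : Sk d k).Ok) (t : ℝ)
    (q : X d × X d × X d) : (⟨A, B, ps, pu, h₁ + t • h₂⟩ : Sk d k).J q =
      (⟨A, B, ps, pu, h₁⟩ : Sk d k).J q + t • (⟨A, B, ps, pu, h₂⟩ : Sk d k).J q := by
  have h3 : ∀ y ℓ, (⟨A, B, ps, pu, h₁ + t • h₂⟩ : Sk d k).inv.W y ℓ =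
      (⟨A, B, ps, pu, h₁⟩ : Sk d k).inv.W y ℓ + t • (⟨A, B, ps, pu, h₂⟩ : Sk d k).inv.W y ℓ := by
    intro y ℓ
    have h4 : (⟨A, B, ps, pu, h₁ + t • h₂⟩ : Sk d k).inv =
        ⟨A.symm, B.symm, pu, ps, (fun x => -B.symm (h₁ (A.symm x))) +
          t • (fun x => -B.symm (h₂ (A.symm x)))⟩ := by
      unfold Sk.inv
      congr 1
      ext1 x
      simp only [Pi.add_apply, Pi.smul_apply, map_add, map_smul, smul_neg, neg_add]
    rw [h4]
    exact W_lin h1.inv h2.inv t y ℓ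
  have h5 := fun y ℓ => W_lin h1 h2 t y ℓ
  unfold Sk.J
  rw [h5, h5, h3, h3]
  simp only [smul_add]
  abel

theorem det_count {ι : Type*} (u v : ι → X k) (hv : Submodule.span ℝ (Set.range v) = ⊤) :
    {t : ℝ | Submodule.span ℝ (Set.range fun q => u q + t • v q) ≠ ⊤}.encard ≤ k := by
  classical
  -- a basis among the vectors `v q`
  have hb : ∃ q : Fin k → ι, LinearIndependent ℝ (fun i => v (q i)) := by
    obtain ⟨s, hs1, hs2, hs3⟩ := exists_linearIndependent ℝ (Set.range v)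
    rw [hv] at hs2
    have hcard : Module.finrank ℝ (X k) = k := by simp
    let b : Module.Basis s ℝ (X k) := Module.Basis.mk hs3 (by
      rw [Subtype.range_coe]
      exact hs2.ge)
    haveI : Finite s := Module.Finite.finite_basis b
    haveI : Fintype s := Fintype.ofFinite s
    have hc2 : Fintype.card s = k := by rw [← Module.finrank_eq_card_basis b, hcard]
    let e : Fin k ≃ s := (Fintype.equivFinOfCardEq hc2).symm
    have h1 : ∀ i : Fin k, ∃ q : ι, v q = (e i : X k) := fun i => hs1 (e i).2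
    choose q hq using h1
    refine ⟨q, ?_⟩
    have h2 : (fun i => v (q i)) = (Subtype.val : s → X k) ∘ e := by
      ext1 i
      exact hq i
    rw [h2]
    exact hs3.comp _ e.injective
  obtain ⟨q, hq⟩ := hb
  set P : Matrix (Fin k) (Fin k) ℝ := Matrix.of fun i => v (q i) with hP
  set R : Matrix (Fin k) (Fin k) ℝ := Matrix.of fun i => u (q i) with hR
  have hPu : IsUnit P := by
    rw [← Matrix.linearIndependent_rows_iff_isUnit]
    exact hq
  have hPdet : IsUnit P.det := (Matrix.isUnit_iff_isUnit_det P).1 hPu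
  have hspan : ∀ t : ℝ, (R + t • P).det ≠ 0 →
      Submodule.span ℝ (Set.range fun q => u q + t • v q) = ⊤ := by
    intro t ht
    have h1 : IsUnit (R + t • P) := (Matrix.isUnit_iff_isUnit_det _).2 (isUnit_iff_ne_zero.2 ht)
    rw [← Matrix.linearIndependent_rows_iff_isUnit] at h1
    have h2 := h1.span_eq_top_of_card_eq_finrank' (by simp)
    rw [eq_top_iff, ← h2]
    refine Submodule.span_mono ?_
    rintro _ ⟨i, rfl⟩
    exact ⟨q i, rfl⟩
  -- the determinant is a polynomial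
  set p : Polynomial ℝ := (-(R * P⁻¹)).charpoly with hp
  have hdet : ∀ t : ℝ, (R + t • P).det = p.eval t * P.det := by
    intro t
    rw [hp, Matrix.eval_charpoly, ← Matrix.det_mul]
    congr 1
    rw [sub_neg_eq_add, add_mul, Matrix.mul_assoc, Matrix.nonsing_inv_mul _ hPdet, mul_one,
      Matrix.scalar_apply, add_comm, ← Matrix.smul_eq_diagonal_mul]
  have hp0 : p ≠ 0 := (Matrix.charpoly_monic _).ne_zero
  have hsub : {t : ℝ | Submodule.span ℝ (Set.range fun q => u q + t • v q) ≠ ⊤} ⊆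
      (p.roots.toFinset : Set ℝ) := by
    intro t ht
    simp only [Finset.mem_coe, Multiset.mem_toFinset]
    rw [Polynomial.mem_roots hp0]
    by_contra h
    apply ht
    apply hspan t
    rw [hdet]
    exact mul_ne_zero h hPdet.ne_zero
  refine (Set.encard_le_encard hsub).trans ?_
  rw [Set.encard_coe_eq_coe_finsetCard]
  have h1 : p.roots.toFinset.card ≤ k := by
    refine (Multiset.toFinset_card_le _).trans ((Polynomial.card_roots' p).trans ?_)
    rw [hp, Matrix.charpoly_natDegree_eq_dim, Fintype.card_fin]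
  exact_mod_cast h1

theorem V_count {A : X d ≃L[ℝ] X d} {B : X k ≃L[ℝ] X k} {ps pu : X d →L[ℝ] X d} {h₁ h₂ : X d → X k}
    (h1 : (⟨A, B, ps, pu, h₁⟩ : Sk d k).Ok) (h2 : (⟨A, B, ps, pu, h₂⟩ : Sk d k).Ok)
    (hV : (⟨A, B, ps, pu, h₂⟩ : Sk d k).V = ⊤) :
    {t : ℝ | (⟨A, B, ps, pu, h₁ + t • h₂⟩ : Sk d k).V ≠ ⊤}.encard ≤ k := by
  have h3 := det_count (⟨A, B, ps, pu, h₁⟩ : Sk d k).J (⟨A, B, ps, pu, h₂⟩ : Sk d k).J hV
  refine le_trans (Set.encard_le_encard ?_) h3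
  intro t ht
  have h4 : (⟨A, B, ps, pu, h₁ + t • h₂⟩ : Sk d k).J = fun q =>
      (⟨A, B, ps, pu, h₁⟩ : Sk d k).J q + t • (⟨A, B, ps, pu, h₂⟩ : Sk d k).J q :=
    funext fun q => J_lin h1 h2 t q
  intro h5
  apply ht
  show Submodule.span ℝ (Set.range (⟨A, B, ps, pu, h₁ + t • h₂⟩ : Sk d k).J) = ⊤
  rw [h4]
  exact h5

end Pool.Agent.H44.AC
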