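import Pool.Agent.H44.AC.FamA

/-!
# [H44 AC FAM] The family of paths: the main estimate

`runx` of a scaled loop from `x` is `x` (`loop_closed`); by `inc_append`, `runx_append` the `inc` of the family is the sum over `i`, `j` of the `inc` of the scaled loops plus `W x z.1 + W^u (x + ps z.1) z.1`
(a general lemma: if `runx (F i) x = x` for all `i` in a list `l` then `runx (l.flatMap F) x = x` and `inc (l.flatMap F) x = ∑ inc (F i) x`).  For fixed `i`, `t = z.2 i`: the loops with `j + 1 ≤ t` have `cl (t - j) = 1`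
and give `J (q i)` (`loop_inc`), those with `j ≥ t` have `cl = 0` and give `0` (`W_zero`), at most one `j` remains and gives at most `8 K R` (`W_bd` for `s` and `s.inv`, `fam_bd` or directly).
The number of full loops is `⌊t⌋₊` (`t ≤ N`), `|⌊t⌋₊ - t| ≤ 1`.  (Simplest: by induction on `N` show
`‖∑_{j < N} inc_j - (min t N) J (q i)‖ ≤ C' if N < t + 1 …`; or bound `‖∑_{j<N} (inc_j - cl (t - j) • J (q i))‖`: the terms with `cl (t - j) ∈ {0, 1}` vanish, at most one `j` has `0 < t - j < 1`, and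
`∑_{j < N} cl (t - j) = t` for `0 ≤ t ≤ N`, by induction on `N`: `∑_{j<N} cl (t - j) = min t N`.)
-/

set_option autoImplicit false

namespace Pool.Agent.H44.AC

variable {d k : ℕ}

/-- a scaled loop -/
def sl (q : X d × X d × X d) (x : X d) (σ : ℝ) : List (Bool × X d) :=
  (loop q x).map fun c => (c.1, σ • c.2)

theorem ev_fam (q : Fin k → X d × X d × X d) (N : ℕ) (x : X d) (z : E d k) :
    ev (fam q N x) z = ((List.finRange k).flatMap fun i => (List.range N).flatMap fun j : ℕ =>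
      sl (q i) x (cl (z.2 i - j))) ++ [(true, z.1), (false, z.1)] := by
  simp only [ev, fam, List.map_append, List.map_flatMap, List.map_map, sl]
  rfl

theorem inc_nil (s : Sk d k) (x : X d) : s.inc [] x = 0 := rfl

theorem runx_nil (s : Sk d k) (x : X d) : s.runx [] x = x := rfl

theorem flat (s : Sk d k) {ι : Type*} (l : List ι) (F : ι → List (Bool × X d)) (x : X d)
    (h : ∀ i, s.runx (F i) x = x) :
    s.runx (l.flatMap F) x = x ∧ s.inc (l.flatMap F) x = (l.map fun i => s.inc (F i) x).sum := by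
  induction l with
  | nil => exact ⟨rfl, rfl⟩
  | cons a l ih =>
    rw [List.flatMap_cons, Sk.runx_append, Sk.inc_append, h a, ih.1, ih.2]
    exact ⟨rfl, by simp⟩

theorem leg_bd {s : Sk d k} (hs : s.Ok) : ∃ K : ℝ, 0 < K ∧ ∀ (c : Bool) (ℓ x : X d),
    ‖s.inc [(c, ℓ)] x‖ ≤ K * ‖ℓ‖ := by
  obtain ⟨K1, hK1, h1⟩ := Sk.W_bd hs
  obtain ⟨K2, hK2, h2⟩ := Sk.W_bd hs.inv
  refine ⟨K1 + K2, by positivity, fun c ℓ x => ?_⟩
  cases c with
  | true =>
    show ‖(0 : X k) + s.W x ℓ‖ ≤ _
    rw [zero_add]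
    exact (h1 x ℓ).trans (mul_le_mul_of_nonneg_right (by linarith) (norm_nonneg _))
  | false =>
    show ‖(0 : X k) + s.inv.W x ℓ‖ ≤ _
    rw [zero_add]
    exact (h2 x ℓ).trans (mul_le_mul_of_nonneg_right (by linarith) (norm_nonneg _))

theorem inc_bd {s : Sk d k} {K : ℝ} (hK : 0 < K) (h : ∀ (c : Bool) (ℓ x : X d), ‖s.inc [(c, ℓ)] x‖ ≤ K * ‖ℓ‖)
    (R : ℝ) (L : List (Bool × X d)) (hL : ∀ c ∈ L, ‖c.2‖ ≤ R) (x : X d) :
    ‖s.inc L x‖ ≤ K * R * L.length := by
  induction L generalizing x with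
  | nil => rw [inc_nil]; simp
  | cons c L ih =>
    have e : c :: L = [c] ++ L := rfl
    rw [e, Sk.inc_append]
    refine (norm_add_le _ _).trans ?_
    have h1 := h c.1 c.2 x
    have h2 : K * ‖c.2‖ ≤ K * R := mul_le_mul_of_nonneg_left (hL c (by simp)) hK.le
    have h3 := ih (fun c' hc' => hL c' (List.mem_cons_of_mem _ hc')) (s.runx [c] x)
    rw [List.length_append, List.length_singleton]
    push_cast
    have e2 : ‖s.inc [c] x‖ ≤ K * ‖c.2‖ := h1
    nlinarith

theorem cl_sum (t : ℝ) (ht : 0 ≤ t) (N : ℕ) :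
    ∑ j ∈ Finset.range N, cl (t - j) = min t N := by
  induction N with
  | zero => simp [ht]
  | succ N ih =>
    rw [Finset.sum_range_succ, ih]
    push_cast
    unfold cl
    rcases le_total t N with h | h
    · rw [min_eq_left h, min_eq_left (by linarith : t - N ≤ 1), max_eq_left (by linarith),
        min_eq_left (by linarith)]
      simp
    · rw [min_eq_right h]
      rcases le_total t (N + 1) with h' | h'
      · rw [min_eq_left (by linarith : t - N ≤ 1), max_eq_right (by linarith), min_eq_left h']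
        ring
      · rw [min_eq_right (by linarith : (1 : ℝ) ≤ t - N), min_eq_right h']
        simp

theorem range_list_sum {F : Type*} [AddCommMonoid F] (f : ℕ → F) (N : ℕ) :
    ((List.range N).map f).sum = ∑ j ∈ Finset.range N, f j := by
  induction N with
  | zero => simp
  | succ N ih => rw [List.range_succ, List.map_append, List.sum_append, ih, Finset.sum_range_succ]; simp

theorem sl_zero {s : Sk d k} (q : X d × X d × X d) (x : X d) : s.inc (sl q x 0) x = 0 := by
  have key : ∀ (L : List (Bool × X d)) (p : E d k),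
      s.run (L.map fun c => (c.1, (0 : ℝ) • c.2)) p = p := by
    intro L
    induction L with
    | nil => intro p; rfl
    | cons c L ih =>
      intro p
      rw [List.map_cons]
      show s.run (L.map fun c => (c.1, (0 : ℝ) • c.2)) (s.leg c.1 ((0 : ℝ) • c.2) p) = p
      rw [ih, zero_smul]
      cases h : c.1 with
      | true =>
        show (p.1 + s.ps 0, p.2 + s.W p.1 0) = p
        rw [map_zero, Sk.W_zero, add_zero, add_zero]
      | false =>
        show (p.1 + s.pu 0, p.2 + s.inv.W p.1 0) = p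
        rw [map_zero, Sk.W_zero, add_zero, add_zero]
  show (s.run _ (x, 0)).2 = 0
  rw [sl, key]

theorem sl_one {s : Sk d k} (hs : s.Ok) (q : X d × X d × X d) (x : X d) :
    s.inc (sl q x 1) x = s.J q := by
  have e : sl q x 1 = loop q x := by
    unfold sl
    conv_rhs => rw [← List.map_id (loop q x)]
    refine List.map_congr_left fun c _ => ?_
    simp
  rw [e, loop_inc hs]

theorem one_loop {s : Sk d k} (hs : s.Ok) {K : ℝ} (hK : 0 < K)
    (h : ∀ (c : Bool) (ℓ x : X d), ‖s.inc [(c, ℓ)] x‖ ≤ K * ‖ℓ‖) (q : X d × X d × X d) (N : ℕ) (x : X d)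
    (hx : ‖x‖ ≤ 2) (t : ℝ) (ht : 0 ≤ t) (htN : t ≤ N) :
    ‖(∑ j ∈ Finset.range N, s.inc (sl q x (cl (t - j))) x) - t • s.J q‖ ≤
      K * (‖q.1‖ + 2 + ‖q.2.1‖ + ‖q.2.2‖) * 8 + ‖s.J q‖ := by
  obtain ⟨R, hR⟩ : ∃ R : ℝ, R = ‖q.1‖ + 2 + ‖q.2.1‖ + ‖q.2.2‖ := ⟨_, rfl⟩
  rw [← hR]
  have n1 := norm_nonneg q.1
  have n2 := norm_nonneg q.2.1
  have n3 := norm_nonneg q.2.2
  have hcl : ∀ u : ℝ, 0 ≤ cl u ∧ cl u ≤ 1 := fun u =>
    ⟨le_max_left _ _, max_le zero_le_one (min_le_right _ _)⟩
  have hb : ∀ σ : ℝ, 0 ≤ σ → σ ≤ 1 → ‖s.inc (sl q x σ) x - σ • s.J q‖ ≤ K * R * 8 + ‖s.J q‖ := by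
    intro σ h0 h1
    have h2 : ∀ c ∈ sl q x σ, ‖c.2‖ ≤ R := by
      intro c hc
      obtain ⟨c', hc', rfl⟩ := List.mem_map.1 hc
      have h3 : ‖c'.2‖ ≤ R := by
        have n4 := norm_sub_le q.1 x
        have n5 := norm_sub_le x q.1
        simp only [loop, List.mem_cons, List.not_mem_nil, or_false] at hc'
        rcases hc' with rfl | rfl | rfl | rfl | rfl | rfl | rfl | rfl <;> simp only [norm_neg] <;>
          linarith
      show ‖σ • c'.2‖ ≤ R
      rw [norm_smul, Real.norm_of_nonneg h0]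
      calc σ * ‖c'.2‖ ≤ 1 * ‖c'.2‖ := mul_le_mul_of_nonneg_right h1 (norm_nonneg _)
        _ ≤ R := by rw [one_mul]; exact h3
    have h4 := inc_bd hK h R (sl q x σ) h2 x
    have h5 : (sl q x σ).length = 8 := by simp [sl, loop]
    rw [h5] at h4
    refine (norm_sub_le _ _).trans ?_
    rw [norm_smul, Real.norm_of_nonneg h0]
    have h6 : σ * ‖s.J q‖ ≤ 1 * ‖s.J q‖ := mul_le_mul_of_nonneg_right h1 (norm_nonneg _)
    push_cast at h4
    linarith
  have hsum : (∑ j ∈ Finset.range N, s.inc (sl q x (cl (t - j))) x) - t • s.J q =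
      ∑ j ∈ Finset.range N, (s.inc (sl q x (cl (t - j))) x - cl (t - j) • s.J q) := by
    rw [Finset.sum_sub_distrib, ← Finset.sum_smul, cl_sum t ht, min_eq_left htN]
  rw [hsum]
  have hKR : 0 ≤ K * R * 8 + ‖s.J q‖ := by
    have : 0 ≤ R := by rw [hR]; linarith
    positivity
  have hz : ∀ j ∈ Finset.range N, j ≠ ⌊t⌋₊ →
      s.inc (sl q x (cl (t - j))) x - cl (t - j) • s.J q = 0 := by
    intro j _ hj
    rcases lt_or_gt_of_ne hj with h1 | h1
    · have h2 : (j : ℝ) + 1 ≤ t := by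
        have h3 : ((j + 1 : ℕ) : ℝ) ≤ (⌊t⌋₊ : ℕ) := by exact_mod_cast h1
        have h4 := Nat.floor_le ht
        push_cast at h3
        linarith
      have h5 : cl (t - j) = 1 := by
        unfold cl
        rw [min_eq_right (by linarith)]
        exact max_eq_right zero_le_one
      rw [h5, sl_one hs, one_smul, sub_self]
    · have h2 : t ≤ j := by
        have h3 := Nat.lt_floor_add_one t
        have h4 : ((⌊t⌋₊ + 1 : ℕ) : ℝ) ≤ j := by exact_mod_cast h1
        push_cast at h4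
        linarith
      have h5 : cl (t - j) = 0 := by
        unfold cl
        exact max_eq_left ((min_le_left _ _).trans (by linarith))
      rw [h5, sl_zero, zero_smul, sub_self]
  by_cases hf : ⌊t⌋₊ ∈ Finset.range N
  · rw [Finset.sum_eq_single_of_mem _ hf hz]
    exact hb _ (hcl _).1 (hcl _).2
  · rw [Finset.sum_eq_zero fun j hj => hz j hj fun h => hf (h ▸ hj), norm_zero]
    exact hKR

theorem fam_est {s : Sk d k} (hs : s.Ok) (q : Fin k → X d × X d × X d) : ∃ C : ℝ, 0 < C ∧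
    ∀ (N : ℕ) (x : X d) (z : E d k), ‖x‖ ≤ 2 → ‖z.1‖ ≤ 1 → (∀ i, 0 ≤ z.2 i ∧ z.2 i ≤ N) →
      s.runx (ev (fam q N x) z) x = x + z.1 ∧
        ‖s.inc (ev (fam q N x) z) x - ∑ i, z.2 i • s.J (q i)‖ ≤ C := by
  obtain ⟨K, hK, hleg⟩ := leg_bd hs
  refine ⟨(∑ i, (K * (‖(q i).1‖ + 2 + ‖(q i).2.1‖ + ‖(q i).2.2‖) * 8 + ‖s.J (q i)‖)) + K * 1 * 2,
    by positivity, fun N x z hx hz1 hz2 => ?_⟩
  have h1 : ∀ i : Fin k, ∀ j : ℕ, s.runx (sl (q i) x (cl (z.2 i - j))) x = x := fun i j =>
    loop_closed hs (q i) x _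
  have h2 : ∀ i : Fin k, s.runx ((List.range N).flatMap fun j : ℕ => sl (q i) x (cl (z.2 i - j))) x = x ∧
      s.inc ((List.range N).flatMap fun j : ℕ => sl (q i) x (cl (z.2 i - j))) x =
        ((List.range N).map fun j : ℕ => s.inc (sl (q i) x (cl (z.2 i - j))) x).sum := fun i =>
    flat s (List.range N) (fun j : ℕ => sl (q i) x (cl (z.2 i - j))) x (h1 i)
  have h3 := flat s (List.finRange k) (fun i => (List.range N).flatMap fun j : ℕ =>
    sl (q i) x (cl (z.2 i - j))) x fun i => (h2 i).1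
  rw [ev_fam, Sk.runx_append, Sk.inc_append, h3.1, h3.2]
  constructor
  · show x + s.ps z.1 + s.pu z.1 = x + z.1
    rw [add_assoc, hs.dom.sum]
  · have h4 : ((List.finRange k).map fun i => s.inc ((List.range N).flatMap fun j : ℕ =>
        sl (q i) x (cl (z.2 i - j))) x).sum =
        ∑ i, ∑ j ∈ Finset.range N, s.inc (sl (q i) x (cl (z.2 i - j))) x := by
      rw [← Fin.sum_univ_def]
      refine Finset.sum_congr rfl fun i _ => ?_
      rw [(h2 i).2, range_list_sum]
    rw [h4]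
    have h5 : (∑ i, ∑ j ∈ Finset.range N, s.inc (sl (q i) x (cl (z.2 i - j))) x) +
        s.inc [(true, z.1), (false, z.1)] x - ∑ i, z.2 i • s.J (q i) =
        (∑ i, ((∑ j ∈ Finset.range N, s.inc (sl (q i) x (cl (z.2 i - j))) x) -
          z.2 i • s.J (q i))) + s.inc [(true, z.1), (false, z.1)] x := by
      rw [Finset.sum_sub_distrib]; abel
    rw [h5]
    refine (norm_add_le _ _).trans (add_le_add ?_ ?_)
    · refine (norm_sum_le _ _).trans (Finset.sum_le_sum fun i _ => ?_)
      exact one_loop hs hK hleg (q i) N x hx (z.2 i) (hz2 i).1 (hz2 i).2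
    · have h6 := inc_bd hK hleg 1 [(true, z.1), (false, z.1)] (by
        intro c hc
        simp only [List.mem_cons, List.not_mem_nil, or_false] at hc
        rcases hc with rfl | rfl <;> exact hz1) x
      simpa using h6

end Pool.Agent.H44.AC
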