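import Pool.Agent.H44.AC.Poly

/-!
# [H44 AC FAMA] The family of paths

`loop q x`: go from `x` to `q.1` (a stable and an unstable leg), run through the quadrilateral `J q`, and go back.  Scaled by `σ` it is still closed in `ℝ^d`.
`fam q N x`: for each `i < k` and `j < N` the loop number `i` scaled by `cl (z.2 i - j)` (so `⌊z.2 i⌋` full loops, one fractional loop, and trivial loops), then the stable and
the unstable leg with vector `z.1`.
* `loop_closed`: `Dom.sum`, `map_smul`.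
* `loop_inc`: `inc (loop q x) x = J q`: the first two and the last two legs cancel (`W_neg`, for `s` and `s.inv`): with `w = q.1 - x` they are `W x w`,
  `W^u (x + ps w) w`, then the four terms of `J q` starting at `x + ps w + pu w = q.1`, then `W^u (q.1) (-w)`, `W (q.1 + pu (-w)) (-w)`, and
  `q.1 + pu (-w) = x + ps w`.
* `fam_len`, `fam_bd`, `fam_cont`: immediate (`0 ≤ cl ≤ 1`; `‖cl • v‖ ≤ ‖v‖`; `R` = `1` plus the sum over `i` of `‖(q i).1‖ + 2 + ‖(q i).2.1‖ + ‖(q i).2.2‖`).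
-/

set_option autoImplicit false

namespace Pool.Agent.H44.AC

variable {d k : ℕ}

/-- `t` clamped to `[0, 1]` -/
noncomputable def cl (t : ℝ) : ℝ := max 0 (min t 1)

/-- the loop at `x` through the quadrilateral `q` -/
def loop (q : X d × X d × X d) (x : X d) : List (Bool × X d) :=
  [(true, q.1 - x), (false, q.1 - x), (true, q.2.1), (false, q.2.2), (true, -q.2.1),
    (false, -q.2.2), (false, x - q.1), (true, x - q.1)]

/-- the family of paths -/
noncomputable def fam (q : Fin k → X d × X d × X d) (N : ℕ) (x : X d) :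
    List (Bool × (E d k → X d)) :=
  ((List.finRange k).flatMap fun i => (List.range N).flatMap fun j : ℕ =>
    (loop (q i) x).map fun c => (c.1, fun z : E d k => cl (z.2 i - j) • c.2)) ++
    [(true, fun z => z.1), (false, fun z => z.1)]

theorem loop_closed {s : Sk d k} (hs : s.Ok) (q : X d × X d × X d) (x : X d) (σ : ℝ) :
    s.runx ((loop q x).map fun c => (c.1, σ • c.2)) x = x := by
  show x + s.ps (σ • (q.1 - x)) + s.pu (σ • (q.1 - x)) + s.ps (σ • q.2.1) + s.pu (σ • q.2.2) +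
    s.ps (σ • -q.2.1) + s.pu (σ • -q.2.2) + s.pu (σ • (x - q.1)) + s.ps (σ • (x - q.1)) = x
  have e : x - q.1 = -(q.1 - x) := by abel
  rw [e]
  simp only [map_smul, map_neg, smul_neg]
  abel

theorem loop_inc {s : Sk d k} (hs : s.Ok) (q : X d × X d × X d) (x : X d) :
    s.inc (loop q x) x = s.J q := by
  obtain ⟨w, hw⟩ : ∃ w, w = q.1 - x := ⟨_, rfl⟩
  have e1 : x - q.1 = -w := by rw [hw]; abel
  have e2 : x + s.ps w + s.pu w = q.1 := by rw [add_assoc, hs.dom.sum, hw]; abel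
  have h0 : s.inc (loop q x) x = 0 + s.W x w + s.inv.W (x + s.ps w) w +
      s.W (x + s.ps w + s.pu w) q.2.1 + s.inv.W (x + s.ps w + s.pu w + s.ps q.2.1) q.2.2 +
      s.W (x + s.ps w + s.pu w + s.ps q.2.1 + s.pu q.2.2) (-q.2.1) +
      s.inv.W (x + s.ps w + s.pu w + s.ps q.2.1 + s.pu q.2.2 + s.ps (-q.2.1)) (-q.2.2) +
      s.inv.W (x + s.ps w + s.pu w + s.ps q.2.1 + s.pu q.2.2 + s.ps (-q.2.1) + s.pu (-q.2.2)) (-w) +
      s.W (x + s.ps w + s.pu w + s.ps q.2.1 + s.pu q.2.2 + s.ps (-q.2.1) + s.pu (-q.2.2) +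
        s.pu (-w)) (-w) := by
    unfold loop
    rw [e1, ← hw]
    rfl
  rw [h0, e2]
  have e3 : q.1 + s.ps q.2.1 + s.pu q.2.2 + s.ps (-q.2.1) = q.1 + s.pu q.2.2 := by
    rw [map_neg]; abel
  have e4 : q.1 + s.pu q.2.2 + s.pu (-q.2.2) = q.1 := by rw [map_neg]; abel
  rw [e3, e4]
  have e5 : q.1 + s.pu (-w) = x + s.ps w := by rw [map_neg, ← e2]; abel
  rw [e5, Sk.W_neg hs]
  have e6 : s.inv.W q.1 (-w) = -s.inv.W (x + s.ps w) w := by
    have h1 := Sk.W_neg hs.inv (x + s.ps w) w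
    have e7 : x + s.ps w + s.inv.ps w = q.1 := e2
    rw [e7] at h1
    exact h1
  rw [e6]
  unfold Sk.J
  abel

theorem cl_cont : Continuous cl := continuous_const.max (continuous_id.min continuous_const)

theorem mem_fam {q : Fin k → X d × X d × X d} {N : ℕ} {x : X d} {c : Bool × (E d k → X d)}
    (hc : c ∈ fam q N x) : (∃ (i : Fin k) (j : ℕ) (c' : Bool × X d), c' ∈ loop (q i) x ∧
      c = (c'.1, fun z : E d k => cl (z.2 i - j) • c'.2)) ∨ c.2 = fun z => z.1 := by
  unfold fam at hc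
  rw [List.mem_append] at hc
  rcases hc with h | h
  · left
    rw [List.mem_flatMap] at h
    obtain ⟨i, -, h⟩ := h
    rw [List.mem_flatMap] at h
    obtain ⟨j, -, h⟩ := h
    rw [List.mem_map] at h
    obtain ⟨c', hc', rfl⟩ := h
    exact ⟨i, j, c', hc', rfl⟩
  · right
    simp only [List.mem_cons, List.not_mem_nil, or_false] at h
    rcases h with rfl | rfl <;> rfl

theorem fam_cont (q : Fin k → X d × X d × X d) (N : ℕ) (x : X d) : ∀ c ∈ fam q N x, Continuous c.2 := by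
  intro c hc
  rcases mem_fam hc with ⟨i, j, c', -, rfl⟩ | h
  · show Continuous fun z : E d k => cl (z.2 i - j) • c'.2
    have h1 : Continuous fun z : E d k => z.2 i - (j : ℝ) :=
      ((continuous_apply i).comp continuous_snd).sub continuous_const
    exact (cl_cont.comp h1).smul continuous_const
  · rw [h]; exact continuous_fst

theorem fam_len (q : Fin k → X d × X d × X d) (N : ℕ) (x : X d) : (fam q N x).length = k * (N * 8) + 2 := by
  unfold fam
  rw [List.length_append, List.length_flatMap]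
  have h1 : ∀ i : Fin k, ((List.range N).flatMap fun j : ℕ =>
      (loop (q i) x).map fun c => (c.1, fun z : E d k => cl (z.2 i - j) • c.2)).length = N * 8 := by
    intro i
    rw [List.length_flatMap]
    simp [loop]
  simp [h1]

theorem fam_bd (q : Fin k → X d × X d × X d) : ∃ R : ℝ, 0 < R ∧ ∀ (N : ℕ) (x : X d) (z : E d k),
    ‖x‖ ≤ 2 → ‖z.1‖ ≤ 1 → ∀ c ∈ ev (fam q N x) z, ‖c.2‖ ≤ R := by
  refine ⟨1 + ∑ i, (‖(q i).1‖ + 2 + ‖(q i).2.1‖ + ‖(q i).2.2‖), by positivity,
    fun N x z hx hz c hc => ?_⟩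
  have hsum : 0 ≤ ∑ i, (‖(q i).1‖ + 2 + ‖(q i).2.1‖ + ‖(q i).2.2‖) := by positivity
  rw [ev, List.mem_map] at hc
  obtain ⟨c₀, hc₀, rfl⟩ := hc
  rcases mem_fam hc₀ with ⟨i, j, c', hc', rfl⟩ | h
  · have h1 : ‖(q i).1‖ + 2 + ‖(q i).2.1‖ + ‖(q i).2.2‖ ≤
        ∑ i, (‖(q i).1‖ + 2 + ‖(q i).2.1‖ + ‖(q i).2.2‖) :=
      Finset.single_le_sum (f := fun i => ‖(q i).1‖ + 2 + ‖(q i).2.1‖ + ‖(q i).2.2‖)
        (fun i _ => by positivity) (Finset.mem_univ i)
    have h2 : ‖c'.2‖ ≤ ‖(q i).1‖ + 2 + ‖(q i).2.1‖ + ‖(q i).2.2‖ := by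
      have n1 := norm_nonneg (q i).1
      have n2 := norm_nonneg (q i).2.1
      have n3 := norm_nonneg (q i).2.2
      have n4 := norm_sub_le (q i).1 x
      have n5 := norm_sub_le x (q i).1
      simp only [loop, List.mem_cons, List.not_mem_nil, or_false] at hc'
      rcases hc' with rfl | rfl | rfl | rfl | rfl | rfl | rfl | rfl <;> simp only [norm_neg] <;>
        linarith
    have h3 : 0 ≤ cl (z.2 i - j) := le_max_left _ _
    have h4 : cl (z.2 i - j) ≤ 1 := max_le zero_le_one (min_le_right _ _)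
    show ‖cl (z.2 i - j) • c'.2‖ ≤ _
    rw [norm_smul, Real.norm_of_nonneg h3]
    have h5 : cl (z.2 i - j) * ‖c'.2‖ ≤ 1 * ‖c'.2‖ := mul_le_mul_of_nonneg_right h4 (norm_nonneg _)
    linarith
  · show ‖c₀.2 z‖ ≤ _
    rw [h]
    simp only
    linarith

end Pool.Agent.H44.AC
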