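import Mathlib

/-!
# Affine skew products and stable accessibility: the definitions of the statement

The torus is `V / Λ` (`V` a normed space, `Λ` a lattice, given as a set); diffeomorphisms are given by their lifts
`f : V ≃ V`, and a splitting `TM = E^s ⊕ E^c ⊕ E^u` by the projections `S.s v`, `S.c v`, `S.u v` onto the bundles at
the point `v`.
-/

set_option autoImplicit false

open MeasureTheory

namespace Pool.Agent.H44.AC.Gen

section general

variable {V : Type} [NormedAddCommGroup V] [NormedSpace ℝ V]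

/-- lifts of `C^1` diffeomorphisms of `V / Λ` -/
structure Diffeo (Λ : Set V) (f : Equiv.Perm V) : Prop where
  c1 : ContDiff ℝ 1 f
  c1' : ContDiff ℝ 1 (f⁻¹ : Equiv.Perm V)
  per : ∀ v z, z ∈ Λ → f (v + z) - f v ∈ Λ
  per' : ∀ v z, z ∈ Λ → (f⁻¹ : Equiv.Perm V) (v + z) - (f⁻¹ : Equiv.Perm V) v ∈ Λ

/-- three families of linear maps of the tangent spaces, as functions of the point -/
structure Split (V : Type) [NormedAddCommGroup V] [NormedSpace ℝ V] where
  s : V → (V →L[ℝ] V)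
  c : V → (V →L[ℝ] V)
  u : V → (V →L[ℝ] V)

/-- `P` is a continuous family of projections over `V / Λ`: their images form a continuous bundle -/
structure Bundle (Λ : Set V) (P : V → (V →L[ℝ] V)) : Prop where
  cont : Continuous P
  per : ∀ v z, z ∈ Λ → P (v + z) = P v
  idem : ∀ v x, P v (P v x) = P v x

/-- the projections of `P` vanish on the bundle of `Q` -/
def Kills (P Q : V → (V →L[ℝ] V)) : Prop := ∀ v x, P v (Q v x) = 0

/-- the projections of a continuous splitting with nonzero `E^s`, `E^u` -/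
structure Splitting (Λ : Set V) (S : Split V) : Prop where
  bs : Bundle Λ S.s
  bc : Bundle Λ S.c
  bu : Bundle Λ S.u
  sum : ∀ v x, S.s v x + S.c v x + S.u v x = x
  sc : Kills S.s S.c
  su : Kills S.s S.u
  cs : Kills S.c S.s
  cu : Kills S.c S.u
  us : Kills S.u S.s
  uc : Kills S.u S.c
  nonzero : ∀ v, S.s v ≠ 0 ∧ S.u v ≠ 0

/-- the bundle of `P` is invariant under the derivative of `f` -/
def Invariant (f : Equiv.Perm V) (P : V → (V →L[ℝ] V)) : Prop :=
  ∀ v x, fderiv ℝ f v (P v x) = P (f v) (fderiv ℝ f v x)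

/-- `x` is a unit vector of the bundle of `P` at the point `v` -/
def UnitIn (P : V → (V →L[ℝ] V)) (v x : V) : Prop := P v x = x ∧ ‖x‖ = 1

/-- the length of the image of `x` under the derivative of `f^n` at `v` -/
noncomputable def len (f : Equiv.Perm V) (n : ℤ) (v x : V) : ℝ := ‖fderiv ℝ (f ^ n : Equiv.Perm V) v x‖

/-- the four inequalities of partial hyperbolicity at the point `v` and the time `n` -/
def Ineq (f : Equiv.Perm V) (S : Split V) (C r : ℝ) (v : V) (n : ℕ) : Prop :=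
  (∀ x, UnitIn S.s v x → len f n v x ≤ C * r ^ n) ∧
  (∀ x, UnitIn S.u v x → len f (-n) v x ≤ C * r ^ n) ∧
  (∀ x y, UnitIn S.s v x → UnitIn S.c v y → len f n v x ≤ C * r ^ n * len f n v y) ∧
  (∀ x y, UnitIn S.u v x → UnitIn S.c v y → len f (-n) v x ≤ C * r ^ n * len f (-n) v y)

/-- `f` is partially hyperbolic with the splitting `S` -/
structure PHyp (Λ : Set V) (f : Equiv.Perm V) (S : Split V) : Prop where
  splitting : Splitting Λ S
  inv_s : Invariant f S.s
  inv_c : Invariant f S.c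
  inv_u : Invariant f S.u
  est : ∃ C r : ℝ, 0 < C ∧ 0 < r ∧ r < 1 ∧ ∀ (v : V) (n : ℕ), Ineq f S C r v n

/-- the dimension of the bundle of `P` is `r` -/
def HasDim (P : V → (V →L[ℝ] V)) (r : ℕ) : Prop :=
  ∀ v, Module.finrank ℝ (LinearMap.range (P v : V →ₗ[ℝ] V)) = r

/-- there is a `C^1` curve from `p` to `q` tangent to the bundle of `P` (so `p` and `q` lie in one leaf) -/
def Leaf (P : V → (V →L[ℝ] V)) (p q : V) : Prop :=
  ∃ γ γ' : ℝ → V, Continuous γ' ∧ (∀ t, HasDerivAt γ (γ' t) t) ∧ γ 0 = p ∧ γ 1 = q ∧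
    ∀ t ∈ Set.Icc (0 : ℝ) 1, P (γ t) (γ' t) = γ' t

/-- `p` and `q` are joined by an `su`-path (in `V`) -/
def SuPath (S : Split V) : V → V → Prop := Relation.ReflTransGen fun a b => Leaf S.s a b ∨ Leaf S.u a b

/-- accessibility: any two points of `V / Λ` are joined by an `su`-path -/
def Accessible (Λ : Set V) (S : Split V) : Prop := ∀ p q, ∃ z ∈ Λ, SuPath S p (q + z)

/-- `g` and its derivative are `δ`-close to `f` and its derivative -/
def Close (δ : ℝ) (g f : Equiv.Perm V) : Prop := ∀ v, ‖g v - f v‖ < δ ∧ ‖fderiv ℝ g v - fderiv ℝ f v‖ < δ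

/-- every partially hyperbolic diffeomorphism which is `C^1` close to `f`, with stable and unstable bundles of
dimension `ds` and `du`, is accessible -/
def StablyAccessible (Λ : Set V) (ds du : ℕ) (f : Equiv.Perm V) : Prop :=
  ∃ δ : ℝ, 0 < δ ∧ ∀ g : Equiv.Perm V, Diffeo Λ g → Close δ g f →
    ∀ S, PHyp Λ g S → HasDim S.s ds → HasDim S.u du → Accessible Λ S

end general

section skew

variable {X Y : Type} [NormedAddCommGroup X] [NormedSpace ℝ X] [NormedAddCommGroup Y] [NormedSpace ℝ Y]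

/-- the data of an automorphism `A × B` with the projections `ps`, `pu` to the stable and the unstable space of `A` -/
structure Auto (X Y : Type) [NormedAddCommGroup X] [NormedSpace ℝ X] [NormedAddCommGroup Y] [NormedSpace ℝ Y] where
  A : X ≃L[ℝ] X
  B : Y ≃L[ℝ] Y
  ps : X →L[ℝ] X
  pu : X →L[ℝ] X

/-- the norm of `A^n` on the stable space -/
noncomputable def Auto.ns (a : Auto X Y) (n : ℕ) : ℝ := ‖(a.A : X →L[ℝ] X) ^ n * a.ps‖

/-- the norm of `A^(-n)` on the unstable space -/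
noncomputable def Auto.nu (a : Auto X Y) (n : ℕ) : ℝ := ‖(a.A.symm : X →L[ℝ] X) ^ n * a.pu‖

/-- the norm of `B^n` -/
noncomputable def Auto.nB (a : Auto X Y) (n : ℕ) : ℝ := ‖(a.B : Y →L[ℝ] Y) ^ n‖

/-- the norm of `B^(-n)` -/
noncomputable def Auto.nB' (a : Auto X Y) (n : ℕ) : ℝ := ‖(a.B.symm : Y →L[ℝ] Y) ^ n‖

/-- `A × B` is a partially hyperbolic automorphism of `X / ΛX × Y / ΛY` with centre `0 × Y`, stable space `im ps × 0`
and unstable space `im pu × 0` -/
structure Auto.IsPH (a : Auto X Y) (ΛX : Set X) (ΛY : Set Y) : Prop where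
  intA : ∀ n, a.A n ∈ ΛX ↔ n ∈ ΛX
  intB : ∀ n, a.B n ∈ ΛY ↔ n ∈ ΛY
  sum : ∀ x, a.ps x + a.pu x = x
  idem : ∀ x, a.ps (a.ps x) = a.ps x
  comm : ∀ x, a.ps (a.A x) = a.A (a.ps x)
  nonzero_s : a.ps ≠ 0
  nonzero_u : a.pu ≠ 0
  est : ∃ C r : ℝ, 0 < C ∧ 0 < r ∧ r < 1 ∧ ∀ n : ℕ, a.ns n ≤ C * r ^ n ∧ a.nu n ≤ C * r ^ n ∧
    a.ns n * a.nB' n ≤ C * r ^ n ∧ a.nu n * a.nB n ≤ C * r ^ n

/-- the dimension of the stable space -/
noncomputable def Auto.ds (a : Auto X Y) : ℕ := Module.finrank ℝ (LinearMap.range (a.ps : X →ₗ[ℝ] X))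

/-- the dimension of the unstable space -/
noncomputable def Auto.du (a : Auto X Y) : ℕ := Module.finrank ℝ (LinearMap.range (a.pu : X →ₗ[ℝ] X))

/-- (the lift of) the affine skew product `(x, y) ↦ (A x, B y + h x)` -/
def Auto.skew (a : Auto X Y) (h : X → Y) : Equiv.Perm (X × Y) where
  toFun v := (a.A v.1, a.B v.2 + h v.1)
  invFun v := (a.A.symm v.1, a.B.symm (v.2 - h (a.A.symm v.1)))
  left_inv v := by simp
  right_inv v := by simp

/-- `h` is (the lift of) a `C^1` map `X / ΛX → Y / ΛY` -/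
structure IsMap (ΛX : Set X) (ΛY : Set Y) (h : X → Y) : Prop where
  c1 : ContDiff ℝ 1 h
  per : ∀ x n, n ∈ ΛX → h (x + n) - h x ∈ ΛY

/-- `ψ` is (the lift of) a real analytic map `X / ΛX → Y` -/
structure IsAnalytic (ΛX : Set X) (ψ : X → Y) : Prop where
  smooth : ContDiff ℝ ⊤ ψ
  per : ∀ x n, n ∈ ΛX → ψ (x + n) = ψ x

/-- the stable accessibility of the affine skew product of `h` -/
def Auto.Stable (a : Auto X Y) (ΛX : Set X) (ΛY : Set Y) (h : X → Y) : Prop :=
  StablyAccessible (ΛX ×ˢ ΛY) a.ds a.du (a.skew h)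

/-- the affine skew product of `h` is a partially hyperbolic diffeomorphism with bundles of the same dimensions, and
if it is accessible (with such a splitting) then it is stably accessible -/
structure Auto.Good (a : Auto X Y) (ΛX : Set X) (ΛY : Set Y) (h : X → Y) : Prop where
  diffeo : Diffeo (ΛX ×ˢ ΛY) (a.skew h)
  exists_split : ∃ S, PHyp (ΛX ×ˢ ΛY) (a.skew h) S ∧ HasDim S.s a.ds ∧ HasDim S.u a.du
  stable : ∀ S, PHyp (ΛX ×ˢ ΛY) (a.skew h) S → HasDim S.s a.ds → HasDim S.u a.du →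
    Accessible (ΛX ×ˢ ΛY) S → a.Stable ΛX ΛY h

end skew

/-- integral vectors -/
def intLattice (n : ℕ) : Set (Fin n → ℝ) := {z | ∀ i, ∃ m : ℤ, z i = m}

end Pool.Agent.H44.AC.Gen
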