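import Pool.Agent.H44.AC.Main
import Pool.Agent.H44.AC.Gen

/-!
# The main theorem for the definitions of `Gen.lean`
-/

set_option autoImplicit false

open MeasureTheory

namespace Pool.Agent.H44.AC

open Gen

variable {d k : ℕ}

theorem mem1 {n : ℕ} {z : X n} : z ∈ intLattice n ↔ Int1 z := Iff.rfl

theorem mem2 {z : E d k} : z ∈ intLattice d ×ˢ intLattice k ↔ Int2 z := Iff.rfl

theorem diffeo_iff {f : Equiv.Perm (E d k)} :
    Diffeo (intLattice d ×ˢ intLattice k) f ↔ Dif f :=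
  ⟨fun h => ⟨h.c1, h.c1', h.per, h.per'⟩, fun h => ⟨h.c1, h.c1', h.per, h.per'⟩⟩

theorem phyp_of {f : Equiv.Perm (E d k)} {S : Split (E d k)}
    (h : PHyp (intLattice d ×ˢ intLattice k) f S) : PH f S.s S.c S.u := by
  obtain ⟨C, r, hC, hr, hr1, hest⟩ := h.est
  have hS := h.splitting
  exact
    { cont_s := hS.bs.cont
      cont_c := hS.bc.cont
      cont_u := hS.bu.cont
      per_s := hS.bs.per
      per_c := hS.bc.per
      per_u := hS.bu.per
      sum := hS.sum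
      ss := hS.bs.idem
      cc := hS.bc.idem
      uu := hS.bu.idem
      sc := hS.sc
      su := hS.su
      cs := hS.cs
      cu := hS.cu
      us := hS.us
      uc := hS.uc
      nonzero_s := fun v => (hS.nonzero v).1
      nonzero_u := fun v => (hS.nonzero v).2
      inv_s := h.inv_s
      inv_c := h.inv_c
      inv_u := h.inv_u
      est := by
        refine ⟨C, r, hC, hr, hr1, fun v n => ?_⟩
        obtain ⟨h1, h2, h3, h4⟩ := hest v n
        exact ⟨fun x hx hx' => h1 x ⟨hx, hx'⟩, fun x hx hx' => h2 x ⟨hx, hx'⟩,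
          fun x y hx hx' hy hy' => h3 x y ⟨hx, hx'⟩ ⟨hy, hy'⟩,
          fun x y hx hx' hy hy' => h4 x y ⟨hx, hx'⟩ ⟨hy, hy'⟩⟩ }

theorem of_ph {f : Equiv.Perm (E d k)} {Ps Pc Pu : E d k → (E d k →L[ℝ] E d k)}
    (h : PH f Ps Pc Pu) : PHyp (intLattice d ×ˢ intLattice k) f ⟨Ps, Pc, Pu⟩ := by
  obtain ⟨C, r, hC, hr, hr1, hest⟩ := h.est
  exact
    { splitting :=
        { bs := ⟨h.cont_s, h.per_s, h.ss⟩
          bc := ⟨h.cont_c, h.per_c, h.cc⟩
          bu := ⟨h.cont_u, h.per_u, h.uu⟩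
          sum := h.sum
          sc := h.sc
          su := h.su
          cs := h.cs
          cu := h.cu
          us := h.us
          uc := h.uc
          nonzero := fun v => ⟨h.nonzero_s v, h.nonzero_u v⟩ }
      inv_s := h.inv_s
      inv_c := h.inv_c
      inv_u := h.inv_u
      est := by
        refine ⟨C, r, hC, hr, hr1, fun v n => ?_⟩
        obtain ⟨h1, h2, h3, h4⟩ := hest v n
        exact ⟨fun x hx => h1 x hx.1 hx.2, fun x hx => h2 x hx.1 hx.2,
          fun x y hx hy => h3 x y hx.1 hx.2 hy.1 hy.2,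
          fun x y hx hy => h4 x y hx.1 hx.2 hy.1 hy.2⟩ }

theorem acc_iff {S : Split (E d k)} :
    Accessible (intLattice d ×ˢ intLattice k) S ↔ Acc S.s S.u := by
  constructor
  · intro h p q
    obtain ⟨z, hz, h1⟩ := h p q
    exact ⟨z, hz, h1⟩
  · intro h p q
    obtain ⟨z, hz, h1⟩ := h p q
    exact ⟨z, hz, h1⟩

theorem stab_iff {ds du : ℕ} {f : Equiv.Perm (E d k)} :
    StablyAccessible (intLattice d ×ˢ intLattice k) ds du f ↔ StAcc ds du f := by
  constructor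
  · rintro ⟨δ, hδ, h⟩
    exact ⟨δ, hδ, fun g hg hc Ps Pc Pu hP hs hu =>
      acc_iff.1 (h g (diffeo_iff.2 hg) hc ⟨Ps, Pc, Pu⟩ (of_ph hP) hs hu)⟩
  · rintro ⟨δ, hδ, h⟩
    exact ⟨δ, hδ, fun g hg hc S hP hs hu =>
      acc_iff.2 (h g (diffeo_iff.1 hg) hc S.s S.c S.u (phyp_of hP) hs hu)⟩

theorem dom_of {a : Auto (X d) (X k)} (h : a.IsPH (intLattice d) (intLattice k)) :
    Dom a.A a.B a.ps a.pu :=
  { intA := h.intA
    intB := h.intB
    sum := h.sum
    ss := h.idem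
    comm := h.comm
    nonzero_s := h.nonzero_s
    nonzero_u := h.nonzero_u
    est := h.est }

theorem skew_eq (a : Auto (X d) (X k)) (h : X d → X k) : a.skew h = skew a.A a.B h := rfl

theorem final (a : Auto (X d) (X k)) (ha : a.IsPH (intLattice d) (intLattice k)) :
    (∀ h, IsMap (intLattice d) (intLattice k) h → a.Good (intLattice d) (intLattice k) h ∧
      MeasurePreserving (a.skew h)) ∧
    ∃ ψ, IsAnalytic (intLattice d) ψ ∧ ∀ h, IsMap (intLattice d) (intLattice k) h →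
      {t : ℝ | ¬ a.Stable (intLattice d) (intLattice k) (h + t • ψ)}.encard ≤ k := by
  obtain ⟨h1, ψ, h2, h3, h4⟩ := main a.A a.B a.ps a.pu (dom_of ha)
  refine ⟨fun h hh => ?_, ψ, ⟨h2, h3⟩, fun h hh => ?_⟩
  · obtain ⟨h5, h6, ⟨Ps, Pc, Pu, h7, h8, h9⟩, h10⟩ := h1 h hh.c1 hh.per
    refine ⟨⟨diffeo_iff.2 h5, ⟨⟨Ps, Pc, Pu⟩, of_ph h7, h8, h9⟩, fun S hP hs hu hA => ?_⟩, h6⟩
    exact stab_iff.2 (h10 S.s S.c S.u (phyp_of hP) hs hu (acc_iff.1 hA))
  · refine le_trans (Set.encard_le_encard ?_) (h4 h hh.c1 hh.per)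
    intro t ht h5
    exact ht (stab_iff.2 h5)

end Pool.Agent.H44.AC
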