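import Pool.Agent.H44.AC.FourD

/-!
# [H44 AC FOUR] For `psi` the quadrilaterals span

If the span is not `⊤`, there is a linear functional `ξ ≠ 0` with `ξ (J q) = 0` for all `q` (`Submodule.exists_le_ker_of_lt_top` or
`Submodule.exists_dual_map_eq_bot`, `LinearMap.toContinuousLinearMap`).  Let `ω v = 2π 2^i' v_{i0}`, `α = ps a`, `β = pu b`.  Multiply `ξ (J (x, a, b)) = 0` by
`cos (2π 2^i' x_{i0} + θ)` and integrate over the cube (`W_cont` and `cube_integrable` for the integrability): by `int_W` (twice, `γ = 0`, `ℓ = a` and `γ = α + β`, `ℓ = -a`) and `int_Wu` (twice)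
`0 = -1/2 ξ(B⁻¹ e_i') (cos (ω α - θ) - cos θ + cos (ω β - θ) - cos (ω (α + β) - θ))`; for `θ = (ω α + ω β)/2` the bracket is
`4 sin (ω α / 2) sin (ω β / 2)`.  By `coord_ne` (for `hD` and `hD.inv`) there are `a`, `b` with `(ps a)_{i0} ≠ 0`, `(pu b)_{i0} ≠ 0`, and after scaling they are
`2^(-k-2)`, so the sines are not `0`.  So `ξ (B⁻¹ e_i') = 0` for all `i'`, so `ξ = 0`.
`psi_ok`: `psi_smooth`, `psi_per`.  There is an `i0` because `ps ≠ 0` (`exists_psi`).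
-/

set_option autoImplicit false

open MeasureTheory

namespace Pool.Agent.H44.AC

variable {d k : ℕ}

theorem psi_ok {A : X d ≃L[ℝ] X d} {B : X k ≃L[ℝ] X k} {ps pu : X d →L[ℝ] X d}
    (hD : Dom A B ps pu) (i0 : Fin d) : (⟨A, B, ps, pu, psi k i0⟩ : Sk d k).Ok where
  dom := hD
  c1 := (psi_smooth i0).of_le le_top
  per x n hn := by
    show Int1 (psi k i0 (x + n) - psi k i0 x)
    rw [psi_per i0 x n hn, sub_self]
    exact Int1.zero

private theorem four_scale {q : X d →L[ℝ] X d} (i0 : Fin d) (h : ∃ ℓ, q ℓ i0 ≠ 0) (c : ℝ) :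
    ∃ a, q a i0 = c := by
  obtain ⟨ℓ, hℓ⟩ := h
  refine ⟨(c / q ℓ i0) • ℓ, ?_⟩
  rw [map_smul, Pi.smul_apply, smul_eq_mul]
  field_simp

private theorem four_cos_cont (i0 : Fin d) (i' : ℕ) (θ : ℝ) :
    Continuous fun x : X d => Real.cos (2 * Real.pi * (2 ^ i' * x i0) + θ) := by
  have h1 : Continuous fun x : X d => x i0 := continuous_apply i0
  fun_prop

private theorem four_int {C : Set (X d)} {f1 f2 f3 f4 : X d → ℝ} (h1 : IntegrableOn f1 C)
    (h2 : IntegrableOn f2 C) (h3 : IntegrableOn f3 C) (h4 : IntegrableOn f4 C)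
    (h : ∀ x, f1 x + f2 x + f3 x + f4 x = 0) :
    (∫ x in C, f1 x) + (∫ x in C, f2 x) + (∫ x in C, f3 x) + ∫ x in C, f4 x = 0 := by
  have e : (f1 + f2 + f3 + f4) = fun _ : X d => (0 : ℝ) := funext h
  have h5 := integral_add' ((h1.add h2).add h3) h4
  have h6 := integral_add' (h1.add h2) h3
  have h7 := integral_add' h1 h2
  rw [e, integral_zero, h6, h7] at h5
  exact h5.symm

private theorem four_integrable {t : Sk d k} (ht : t.Ok) (ξ : X k →L[ℝ] ℝ) (γ ℓ : X d)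
    (g : X d → ℝ) (hg : Continuous g) :
    IntegrableOn (fun x : X d => ξ (t.W (x + γ) ℓ) * g x) (cube d) := by
  have h1 := Sk.W_cont ht
  have h2 : Continuous fun x : X d => ((x + γ, ℓ) : X d × X d) :=
    (continuous_id.add continuous_const).prodMk continuous_const
  have h3 := h1.comp h2
  have h4 : ((fun q : X d × X d => t.W q.1 q.2) ∘ fun x : X d => ((x + γ, ℓ) : X d × X d)) =
      fun x : X d => t.W (x + γ) ℓ := rfl
  rw [h4] at h3
  exact cube_integrable ((ξ.continuous.comp h3).mul hg)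

private theorem four_J {t : Sk d k} (ξ : X k →L[ℝ] ℝ) (hξ : ∀ q, ξ (t.J q) = 0) (a b x : X d)
    (c : ℝ) :
    ξ (t.W (x + 0) a) * c + ξ (t.inv.W (x + t.ps a) b) * c +
      ξ (t.W (x + (t.ps a + t.pu b)) (-a)) * c + ξ (t.inv.W (x + t.pu b) (-b)) * c = 0 := by
  rw [← add_mul, ← add_mul, ← add_mul, ← map_add, ← map_add, ← map_add]
  have h1 := hξ (x, a, b)
  unfold Sk.J at h1
  rw [add_zero, ← add_assoc]
  exact mul_eq_zero_of_left h1 _

private theorem four_key {A : X d ≃L[ℝ] X d} {B : X k ≃L[ℝ] X k} {ps pu : X d →L[ℝ] X d}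
    (hD : Dom A B ps pu) (i0 : Fin d) (ξ : X k →L[ℝ] ℝ)
    (hξ : ∀ q, ξ ((⟨A, B, ps, pu, psi k i0⟩ : Sk d k).J q) = 0) (i' : Fin k) :
    ξ (B.symm (Pi.single i' 1)) = 0 := by
  have hs := psi_ok (k := k) (B := B) hD i0
  obtain ⟨a, ha⟩ := four_scale i0 (coord_ne hD i0) (1 / 2 ^ ((i' : ℕ) + 1))
  obtain ⟨b, hb⟩ := four_scale i0 (coord_ne hD.inv i0) (1 / 2 ^ ((i' : ℕ) + 1))
  have hg := four_cos_cont i0 (i' : ℕ) Real.pi
  have hint := four_int (four_integrable hs ξ 0 a _ hg) (four_integrable hs.inv ξ (ps a) b _ hg)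
    (four_integrable hs ξ (ps a + pu b) (-a) _ hg) (four_integrable hs.inv ξ (pu b) (-b) _ hg)
    (fun x => four_J ξ hξ a b x _)
  rw [int_W i0 hs, int_W i0 hs, int_Wu i0 hs, int_Wu i0 hs] at hint
  have hp : (2 : ℝ) ^ (i' : ℕ) * (1 / 2 ^ ((i' : ℕ) + 1)) = 1 / 2 := by
    rw [pow_succ]
    field_simp
  have e1 : 2 * Real.pi * (2 ^ (i' : ℕ) * ((0 : X d) i0 + ps a i0)) - Real.pi = 0 := by
    rw [ha, Pi.zero_apply, zero_add, hp]
    ring
  have e2 : 2 * Real.pi * (2 ^ (i' : ℕ) * (0 : X d) i0) - Real.pi = -Real.pi := by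
    rw [Pi.zero_apply]
    ring
  have e3 : 2 * Real.pi * (2 ^ (i' : ℕ) * ((ps a + pu b) i0 + ps (-a) i0)) - Real.pi = 0 := by
    rw [map_neg, Pi.add_apply, Pi.neg_apply]
    have e : ps a i0 + pu b i0 + -ps a i0 = pu b i0 := by ring
    rw [e, hb, hp]
    ring
  have e4 : 2 * Real.pi * (2 ^ (i' : ℕ) * (ps a + pu b) i0) - Real.pi = Real.pi := by
    rw [Pi.add_apply, ha, hb]
    have e : (2 : ℝ) ^ (i' : ℕ) * (1 / 2 ^ ((i' : ℕ) + 1) + 1 / 2 ^ ((i' : ℕ) + 1)) = 1 := by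
      rw [mul_add, hp]
      norm_num
    rw [e]
    ring
  rw [e1, e2, e3, e4, Real.cos_zero, Real.cos_neg, Real.cos_pi] at hint
  linarith

theorem psi_span {A : X d ≃L[ℝ] X d} {B : X k ≃L[ℝ] X k} {ps pu : X d →L[ℝ] X d}
    (hD : Dom A B ps pu) (i0 : Fin d) : (⟨A, B, ps, pu, psi k i0⟩ : Sk d k).V = ⊤ := by
  by_contra hV
  obtain ⟨f, hf, hker⟩ := Submodule.exists_le_ker_of_lt_top _ (lt_top_iff_ne_top.2 hV)
  have hξ : ∀ q, (LinearMap.toContinuousLinearMap f)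
      ((⟨A, B, ps, pu, psi k i0⟩ : Sk d k).J q) = 0 := by
    intro q
    exact LinearMap.mem_ker.1 (hker (Submodule.subset_span ⟨q, rfl⟩))
  have hkey := four_key hD i0 (LinearMap.toContinuousLinearMap f) hξ
  apply hf
  have hz : f ∘ₗ (B.symm : X k ≃ₗ[ℝ] X k).toLinearMap = 0 := by
    apply (Pi.basisFun ℝ (Fin k)).ext
    intro i
    rw [Pi.basisFun_apply]
    exact hkey i
  ext x
  have h1 := LinearMap.congr_fun hz (B (Pi.single x 1))
  have h2 : (f ∘ₗ (B.symm : X k ≃ₗ[ℝ] X k).toLinearMap) (B (Pi.single x 1)) =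
      f (Pi.single x 1) := by
    show f (B.symm (B (Pi.single x 1))) = _
    rw [ContinuousLinearEquiv.symm_apply_apply]
  rw [h2] at h1
  simpa using h1

theorem exists_psi {A : X d ≃L[ℝ] X d} {B : X k ≃L[ℝ] X k} {ps pu : X d →L[ℝ] X d}
    (hD : Dom A B ps pu) : ∃ ψ : X d → X k, ContDiff ℝ ⊤ ψ ∧ (∀ x n, Int1 n → ψ (x + n) = ψ x) ∧
      (⟨A, B, ps, pu, ψ⟩ : Sk d k).V = ⊤ := by
  have hi : Nonempty (Fin d) := by
    by_contra hcon
    rw [not_nonempty_iff] at hcon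
    exact hD.nonzero_s (ContinuousLinearMap.ext fun x => funext fun i => hcon.elim i)
  obtain ⟨i0⟩ := hi
  exact ⟨psi k i0, psi_smooth i0, psi_per i0, psi_span hD i0⟩

end Pool.Agent.H44.AC
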