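import Pool.Agent.H44.AC.Basic

/-!
# [H44 AC FOURA] Integrals of characters over the unit cube

`mean_zero`: `r x = ∑ r_i x_i`, `r_i = r (e_i)` integers (`e_i = Pi.single i 1` is integral), some `r_i ≠ 0`.
`cos (2π r x + φ) = Re (e^{iφ} ∏_i e^{2π i r_i x_i})`.  The integral over the cube of the product is the product of the integrals over `(0, 1]`.
-/

set_option autoImplicit false

open MeasureTheory

namespace Pool.Agent.H44.AC

variable {d k : ℕ}

/-- the unit cube -/
def cube (d : ℕ) : Set (X d) := Set.pi Set.univ fun _ => Set.Ioc (0 : ℝ) 1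

theorem cube_meas (d : ℕ) : MeasurableSet (cube d) :=
  MeasurableSet.univ_pi (fun _ => measurableSet_Ioc)

theorem cube_vol (d : ℕ) : volume (cube d) = 1 := by
  unfold cube
  rw [volume_pi_pi]
  simp

theorem cube_integrable {g : X d → ℝ} (hg : Continuous g) : IntegrableOn g (cube d) := by
  have hsub : cube d ⊆ Set.pi Set.univ (fun _ : Fin d => Set.Icc (0 : ℝ) 1) := by
    intro x hx i hi
    exact Set.Ioc_subset_Icc_self (hx i hi)
  have hcomp : IsCompact (Set.pi Set.univ (fun _ : Fin d => Set.Icc (0 : ℝ) 1)) :=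
    isCompact_univ_pi (fun _ => isCompact_Icc)
  exact (hg.continuousOn.integrableOn_compact hcomp).mono_set hsub

private theorem int_char (m : ℤ) (hm : m ≠ 0) :
    ∫ y in Set.Ioc (0 : ℝ) 1, Complex.exp ((2 * Real.pi * m * Complex.I) * (y : ℂ)) = 0 := by
  rw [← intervalIntegral.integral_of_le zero_le_one]
  have hc : (2 * Real.pi * m * Complex.I : ℂ) ≠ 0 := by
    have h1 : (Real.pi : ℂ) ≠ 0 := Complex.ofReal_ne_zero.mpr Real.pi_ne_zero
    have h2 : (m : ℂ) ≠ 0 := Int.cast_ne_zero.mpr hm
    have h3 : (2 : ℂ) ≠ 0 := two_ne_zero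
    exact mul_ne_zero (mul_ne_zero (mul_ne_zero h3 h1) h2) Complex.I_ne_zero
  rw [integral_exp_mul_complex hc]
  have h1 : Complex.exp (2 * Real.pi * m * Complex.I * ((1 : ℝ) : ℂ)) = 1 := by
    rw [Complex.exp_eq_one_iff]
    exact ⟨m, by push_cast; ring⟩
  rw [h1]
  simp

theorem mean_zero (r : X d →L[ℝ] ℝ) (hr : ∀ n, Int1 n → ∃ m : ℤ, r n = m) (hne : ∃ x, r x ≠ 0) (φ : ℝ) :
    ∫ x in cube d, Real.cos (2 * Real.pi * r x + φ) = 0 := by
  have hm : ∀ i : Fin d, ∃ m : ℤ, r (Pi.single i 1) = m := by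
    intro i
    apply hr
    intro j
    rcases eq_or_ne j i with h | h
    · subst h
      exact ⟨1, by simp⟩
    · exact ⟨0, by simp [h]⟩
  choose m hm using hm
  have hrx : ∀ x : X d, r x = ∑ i, x i * m i := by
    intro x
    have h1 : x = ∑ i, x i • (Pi.single i (1 : ℝ) : X d) := by
      ext j
      simp [Finset.sum_apply, Pi.single_apply]
    conv_lhs => rw [h1]
    rw [map_sum]
    apply Finset.sum_congr rfl
    intro i _
    rw [map_smul, hm i, smul_eq_mul]
  obtain ⟨i0, hi0⟩ : ∃ i, m i ≠ 0 := by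
    by_contra hcon
    obtain ⟨x, hx⟩ := hne
    apply hx
    rw [hrx x]
    apply Finset.sum_eq_zero
    intro i _
    have : m i = 0 := by
      by_contra h
      exact hcon ⟨i, h⟩
    rw [this]; simp
  -- the complex integral
  have hprod : ∀ x : X d, Complex.exp ((2 * Real.pi * r x + φ : ℝ) * Complex.I)
      = Complex.exp (φ * Complex.I) * ∏ i, Complex.exp ((2 * Real.pi * m i * Complex.I) * (x i : ℂ)) := by
    intro x
    rw [← Complex.exp_sum, ← Complex.exp_add]
    congr 1
    rw [hrx x]
    push_cast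
    rw [Finset.mul_sum, add_mul, Finset.sum_mul, add_comm]
    congr 1
    apply Finset.sum_congr rfl
    intro i _
    ring
  have hvol : (volume : Measure (X d)).restrict (cube d)
      = Measure.pi (fun _ : Fin d => (volume : Measure ℝ).restrict (Set.Ioc (0 : ℝ) 1)) := by
    unfold cube
    rw [volume_pi, Measure.restrict_pi_pi]
  have hint : ∫ x in cube d, Complex.exp ((2 * Real.pi * r x + φ : ℝ) * Complex.I) = 0 := by
    simp_rw [hprod]
    rw [integral_const_mul, hvol]
    rw [integral_fintype_prod_eq_prod (𝕜 := ℂ)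
      (fun i (y : ℝ) => Complex.exp ((2 * Real.pi * m i * Complex.I) * (y : ℂ)))]
    rw [Finset.prod_eq_zero (Finset.mem_univ i0) (int_char (m i0) hi0), mul_zero]
  have hcont : Continuous (fun x : X d => Complex.exp ((2 * Real.pi * r x + φ : ℝ) * Complex.I)) := by
    have : Continuous (fun x : X d => r x) := r.continuous
    fun_prop
  have hintg : IntegrableOn (fun x : X d => Complex.exp ((2 * Real.pi * r x + φ : ℝ) * Complex.I))
      (cube d) := by
    have hsub : cube d ⊆ Set.pi Set.univ (fun _ : Fin d => Set.Icc (0 : ℝ) 1) := by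
      intro x hx i hi
      exact Set.Ioc_subset_Icc_self (hx i hi)
    have hcomp : IsCompact (Set.pi Set.univ (fun _ : Fin d => Set.Icc (0 : ℝ) 1)) :=
      isCompact_univ_pi (fun _ => isCompact_Icc)
    exact (hcont.continuousOn.integrableOn_compact hcomp).mono_set hsub
  have hre : ∫ x in cube d, Real.cos (2 * Real.pi * r x + φ)
      = Complex.re (∫ x in cube d, Complex.exp ((2 * Real.pi * r x + φ : ℝ) * Complex.I)) := by
    have h1 := integral_re hintg
    rw [← RCLike.re_eq_complex_re, ← h1]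
    congr 1
    funext x
    rw [RCLike.re_eq_complex_re, Complex.exp_ofReal_mul_I_re]
  rw [hre, hint]
  simp

end Pool.Agent.H44.AC
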