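import Pool.Agent.H44.AC.Basic

/-!
# [H44 AC FOURB] Arithmetic of the automorphism

* `coord_ne`: let `e x = x i0`.  Suppose `e (ps ℓ) = 0` for all `ℓ`.  Then `e x = e (pu x)` for all `x` (`Dom.sum`).  For every integral vector `m` and every `n`,
  `e (A^(-n) m) = e (pu (A^(-n) m)) = e (A^(-n) pu m)`, `|…| ≤ ‖A^(-n) pu‖ ‖m‖ ≤ C r^n ‖m‖` (`Dom.est`, `Dom.comm_u` for `A.symm`: `hD.inv.comm`), and it is an integer
  (`intA`), so it is `0` for `n ≥ n₀(m)`; choose `n` which works for all the vectors `m = e_i`: then `e ∘ A^(-n) = 0` (linear and zero on the basis), so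
  `e = 0` as `A^(-n)` is onto; but `e (e_{i0}) = 1`.
* `arith`: suppose `2^a e (A^j x) = c 2^b e x` for all `x`.  If `a < b`: for `x = A^(-j) e_{i0}` (integral): `2^a = c 2^b (integer)`, impossible (divide: `1 = ± 2^(b-a) m`).  If
  `b < a`: for `x = e_{i0}`: `2^a (integer) = c 2^b`, impossible.  So `a = b` and `e (A^j x) = c e x` for all `x`.  Then `e (A^(j n) x) = c^n e x`, so
  `|e (ps x)| = |e (A^(j n) ps x)| ≤ C r^(j n) ‖x‖ → 0` (`j ≥ 1`), so `e ∘ ps = 0`, which contradicts `coord_ne`.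
-/

set_option autoImplicit false

namespace Pool.Agent.H44.AC

variable {d k : ℕ}

private theorem fourB_int {A : X d ≃L[ℝ] X d} (h : ∀ n, Int1 (A n) ↔ Int1 n) (n : ℕ) (m : X d)
    (hm : Int1 m) : Int1 (((A : X d →L[ℝ] X d) ^ n) m) := by
  induction n with
  | zero => exact hm
  | succ n ih =>
    rw [pow_succ']
    exact (h _).2 ih

private theorem fourB_symm (A : X d ≃L[ℝ] X d) (n : ℕ) (x : X d) :
    ((A.symm : X d →L[ℝ] X d) ^ n) (((A : X d →L[ℝ] X d) ^ n) x) = x := by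
  induction n with
  | zero => rfl
  | succ n ih =>
    rw [pow_succ, pow_succ' (A : X d →L[ℝ] X d)]
    change ((A.symm : X d →L[ℝ] X d) ^ n) (A.symm (A (((A : X d →L[ℝ] X d) ^ n) x))) = x
    rw [ContinuousLinearEquiv.symm_apply_apply, ih]

private theorem fourB_comm {A : X d ≃L[ℝ] X d} {q : X d →L[ℝ] X d} (h : ∀ x, q (A x) = A (q x))
    (n : ℕ) (x : X d) : q (((A : X d →L[ℝ] X d) ^ n) x) = ((A : X d →L[ℝ] X d) ^ n) (q x) := by
  induction n with
  | zero => rfl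
  | succ n ih =>
    rw [pow_succ']
    change q (A (((A : X d →L[ℝ] X d) ^ n) x)) = A (((A : X d →L[ℝ] X d) ^ n) (q x))
    rw [h, ih]

private theorem fourB_coord (x : X d) (i : Fin d) : |x i| ≤ ‖x‖ := by
  rw [← Real.norm_eq_abs]
  exact norm_le_pi_norm x i

private theorem fourB_single (i : Fin d) : Int1 (Pi.single i 1 : X d) := by
  intro j
  by_cases h : j = i
  · subst h
    exact ⟨1, by simp⟩
  · exact ⟨0, by simp [h]⟩

private theorem fourB_normsingle (i : Fin d) : ‖(Pi.single i 1 : X d)‖ ≤ 1 := by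
  refine (pi_norm_le_iff_of_nonneg zero_le_one).2 fun j => ?_
  by_cases h : j = i
  · subst h
    simp
  · simp [h]

theorem coord_ne {A : X d ≃L[ℝ] X d} {B : X k ≃L[ℝ] X k} {ps pu : X d →L[ℝ] X d}
    (hD : Dom A B ps pu) (i0 : Fin d) : ∃ ℓ, ps ℓ i0 ≠ 0 := by
  by_contra hcon
  push Not at hcon
  obtain ⟨C, r, hC, hr, hr1, hest⟩ := hD.est
  have hpu : ∀ x, pu x i0 = x i0 := by
    intro x
    have h1 := congrFun (hD.sum x) i0
    rw [Pi.add_apply, hcon x, zero_add] at h1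
    exact h1
  obtain ⟨n, hn⟩ : ∃ n : ℕ, C * r ^ n < 1 := by
    have h1 : Filter.Tendsto (fun n : ℕ => C * r ^ n) Filter.atTop (nhds (C * 0)) :=
      (tendsto_pow_atTop_nhds_zero_of_lt_one hr.le hr1).const_mul C
    rw [mul_zero] at h1
    exact (h1.eventually (gt_mem_nhds one_pos)).exists
  have hbas : ∀ i : Fin d, (((A.symm : X d →L[ℝ] X d) ^ n) (Pi.single i 1)) i0 = 0 := by
    intro i
    obtain ⟨m, hm⟩ := fourB_int hD.inv.intA n _ (fourB_single i) i0
    have h1 : |(((A.symm : X d →L[ℝ] X d) ^ n) (Pi.single i 1)) i0| < 1 := by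
      rw [← hpu (((A.symm : X d →L[ℝ] X d) ^ n) (Pi.single i 1)), fourB_comm hD.inv.comm]
      refine (fourB_coord _ _).trans_lt ?_
      have h2 : ‖((A.symm : X d →L[ℝ] X d) ^ n * pu) (Pi.single i 1)‖ ≤ C * r ^ n * 1 := by
        refine (ContinuousLinearMap.le_opNorm _ _).trans ?_
        exact mul_le_mul (hest n).2.1 (fourB_normsingle i) (norm_nonneg _) (by positivity)
      rw [mul_one] at h2
      exact lt_of_le_of_lt h2 hn
    rw [hm] at h1 ⊢
    have h3 : |m| < 1 := by exact_mod_cast h1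
    rw [Int.abs_lt_one_iff.1 h3]
    simp
  have hzero : ∀ x : X d, (((A.symm : X d →L[ℝ] X d) ^ n) x) i0 = 0 := by
    intro x
    have h1 : x = ∑ i, x i • (Pi.single i 1 : X d) := by
      ext j
      rw [Finset.sum_apply, Finset.sum_eq_single j]
      · simp
      · intro b _ hb
        simp [Ne.symm hb]
      · intro h
        exact absurd (Finset.mem_univ j) h
    rw [h1, map_sum, Finset.sum_apply]
    refine Finset.sum_eq_zero fun i _ => ?_
    rw [map_smul, Pi.smul_apply, hbas, smul_zero]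
  have h1 := hzero (((A : X d →L[ℝ] X d) ^ n) (Pi.single i0 1))
  rw [fourB_symm] at h1
  simp at h1

private theorem fourB_odd (c : ℝ) (hc : c = 1 ∨ c = -1) (a b : ℕ) (hab : a < b) (m : ℤ)
    (h : (2 : ℝ) ^ a = c * 2 ^ b * m) : False := by
  obtain ⟨u, rfl⟩ : ∃ u, b = a + 1 + u := ⟨b - (a + 1), by omega⟩
  have h1 : (2 : ℝ) ^ a * 1 = 2 ^ a * (c * (2 * 2 ^ u * m)) := by
    rw [mul_one]
    refine h.trans ?_
    rw [pow_add, pow_add, pow_one]
    ring
  have h2 : (1 : ℝ) = c * (2 * 2 ^ u * m) := mul_left_cancel₀ (by positivity) h1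
  rcases hc with rfl | rfl
  · have h3 : (1 : ℤ) = 2 * (2 ^ u * m) := by
      have h4 : (1 : ℝ) = 2 * (2 ^ u * m) := by rw [h2]; ring
      exact_mod_cast h4
    omega
  · have h3 : (1 : ℤ) = -(2 * (2 ^ u * m)) := by
      have h4 : (1 : ℝ) = -(2 * (2 ^ u * m)) := by rw [h2]; ring
      exact_mod_cast h4
    omega

theorem arith {A : X d ≃L[ℝ] X d} {B : X k ≃L[ℝ] X k} {ps pu : X d →L[ℝ] X d}
    (hD : Dom A B ps pu) (i0 : Fin d) (j : ℕ) (hj : 1 ≤ j) (a b : ℕ) (c : ℝ) (hc : c = 1 ∨ c = -1) :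
    ∃ x : X d, (2 : ℝ) ^ a * ((A : X d →L[ℝ] X d) ^ j) x i0 ≠ c * 2 ^ b * x i0 := by
  by_contra hcon
  push Not at hcon
  have hcc : c * c = 1 := by
    rcases hc with rfl | rfl <;> norm_num
  rcases lt_trichotomy a b with hab | hab | hab
  · obtain ⟨m, hm⟩ := fourB_int hD.inv.intA j _ (fourB_single i0) i0
    have h1 := hcon (((A.symm : X d →L[ℝ] X d) ^ j) (Pi.single i0 1))
    have h2 : ((A : X d →L[ℝ] X d) ^ j) (((A.symm : X d →L[ℝ] X d) ^ j) (Pi.single i0 1)) =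
        Pi.single i0 1 := fourB_symm A.symm j (Pi.single i0 1)
    rw [h2, hm, Pi.single_eq_same, mul_one] at h1
    exact fourB_odd c hc a b hab m h1
  · subst hab
    have h1 : ∀ x : X d, ((A : X d →L[ℝ] X d) ^ j) x i0 = c * x i0 := by
      intro x
      have h2 := hcon x
      have h3 : (2 : ℝ) ^ a * ((A : X d →L[ℝ] X d) ^ j) x i0 = 2 ^ a * (c * x i0) := by
        rw [h2]
        ring
      exact mul_left_cancel₀ (by positivity) h3
    have h2 : ∀ (n : ℕ) (x : X d), ((A : X d →L[ℝ] X d) ^ (j * n)) x i0 = c ^ n * x i0 := by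
      intro n
      induction n with
      | zero =>
        intro x
        simp
      | succ n ih =>
        intro x
        rw [Nat.mul_succ, pow_add]
        change ((A : X d →L[ℝ] X d) ^ (j * n)) (((A : X d →L[ℝ] X d) ^ j) x) i0 = _
        rw [ih, h1, pow_succ]
        ring
    obtain ⟨C, r, hC, hr, hr1, hest⟩ := hD.est
    obtain ⟨ℓ, hℓ⟩ := coord_ne hD i0
    have h3 : ∀ n : ℕ, |ps ℓ i0| ≤ C * ‖ℓ‖ * r ^ n := by
      intro n
      have h4 : |ps ℓ i0| = |((A : X d →L[ℝ] X d) ^ (j * n)) (ps ℓ) i0| := by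
        rw [h2, abs_mul, abs_pow]
        have h5 : |c| = 1 := by
          rcases hc with rfl | rfl <;> norm_num
        rw [h5, one_pow, one_mul]
      rw [h4]
      refine (fourB_coord _ _).trans ?_
      have h5 : ‖((A : X d →L[ℝ] X d) ^ (j * n) * ps) ℓ‖ ≤ C * r ^ (j * n) * ‖ℓ‖ :=
        (ContinuousLinearMap.le_opNorm _ _).trans
          (mul_le_mul_of_nonneg_right (hest (j * n)).1 (norm_nonneg _))
      refine (h5 : ‖((A : X d →L[ℝ] X d) ^ (j * n)) (ps ℓ)‖ ≤ _).trans ?_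
      have h6 : r ^ (j * n) ≤ r ^ n :=
        pow_le_pow_of_le_one hr.le hr1.le (Nat.le_mul_of_pos_left n hj)
      have h7 : 0 ≤ C * ‖ℓ‖ := by positivity
      calc C * r ^ (j * n) * ‖ℓ‖ = C * ‖ℓ‖ * r ^ (j * n) := by ring
        _ ≤ C * ‖ℓ‖ * r ^ n := mul_le_mul_of_nonneg_left h6 h7
    have h4 : Filter.Tendsto (fun n : ℕ => C * ‖ℓ‖ * r ^ n) Filter.atTop (nhds (C * ‖ℓ‖ * 0)) :=
      (tendsto_pow_atTop_nhds_zero_of_lt_one hr.le hr1).const_mul _
    rw [mul_zero] at h4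
    have h5 : |ps ℓ i0| ≤ 0 := ge_of_tendsto' h4 h3
    exact hℓ (abs_nonpos_iff.1 h5)
  · obtain ⟨m, hm⟩ := fourB_int hD.intA j _ (fourB_single i0) i0
    have h1 := hcon (Pi.single i0 1)
    rw [hm, Pi.single_eq_same, mul_one] at h1
    refine fourB_odd c hc b a hab m ?_
    calc (2 : ℝ) ^ b = (c * c) * 2 ^ b := by rw [hcc, one_mul]
      _ = c * (c * 2 ^ b) := by ring
      _ = c * (2 ^ a * m) := by rw [h1]
      _ = c * 2 ^ a * m := by ring

end Pool.Agent.H44.AC
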