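import Pool.Agent.H44.AC.FourA

/-!
# [H44 AC FOURC] Fourier coefficients of the trigonometric polynomial `psi`

`psi i0 x i = cos (2π 2^i x_{i0})`.  `psi_smooth`: `contDiff_pi`, `Real.contDiff_cos`.  `psi_per`: `Real.cos_add_int_mul_two_pi`.
* `int_zero`, `int_id`: `ζ (psi (L (x + γ))) = ∑_i ζ (e_i) cos (2π 2^i (L x)_{i0} + 2π 2^i (L γ)_{i0})`, `cos u cos v = (cos (u - v) + cos (u + v)) / 2`, and `mean_zero` for the integral functionals
  `r x = 2^i (L x)_{i0} ∓ 2^i' x_{i0}`, which are not `0`; for `L = 1`, `2^i ∓ 2^i' ≠ 0` unless `i = i'` and the sign is `-`, in which case the integrand is the constant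
  `cos (2π 2^i' γ_{i0} - θ)` (`cube_vol`).
-/

set_option autoImplicit false

open MeasureTheory

namespace Pool.Agent.H44.AC

variable {d k : ℕ}

/-- the trigonometric polynomial -/
noncomputable def psi (k : ℕ) (i0 : Fin d) : X d → X k := fun x i => Real.cos (2 * Real.pi * (2 ^ (i : ℕ) * x i0))

theorem psi_smooth (i0 : Fin d) : ContDiff ℝ ⊤ (psi k i0) := by
  unfold psi
  refine contDiff_pi.2 fun i => ?_
  exact Real.contDiff_cos.comp (by fun_prop)

theorem psi_per (i0 : Fin d) (x n : X d) (hn : Int1 n) : psi k i0 (x + n) = psi k i0 x := by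
  obtain ⟨m, hm⟩ := hn i0
  funext i
  simp only [psi, Pi.add_apply, hm]
  have e : 2 * Real.pi * (2 ^ (i : ℕ) * (x i0 + m)) =
      2 * Real.pi * (2 ^ (i : ℕ) * x i0) + (((2 : ℤ) ^ (i : ℕ) * m : ℤ) : ℝ) * (2 * Real.pi) := by
    push_cast
    ring
  rw [e, Real.cos_add_int_mul_two_pi]

/-- the coordinate function -/
noncomputable def crd (i0 : Fin d) : X d →L[ℝ] ℝ := ContinuousLinearMap.proj i0

theorem zeta_sum (ζ : X k →L[ℝ] ℝ) (v : X k) : ζ v = ∑ i, v i * ζ (Pi.single i 1) := by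
  have h := (Pi.basisFun ℝ (Fin k)).sum_repr v
  simp only [Pi.basisFun_repr, Pi.basisFun_apply] at h
  conv_lhs => rw [← h]
  rw [map_sum]
  apply Finset.sum_congr rfl
  intro i _
  rw [map_smul, smul_eq_mul]

theorem prod_int (r1 r2 : X d →L[ℝ] ℝ) (α β : ℝ) :
    ∫ x in cube d, Real.cos (2 * Real.pi * r1 x + α) * Real.cos (2 * Real.pi * r2 x + β) =
      1 / 2 * ((∫ x in cube d, Real.cos (2 * Real.pi * (r1 - r2) x + (α - β))) +
        ∫ x in cube d, Real.cos (2 * Real.pi * (r1 + r2) x + (α + β))) := by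
  rw [← integral_add (cube_integrable (by fun_prop)) (cube_integrable (by fun_prop)),
    ← integral_const_mul]
  congr 1
  funext x
  have e1 : 2 * Real.pi * (r1 - r2) x + (α - β) =
      (2 * Real.pi * r1 x + α) - (2 * Real.pi * r2 x + β) := by
    rw [ContinuousLinearMap.sub_apply]
    ring
  have e2 : 2 * Real.pi * (r1 + r2) x + (α + β) =
      (2 * Real.pi * r1 x + α) + (2 * Real.pi * r2 x + β) := by
    rw [ContinuousLinearMap.add_apply]
    ring
  rw [e1, e2, Real.cos_sub (2 * Real.pi * r1 x + α) (2 * Real.pi * r2 x + β),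
    Real.cos_add (2 * Real.pi * r1 x + α) (2 * Real.pi * r2 x + β)]
  ring

theorem coef_int (i0 : Fin d) (L : X d →L[ℝ] X d) (i' : Fin k) (ζ : X k →L[ℝ] ℝ) (γ : X d) (θ : ℝ) :
    ∫ x in cube d, ζ (psi k i0 (L (x + γ))) * Real.cos (2 * Real.pi * (2 ^ (i' : ℕ) * x i0) + θ) =
      ∑ i : Fin k, ζ (Pi.single i 1) *
        ∫ x in cube d, Real.cos (2 * Real.pi * (((2 : ℝ) ^ (i : ℕ)) • ((crd i0).comp L)) x +
          2 * Real.pi * (2 ^ (i : ℕ) * L γ i0)) *
          Real.cos (2 * Real.pi * (((2 : ℝ) ^ (i' : ℕ)) • crd i0) x + θ) := by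
  have h1 : ∀ i : Fin k, ζ (Pi.single i 1) *
        ∫ x in cube d, Real.cos (2 * Real.pi * (((2 : ℝ) ^ (i : ℕ)) • ((crd i0).comp L)) x +
          2 * Real.pi * (2 ^ (i : ℕ) * L γ i0)) *
          Real.cos (2 * Real.pi * (((2 : ℝ) ^ (i' : ℕ)) • crd i0) x + θ) =
      ∫ x in cube d, ζ (Pi.single i 1) *
        (Real.cos (2 * Real.pi * (((2 : ℝ) ^ (i : ℕ)) • ((crd i0).comp L)) x +
          2 * Real.pi * (2 ^ (i : ℕ) * L γ i0)) *
          Real.cos (2 * Real.pi * (((2 : ℝ) ^ (i' : ℕ)) • crd i0) x + θ)) :=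
    fun i => (integral_const_mul _ _).symm
  rw [Finset.sum_congr rfl fun i _ => h1 i, ← integral_finsetSum]
  · congr 1
    funext x
    rw [zeta_sum ζ (psi k i0 (L (x + γ))), Finset.sum_mul]
    apply Finset.sum_congr rfl
    intro i _
    have e1 : psi k i0 (L (x + γ)) i =
        Real.cos (2 * Real.pi * (((2 : ℝ) ^ (i : ℕ)) • ((crd i0).comp L)) x +
          2 * Real.pi * (2 ^ (i : ℕ) * L γ i0)) := by
      simp only [psi, crd, map_add, Pi.add_apply, ContinuousLinearMap.smul_apply,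
        ContinuousLinearMap.comp_apply, ContinuousLinearMap.proj_apply, smul_eq_mul]
      congr 1
      ring
    have e2 : (((2 : ℝ) ^ (i' : ℕ)) • crd i0) x = 2 ^ (i' : ℕ) * x i0 := by
      simp only [crd, ContinuousLinearMap.smul_apply, ContinuousLinearMap.proj_apply, smul_eq_mul]
    rw [e1, e2]
    ring
  · intro i _
    exact cube_integrable (by fun_prop)

theorem int_zero (i0 : Fin d) (L : X d →L[ℝ] X d) (hL : ∀ n, Int1 n → Int1 (L n)) (i' : Fin k)
    (h : ∀ (i : Fin k) (c : ℝ), c = 1 ∨ c = -1 → ∃ x : X d, (2 : ℝ) ^ (i : ℕ) * L x i0 ≠ c * 2 ^ (i' : ℕ) * x i0)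
    (ζ : X k →L[ℝ] ℝ) (γ : X d) (θ : ℝ) :
    ∫ x in cube d, ζ (psi k i0 (L (x + γ))) * Real.cos (2 * Real.pi * (2 ^ (i' : ℕ) * x i0) + θ) = 0 := by
  rw [coef_int]
  apply Finset.sum_eq_zero
  intro i _
  rw [prod_int, mean_zero, mean_zero]
  · ring
  · intro n hn
    obtain ⟨a, ha⟩ := hL n hn i0
    obtain ⟨b, hb⟩ := hn i0
    refine ⟨2 ^ (i : ℕ) * a + 2 ^ (i' : ℕ) * b, ?_⟩
    simp only [crd, ContinuousLinearMap.add_apply, ContinuousLinearMap.smul_apply,
      ContinuousLinearMap.comp_apply, ContinuousLinearMap.proj_apply, smul_eq_mul, ha, hb]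
    push_cast
    ring
  · obtain ⟨x, hx⟩ := h i (-1) (Or.inr rfl)
    refine ⟨x, fun h0 => hx ?_⟩
    simp only [crd, ContinuousLinearMap.add_apply, ContinuousLinearMap.smul_apply,
      ContinuousLinearMap.comp_apply, ContinuousLinearMap.proj_apply, smul_eq_mul] at h0
    linarith
  · intro n hn
    obtain ⟨a, ha⟩ := hL n hn i0
    obtain ⟨b, hb⟩ := hn i0
    refine ⟨2 ^ (i : ℕ) * a - 2 ^ (i' : ℕ) * b, ?_⟩
    simp only [crd, ContinuousLinearMap.sub_apply, ContinuousLinearMap.smul_apply,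
      ContinuousLinearMap.comp_apply, ContinuousLinearMap.proj_apply, smul_eq_mul, ha, hb]
    push_cast
    ring
  · obtain ⟨x, hx⟩ := h i 1 (Or.inl rfl)
    refine ⟨x, fun h0 => hx ?_⟩
    simp only [crd, ContinuousLinearMap.sub_apply, ContinuousLinearMap.smul_apply,
      ContinuousLinearMap.comp_apply, ContinuousLinearMap.proj_apply, smul_eq_mul] at h0
    linarith

theorem mean_pow (i0 : Fin d) (c : ℤ) (hc : c ≠ 0) (r : X d →L[ℝ] ℝ) (hr : ∀ x, r x = c * x i0)
    (φ : ℝ) : ∫ x in cube d, Real.cos (2 * Real.pi * r x + φ) = 0 := by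
  apply mean_zero
  · intro n hn
    obtain ⟨b, hb⟩ := hn i0
    exact ⟨c * b, by rw [hr, hb]; push_cast; ring⟩
  · refine ⟨fun _ => 1, ?_⟩
    rw [hr, mul_one]
    exact_mod_cast hc

theorem int_id (i0 : Fin d) (i' : Fin k) (ζ : X k →L[ℝ] ℝ) (γ : X d) (θ : ℝ) :
    ∫ x in cube d, ζ (psi k i0 (x + γ)) * Real.cos (2 * Real.pi * (2 ^ (i' : ℕ) * x i0) + θ) =
      1 / 2 * ζ (Pi.single i' 1) * Real.cos (2 * Real.pi * (2 ^ (i' : ℕ) * γ i0) - θ) := by
  have h := coef_int i0 (ContinuousLinearMap.id ℝ (X d)) i' ζ γ θ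
  simp only [ContinuousLinearMap.id_apply, ContinuousLinearMap.comp_id] at h
  rw [h, Finset.sum_eq_single i']
  · rw [prod_int, mean_pow i0 (2 ^ (i' : ℕ) + 2 ^ (i' : ℕ)) (by positivity)
      ((2 : ℝ) ^ (i' : ℕ) • crd i0 + (2 : ℝ) ^ (i' : ℕ) • crd i0)]
    · have e : ∀ x : X d, 2 * Real.pi * ((2 : ℝ) ^ (i' : ℕ) • crd i0 - (2 : ℝ) ^ (i' : ℕ) • crd i0) x +
          (2 * Real.pi * (2 ^ (i' : ℕ) * γ i0) - θ) = 2 * Real.pi * (2 ^ (i' : ℕ) * γ i0) - θ := by
        intro x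
        rw [sub_self, ContinuousLinearMap.zero_apply]
        ring
      simp only [e]
      rw [setIntegral_const, Measure.real, cube_vol, ENNReal.toReal_one, one_smul]
      ring
    · intro x
      simp only [crd, ContinuousLinearMap.add_apply, ContinuousLinearMap.smul_apply,
        ContinuousLinearMap.proj_apply, smul_eq_mul]
      push_cast
      ring
  · intro i _ hi
    have hne : (i : ℕ) ≠ (i' : ℕ) := fun h => hi (Fin.ext h)
    rw [prod_int, mean_pow i0 (2 ^ (i : ℕ) + 2 ^ (i' : ℕ)) (by positivity)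
      ((2 : ℝ) ^ (i : ℕ) • crd i0 + (2 : ℝ) ^ (i' : ℕ) • crd i0),
      mean_pow i0 (2 ^ (i : ℕ) - 2 ^ (i' : ℕ)) _
      ((2 : ℝ) ^ (i : ℕ) • crd i0 - (2 : ℝ) ^ (i' : ℕ) • crd i0)]
    · ring
    · intro x
      simp only [crd, ContinuousLinearMap.sub_apply, ContinuousLinearMap.smul_apply,
        ContinuousLinearMap.proj_apply, smul_eq_mul]
      push_cast
      ring
    · rw [sub_ne_zero]
      intro h0
      exact hne (Int.pow_right_injective (le_refl 2) h0)
    · intro x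
      simp only [crd, ContinuousLinearMap.add_apply, ContinuousLinearMap.smul_apply,
        ContinuousLinearMap.proj_apply, smul_eq_mul]
      push_cast
      ring
  · intro h0
    exact absurd (Finset.mem_univ i') h0

end Pool.Agent.H44.AC
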