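import Pool.Agent.H44.AC.SWa2

/-!
# [H44 AC SWB] The explicit holonomy `W`

* `W_term`: the term `j` is at most `K r^j ‖ℓ‖`: `h` is `H`-Lipschitz (`Dh_bdd`), `‖b^(j+1)‖ H ‖a^j ps ℓ‖`, `Dom.est`.
* `W_bd` (sum of the bounds), `W_ps`, `W_zero`, `W_add` (termwise telescoping, `ps (ℓ + ℓ') = ps ℓ + ps ℓ'`, `Summable.tsum_add`), `W_neg` (from `W_add` with
  `ℓ' = -ℓ`).
* `W_per`: `h (y + n') - h y` is the same for all `y` (`h_shift`), so the term does not change when `x` is replaced by `x + n` (`a^j n` is integral, `a_int`).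
* `W_cont`: `continuous_tsum` does not apply directly (the bound depends on `ℓ`): continuity at every point, on the open set `‖ℓ‖ < R`
  (`continuousOn_tsum`), or continuity of the uniform limits on balls.
-/

set_option autoImplicit false

namespace Pool.Agent.H44.AC

variable {d k : ℕ}

namespace Sk

theorem W_term {s : Sk d k} (hs : s.Ok) : ∃ K r : ℝ, 0 < K ∧ 0 < r ∧ r < 1 ∧
    ∀ (j : ℕ) (x ℓ : X d),
      ‖(s.b ^ (j + 1)) (s.h ((s.a ^ j) (x + s.ps ℓ)) - s.h ((s.a ^ j) x))‖ ≤ K * r ^ j * ‖ℓ‖ := by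
  obtain ⟨C, r, hC, hr, hr1, hest⟩ := hs.dom.est
  obtain ⟨H, hH, hHb⟩ := hs.Dh_bdd
  refine ⟨(‖s.b‖ + 1) * H * C, r, by positivity, hr, hr1, fun j x ℓ => ?_⟩
  have h1 : ‖s.a ^ j * s.ps‖ * ‖s.b ^ j‖ ≤ C * r ^ j := (hest j).2.2.1
  have h2 : ‖s.b ^ (j + 1)‖ ≤ (‖s.b‖ + 1) * ‖s.b ^ j‖ := by
    rw [pow_succ']
    refine (norm_mul_le _ _).trans ?_
    have := norm_nonneg (s.b ^ j)
    nlinarith
  have h3 : ‖s.h ((s.a ^ j) (x + s.ps ℓ)) - s.h ((s.a ^ j) x)‖ ≤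
      H * (‖s.a ^ j * s.ps‖ * ‖ℓ‖) := by
    have hd : Differentiable ℝ s.h := hs.c1.differentiable one_ne_zero
    have h4 := (convex_univ (𝕜 := ℝ) (E := X d)).norm_image_sub_le_of_norm_fderiv_le
      (f := s.h) (C := H) (x := (s.a ^ j) x) (y := (s.a ^ j) (x + s.ps ℓ))
      (fun z _ => hd z) (fun z _ => hHb z) (Set.mem_univ _) (Set.mem_univ _)
    refine h4.trans (mul_le_mul_of_nonneg_left ?_ hH.le)
    rw [map_add, add_sub_cancel_left]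
    exact (s.a ^ j * s.ps).le_opNorm ℓ
  calc ‖(s.b ^ (j + 1)) (s.h ((s.a ^ j) (x + s.ps ℓ)) - s.h ((s.a ^ j) x))‖
      ≤ ‖s.b ^ (j + 1)‖ * ‖s.h ((s.a ^ j) (x + s.ps ℓ)) - s.h ((s.a ^ j) x)‖ :=
        ContinuousLinearMap.le_opNorm _ _
    _ ≤ ((‖s.b‖ + 1) * ‖s.b ^ j‖) * (H * (‖s.a ^ j * s.ps‖ * ‖ℓ‖)) := by gcongr
    _ = (‖s.b‖ + 1) * H * (‖s.a ^ j * s.ps‖ * ‖s.b ^ j‖) * ‖ℓ‖ := by ring
    _ ≤ (‖s.b‖ + 1) * H * (C * r ^ j) * ‖ℓ‖ := by gcongr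
    _ = _ := by ring

private theorem W_sum {s : Sk d k} (hs : s.Ok) (x ℓ : X d) : Summable fun j : ℕ =>
    (s.b ^ (j + 1)) (s.h ((s.a ^ j) (x + s.ps ℓ)) - s.h ((s.a ^ j) x)) := by
  obtain ⟨K, r, hK, hr, hr1, h⟩ := W_term hs
  exact Summable.of_norm_bounded
    (((summable_geometric_of_lt_one hr.le hr1).mul_left K).mul_right ‖ℓ‖) (fun j => h j x ℓ)

theorem W_bd {s : Sk d k} (hs : s.Ok) : ∃ K : ℝ, 0 < K ∧ ∀ x ℓ, ‖s.W x ℓ‖ ≤ K * ‖ℓ‖ := by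
  obtain ⟨K, r, hK, hr, hr1, h⟩ := W_term hs
  have h1 : 0 < 1 - r := by linarith
  refine ⟨K * (1 - r)⁻¹, by positivity, fun x ℓ => ?_⟩
  have hsum : HasSum (fun j : ℕ => K * r ^ j * ‖ℓ‖) (K * (1 - r)⁻¹ * ‖ℓ‖) :=
    ((hasSum_geometric_of_lt_one hr.le hr1).mul_left K).mul_right ‖ℓ‖
  unfold W
  rw [norm_neg]
  exact tsum_of_norm_bounded hsum fun j => h j x ℓ

theorem W_ps {s : Sk d k} (hs : s.Ok) (x ℓ : X d) : s.W x (s.ps ℓ) = s.W x ℓ := by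
  unfold W
  rw [hs.dom.ss]

theorem W_zero (s : Sk d k) (x : X d) : s.W x 0 = 0 := by
  unfold W
  simp

theorem W_add {s : Sk d k} (hs : s.Ok) (x ℓ ℓ' : X d) :
    s.W x (ℓ + ℓ') = s.W x ℓ + s.W (x + s.ps ℓ) ℓ' := by
  unfold W
  rw [← neg_add, ← (W_sum hs x ℓ).tsum_add (W_sum hs (x + s.ps ℓ) ℓ')]
  congr 1
  refine tsum_congr fun j => ?_
  rw [← map_add]
  congr 1
  rw [map_add s.ps, ← add_assoc]
  abel

theorem W_neg {s : Sk d k} (hs : s.Ok) (x ℓ : X d) :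
    s.W (x + s.ps ℓ) (-ℓ) = -s.W x ℓ := by
  have h := W_add hs x ℓ (-ℓ)
  rw [add_neg_cancel, W_zero] at h
  exact (neg_eq_of_add_eq_zero_right h.symm).symm

theorem W_per {s : Sk d k} (hs : s.Ok) (x n ℓ : X d) (hn : Int1 n) : s.W (x + n) ℓ = s.W x ℓ := by
  unfold W
  congr 1
  refine tsum_congr fun j => ?_
  congr 1
  have h1 := hs.h_shift ((s.a ^ j) (x + s.ps ℓ)) ((s.a ^ j) x) ((s.a ^ j) n) (a_int hs j n hn)
  have e1 : (s.a ^ j) (x + n + s.ps ℓ) = (s.a ^ j) (x + s.ps ℓ) + (s.a ^ j) n := by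
    rw [← map_add]
    congr 1
    abel
  rw [e1, map_add (s.a ^ j) x n]
  rw [sub_eq_sub_iff_add_eq_add] at h1 ⊢
  rw [h1]
  abel

theorem W_cont {s : Sk d k} (hs : s.Ok) : Continuous fun q : X d × X d => s.W q.1 q.2 := by
  obtain ⟨K, r, hK, hr, hr1, h⟩ := W_term hs
  rw [continuous_iff_continuousAt]
  intro q0
  have hopen : IsOpen {q : X d × X d | ‖q.2‖ < ‖q0.2‖ + 1} :=
    isOpen_lt continuous_snd.norm continuous_const
  have hq0 : q0 ∈ {q : X d × X d | ‖q.2‖ < ‖q0.2‖ + 1} := by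
    change ‖q0.2‖ < ‖q0.2‖ + 1
    linarith
  have hh : Continuous s.h := hs.c1.continuous
  have h1 : ContinuousOn (fun q : X d × X d => ∑' j : ℕ,
      (s.b ^ (j + 1)) (s.h ((s.a ^ j) (q.1 + s.ps q.2)) - s.h ((s.a ^ j) q.1)))
      {q : X d × X d | ‖q.2‖ < ‖q0.2‖ + 1} := by
    refine continuousOn_tsum (fun j => ?_)
      (((summable_geometric_of_lt_one hr.le hr1).mul_left K).mul_right (‖q0.2‖ + 1))
      (fun j q hq => (h j q.1 q.2).trans ?_)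
    · refine Continuous.continuousOn ?_
      refine (s.b ^ (j + 1)).continuous.comp (Continuous.sub ?_ ?_)
      · exact hh.comp ((s.a ^ j).continuous.comp
          (continuous_fst.add (s.ps.continuous.comp continuous_snd)))
      · exact hh.comp ((s.a ^ j).continuous.comp continuous_fst)
    · have hq' : ‖q.2‖ < ‖q0.2‖ + 1 := hq
      have : 0 ≤ K * r ^ j := by positivity
      exact mul_le_mul_of_nonneg_left hq'.le this
  have h2 : ContinuousAt (fun q : X d × X d => ∑' j : ℕ,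
      (s.b ^ (j + 1)) (s.h ((s.a ^ j) (q.1 + s.ps q.2)) - s.h ((s.a ^ j) q.1))) q0 :=
    h1.continuousAt (hopen.mem_nhds hq0)
  exact h2.neg

end Sk

end Pool.Agent.H44.AC
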