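import Pool.Agent.H44.AC.FourC
import Pool.Agent.H44.AC.FourB
import Pool.Agent.H44.AC.SWb

/-!
# [H44 AC FOURD] Fourier coefficients of `W` for the trigonometric polynomial `psi`

* `int_W`: `W (x + γ) ℓ = - ∑_j b^(j+1) (psi (a^j (x + γ + ps ℓ)) - psi (a^j (x + γ)))`; the sum and the integral may be exchanged
  (`MeasureTheory.integral_tsum_of_summable_integral_norm` or `hasSum_integral_of_summable_integral_norm`, `W_term`, `cube_integrable`, `cube_vol`).  The terms `j ≥ 1` vanish (`int_zero` with `L = a^j`, `arith`), the term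
  `j = 0` is given by `int_id` (with `ζ = ξ ∘ b` and the vectors `γ + ps ℓ`, `γ`).
* `int_Wu`: `s.inv.h x = -b (psi (A⁻¹ x))`, so the term `j` of `s.inv.W` involves `psi (A^(-(j+1)) …)`: all vanish (`int_zero`, `arith` for `hs.dom.inv`).
-/

set_option autoImplicit false

open MeasureTheory

namespace Pool.Agent.H44.AC

variable {d k : ℕ}

private theorem fourD_swap {t : Sk d k} (ht : t.Ok) (ξ : X k →L[ℝ] ℝ) (γ ℓ : X d) (g : X d → ℝ)
    (hg : Continuous g) (hg1 : ∀ x, |g x| ≤ 1) :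
    ∫ x in cube d, ξ (t.W (x + γ) ℓ) * g x =
      -∑' j : ℕ, ∫ x in cube d, ξ ((t.b ^ (j + 1)) (t.h ((t.a ^ j) (x + γ + t.ps ℓ)) -
        t.h ((t.a ^ j) (x + γ)))) * g x := by
  obtain ⟨K, r, hK, hr, hr1, hterm⟩ := Sk.W_term ht
  have hgeo : Summable fun j : ℕ => K * r ^ j * ‖ℓ‖ :=
    ((summable_geometric_of_lt_one hr.le hr1).mul_left K).mul_right ‖ℓ‖
  have hTb : ∀ (j : ℕ) (x : X d), ‖(t.b ^ (j + 1)) (t.h ((t.a ^ j) (x + γ + t.ps ℓ)) -
      t.h ((t.a ^ j) (x + γ)))‖ ≤ K * r ^ j * ‖ℓ‖ := fun j x => hterm j (x + γ) ℓ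
  have hTs : ∀ x : X d, Summable fun j : ℕ => (t.b ^ (j + 1)) (t.h ((t.a ^ j)
      (x + γ + t.ps ℓ)) - t.h ((t.a ^ j) (x + γ))) := fun x =>
    Summable.of_norm_bounded hgeo fun j => hTb j x
  have hpt : ∀ x : X d, ξ (t.W (x + γ) ℓ) * g x = -∑' j : ℕ, (ξ ((t.b ^ (j + 1)) (t.h ((t.a ^ j)
      (x + γ + t.ps ℓ)) - t.h ((t.a ^ j) (x + γ)))) * g x) := by
    intro x
    unfold Sk.W
    rw [map_neg, ContinuousLinearMap.map_tsum _ (hTs x), neg_mul, tsum_mul_right]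
  have hh : Continuous t.h := ht.c1.continuous
  have hcont : ∀ j : ℕ, Continuous fun x : X d => ξ ((t.b ^ (j + 1)) (t.h ((t.a ^ j)
      (x + γ + t.ps ℓ)) - t.h ((t.a ^ j) (x + γ)))) * g x := by
    intro j
    have h1 : Continuous fun x : X d => t.h ((t.a ^ j) (x + γ + t.ps ℓ)) :=
      hh.comp ((t.a ^ j).continuous.comp ((continuous_id.add continuous_const).add continuous_const))
    have h2 : Continuous fun x : X d => t.h ((t.a ^ j) (x + γ)) :=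
      hh.comp ((t.a ^ j).continuous.comp (continuous_id.add continuous_const))
    exact (ξ.continuous.comp ((t.b ^ (j + 1)).continuous.comp (h1.sub h2))).mul hg
  have hb : ∀ (j : ℕ) (x : X d), ‖ξ ((t.b ^ (j + 1)) (t.h ((t.a ^ j)
      (x + γ + t.ps ℓ)) - t.h ((t.a ^ j) (x + γ)))) * g x‖ ≤ ‖ξ‖ * (K * r ^ j * ‖ℓ‖) := by
    intro j x
    rw [norm_mul]
    have h1 := (ξ.le_opNorm ((t.b ^ (j + 1)) (t.h ((t.a ^ j)
      (x + γ + t.ps ℓ)) - t.h ((t.a ^ j) (x + γ))))).trans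
      (mul_le_mul_of_nonneg_left (hTb j x) (norm_nonneg ξ))
    have h2 : ‖g x‖ ≤ 1 := by
      rw [Real.norm_eq_abs]
      exact hg1 x
    calc _ ≤ ‖ξ‖ * (K * r ^ j * ‖ℓ‖) * 1 := mul_le_mul h1 h2 (norm_nonneg _) (by positivity)
      _ = _ := mul_one _
  have hsum := hasSum_integral_of_summable_integral_norm (μ := volume.restrict (cube d))
    (F := fun (j : ℕ) (x : X d) => ξ ((t.b ^ (j + 1)) (t.h ((t.a ^ j)
      (x + γ + t.ps ℓ)) - t.h ((t.a ^ j) (x + γ)))) * g x)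
    (fun j => cube_integrable (hcont j)) (by
      refine Summable.of_nonneg_of_le (fun j => integral_nonneg fun x => norm_nonneg _)
        (fun j => ?_) (hgeo.mul_left ‖ξ‖)
      have h1 := norm_setIntegral_le_of_norm_le_const (μ := volume) (s := cube d)
        (f := fun x : X d => ‖ξ ((t.b ^ (j + 1)) (t.h ((t.a ^ j)
          (x + γ + t.ps ℓ)) - t.h ((t.a ^ j) (x + γ)))) * g x‖)
        (C := ‖ξ‖ * (K * r ^ j * ‖ℓ‖)) (by rw [cube_vol]; exact ENNReal.one_lt_top)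
        (fun x _ => by rw [norm_norm]; exact hb j x)
      have h2 : (volume : Measure (X d)).real (cube d) = 1 := by
        rw [measureReal_def, cube_vol, ENNReal.toReal_one]
      rw [h2, mul_one] at h1
      exact (Real.le_norm_self _).trans h1)
  simp_rw [hpt]
  rw [integral_neg, ← hsum.tsum_eq]

private theorem fourD_cos_cont (i0 : Fin d) (i' : ℕ) (θ : ℝ) :
    Continuous fun x : X d => Real.cos (2 * Real.pi * (2 ^ i' * x i0) + θ) := by
  have h1 : Continuous fun x : X d => x i0 := continuous_apply i0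
  fun_prop

private theorem fourD_diff (i0 : Fin d) (ζ : X k →L[ℝ] ℝ) (L : X d →L[ℝ] X d) (γ v : X d)
    (g : X d → ℝ) (hg : Continuous g) :
    ∫ x in cube d, ζ (psi k i0 (L (x + γ + v)) - psi k i0 (L (x + γ))) * g x =
      (∫ x in cube d, ζ (psi k i0 (L (x + (γ + v)))) * g x) -
        ∫ x in cube d, ζ (psi k i0 (L (x + γ))) * g x := by
  have hp : Continuous (psi k i0) := (psi_smooth (k := k) i0).continuous
  have hc : ∀ w : X d, Continuous fun x : X d => ζ (psi k i0 (L (x + w))) * g x := fun w =>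
    (ζ.continuous.comp (hp.comp (L.continuous.comp (continuous_id.add continuous_const)))).mul hg
  rw [← integral_sub (cube_integrable (hc _)) (cube_integrable (hc _))]
  congr 1
  funext x
  rw [map_sub, sub_mul, add_assoc]

theorem int_W {A : X d ≃L[ℝ] X d} {B : X k ≃L[ℝ] X k} {ps pu : X d →L[ℝ] X d} (i0 : Fin d)
    (hs : (⟨A, B, ps, pu, psi k i0⟩ : Sk d k).Ok) (ξ : X k →L[ℝ] ℝ) (γ ℓ : X d) (i' : Fin k) (θ : ℝ) :
    ∫ x in cube d, ξ ((⟨A, B, ps, pu, psi k i0⟩ : Sk d k).W (x + γ) ℓ) *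
        Real.cos (2 * Real.pi * (2 ^ (i' : ℕ) * x i0) + θ) =
      -(1 / 2 * ξ (B.symm (Pi.single i' 1)) *
        (Real.cos (2 * Real.pi * (2 ^ (i' : ℕ) * (γ i0 + ps ℓ i0)) - θ) -
          Real.cos (2 * Real.pi * (2 ^ (i' : ℕ) * γ i0) - θ))) := by
  have hg := fourD_cos_cont i0 i' θ
  rw [fourD_swap hs ξ γ ℓ (fun x => Real.cos (2 * Real.pi * (2 ^ (i' : ℕ) * x i0) + θ)) hg
    (fun x => Real.abs_cos_le_one _)]
  congr 1
  rw [tsum_eq_single 0]
  · have h1 := fourD_diff i0 (ξ.comp (Sk.b ⟨A, B, ps, pu, psi k i0⟩)) 1 γ (ps ℓ) _ hg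
    simp only [ContinuousLinearMap.one_apply] at h1
    rw [int_id, int_id] at h1
    simp only [zero_add, pow_one, pow_zero, ContinuousLinearMap.one_apply]
    refine h1.trans ?_
    rw [Pi.add_apply]
    show 1 / 2 * ξ (B.symm (Pi.single i' 1)) * _ - 1 / 2 * ξ (B.symm (Pi.single i' 1)) * _ = _
    ring
  · intro j hj
    have h1 := fourD_diff i0 (ξ.comp ((Sk.b ⟨A, B, ps, pu, psi k i0⟩) ^ (j + 1)))
      ((Sk.a ⟨A, B, ps, pu, psi k i0⟩) ^ j) γ (ps ℓ) _ hg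
    have hz : ∀ w : X d, ∫ x in cube d, (ξ.comp ((Sk.b ⟨A, B, ps, pu, psi k i0⟩) ^ (j + 1)))
        (psi k i0 (((Sk.a ⟨A, B, ps, pu, psi k i0⟩) ^ j) (x + w))) *
          Real.cos (2 * Real.pi * (2 ^ (i' : ℕ) * x i0) + θ) = 0 := by
      intro w
      refine int_zero i0 _ (Sk.a_int hs j) i' ?_ _ w θ
      intro i c hc
      exact arith hs.dom i0 j (Nat.one_le_iff_ne_zero.2 hj) i i' c hc
    rw [hz, hz, sub_zero] at h1
    exact h1

theorem int_Wu {A : X d ≃L[ℝ] X d} {B : X k ≃L[ℝ] X k} {ps pu : X d →L[ℝ] X d} (i0 : Fin d)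
    (hs : (⟨A, B, ps, pu, psi k i0⟩ : Sk d k).Ok) (ξ : X k →L[ℝ] ℝ) (γ ℓ : X d) (i' : Fin k) (θ : ℝ) :
    ∫ x in cube d, ξ ((⟨A, B, ps, pu, psi k i0⟩ : Sk d k).inv.W (x + γ) ℓ) *
        Real.cos (2 * Real.pi * (2 ^ (i' : ℕ) * x i0) + θ) = 0 := by
  have hg := fourD_cos_cont i0 i' θ
  rw [fourD_swap hs.inv ξ γ ℓ (fun x => Real.cos (2 * Real.pi * (2 ^ (i' : ℕ) * x i0) + θ)) hg
    (fun x => Real.abs_cos_le_one _), neg_eq_zero]
  refine (tsum_congr fun j => ?_).trans tsum_zero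
  have h1 := fourD_diff i0
    (ξ.comp (((Sk.inv ⟨A, B, ps, pu, psi k i0⟩).b ^ (j + 1)).comp (-(B.symm : X k →L[ℝ] X k))))
    ((Sk.inv ⟨A, B, ps, pu, psi k i0⟩).a ^ (j + 1)) γ (pu ℓ) _ hg
  have hz : ∀ w : X d, ∫ x in cube d,
      (ξ.comp (((Sk.inv ⟨A, B, ps, pu, psi k i0⟩).b ^ (j + 1)).comp
        (-(B.symm : X k →L[ℝ] X k))))
      (psi k i0 (((Sk.inv ⟨A, B, ps, pu, psi k i0⟩).a ^ (j + 1)) (x + w))) *
        Real.cos (2 * Real.pi * (2 ^ (i' : ℕ) * x i0) + θ) = 0 := by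
    intro w
    refine int_zero i0 _ (Sk.a_int hs.inv (j + 1)) i' ?_ _ w θ
    intro i c hc
    exact arith hs.dom.inv i0 (j + 1) (by omega) i i' c hc
  rw [hz, hz, sub_zero] at h1
  refine Eq.trans ?_ h1
  congr 1
  funext x
  congr 1
  show ξ _ = ξ _
  congr 1
  show ((Sk.inv ⟨A, B, ps, pu, psi k i0⟩).b ^ (j + 1)) _ =
    ((Sk.inv ⟨A, B, ps, pu, psi k i0⟩).b ^ (j + 1)) _
  congr 1
  have e : ∀ y : X d, ((Sk.inv ⟨A, B, ps, pu, psi k i0⟩).a ^ (j + 1)) y =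
      A.symm (((Sk.inv ⟨A, B, ps, pu, psi k i0⟩).a ^ j) y) := by
    intro y
    rw [pow_succ']
    rfl
  rw [e, e]
  show -B.symm (psi k i0 (A.symm _)) - -B.symm (psi k i0 (A.symm _)) =
    -B.symm (psi k i0 (A.symm _) - psi k i0 (A.symm _))
  rw [map_sub]
  show -B.symm (psi k i0 (A.symm (((Sk.inv ⟨A, B, ps, pu, psi k i0⟩).a ^ j) (x + γ + pu ℓ)))) -
    -B.symm (psi k i0 (A.symm (((Sk.inv ⟨A, B, ps, pu, psi k i0⟩).a ^ j) (x + γ)))) = _
  abel

end Pool.Agent.H44.AC
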