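import Pool.Agent.H44.AC.Basic
import Pool.Agent.H44.AC.Bpi

/-!
# [H44 AC HIT] A map close to a linear map hits the middle of the box

Clamp: `cb z = (fun i => max (-1) (min (z.1 i) 1), fun i => max 0 (min (z.2 i) N))` is continuous with values in the box, and `cb z = z` for `z` in the box (`‖z.1‖ ≤ 1` means
`|z.1 i| ≤ 1` for all `i`, `pi_norm_le_iff_of_nonneg`).
Apply `bpi` on `E d k` to `h z = (e₁, Lin⁻¹ e₂)`, `e₁ = (G (cb z)).1 - p.1 - (cb z).1`, `e₂ = (G (cb z)).2 - p.2 - Lin (cb z).2` (continuous and bounded by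
`max (1/4) (κ (C + 1/4))`) and the point `(u.1, N/2 + Lin⁻¹ u.2)`: there is `z` with `z.1 = u.1 - e₁`, `z.2 = N/2 + Lin⁻¹ (u.2 - e₂)`.  So `‖z.1‖ ≤ 1/2`,
`‖z.2 - N/2‖ ≤ κ (C + 1/2) ≤ N/2`: `z` is in the box, `cb z = z`, and `G z = (p.1 + z.1 + e₁, p.2 + Lin z.2 + e₂) = (p.1 + u.1, p.2 + Lin (N/2) + u.2)`.
-/

set_option autoImplicit false

namespace Pool.Agent.H44.AC

variable {d k : ℕ}

/-- the box of parameters -/
def box (d k : ℕ) (N : ℝ) : Set (E d k) := {z | ‖z.1‖ ≤ 1 ∧ ∀ i, 0 ≤ z.2 i ∧ z.2 i ≤ N}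

theorem box_compact (N : ℝ) : IsCompact (box d k N) := by
  have h1 : box d k N = Metric.closedBall (0 : X d) 1 ×ˢ Set.Icc (0 : X k) (fun _ => N) := by
    ext z
    simp only [box, Set.mem_prod, Metric.mem_closedBall, dist_zero_right, Set.mem_Icc, Pi.le_def,
      Pi.zero_apply]
    constructor
    · rintro ⟨h1, h2⟩
      exact ⟨h1, fun i => (h2 i).1, fun i => (h2 i).2⟩
    · rintro ⟨h1, h2, h3⟩
      exact ⟨h1, fun i => ⟨h2 i, h3 i⟩⟩
  rw [h1]
  exact (isCompact_closedBall _ _).prod isCompact_Icc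

private def cbox (N : ℝ) (z : E d k) : E d k :=
  (fun i => max (-1) (min (z.1 i) 1), fun i => max 0 (min (z.2 i) N))

private theorem cbox_cont (N : ℝ) : Continuous (cbox N : E d k → E d k) := by
  unfold cbox
  refine Continuous.prodMk ?_ ?_
  · refine continuous_pi fun i => ?_
    exact continuous_const.max (((continuous_apply i).comp continuous_fst).min continuous_const)
  · refine continuous_pi fun i => ?_
    exact continuous_const.max (((continuous_apply i).comp continuous_snd).min continuous_const)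

private theorem cbox_mem {N : ℝ} (hN : 0 ≤ N) (z : E d k) : cbox N z ∈ box d k N := by
  constructor
  · refine (pi_norm_le_iff_of_nonneg zero_le_one).2 fun i => ?_
    rw [Real.norm_eq_abs, abs_le]
    exact ⟨le_max_left _ _, max_le (by norm_num) (min_le_right _ _)⟩
  · intro i
    exact ⟨le_max_left _ _, max_le hN (min_le_right _ _)⟩

private theorem cbox_eq {N : ℝ} (z : E d k) (hz : z ∈ box d k N) : cbox N z = z := by
  obtain ⟨h1, h2⟩ := hz
  ext i
  · show max (-1) (min (z.1 i) 1) = z.1 i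
    have h3 := (norm_le_pi_norm z.1 i).trans h1
    rw [Real.norm_eq_abs, abs_le] at h3
    rw [min_eq_left h3.2, max_eq_right h3.1]
  · show max 0 (min (z.2 i) N) = z.2 i
    rw [min_eq_left (h2 i).2, max_eq_right (h2 i).1]

theorem hit (Lin : X k ≃L[ℝ] X k) {κ C N : ℝ} (hκ0 : 0 ≤ κ) (hC : 0 ≤ C) (hN0 : 0 ≤ N)
    (hκ : ∀ y, ‖Lin.symm y‖ ≤ κ * ‖y‖) (hN : κ * (C + 1 / 2) ≤ N / 2)
    (G : E d k → E d k) (hG : Continuous G) (p : E d k)
    (h1 : ∀ z ∈ box d k N, ‖(G z).1 - p.1 - z.1‖ ≤ 1 / 4)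
    (h2 : ∀ z ∈ box d k N, ‖(G z).2 - p.2 - Lin z.2‖ ≤ C + 1 / 4)
    (u : E d k) (hu : ‖u‖ ≤ 1 / 4) :
    ∃ z ∈ box d k N, G z = (p.1 + u.1, p.2 + Lin (fun _ => N / 2) + u.2) := by
  set e₁ : E d k → X d := fun z => (G (cbox N z)).1 - p.1 - (cbox N z).1 with he1
  set e₂ : E d k → X k := fun z => (G (cbox N z)).2 - p.2 - Lin (cbox N z).2 with he2
  have hGc : Continuous fun z : E d k => G (cbox N z) := hG.comp (cbox_cont N)
  have hc1 : Continuous e₁ :=
    ((continuous_fst.comp hGc).sub continuous_const).sub (continuous_fst.comp (cbox_cont N))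
  have hc2 : Continuous e₂ :=
    ((continuous_snd.comp hGc).sub continuous_const).sub
      (Lin.continuous.comp (continuous_snd.comp (cbox_cont N)))
  have hb1 : ∀ z, ‖e₁ z‖ ≤ 1 / 4 := fun z => h1 _ (cbox_mem hN0 z)
  have hb2 : ∀ z, ‖e₂ z‖ ≤ C + 1 / 4 := fun z => h2 _ (cbox_mem hN0 z)
  have hsurj := bpi (V := E d k) (fun z => (e₁ z, Lin.symm (e₂ z)))
    (hc1.prodMk (Lin.symm.continuous.comp hc2)) (max (1 / 4) (κ * (C + 1 / 4))) (by
      intro z
      rw [Prod.norm_def]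
      refine max_le_max (hb1 z) ?_
      exact (hκ _).trans (mul_le_mul_of_nonneg_left (hb2 z) hκ0))
  obtain ⟨z, hz⟩ := hsurj (u.1, (fun _ => N / 2) + Lin.symm u.2)
  have hz1 : z.1 + e₁ z = u.1 := congrArg Prod.fst hz
  have hz2 : z.2 + Lin.symm (e₂ z) = (fun _ => N / 2) + Lin.symm u.2 := congrArg Prod.snd hz
  have hu1 : ‖u.1‖ ≤ 1 / 4 := (norm_fst_le u).trans hu
  have hu2 : ‖u.2‖ ≤ 1 / 4 := (norm_snd_le u).trans hu
  have hz1' : z.1 = u.1 - e₁ z := eq_sub_of_add_eq hz1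
  have hz2' : z.2 = (fun _ => N / 2) + Lin.symm (u.2 - e₂ z) := by
    rw [map_sub, ← add_sub_assoc]
    exact eq_sub_of_add_eq hz2
  have hbox : z ∈ box d k N := by
    constructor
    · rw [hz1']
      have := norm_sub_le u.1 (e₁ z)
      have := hb1 z
      linarith
    · intro i
      have h3 : ‖Lin.symm (u.2 - e₂ z)‖ ≤ N / 2 := by
        refine (hκ _).trans (le_trans (mul_le_mul_of_nonneg_left ?_ hκ0) hN)
        have := norm_sub_le u.2 (e₂ z)
        have := hb2 z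
        linarith
      have h4 := (norm_le_pi_norm (Lin.symm (u.2 - e₂ z)) i).trans h3
      rw [Real.norm_eq_abs, abs_le] at h4
      have h5 : z.2 i = N / 2 + Lin.symm (u.2 - e₂ z) i := congrFun hz2' i
      rw [h5]
      constructor <;> linarith [h4.1, h4.2]
  have hcz := cbox_eq z hbox
  refine ⟨z, hbox, ?_⟩
  have h6 : (G z).1 = p.1 + u.1 := by
    have h7 : e₁ z = (G z).1 - p.1 - z.1 := by rw [he1]; simp only [hcz]
    rw [h7] at hz1
    have h8 : z.1 + ((G z).1 - p.1 - z.1) = (G z).1 - p.1 := by abel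
    rw [h8] at hz1
    rw [← hz1]
    abel
  have h9 : (G z).2 = p.2 + Lin (fun _ => N / 2) + u.2 := by
    have h7 : e₂ z = (G z).2 - p.2 - Lin z.2 := by rw [he2]; simp only [hcz]
    have h8 : Lin z.2 = Lin (fun _ => N / 2) + (u.2 - e₂ z) := by
      rw [hz2', map_add, ContinuousLinearEquiv.apply_symm_apply]
    have h10 : (G z).2 = e₂ z + p.2 + Lin z.2 := by rw [h7]; abel
    rw [h10, h8]
    abel
  exact Prod.ext h6 h9

end Pool.Agent.H44.AC
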