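import Pool.Agent.H44.AC.Basic

/-!
# [H44 AC LEAF] Symmetry and translation invariance of `su`-paths, accessibility from local accessibility

* `leaf_symm`: reverse the curve: `t ↦ γ (1 - t)`, derivative `-γ' (1 - t)`.
* `leaf_shift`: `t ↦ γ t + z`.
* `su_symm`, `su_shift`: induction on `Relation.ReflTransGen` (`Relation.ReflTransGen.symmetric`, `Relation.ReflTransGen.lift`).
* `acc_of_local`: for `‖p‖ ≤ 1` the points `(i/4) p`, `i ≤ 4`, are consecutively at distance `≤ 1/4` and of norm `≤ 2`, so `0` and `p` are joined.  For `p`, `q`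
  arbitrary take `exists_int2` for both: `‖p - zp‖ ≤ 1`, `‖q - zq‖ ≤ 1`; a path from `p - zp` to `0` to `q - zq`, shifted by `zp`, joins `p` to `q + (zp - zq)`.
-/

set_option autoImplicit false

namespace Pool.Agent.H44.AC

variable {d k : ℕ}

theorem leaf_symm {P : E d k → (E d k →L[ℝ] E d k)} {p q : E d k} (h : Leaf P p q) : Leaf P q p := by
  obtain ⟨γ, γ', hc, hd, h0, h1, ht⟩ := h
  refine ⟨fun t => γ (1 - t), fun t => -γ' (1 - t), ?_, ?_, ?_, ?_, ?_⟩
  · exact (hc.comp (continuous_const.sub continuous_id)).neg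
  · intro t
    have h2 : HasDerivAt (fun t : ℝ => 1 - t) (-1) t := by
      simpa using (hasDerivAt_id t).const_sub 1
    have h3 := (hd (1 - t)).scomp t h2
    rw [neg_one_smul] at h3
    exact h3
  · simpa using h1
  · simpa using h0
  · intro t htt
    rw [map_neg]
    rw [ht (1 - t) ⟨by linarith [htt.2], by linarith [htt.1]⟩]

theorem leaf_shift {P : E d k → (E d k →L[ℝ] E d k)} (hP : ∀ v z, Int2 z → P (v + z) = P v)
    {p q z : E d k} (hz : Int2 z) (h : Leaf P p q) : Leaf P (p + z) (q + z) := by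
  obtain ⟨γ, γ', hc, hd, h0, h1, ht⟩ := h
  refine ⟨fun t => γ t + z, γ', hc, fun t => (hd t).add_const z, ?_, ?_, ?_⟩
  · show γ 0 + z = p + z
    rw [h0]
  · show γ 1 + z = q + z
    rw [h1]
  · intro t htt
    show P (γ t + z) (γ' t) = γ' t
    rw [hP _ _ hz]
    exact ht t htt

theorem su_symm {Ps Pu : E d k → (E d k →L[ℝ] E d k)} {p q : E d k} (h : SuPath Ps Pu p q) :
    SuPath Ps Pu q p := by
  unfold SuPath at h ⊢
  induction h with
  | refl => exact Relation.ReflTransGen.refl
  | tail _ h2 ih =>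
    refine Relation.ReflTransGen.head ?_ ih
    rcases h2 with h2 | h2
    · exact Or.inl (leaf_symm h2)
    · exact Or.inr (leaf_symm h2)

theorem su_shift {Ps Pu : E d k → (E d k →L[ℝ] E d k)} (hs : ∀ v z, Int2 z → Ps (v + z) = Ps v)
    (hu : ∀ v z, Int2 z → Pu (v + z) = Pu v) {p q z : E d k} (hz : Int2 z)
    (h : SuPath Ps Pu p q) : SuPath Ps Pu (p + z) (q + z) := by
  unfold SuPath at h ⊢
  induction h with
  | refl => exact Relation.ReflTransGen.refl
  | tail _ h2 ih =>
    refine Relation.ReflTransGen.tail ih ?_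
    rcases h2 with h2 | h2
    · exact Or.inl (leaf_shift hs hz h2)
    · exact Or.inr (leaf_shift hu hz h2)

theorem acc_of_local {Ps Pu : E d k → (E d k →L[ℝ] E d k)} (hs : ∀ v z, Int2 z → Ps (v + z) = Ps v)
    (hu : ∀ v z, Int2 z → Pu (v + z) = Pu v)
    (h : ∀ p p' : E d k, ‖p‖ ≤ 2 → ‖p'‖ ≤ 2 → ‖p - p'‖ ≤ 1 / 4 → SuPath Ps Pu p p') : Acc Ps Pu := by
  have key : ∀ p : E d k, ‖p‖ ≤ 1 → SuPath Ps Pu 0 p := by
    intro p hp
    have h1 : ∀ i : ℕ, i ≤ 4 → SuPath Ps Pu 0 (((i : ℝ) / 4) • p) := by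
      intro i
      induction i with
      | zero =>
        intro _
        have h2 : (((0 : ℕ) : ℝ) / 4) • p = 0 := by simp
        rw [h2]
        exact Relation.ReflTransGen.refl
      | succ i ih =>
        intro hi
        refine Relation.ReflTransGen.trans (ih (by omega)) (h _ _ ?_ ?_ ?_)
        · rw [norm_smul, Real.norm_eq_abs, abs_of_nonneg (by positivity)]
          have h2 : (i : ℝ) ≤ 4 := by exact_mod_cast (by omega : i ≤ 4)
          have h3 : (i : ℝ) / 4 ≤ 1 := by linarith
          have h4 : 0 ≤ (i : ℝ) / 4 := by positivity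
          have := mul_le_mul h3 hp (norm_nonneg _) (by norm_num)
          linarith
        · rw [norm_smul, Real.norm_eq_abs, abs_of_nonneg (by positivity)]
          have h2 : ((i + 1 : ℕ) : ℝ) ≤ 4 := by exact_mod_cast hi
          have h3 : ((i + 1 : ℕ) : ℝ) / 4 ≤ 1 := by linarith
          have := mul_le_mul h3 hp (norm_nonneg _) (by norm_num)
          linarith
        · have h2 : ((i : ℝ) / 4) • p - (((i + 1 : ℕ) : ℝ) / 4) • p = (-(1 / 4 : ℝ)) • p := by
            rw [← sub_smul]
            congr 1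
            push_cast
            ring
          rw [h2, norm_smul, Real.norm_eq_abs, abs_neg, abs_of_nonneg (by norm_num)]
          linarith
    have h2 := h1 4 le_rfl
    have h3 : (((4 : ℕ) : ℝ) / 4) • p = p := by
      norm_num
    rwa [h3] at h2
  intro p q
  obtain ⟨zp, hzp, hp⟩ := exists_int2 p
  obtain ⟨zq, hzq, hq⟩ := exists_int2 q
  refine ⟨zp - zq, hzp.sub hzq, ?_⟩
  have h1 : SuPath Ps Pu (p - zp) (q - zq) :=
    Relation.ReflTransGen.trans (su_symm (key _ hp)) (key _ hq)
  have h2 := su_shift hs hu hzp h1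
  have h3 : p - zp + zp = p := sub_add_cancel p zp
  have h4 : q - zq + zp = q + (zp - zq) := by abel
  rwa [h3, h4] at h2

end Pool.Agent.H44.AC
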