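import Pool.Agent.H44.AC.Basic

/-!
# [H44 AC LINT] A basis of `X k` among the vectors `J q`

The vectors `J q` span `X k` (`s.V = ⊤`, `Sk.V` is the span of the range), so there are `k` of them which form a basis (`exists_linearIndependent`, `Module.Basis.ofSpan`, `Module.finrank_fin_fun`,
`Basis.reindex` with `Fintype.equivFin`), `Lin t = ∑ t_i J (q_i)` (`Basis.equivFun.symm`, `LinearEquiv.toContinuousLinearEquiv`).
-/

set_option autoImplicit false

namespace Pool.Agent.H44.AC

variable {d k : ℕ}

theorem lin_of_top {s : Sk d k} (hV : s.V = ⊤) : ∃ (q : Fin k → X d × X d × X d) (Lin : X k ≃L[ℝ] X k),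
    ∀ t : X k, Lin t = ∑ i, t i • s.J (q i) := by
  have hspan : ⊤ ≤ Submodule.span ℝ (Set.range s.J) := by
    rw [← hV]
    exact le_rfl
  obtain ⟨b, hb1, hb2, hb3⟩ := exists_linearIndependent ℝ (Set.range s.J)
  have hspan2 : ⊤ ≤ Submodule.span ℝ (Set.range ((↑) : b → X k)) := by
    rw [Subtype.range_coe, hb2]
    exact hspan
  let B := Module.Basis.mk hb3 hspan2
  have : Fintype b := FiniteDimensional.fintypeBasisIndex B
  have hcard : Fintype.card b = k := by
    rw [← Module.finrank_eq_card_basis B, Module.finrank_fin_fun]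
  let B' := B.reindex (Fintype.equivFinOfCardEq hcard)
  have hB' : ∀ i, B' i ∈ Set.range s.J := by
    intro i
    have h1 : B' i = ((Fintype.equivFinOfCardEq hcard).symm i : X k) := by
      rw [Module.Basis.reindex_apply, Module.Basis.mk_apply]
    rw [h1]
    exact hb1 ((Fintype.equivFinOfCardEq hcard).symm i).2
  choose q hq using hB'
  refine ⟨q, B'.equivFun.symm.toContinuousLinearEquiv, fun t => ?_⟩
  rw [LinearEquiv.coe_toContinuousLinearEquiv', Module.Basis.equivFun_symm_apply]
  exact Finset.sum_congr rfl fun i _ => by rw [hq]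

end Pool.Agent.H44.AC
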