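import Pool.Agent.H44.AC.PHFa

/-!
# [H44 AC PHF] The affine skew product is partially hyperbolic

`Qs s v x = (ps x.1, S(v.1) x.1)`, `Qu v x = Qs s.inv v x = (pu x.1, S^u(v.1) x.1)`, `Qc v x = x - Qs v x - Qu v x = (0, x.2 - S(v.1) x.1 - S^u(v.1) x.1)`.
The algebraic conditions follow from `ps`, `pu` projections (`Dom.su`, `Dom.us`, `Dom.uu`, `Dom.sum`) and `S_ps` for `s` and `s.inv` (`S x (pu y) = S x (ps (pu y)) = 0`).
Continuity `S_cont` (for `s` and `s.inv`), periodicity `S_per`.  Nonzero: `Dom.nonzero_s`, `nonzero_u` (first component).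
Invariance: `inv_s` is `Qs_inv`; `inv_u`: `Qs_inv` for `s.inv` (`Ok.inv`, `inv_f`) at the point `f v` and the vector `Df x`, and `Dif.fderiv_inv` (`D f⁻¹ (f v)` and `D f v` are inverse to each other;
apply `D f v` to both sides); `inv_c` by subtraction.
Inequalities: `est_s` for `s` and for `s.inv` (`Dn s.inv.f n = Dn s.f (-n)` by `inv_f`, `Dn_inv`), for unit vectors; take the maximum of the constants `C`, `r`.  `Pc v y = y` gives `y.1 = 0`.
Ranks: `x ↦ x.1` is an isomorphism of `range (Qs v)` onto `range ps` (inverse `a ↦ (a, S a)`); the same for `s.inv`.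
-/

set_option autoImplicit false

namespace Pool.Agent.H44.AC

variable {d k : ℕ}

/-- the projection onto the explicit unstable bundle -/
noncomputable def Qu (s : Sk d k) (v : E d k) : E d k →L[ℝ] E d k := Qs s.inv v

/-- the projection onto the centre bundle `{0} × ℝ^k` -/
noncomputable def Qc (s : Sk d k) (v : E d k) : E d k →L[ℝ] E d k :=
  ContinuousLinearMap.id ℝ (E d k) - Qs s v - Qu s v

theorem phf_S_pu {s : Sk d k} (hs : s.Ok) (x y : X d) : s.S x (s.pu y) = 0 := by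
  rw [← Sk.S_ps hs x (s.pu y), hs.dom.su, map_zero]

theorem phf_Si_ps {s : Sk d k} (hs : s.Ok) (x y : X d) : s.inv.S x (s.ps y) = 0 := by
  rw [← Sk.S_ps hs.inv x (s.ps y)]
  have h : s.inv.ps (s.ps y) = 0 := hs.dom.us y
  rw [h, map_zero]

theorem phf_su {s : Sk d k} (hs : s.Ok) (v x : E d k) : Qs s v (Qu s v x) = 0 := by
  have e : Qu s v x = (s.pu x.1, s.inv.S v.1 x.1) := rfl
  rw [e, Qs_apply]
  show (s.ps (s.pu x.1), s.S v.1 (s.pu x.1)) = 0
  rw [hs.dom.su, phf_S_pu hs]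
  rfl

theorem phf_us {s : Sk d k} (hs : s.Ok) (v x : E d k) : Qu s v (Qs s v x) = 0 := by
  have e : Qu s v (Qs s v x) = (s.pu (s.ps x.1), s.inv.S v.1 (s.ps x.1)) := rfl
  rw [e, hs.dom.us, phf_Si_ps hs]
  rfl

theorem phf_uu {s : Sk d k} (hs : s.Ok) (v x : E d k) : Qu s v (Qu s v x) = Qu s v x :=
  Qs_idem hs.inv v x

theorem phf_c_apply (s : Sk d k) (v x : E d k) : Qc s v x = x - Qs s v x - Qu s v x := rfl

theorem phf_sc {s : Sk d k} (hs : s.Ok) (v x : E d k) : Qs s v (Qc s v x) = 0 := by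
  rw [phf_c_apply, map_sub, map_sub, Qs_idem hs, phf_su hs]
  simp

theorem phf_uc {s : Sk d k} (hs : s.Ok) (v x : E d k) : Qu s v (Qc s v x) = 0 := by
  rw [phf_c_apply, map_sub, map_sub, phf_uu hs, phf_us hs]
  simp

theorem phf_cont {s : Sk d k} (hs : s.Ok) : Continuous (Qs s) := by
  have h1 : Qs s = fun v : E d k => ((ContinuousLinearMap.inl ℝ (X d) (X k)).comp s.ps +
      (ContinuousLinearMap.inr ℝ (X d) (X k)).comp (s.S v.1)).comp
        (ContinuousLinearMap.fst ℝ (X d) (X k)) := by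
    funext v
    refine ContinuousLinearMap.ext fun x => ?_
    rw [Qs_apply]
    show (s.ps x.1, s.S v.1 x.1) = (s.ps x.1, (0 : X k)) + ((0 : X d), s.S v.1 x.1)
    rw [Prod.mk_add_mk, add_zero, zero_add]
  rw [h1]
  have h2 : Continuous fun v : E d k => s.S v.1 := (Sk.S_cont hs).comp continuous_fst
  exact (continuous_const.add (continuous_const.clm_comp h2)).clm_comp continuous_const

theorem phf_per {s : Sk d k} (hs : s.Ok) (v z : E d k) (hz : Int2 z) :
    Qs s (v + z) = Qs s v := by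
  unfold Qs
  have h : s.S (v + z).1 = s.S v.1 := Sk.S_per hs v.1 z.1 hz.1
  rw [h]

theorem phf_ne {s : Sk d k} (hs : s.Ok) (v : E d k) : Qs s v ≠ 0 := by
  intro h
  apply hs.dom.nonzero_s
  refine ContinuousLinearMap.ext fun x => ?_
  have h1 := congrArg (fun T : E d k →L[ℝ] E d k => (T ((x, 0) : E d k)).1) h
  exact h1

theorem phf_inv_u {s : Sk d k} (hs : s.Ok) (v x : E d k) :
    fderiv ℝ s.f v (Qu s v x) = Qu s (s.f v) (fderiv ℝ s.f v x) := by
  have h1 : fderiv ℝ s.inv.f (s.f v) (Qu s (s.f v) (fderiv ℝ s.f v x)) =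
      Qu s (s.inv.f (s.f v)) (fderiv ℝ s.inv.f (s.f v) (fderiv ℝ s.f v x)) :=
    Qs_inv hs.inv (s.f v) (fderiv ℝ s.f v x)
  rw [Sk.inv_f] at h1
  rw [hs.dif.fderiv_inv] at h1
  have e : (s.f⁻¹ : Equiv.Perm (E d k)) (s.f v) = v := s.f.symm_apply_apply v
  rw [e] at h1
  have h2 := hs.dif.inv.fderiv_inv (s.f v) (Qu s (s.f v) (fderiv ℝ s.f v x))
  rw [inv_inv, e, h1] at h2
  exact h2

theorem phf_c_fst {s : Sk d k} (hs : s.Ok) (v y : E d k) (h : Qc s v y = y) : y.1 = 0 := by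
  have h1 := congrArg Prod.fst h
  have h2 : (Qc s v y).1 = y.1 - s.ps y.1 - s.pu y.1 := rfl
  rw [h2] at h1
  rw [← h1]
  have h3 := hs.dom.sum y.1
  rw [sub_sub, h3, sub_self]

theorem Rk_Qs {s : Sk d k} (hs : s.Ok) : Rk (Qs s) s.rs := by
  intro v
  let L : X d →ₗ[ℝ] E d k := LinearMap.prod LinearMap.id (s.S v.1 : X d →ₗ[ℝ] X k)
  have hL : Function.Injective L := by
    intro a b hab
    exact congrArg Prod.fst hab
  have h1 : LinearMap.range (Qs s v : E d k →ₗ[ℝ] E d k) =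
      (LinearMap.range (s.ps : X d →ₗ[ℝ] X d)).map L := by
    ext y
    constructor
    · rintro ⟨x, rfl⟩
      refine ⟨s.ps x.1, ⟨x.1, rfl⟩, ?_⟩
      show (s.ps x.1, s.S v.1 (s.ps x.1)) = (s.ps x.1, s.S v.1 x.1)
      rw [Sk.S_ps hs]
    · rintro ⟨_, ⟨a, rfl⟩, rfl⟩
      refine ⟨(a, 0), ?_⟩
      show (s.ps a, s.S v.1 a) = (s.ps a, s.S v.1 (s.ps a))
      rw [Sk.S_ps hs]
  rw [h1]
  exact ((Submodule.equivMapOfInjective L hL _).finrank_eq).symm

theorem ph_f {s : Sk d k} (hs : s.Ok) :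
    PH s.f (Qs s) (Qc s) (Qu s) ∧ Rk (Qs s) s.rs ∧ Rk (Qu s) s.ru := by
  refine ⟨?_, Rk_Qs hs, Rk_Qs hs.inv⟩
  have hcs : Continuous (Qs s) := phf_cont hs
  have hcu : Continuous (Qu s) := phf_cont hs.inv
  have hps : ∀ v z, Int2 z → Qs s (v + z) = Qs s v := fun v z hz => phf_per hs v z hz
  have hpu : ∀ v z, Int2 z → Qu s (v + z) = Qu s v := fun v z hz => phf_per hs.inv v z hz
  obtain ⟨C1, r1, hC1, hr1, hr1', h1⟩ := est_s hs
  obtain ⟨C2, r2, hC2, hr2, hr2', h2⟩ := est_s hs.inv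
  have hle1 : ∀ n : ℕ, C1 * r1 ^ n ≤ max C1 C2 * max r1 r2 ^ n := by
    intro n
    have e1 : C1 ≤ max C1 C2 := le_max_left _ _
    have e2 : r1 ^ n ≤ max r1 r2 ^ n := pow_le_pow_left₀ hr1.le (le_max_left _ _) n
    exact mul_le_mul e1 e2 (by positivity) (hC1.le.trans e1)
  have hle2 : ∀ n : ℕ, C2 * r2 ^ n ≤ max C1 C2 * max r1 r2 ^ n := by
    intro n
    have e1 : C2 ≤ max C1 C2 := le_max_right _ _
    have e2 : r2 ^ n ≤ max r1 r2 ^ n := pow_le_pow_left₀ hr2.le (le_max_right _ _) n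
    exact mul_le_mul e1 e2 (by positivity) (hC2.le.trans e1)
  have hD : ∀ (n : ℕ) (v : E d k), Dn s.f (-(n : ℤ)) v = Dn s.inv.f n v := by
    intro n v
    rw [Sk.inv_f, Dn_inv]
  exact
  { cont_s := hcs
    cont_c := (continuous_const.sub hcs).sub hcu
    cont_u := hcu
    per_s := hps
    per_c := fun v z hz => by
      unfold Qc
      rw [hps v z hz, hpu v z hz]
    per_u := hpu
    sum := fun v x => by
      rw [phf_c_apply]
      abel
    ss := Qs_idem hs
    cc := fun v x => by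
      rw [phf_c_apply s v (Qc s v x), phf_sc hs, phf_uc hs]
      simp
    uu := phf_uu hs
    sc := phf_sc hs
    su := phf_su hs
    cs := fun v x => by
      rw [phf_c_apply, Qs_idem hs, phf_us hs]
      simp
    cu := fun v x => by
      rw [phf_c_apply, phf_uu hs, phf_su hs]
      simp
    us := phf_us hs
    uc := phf_uc hs
    nonzero_s := phf_ne hs
    nonzero_u := phf_ne hs.inv
    inv_s := Qs_inv hs
    inv_c := fun v x => by
      rw [phf_c_apply, phf_c_apply, map_sub, map_sub, Qs_inv hs, phf_inv_u hs]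
    inv_u := phf_inv_u hs
    est := by
      refine ⟨max C1 C2, max r1 r2, lt_max_of_lt_left hC1, lt_max_of_lt_left hr1,
        max_lt hr1' hr2', fun v n => ⟨fun x hx hx1 => ?_, fun x hx hx1 => ?_,
          fun x y hx hx1 hy hy1 => ?_, fun x y hx hx1 hy hy1 => ?_⟩⟩
      · have h := (h1 v n).1 x hx
        rw [hx1, mul_one] at h
        exact h.trans (hle1 n)
      · have h := (h2 v n).1 x hx
        rw [hx1, mul_one] at h
        rw [hD]
        exact h.trans (hle2 n)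
      · have h := (h1 v n).2 x y hx (phf_c_fst hs v y hy)
        rw [hx1, hy1, mul_one, mul_one] at h
        exact h.trans (mul_le_mul_of_nonneg_right (hle1 n) (norm_nonneg _))
      · have h := (h2 v n).2 x y hx (phf_c_fst hs v y hy)
        rw [hx1, hy1, mul_one, mul_one] at h
        rw [hD]
        exact h.trans (mul_le_mul_of_nonneg_right (hle2 n) (norm_nonneg _)) }

end Pool.Agent.H44.AC
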