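import Pool.Agent.H44.AC.Skew

/-!
# [H44 AC VOL] Affine skew products preserve Lebesgue measure

* `det_one`: the matrix of `A` in the standard basis has integral entries (`intA` for the vectors `Pi.single i 1`), and so has the matrix of `A.symm`; the determinants are integers
  (`Matrix.det_apply` or `Int.cast_det`: the matrix is the image of an integer matrix under the cast ring homomorphism) with product `1`, so `|det A| = 1`
  (`Int.isUnit_iff`, `Int.mul_eq_one_iff...`).
* `lin_mp`: a linear automorphism with determinant `± 1` preserves the volume (`Real.map_linearMap_volume_pi_eq_smul_volume_pi`,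
  `MeasureTheory.Measure.addHaar_preimage_continuousLinearEquiv`, ...).
* `vol`: `MeasurePreserving.skew_product` for `(x, y) ↦ (A x, B y + h x)`: for fixed `x` the map `y ↦ B y + h x` preserves the volume (`measurePreserving_add_right`); measurability from
  continuity; the volume on the product is the product measure (`MeasureTheory.Measure.volume_eq_prod`).
-/

set_option autoImplicit false

open MeasureTheory

namespace Pool.Agent.H44.AC

variable {d k : ℕ}

private theorem int_matrix (A : X d ≃L[ℝ] X d) (h : ∀ n, Int1 (A n) ↔ Int1 n) :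
    ∃ M : Matrix (Fin d) (Fin d) ℤ,
      LinearMap.det ((A : X d →L[ℝ] X d) : X d →ₗ[ℝ] X d) = ((M.det : ℤ) : ℝ) := by
  have h1 : ∀ j : Fin d, Int1 (Pi.single j (1 : ℝ) : X d) := by
    intro j i
    by_cases hij : i = j
    · subst hij
      exact ⟨1, by simp⟩
    · exact ⟨0, by simp [Pi.single_eq_of_ne hij]⟩
  have h2 : ∀ i j : Fin d, ∃ m : ℤ, A (Pi.single j (1 : ℝ)) i = m := by
    intro i j
    exact ((h _).2 (h1 j)) i
  choose M hM using h2
  refine ⟨Matrix.of M, ?_⟩
  rw [← LinearMap.det_toMatrix' ((A : X d →L[ℝ] X d) : X d →ₗ[ℝ] X d)]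
  have h3 : LinearMap.toMatrix' ((A : X d →L[ℝ] X d) : X d →ₗ[ℝ] X d) =
      (Int.castRingHom ℝ).mapMatrix (Matrix.of M) := by
    ext i j
    rw [LinearMap.toMatrix'_apply]
    simp only [RingHom.mapMatrix_apply, Matrix.map_apply, Matrix.of_apply]
    have h4 : (fun j' => if j' = j then (1 : ℝ) else 0) = (Pi.single j (1 : ℝ) : X d) := by
      ext j'
      by_cases hj : j' = j
      · subst hj
        simp
      · simp [Pi.single_eq_of_ne hj, hj]
    first
      | exact hM i j
      | (rw [h4]; exact hM i j)
  rw [h3, ← RingHom.map_det]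
  rfl

theorem det_one (A : X d ≃L[ℝ] X d) (h : ∀ n, Int1 (A n) ↔ Int1 n) :
    |LinearMap.det ((A : X d →L[ℝ] X d) : X d →ₗ[ℝ] X d)| = 1 := by
  obtain ⟨M, hM⟩ := int_matrix A h
  have h' : ∀ n, Int1 (A.symm n) ↔ Int1 n := by
    intro n
    rw [← h (A.symm n)]
    simp
  obtain ⟨N, hN⟩ := int_matrix A.symm h'
  have h1 : LinearMap.det ((A : X d →L[ℝ] X d) : X d →ₗ[ℝ] X d) *
      LinearMap.det ((A.symm : X d →L[ℝ] X d) : X d →ₗ[ℝ] X d) = 1 := by
    rw [← LinearMap.det_comp]
    have h2 : ((A : X d →L[ℝ] X d) : X d →ₗ[ℝ] X d) ∘ₗ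
        ((A.symm : X d →L[ℝ] X d) : X d →ₗ[ℝ] X d) = LinearMap.id := by
      ext1 i
      ext1
      simp
    rw [h2, LinearMap.det_id]
  rw [hM, hN] at h1
  have h2 : M.det * N.det = 1 := by exact_mod_cast h1
  have h3 : |M.det| = 1 := by
    have h4 := Int.isUnit_iff.1 (IsUnit.of_mul_eq_one _ h2)
    rcases h4 with h4 | h4 <;> rw [h4] <;> simp
  rw [hM]
  exact_mod_cast h3

theorem lin_mp (A : X d ≃L[ℝ] X d) (h : ∀ n, Int1 (A n) ↔ Int1 n) : MeasurePreserving (A : X d → X d) := by
  refine ⟨A.continuous.measurable, ?_⟩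
  have h1 := det_one A h
  have h0 : LinearMap.det ((A : X d →L[ℝ] X d) : X d →ₗ[ℝ] X d) ≠ 0 := by
    intro h2
    rw [h2, abs_zero] at h1
    exact zero_ne_one h1
  have h2 := Real.map_linearMap_volume_pi_eq_smul_volume_pi h0
  rw [abs_inv, h1] at h2
  simpa using h2

theorem vol {A : X d ≃L[ℝ] X d} {B : X k ≃L[ℝ] X k} {ps pu : X d →L[ℝ] X d} (hD : Dom A B ps pu)
    (h : X d → X k) (hc : Continuous h) : MeasurePreserving (skew A B h : E d k → E d k) := by
  have h1 := lin_mp A hD.intA
  have h2 := lin_mp B hD.intB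
  have h3 : MeasurePreserving (fun p : X d × X k => (A p.1, B p.2 + h p.1))
      ((volume : Measure (X d)).prod (volume : Measure (X k)))
      ((volume : Measure (X d)).prod (volume : Measure (X k))) := by
    refine h1.skew_product (g := fun x y => B y + h x) ?_ ?_
    · have : Continuous (Function.uncurry fun (x : X d) (y : X k) => B y + h x) := by
        unfold Function.uncurry
        exact (B.continuous.comp continuous_snd).add (hc.comp continuous_fst)
      exact this.measurable
    · refine Filter.Eventually.of_forall fun x => ?_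
      exact ((measurePreserving_add_right (volume : Measure (X k)) (h x)).comp h2).map_eq
  exact h3

end Pool.Agent.H44.AC
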