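import Pool.Agent.H44.AC.Top
import Pool.Agent.H44.AC.Four
import Pool.Agent.H44.AC.Det
import Pool.Agent.H44.AC.PHF
import Pool.Agent.H44.AC.Conv
import Pool.Agent.H44.AC.Vol

/-!
# The main theorem from the pieces (proved)
-/

set_option autoImplicit false

open MeasureTheory

namespace Pool.Agent.H44.AC

variable {d k : ℕ}

theorem stacc_of_acc {s : Sk d k} (hs : s.Ok) {Ps Pc Pu : E d k → (E d k →L[ℝ] E d k)}
    (hP : PH s.f Ps Pc Pu) (hr : Rk Ps s.rs) (hu : Rk Pu s.ru) (hA : Acc Ps Pu) :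
    StAcc s.rs s.ru s.f :=
  stacc_of_top hs (conv hs hP hr hu hA)

theorem f_skew (s : Sk d k) : s.f = skew s.A s.B s.h := rfl

/-- the statements for one skew product -/
theorem main1 {s : Sk d k} (hs : s.Ok) :
    Dif (skew s.A s.B s.h) ∧ MeasurePreserving (skew s.A s.B s.h : E d k → E d k) ∧
      (∃ Ps Pc Pu, PH (skew s.A s.B s.h) Ps Pc Pu ∧ Rk Ps (rk s.ps) ∧ Rk Pu (rk s.pu)) ∧
      ∀ Ps Pc Pu, PH (skew s.A s.B s.h) Ps Pc Pu → Rk Ps (rk s.ps) → Rk Pu (rk s.pu) →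
        Acc Ps Pu → StAcc (rk s.ps) (rk s.pu) (skew s.A s.B s.h) := by
  have h1 : s.rs = rk s.ps := rfl
  have h2 : s.ru = rk s.pu := rfl
  rw [← f_skew, ← h1, ← h2]
  refine ⟨hs.dif, ?_, ⟨_, _, _, ph_f hs⟩, fun Ps Pc Pu hP hr hu hA => stacc_of_acc hs hP hr hu hA⟩
  rw [f_skew]
  exact vol hs.dom s.h hs.c1.continuous

theorem main2 {s : Sk d k} (hs : s.Ok) (hV : s.V = ⊤) :
    StAcc (rk s.ps) (rk s.pu) (skew s.A s.B s.h) := by
  have h1 : s.rs = rk s.ps := rfl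
  have h2 : s.ru = rk s.pu := rfl
  rw [← f_skew, ← h1, ← h2]
  exact stacc_of_top hs hV

theorem main (A : X d ≃L[ℝ] X d) (B : X k ≃L[ℝ] X k) (ps pu : X d →L[ℝ] X d) (hD : Dom A B ps pu) :
    (∀ h : X d → X k, ContDiff ℝ 1 h → (∀ x n, Int1 n → Int1 (h (x + n) - h x)) →
      Dif (skew A B h) ∧ MeasurePreserving (skew A B h : E d k → E d k) ∧
      (∃ Ps Pc Pu, PH (skew A B h) Ps Pc Pu ∧ Rk Ps (rk ps) ∧ Rk Pu (rk pu)) ∧
      ∀ Ps Pc Pu, PH (skew A B h) Ps Pc Pu → Rk Ps (rk ps) → Rk Pu (rk pu) → Acc Ps Pu →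
        StAcc (rk ps) (rk pu) (skew A B h)) ∧
    ∃ ψ : X d → X k, ContDiff ℝ ⊤ ψ ∧ (∀ x n, Int1 n → ψ (x + n) = ψ x) ∧
      ∀ h : X d → X k, ContDiff ℝ 1 h → (∀ x n, Int1 n → Int1 (h (x + n) - h x)) →
        {t : ℝ | ¬ StAcc (rk ps) (rk pu) (skew A B (h + t • ψ))}.encard ≤ k := by
  refine ⟨fun h h1 h2 => ?_, ?_⟩
  · have h9 := main1 (s := ⟨A, B, ps, pu, h⟩) ⟨hD, h1, h2⟩
    exact h9
  · obtain ⟨ψ, hψ1, hψ2, hψ3⟩ := exists_psi hD
    have hψ : (⟨A, B, ps, pu, ψ⟩ : Sk d k).Ok :=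
      ⟨hD, hψ1.of_le le_top, fun x n hn => by
        show Int1 (ψ (x + n) - ψ x)
        rw [hψ2 x n hn, sub_self]; exact Int1.zero⟩
    refine ⟨ψ, hψ1, hψ2, fun h h1 h2 => ?_⟩
    have hs : (⟨A, B, ps, pu, h⟩ : Sk d k).Ok := ⟨hD, h1, h2⟩
    refine le_trans (Set.encard_le_encard ?_) (V_count hs hψ hψ3)
    intro t ht hV
    apply ht
    have hs' : (⟨A, B, ps, pu, h + t • ψ⟩ : Sk d k).Ok := by
      refine ⟨hD, h1.add ((hψ1.of_le le_top).const_smul t), fun x n hn => ?_⟩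
      have e : (h + t • ψ) (x + n) - (h + t • ψ) x = h (x + n) - h x := by
        show h (x + n) + t • ψ (x + n) - (h x + t • ψ x) = _
        rw [hψ2 x n hn]; abel
      show Int1 ((h + t • ψ) (x + n) - (h + t • ψ) x)
      rw [e]; exact h2 x n hn
    have h9 := main2 hs' hV
    exact h9

end Pool.Agent.H44.AC
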