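import Pool.Agent.H44.AC.SWa

/-!
# [H44 AC SWA2] The explicit stable bundle: properties

* `S_per`: `a^j` maps integral vectors to integral vectors (`Dom.intA`, induction), `Dh_per`.
* `S_unif`: `per_unif` for `v ↦ S v.1` on `E d k`, `S_cont`, `S_per`, restricted to the vectors `(x, 0)`.
* `S_ps`: `ps (ps y) = ps y`.
* `S_inv` (by `S_apply`): `S (A x) (A y) = - ∑ b^(j+1) Dh(a^(j+1) x) (a^(j+1) ps y)` (`Dom.comm`); applying `B = b⁻¹` to the series of `S x y` without its first term gives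
  the same (`Summable.tsum_eq_zero_add`, `B (b z) = z`), and `B` of the first term is `- Dh(x)(ps y)`.
-/

set_option autoImplicit false

namespace Pool.Agent.H44.AC

variable {d k : ℕ}

namespace Sk

theorem a_int {s : Sk d k} (hs : s.Ok) (j : ℕ) (n : X d) (hn : Int1 n) : Int1 ((s.a ^ j) n) := by
  induction j with
  | zero => exact hn
  | succ j ih =>
    rw [pow_succ']
    exact (hs.dom.intA _).2 ih

theorem S_per {s : Sk d k} (hs : s.Ok) (x n : X d) (hn : Int1 n) : s.S (x + n) = s.S x := by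
  unfold S
  congr 1
  refine tsum_congr fun j => ?_
  rw [map_add, hs.Dh_per _ _ (a_int hs j n hn)]

theorem S_unif {s : Sk d k} (hs : s.Ok) : UniformContinuous s.S := by
  have h1 := (per_unif (d := d) (k := k) (fun v : E d k => s.S v.1)
    ((S_cont hs).comp continuous_fst) (fun v z hz => S_per hs v.1 z.1 hz.1)).1
  have h2 : UniformContinuous fun x : X d => ((x, 0) : E d k) :=
    uniformContinuous_id.prodMk uniformContinuous_const
  have h3 := h1.comp h2
  have h4 : ((fun v : E d k => s.S v.1) ∘ fun x : X d => ((x, 0) : E d k)) = s.S := by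
    funext x
    rfl
  rw [h4] at h3
  exact h3

theorem S_ps {s : Sk d k} (hs : s.Ok) (x y : X d) : s.S x (s.ps y) = s.S x y := by
  rw [(S_apply hs x (s.ps y)).2, (S_apply hs x y).2]
  congr 1
  refine tsum_congr fun j => ?_
  rw [hs.dom.ss]

theorem S_inv {s : Sk d k} (hs : s.Ok) (x y : X d) :
    s.S (s.A x) (s.A y) = s.B (s.S x y) + fderiv ℝ s.h x (s.ps y) := by
  have hBb : ∀ z : X k, s.B (s.b z) = z := fun z => s.B.apply_symm_apply z
  have haA : ∀ (j : ℕ) (z : X d), (s.a ^ j) (s.A z) = (s.a ^ (j + 1)) z := by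
    intro j z
    rw [pow_succ]
    rfl
  obtain ⟨hs1, e1⟩ := S_apply hs (s.A x) (s.A y)
  obtain ⟨hs2, e2⟩ := S_apply hs x y
  simp only [hs.dom.comm, haA] at hs1 e1
  have e3 : ∀ j : ℕ, (s.b ^ (j + 1 + 1)) (fderiv ℝ s.h ((s.a ^ (j + 1)) x)
      ((s.a ^ (j + 1)) (s.ps y))) = s.b ((s.b ^ (j + 1)) (fderiv ℝ s.h ((s.a ^ (j + 1)) x)
      ((s.a ^ (j + 1)) (s.ps y)))) := by
    intro j
    rw [pow_succ' s.b (j + 1)]
    rfl
  rw [hs2.tsum_eq_zero_add] at e2
  simp only [e3] at e2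
  rw [← ContinuousLinearMap.map_tsum s.b hs1] at e2
  rw [e1, e2, map_neg, map_add, hBb]
  have e4 : s.B ((s.b ^ (0 + 1)) (fderiv ℝ s.h ((s.a ^ 0) x) ((s.a ^ 0) (s.ps y)))) =
      fderiv ℝ s.h x (s.ps y) := by
    rw [zero_add, pow_one, hBb, pow_zero]
    rfl
  rw [e4]
  abel

end Sk

end Pool.Agent.H44.AC
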