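import Pool.Agent.H44.AC.ConeA
import Pool.Agent.H44.AC.SWa2

/-!
# [H44 AC NEARA] The deviation from the explicit stable bundle: one step

`dev s p v = v - (ps v.1, S(p.1) v.1)`; it lies in `ker Π` (its first component is `v.1 - ps v.1`), so `Ns (dev s p v) = 0` (`s0`).

`near_bd`: `Nw (dev s p v) ≤ Nw v + C ‖(ps v.1, S(p.1) v.1)‖ ≤ Ns v + C (‖ps‖ + K_S) ‖v‖`, `c ‖v‖ ≤ Ns v + Nw v ≤ 2 Ns v`, `S_bdd`.

`near_step`: with `v' = Dg(p) v` and `r = Dg(p) v - Df(p) v`, `‖r‖ ≤ δ ‖v‖`: the vector `(ps v.1, S(p.1) v.1)` is mapped by `Df(p)` to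
`(A ps v.1, S(A p.1) (A ps v.1))` (`S_inv`, `S_ps`, `fderiv_apply`), so
`dev (g p) v' = Df(p)(dev p v) + [r - (ps r.1, S((g p).1) r.1)] + (0, S(A p.1)(A ps v.1) - S((g p).1)(A ps v.1))`.
`‖A p.1 - (g p).1‖ ≤ δ`, `S` uniformly continuous (`S_unif`) and bounded: the last two terms are at most `θ₁ ‖v‖`, `θ₁ → 0` as `δ → 0`, and
`‖v‖ ≤ 2 Ns v / c`.  So `Nw (dev (g p) v') ≥ b Nw (dev p v) - C θ₁ (2/c) Ns v` (`fw` with `Ns (dev p v) = 0`) and
`Ns v' ≤ (a + 2 C δ / c) Ns v` (`ad_step`).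
-/

set_option autoImplicit false

namespace Pool.Agent.H44.AC

variable {d k : ℕ}

/-- the deviation from the explicit stable bundle -/
noncomputable def dev (s : Sk d k) (p v : E d k) : E d k := v - (s.ps v.1, s.S p.1 v.1)

private theorem NearA_pair (x : X d) (y : X k) : ‖((x, y) : E d k)‖ ≤ ‖x‖ + ‖y‖ := by
  rw [Prod.norm_def]
  exact max_le (le_add_of_nonneg_right (norm_nonneg _)) (le_add_of_nonneg_left (norm_nonneg _))

/-- the norm of the vector of the bundle -/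
private theorem NearA_vec (P : X d →L[ℝ] X d) (Q : X d →L[ℝ] X k) {K : ℝ} (hQ : ‖Q‖ ≤ K)
    (v : E d k) : ‖((P v.1, Q v.1) : E d k)‖ ≤ (‖P‖ + K) * ‖v‖ := by
  have h1 : ‖v.1‖ ≤ ‖v‖ := norm_fst_le v
  have h2 := P.le_opNorm v.1
  have h3 := Q.le_opNorm v.1
  have h4 : 0 ≤ ‖P‖ := norm_nonneg _
  have h5 : 0 ≤ ‖Q‖ := norm_nonneg _
  calc ‖((P v.1, Q v.1) : E d k)‖ ≤ ‖P v.1‖ + ‖Q v.1‖ := NearA_pair _ _
    _ ≤ ‖P‖ * ‖v.1‖ + ‖Q‖ * ‖v.1‖ := add_le_add h2 h3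
    _ ≤ ‖P‖ * ‖v‖ + K * ‖v‖ := by
        have h6 : 0 ≤ K := h5.trans hQ
        gcongr
    _ = (‖P‖ + K) * ‖v‖ := by ring

private theorem NearA_norm {s : Sk d k} {Ns Nw : Seminorm ℝ (E d k)} {a b η c C : ℝ}
    (hA : Ad s Ns Nw a b η c C) (v : E d k) (hv : Nw v ≤ Ns v) : ‖v‖ ≤ 2 / c * Ns v := by
  have h1 := hA.low v
  have h2 := hA.hc
  rw [div_mul_eq_mul_div, le_div_iff₀ h2]
  linarith

theorem near_bd {s : Sk d k} (hs : s.Ok) {Ns Nw : Seminorm ℝ (E d k)} {a b η c C : ℝ}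
    (hA : Ad s Ns Nw a b η c C) : ∃ K : ℝ, 0 < K ∧ ∀ p v, Nw v ≤ Ns v → Nw (dev s p v) ≤ K * Ns v := by
  obtain ⟨K, hK, hS⟩ := Sk.S_bdd hs
  have hc := hA.hc
  have hC := hA.hC
  refine ⟨1 + C * ((‖s.ps‖ + K) * (2 / c)), by positivity, fun p v hv => ?_⟩
  have h1 : Nw (dev s p v) ≤ Nw v + Nw ((s.ps v.1, s.S p.1 v.1) : E d k) :=
    map_sub_le_add Nw v _
  have h2 := hA.upw ((s.ps v.1, s.S p.1 v.1) : E d k)
  have h3 := NearA_vec s.ps (s.S p.1) (hS p.1) v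
  have h4 := NearA_norm hA v hv
  calc Nw (dev s p v) ≤ Nw v + Nw ((s.ps v.1, s.S p.1 v.1) : E d k) := h1
    _ ≤ Ns v + C * ((‖s.ps‖ + K) * (2 / c * Ns v)) := by
        refine add_le_add hv (h2.trans ?_)
        refine mul_le_mul_of_nonneg_left (h3.trans ?_) hC.le
        exact mul_le_mul_of_nonneg_left h4 (by positivity)
    _ = (1 + C * ((‖s.ps‖ + K) * (2 / c))) * Ns v := by ring

/-- the transformation of the deviation -/
private theorem NearA_eq {s : Sk d k} (hs : s.Ok) (p q v v' r : E d k)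
    (hr : v' = fderiv ℝ s.f p v + r) :
    dev s q v' = fderiv ℝ s.f p (dev s p v) + (r - (s.ps r.1, s.S q.1 r.1)) +
      ((0 : X d), (s.S (s.A p.1) - s.S q.1) (s.A v.1)) := by
  have hS := Sk.S_inv hs p.1 v.1
  unfold dev
  rw [hr, map_sub, Sk.fderiv_apply hs, Sk.fderiv_apply hs]
  ext1
  · change s.A v.1 + r.1 - s.ps (s.A v.1 + r.1) =
      s.A v.1 - s.A (s.ps v.1) + (r.1 - s.ps r.1) + 0
    rw [map_add, hs.dom.comm]
    abel
  · change s.B v.2 + fderiv ℝ s.h p.1 v.1 + r.2 - s.S q.1 (s.A v.1 + r.1) =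
      s.B v.2 + fderiv ℝ s.h p.1 v.1 - (s.B (s.S p.1 v.1) + fderiv ℝ s.h p.1 (s.ps v.1)) +
      (r.2 - s.S q.1 r.1) + (s.S (s.A p.1) - s.S q.1) (s.A v.1)
    rw [← hS, map_add, ContinuousLinearMap.sub_apply]
    abel

theorem near_step {s : Sk d k} (hs : s.Ok) {Ns Nw : Seminorm ℝ (E d k)} {a b η c C : ℝ}
    (hA : Ad s Ns Nw a b η c C) (θ : ℝ) (hθ : 0 < θ) : ∃ δ : ℝ, 0 < δ ∧
      ∀ g : Equiv.Perm (E d k), Dif g →
        (∀ v, ‖g v - s.f v‖ < δ ∧ ‖fderiv ℝ g v - fderiv ℝ s.f v‖ < δ) →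
        ∀ p v, Nw v ≤ Ns v → Ns (fderiv ℝ g p v) ≤ (a + θ) * Ns v ∧
          b * Nw (dev s p v) ≤ Nw (dev s (g p) (fderiv ℝ g p v)) + θ * Ns v := by
  obtain ⟨K, hK, hS⟩ := Sk.S_bdd hs
  have hc := hA.hc
  have hC := hA.hC
  obtain ⟨nA, hnA⟩ : ∃ nA, nA = ‖s.a‖ := ⟨_, rfl⟩
  have hnA0 : 0 ≤ nA := by
    rw [hnA]
    exact norm_nonneg _
  obtain ⟨P, hP⟩ : ∃ P, P = ‖s.ps‖ + K := ⟨_, rfl⟩
  have hP0 : 0 ≤ P := by
    rw [hP]
    positivity
  obtain ⟨ω, hω⟩ : ∃ ω, ω = θ * c / (4 * C * (nA + 1)) := ⟨_, rfl⟩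
  have hω0 : 0 < ω := by
    rw [hω]
    positivity
  obtain ⟨δ1, hδ1, hunif⟩ := Metric.uniformContinuous_iff.1 (Sk.S_unif hs) ω hω0
  obtain ⟨δ2, hδ2⟩ : ∃ δ2, δ2 = θ * c / (4 * C * (1 + P)) := ⟨_, rfl⟩
  have hδ20 : 0 < δ2 := by
    rw [hδ2]
    positivity
  refine ⟨min δ1 δ2, lt_min hδ1 hδ20, fun g hg hgf p v hv => ?_⟩
  obtain ⟨δ, hδ⟩ : ∃ δ, δ = min δ1 δ2 := ⟨_, rfl⟩
  rw [← hδ] at hgf
  have hδle1 : δ ≤ δ1 := by
    rw [hδ]
    exact min_le_left _ _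
  have hδle2 : δ ≤ δ2 := by
    rw [hδ]
    exact min_le_right _ _
  have hδ0 : 0 < δ := by
    rw [hδ]
    exact lt_min hδ1 hδ20
  have hvn := NearA_norm hA v hv
  have hv0 : 0 ≤ Ns v := apply_nonneg Ns v
  -- key numerical facts
  have key1 : C * (1 + P) * δ * (2 / c) ≤ θ / 2 := by
    calc C * (1 + P) * δ * (2 / c) ≤ C * (1 + P) * δ2 * (2 / c) := by gcongr
      _ = θ / 2 := by
        rw [hδ2]
        field_simp
        norm_num
  have key2 : C * ω * nA * (2 / c) ≤ θ / 2 := by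
    calc C * ω * nA * (2 / c) ≤ C * ω * (nA + 1) * (2 / c) := by
          gcongr
          linarith
      _ = θ / 2 := by
        rw [hω]
        field_simp
        norm_num
  constructor
  · have h1 := (ad_step hA p (fderiv ℝ g p) (hgf p).2.le v).1
    have h2 : C * δ * ‖v‖ ≤ θ * Ns v := by
      calc C * δ * ‖v‖ ≤ C * δ * (2 / c * Ns v) := by gcongr
        _ = (C * δ * (2 / c)) * Ns v := by ring
        _ ≤ (C * (1 + P) * δ * (2 / c)) * Ns v := by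
          refine mul_le_mul_of_nonneg_right ?_ hv0
          have h3 : C * (1 + P) * δ * (2 / c) = C * δ * (2 / c) + P * (C * δ * (2 / c)) := by ring
          have h4 : 0 ≤ P * (C * δ * (2 / c)) := by positivity
          linarith
        _ ≤ θ * Ns v := mul_le_mul_of_nonneg_right (by linarith) hv0
    linarith
  · obtain ⟨r, hr⟩ : ∃ r, r = fderiv ℝ g p v - fderiv ℝ s.f p v := ⟨_, rfl⟩
    have hr1 : ‖r‖ ≤ δ * ‖v‖ := by
      rw [hr, ← ContinuousLinearMap.sub_apply]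
      refine (ContinuousLinearMap.le_opNorm _ _).trans ?_
      exact mul_le_mul_of_nonneg_right (hgf p).2.le (norm_nonneg _)
    have heq := NearA_eq hs p (g p) v (fderiv ℝ g p v) r (by rw [hr]; abel)
    obtain ⟨u1, hu1⟩ : ∃ u1, u1 = fderiv ℝ s.f p (dev s p v) := ⟨_, rfl⟩
    obtain ⟨u2, hu2⟩ : ∃ u2 : E d k, u2 = r - (s.ps r.1, s.S (g p).1 r.1) := ⟨_, rfl⟩
    obtain ⟨u3, hu3⟩ : ∃ u3 : E d k, u3 =
      ((0 : X d), (s.S (s.A p.1) - s.S (g p).1) (s.A v.1)) := ⟨_, rfl⟩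
    rw [← hu1, ← hu2, ← hu3] at heq
    have h1 : b * Nw (dev s p v) ≤ Nw u1 := by
      rw [hu1]
      have h2 := hA.fw p (dev s p v)
      have h3 : Ns (dev s p v) = 0 := by
        refine hA.s0 _ ?_
        change s.ps (v.1 - s.ps v.1) = 0
        rw [map_sub, hs.dom.ss, sub_self]
      rw [h3, mul_zero, sub_zero] at h2
      exact h2
    have h2 : Nw u2 ≤ θ / 2 * Ns v := by
      have h3 : ‖u2‖ ≤ (1 + P) * ‖r‖ := by
        rw [hu2]
        have h4 := NearA_vec s.ps (s.S (g p).1) (hS (g p).1) r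
        rw [← hP] at h4
        calc ‖r - (s.ps r.1, s.S (g p).1 r.1)‖ ≤ ‖r‖ + ‖((s.ps r.1, s.S (g p).1 r.1) : E d k)‖ :=
              norm_sub_le _ _
          _ ≤ ‖r‖ + P * ‖r‖ := by linarith
          _ = (1 + P) * ‖r‖ := by ring
      calc Nw u2 ≤ C * ‖u2‖ := hA.upw u2
        _ ≤ C * ((1 + P) * (δ * (2 / c * Ns v))) := by
            refine mul_le_mul_of_nonneg_left (h3.trans ?_) hC.le
            refine mul_le_mul_of_nonneg_left (hr1.trans ?_) (by positivity)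
            exact mul_le_mul_of_nonneg_left hvn hδ0.le
        _ = (C * (1 + P) * δ * (2 / c)) * Ns v := by ring
        _ ≤ θ / 2 * Ns v := mul_le_mul_of_nonneg_right key1 hv0
    have h3 : Nw u3 ≤ θ / 2 * Ns v := by
      have h4 : ‖s.S (s.A p.1) - s.S (g p).1‖ ≤ ω := by
        have h5 : dist (s.A p.1) (g p).1 < δ1 := by
          have h6 : ‖(g p - s.f p).1‖ ≤ ‖g p - s.f p‖ := norm_fst_le _
          have h7 := (hgf p).1
          have h8 : (g p - s.f p).1 = (g p).1 - s.A p.1 := rfl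
          rw [h8] at h6
          rw [dist_comm, dist_eq_norm]
          linarith
        have h6 := hunif h5
        rw [dist_eq_norm] at h6
        exact h6.le
      have h5 : ‖s.A v.1‖ ≤ nA * ‖v‖ := by
        have h6 := s.a.le_opNorm v.1
        rw [← hnA] at h6
        have h7 : ‖v.1‖ ≤ ‖v‖ := norm_fst_le v
        exact h6.trans (mul_le_mul_of_nonneg_left h7 hnA0)
      have h6 : ‖u3‖ ≤ ω * (nA * ‖v‖) := by
        rw [hu3]
        refine (NearA_pair _ _).trans ?_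
        rw [norm_zero, zero_add]
        refine (ContinuousLinearMap.le_opNorm _ _).trans ?_
        exact mul_le_mul h4 h5 (norm_nonneg _) hω0.le
      calc Nw u3 ≤ C * ‖u3‖ := hA.upw u3
        _ ≤ C * (ω * (nA * (2 / c * Ns v))) := by
            refine mul_le_mul_of_nonneg_left (h6.trans ?_) hC.le
            refine mul_le_mul_of_nonneg_left ?_ hω0.le
            exact mul_le_mul_of_nonneg_left hvn hnA0
        _ = (C * ω * nA * (2 / c)) * Ns v := by ring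
        _ ≤ θ / 2 * Ns v := mul_le_mul_of_nonneg_right key2 hv0
    have h4 : Nw u1 ≤ Nw (dev s (g p) (fderiv ℝ g p v)) + Nw u2 + Nw u3 := by
      have h5 : u1 = dev s (g p) (fderiv ℝ g p v) - u2 - u3 := by
        rw [heq]
        abel
      calc Nw u1 = Nw (dev s (g p) (fderiv ℝ g p v) - u2 - u3) := by rw [← h5]
        _ ≤ Nw (dev s (g p) (fderiv ℝ g p v) - u2) + Nw u3 := map_sub_le_add Nw _ _
        _ ≤ Nw (dev s (g p) (fderiv ℝ g p v)) + Nw u2 + Nw u3 := by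
            have := map_sub_le_add Nw (dev s (g p) (fderiv ℝ g p v)) u2
            linarith
    linarith

end Pool.Agent.H44.AC
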