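import Pool.Agent.H44.AC.Cone
import Pool.Agent.H44.AC.NearA

/-!
# [H44 AC NEAR] The stable bundle of a nearby diffeomorphism is close to the explicit one

`adapt` gives `Ad s Ns Nw a b η c C`, `cone` gives `δ₀`.  For `g` with `δ ≤ δ₀`: `Nw v ≤ Ns v` for all `v` in `E^s_g(p)`.

Existence: `v ↦ ps v.1` is injective on `E^s_g(p)` (`ps v.1 = 0` gives `Ns v = 0`, `Nw v = 0`, `v = 0` by `low`), the dimensions of
`E^s_g(p)` and of `range ps` are equal (`Rk`, `rs`), so it is onto `range ps`.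

Closeness: take `θ > 0` with `a + θ < b`, `near_step` (`δ` smaller), `near_bd` (`K`), `ρ = (a + θ)/b < 1`, `θ' = θ / (b - a - θ)`.  By induction on `n`:
`Nw (dev s p v) ≤ (K ρ^n + θ') Ns v` for all `p` and all `v ∈ E^s_g(p)` (`v' = Dg(p) v ∈ E^s_g(g p)` by `inv_s`;
`b Nw (dev p v) ≤ (K ρ^n + θ') Ns v' + θ Ns v ≤ ((K ρ^n + θ')(a + θ) + θ) Ns v`).  `n → ∞`: `Nw (dev s p v) ≤ θ' Ns v`.
Finally `c ‖dev s p v‖ ≤ Nw (dev s p v)` (`low`, `s0`), `Ns v = Ns (ps v.1, 0)` (`s0` for the difference) `≤ C ‖ps v.1‖`, so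
`‖dev s p v‖ ≤ c⁻¹ θ' C ‖ps v.1‖`; choose `θ` with `c⁻¹ θ' C ≤ ε`.

`near_eq`: the case `g = s.f` (`Ok.dif`): `near_s` for all `ε` gives `‖dev s p v‖ = 0`, so `v.1 = ps v.1` and `v.2 = S(p.1) v.1`; conversely, if `v.1 = ps v.1` and `v.2 = S(p.1) v.1`, the
existence part gives `v'` in `E^s` with `ps v'.1 = ps v.1`, and `v' = (ps v'.1, S v'.1) = v` (`S_ps`).
-/

set_option autoImplicit false

namespace Pool.Agent.H44.AC

variable {d k : ℕ}

private theorem near_close {s : Sk d k} (hs : s.Ok) {Ns Nw : Seminorm ℝ (E d k)} {a b η c C : ℝ}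
    (hA : Ad s Ns Nw a b η c C) {g : Equiv.Perm (E d k)}
    {Ps Pc Pu : E d k → (E d k →L[ℝ] E d k)} (hP : PH g Ps Pc Pu) {K θ ε : ℝ} (hK : 0 < K)
    (hKb : ∀ p v, Nw v ≤ Ns v → Nw (dev s p v) ≤ K * Ns v)
    (hθ : 0 < θ) (hθ1 : θ ≤ (b - a) / 2) (hθ2 : θ ≤ ε * c * (b - a) / (2 * C)) (hε : 0 < ε)
    (hb : 0 < b) (hco : ∀ p v, Ps p v = v → Nw v ≤ Ns v)
    (hst : ∀ p v, Nw v ≤ Ns v → Ns (fderiv ℝ g p v) ≤ (a + θ) * Ns v ∧
      b * Nw (dev s p v) ≤ Nw (dev s (g p) (fderiv ℝ g p v)) + θ * Ns v) (p v : E d k)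
    (hv : Ps p v = v) : ‖v - (s.ps v.1, s.S p.1 v.1)‖ ≤ ε * ‖s.ps v.1‖ := by
  have hc := hA.hc
  have hC := hA.hC
  have ha := hA.ha
  set D : ℝ := b - a - θ with hDdef
  have hD : 0 < D := by rw [hDdef]; linarith
  set τ : ℝ := θ / D with hτ
  have hτ0 : 0 < τ := by positivity
  have hτD : τ * D = θ := div_mul_cancel₀ _ hD.ne'
  set ρ : ℝ := (a + θ) / b with hρ
  have hρ0 : 0 ≤ ρ := by positivity
  have hρ1 : ρ < 1 := by
    rw [hρ, div_lt_one hb]
    rw [hDdef] at hD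
    linarith
  have hρb : ρ * b = a + θ := div_mul_cancel₀ _ hb.ne'
  have hind : ∀ n : ℕ, ∀ p v, Ps p v = v → Nw (dev s p v) ≤ (K * ρ ^ n + τ) * Ns v := by
    intro n
    induction n with
    | zero =>
      intro p v hv
      have h1 := hKb p v (hco p v hv)
      have h2 : 0 ≤ τ * Ns v := mul_nonneg hτ0.le (apply_nonneg _ _)
      rw [pow_zero]
      linarith
    | succ n ih =>
      intro p v hv
      obtain ⟨h1, h2⟩ := hst p v (hco p v hv)
      have h3 : Ps (g p) (fderiv ℝ g p v) = fderiv ℝ g p v := by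
        rw [← hP.inv_s, hv]
      have h4 := ih (g p) (fderiv ℝ g p v) h3
      have h5 : 0 ≤ K * ρ ^ n + τ := by positivity
      have h6 : (K * ρ ^ n + τ) * Ns (fderiv ℝ g p v) ≤ (K * ρ ^ n + τ) * ((a + θ) * Ns v) :=
        mul_le_mul_of_nonneg_left h1 h5
      have h7 : b * Nw (dev s p v) ≤ b * ((K * ρ ^ (n + 1) + τ) * Ns v) := by
        have e1 : b * ((K * ρ ^ (n + 1) + τ) * Ns v) =
            (K * ρ ^ n + τ) * ((a + θ) * Ns v) + θ * Ns v := by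
          have e2 : θ = τ * (b - ρ * b) := by
            rw [hρb]
            have e4 := hτD
            rw [hDdef] at e4
            linear_combination -e4
          have e3 : θ * Ns v = τ * (b - ρ * b) * Ns v := by rw [← e2]
          rw [e3, pow_succ, ← hρb]
          ring
        rw [e1]
        linarith
      exact le_of_mul_le_mul_left h7 hb
  have hlim : Nw (dev s p v) ≤ τ * Ns v := by
    have h1 : Filter.Tendsto (fun n : ℕ => (K * ρ ^ n + τ) * Ns v) Filter.atTop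
        (nhds ((K * 0 + τ) * Ns v)) :=
      (((tendsto_pow_atTop_nhds_zero_of_lt_one hρ0 hρ1).const_mul K).add_const τ).mul_const _
    rw [mul_zero, zero_add] at h1
    exact ge_of_tendsto' h1 fun n => hind n p v hv
  have hdev : Ns (dev s p v) = 0 := by
    apply hA.s0
    change s.ps (v.1 - s.ps v.1) = 0
    rw [map_sub, hs.dom.ss, sub_self]
  have hNs : Ns v ≤ C * ‖s.ps v.1‖ := by
    have h1 : Ns (v - (s.ps v.1, 0)) = 0 := by
      apply hA.s0
      change s.ps (v.1 - s.ps v.1) = 0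
      rw [map_sub, hs.dom.ss, sub_self]
    have h2 : Ns v ≤ Ns (v - (s.ps v.1, 0)) + Ns ((s.ps v.1, 0) : E d k) := by
      have := map_add_le_add Ns (v - (s.ps v.1, 0)) ((s.ps v.1, 0) : E d k)
      rwa [sub_add_cancel] at this
    have h3 := hA.ups ((s.ps v.1, 0) : E d k)
    have h4 : ‖((s.ps v.1, 0) : E d k)‖ = ‖s.ps v.1‖ := by
      rw [Prod.norm_def]
      simp
    rw [h4] at h3
    linarith
  have h1 := hA.low (dev s p v)
  rw [hdev, zero_add] at h1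
  have h2 : c * ‖dev s p v‖ ≤ τ * (C * ‖s.ps v.1‖) :=
    h1.trans (hlim.trans (mul_le_mul_of_nonneg_left hNs hτ0.le))
  have h3 : τ * C ≤ ε * c := by
    have e1 : θ / D * C = θ * C / D := by ring
    rw [hτ, e1, div_le_iff₀ hD]
    rw [le_div_iff₀ (by positivity)] at hθ2
    have h4 : (b - a) / 2 ≤ D := by rw [hDdef]; linarith
    have h5 : ε * c * ((b - a) / 2) ≤ ε * c * D := mul_le_mul_of_nonneg_left h4 (by positivity)
    linarith
  have h4 : c * ‖dev s p v‖ ≤ c * (ε * ‖s.ps v.1‖) := by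
    calc c * ‖dev s p v‖ ≤ τ * (C * ‖s.ps v.1‖) := h2
      _ = τ * C * ‖s.ps v.1‖ := by ring
      _ ≤ ε * c * ‖s.ps v.1‖ := mul_le_mul_of_nonneg_right h3 (norm_nonneg _)
      _ = c * (ε * ‖s.ps v.1‖) := by ring
  exact le_of_mul_le_mul_left h4 hc

private theorem near_exists {s : Sk d k} {Ns Nw : Seminorm ℝ (E d k)} {a b η c C : ℝ}
    (hA : Ad s Ns Nw a b η c C) {g : Equiv.Perm (E d k)}
    {Ps Pc Pu : E d k → (E d k →L[ℝ] E d k)} (hP : PH g Ps Pc Pu) (hR : Rk Ps s.rs)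
    (hco : ∀ p v, Ps p v = v → Nw v ≤ Ns v) (p : E d k) (a : X d) :
    ∃ v, Ps p v = v ∧ s.ps v.1 = s.ps a := by
  have hinj0 : ∀ v, Ps p v = v → s.ps v.1 = 0 → v = 0 := by
    intro v hv h0
    have h1 := hA.s0 v h0
    have h2 := hco p v hv
    have h3 := hA.low v
    have h4 : c * ‖v‖ ≤ 0 := by linarith
    have h5 : ‖v‖ ≤ 0 := by
      by_contra h
      push Not at h
      have := mul_pos hA.hc h
      linarith
    exact norm_le_zero_iff.1 h5
  let P : E d k →ₗ[ℝ] E d k := (Ps p : E d k →ₗ[ℝ] E d k)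
  let Q : X d →ₗ[ℝ] X d := (s.ps : X d →ₗ[ℝ] X d)
  let φ : LinearMap.range P →ₗ[ℝ] LinearMap.range Q :=
    ((Q.comp (LinearMap.fst ℝ (X d) (X k))).comp (LinearMap.range P).subtype).codRestrict _
      (fun v => ⟨v.1.1, rfl⟩)
  have hφ : ∀ v, (φ v : X d) = s.ps v.1.1 := fun v => rfl
  have hrange : ∀ v : LinearMap.range P, Ps p v.1 = v.1 := by
    rintro ⟨v, w, rfl⟩
    exact hP.ss p w
  have hφi : Function.Injective φ := by
    rw [← LinearMap.ker_eq_bot, LinearMap.ker_eq_bot']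
    intro v hv
    have h1 := hφ v
    rw [hv] at h1
    exact Subtype.ext (hinj0 v.1 (hrange v) h1.symm)
  have hfr : Module.finrank ℝ (LinearMap.range P) = Module.finrank ℝ (LinearMap.range Q) := hR p
  have hφs : Function.Surjective φ :=
    (LinearMap.injective_iff_surjective_of_finrank_eq_finrank hfr).1 hφi
  obtain ⟨v, hv⟩ := hφs ⟨s.ps a, a, rfl⟩
  refine ⟨v.1, hrange v, ?_⟩
  rw [← hφ v, hv]

theorem near_s {s : Sk d k} (hs : s.Ok) (ε : ℝ) (hε : 0 < ε) : ∃ δ : ℝ, 0 < δ ∧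
    ∀ g : Equiv.Perm (E d k), Dif g →
      (∀ v, ‖g v - s.f v‖ < δ ∧ ‖fderiv ℝ g v - fderiv ℝ s.f v‖ < δ) →
      ∀ Ps Pc Pu, PH g Ps Pc Pu → Rk Ps s.rs →
        (∀ p v, Ps p v = v → ‖v - (s.ps v.1, s.S p.1 v.1)‖ ≤ ε * ‖s.ps v.1‖) ∧
        ∀ p a, ∃ v, Ps p v = v ∧ s.ps v.1 = s.ps a := by
  obtain ⟨Ns, Nw, a, b, η, c, C, hA⟩ := adapt hs
  obtain ⟨δ₀, hδ₀, hcone⟩ := cone hs hA
  obtain ⟨K, hK, hKb⟩ := near_bd hs hA
  have hc := hA.hc
  have hC := hA.hC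
  have ha := hA.ha
  have hG : 0 < b - a := by
    have h1 := hA.hab
    have h2 := hA.hη
    linarith
  set G : ℝ := b - a with hGdef
  set θ : ℝ := min (G / 2) (ε * c * G / (2 * C)) with hθdef
  have hθ : 0 < θ := lt_min (by positivity) (by positivity)
  have hθ1 : θ ≤ G / 2 := min_le_left _ _
  have hθ2 : θ ≤ ε * c * G / (2 * C) := min_le_right _ _
  have hb : 0 < b := by linarith
  obtain ⟨δ₁, hδ₁, hstep⟩ := near_step hs hA θ hθ
  refine ⟨min δ₀ δ₁, lt_min hδ₀ hδ₁, ?_⟩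
  intro g hg hgf Ps Pc Pu hP hR
  have hco : ∀ p v, Ps p v = v → Nw v ≤ Ns v :=
    hcone g hg (fun v => lt_of_lt_of_le (hgf v).2 (min_le_left _ _)) Ps Pc Pu hP hR
  have hst : ∀ p v, Nw v ≤ Ns v → Ns (fderiv ℝ g p v) ≤ (a + θ) * Ns v ∧
      b * Nw (dev s p v) ≤ Nw (dev s (g p) (fderiv ℝ g p v)) + θ * Ns v :=
    hstep g hg (fun v => ⟨lt_of_lt_of_le (hgf v).1 (min_le_right _ _),
      lt_of_lt_of_le (hgf v).2 (min_le_right _ _)⟩)
  constructor
  · exact near_close hs hA hP hK hKb hθ hθ1 hθ2 hε hb hco hst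
  · exact near_exists hA hP hR hco

theorem near_eq {s : Sk d k} (hs : s.Ok) {Ps Pc Pu : E d k → (E d k →L[ℝ] E d k)}
    (hP : PH s.f Ps Pc Pu) (hr : Rk Ps s.rs) (p v : E d k) :
    Ps p v = v ↔ s.ps v.1 = v.1 ∧ v.2 = s.S p.1 v.1 := by
  have hfd : ∀ ε : ℝ, 0 < ε →
      (∀ p v, Ps p v = v → ‖v - (s.ps v.1, s.S p.1 v.1)‖ ≤ ε * ‖s.ps v.1‖) ∧
        ∀ p a, ∃ v, Ps p v = v ∧ s.ps v.1 = s.ps a := by
    intro ε hε
    obtain ⟨δ, hδ, h⟩ := near_s hs ε hε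
    refine h s.f hs.dif (fun v => ?_) Ps Pc Pu hP hr
    rw [sub_self, norm_zero, sub_self, norm_zero]
    exact ⟨hδ, hδ⟩
  have hfw : ∀ v, Ps p v = v → v = (s.ps v.1, s.S p.1 v.1) := by
    intro v hv
    have h1 : ‖v - (s.ps v.1, s.S p.1 v.1)‖ ≤ 0 := by
      refine le_of_forall_pos_le_add fun ε hε => ?_
      have h2 := (hfd (ε / (‖s.ps v.1‖ + 1)) (by positivity)).1 p v hv
      refine h2.trans ?_
      rw [zero_add, div_mul_eq_mul_div, div_le_iff₀ (by positivity)]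
      nlinarith [norm_nonneg (s.ps v.1)]
    exact sub_eq_zero.1 (norm_le_zero_iff.1 h1)
  constructor
  · intro hv
    have h1 := hfw v hv
    exact ⟨(congrArg Prod.fst h1).symm, congrArg Prod.snd h1⟩
  · rintro ⟨h1, h2⟩
    obtain ⟨v', h3, h4⟩ := (hfd 1 one_pos).2 p v.1
    have h5 := hfw v' h3
    have h6 : v'.1 = v.1 := by
      have := congrArg Prod.fst h5
      change v'.1 = s.ps v'.1 at this
      rw [this, h4, h1]
    have h7 : v'.2 = v.2 := by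
      have := congrArg Prod.snd h5
      change v'.2 = s.S p.1 v'.1 at this
      rw [this, h6, h2]
    have h8 : v' = v := Prod.ext h6 h7
    rw [← h8]
    exact h3

end Pool.Agent.H44.AC
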