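import Pool.Agent.H44.AC.PHB
import Pool.Agent.H44.AC.SWa2

/-!
# [H44 AC PHFA] The explicit stable bundle: invariance and the stable inequalities

`Qs s v x = (ps x.1, S(v.1) x.1)`.
* `Qs_idem` : `S_ps`, `Dom.ss`.  `Qs_inv`: `S_inv`, `S_ps`, `fderiv_apply`, `Dom.comm`.
* `Qs_Dn`: induction on `n` (`Dn_zero`, `Dn_succ`, `Ok.dif`, `Qs_inv`), the first component of `Dn s.f n v x` is `A^n x.1` (`Dn_fst`, induction with `fderiv_apply`).
* `est_s`: for `Qs s v x = x`: `x.1 = ps x.1` and `Dn s.f n v x = Qs s (f^n v) (Dn s.f n v x) = (ps A^n x.1, S(…)(A^n x.1))`, norm `≤ (1 + ‖ps‖ + K_S) ‖A^n ps‖ ‖x‖` (`S_bdd`).  For `y.1 = 0`: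
  `Dn s.f n v y = (0, B^n y.2)` (induction) and `‖y.2‖ = ‖b^n B^n y.2‖ ≤ ‖b^n‖ ‖B^n y.2‖`.  So `‖Dn x‖ ‖y‖ ≤ K ‖A^n ps‖ ‖b^n‖ ‖Dn y‖ ‖x‖ ≤ K C r^n ‖Dn y‖ ‖x‖` (`Dom.est`).
-/

set_option autoImplicit false

namespace Pool.Agent.H44.AC

variable {d k : ℕ}

/-- the projection onto the explicit stable bundle -/
noncomputable def Qs (s : Sk d k) (v : E d k) : E d k →L[ℝ] E d k :=
  (s.ps.prod (s.S v.1)).comp (ContinuousLinearMap.fst ℝ (X d) (X k))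

theorem Qs_apply (s : Sk d k) (v x : E d k) : Qs s v x = (s.ps x.1, s.S v.1 x.1) := rfl

theorem Qs_idem {s : Sk d k} (hs : s.Ok) (v x : E d k) : Qs s v (Qs s v x) = Qs s v x := by
  rw [Qs_apply, Qs_apply]
  refine Prod.ext ?_ ?_
  · exact hs.dom.ss x.1
  · exact Sk.S_ps hs v.1 x.1

theorem Qs_inv {s : Sk d k} (hs : s.Ok) (v x : E d k) :
    fderiv ℝ s.f v (Qs s v x) = Qs s (s.f v) (fderiv ℝ s.f v x) := by
  rw [Sk.fderiv_apply hs, Sk.fderiv_apply hs, Qs_apply, Qs_apply]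
  refine Prod.ext ?_ ?_
  · exact (hs.dom.comm x.1).symm
  · exact (Sk.S_inv hs v.1 x.1).symm

theorem Dn_fst {s : Sk d k} (hs : s.Ok) (n : ℕ) (v x : E d k) :
    (Dn s.f n v x).1 = (s.a ^ n) x.1 := by
  induction n with
  | zero =>
    have h := Dn_zero s.f v x
    rw [pow_zero]
    change (Dn s.f 0 v x).1 = x.1
    rw [h]
  | succ n ih =>
    rw [Dn_succ hs.dif, Sk.fderiv_apply hs, pow_succ']
    change s.A (Dn s.f n v x).1 = s.A ((s.a ^ n) x.1)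
    rw [ih]

theorem Qs_Dn {s : Sk d k} (hs : s.Ok) (n : ℕ) (v x : E d k) :
    Dn s.f n v (Qs s v x) = Qs s ((s.f ^ n) v) (Dn s.f n v x) := by
  induction n with
  | zero =>
    rw [pow_zero]
    change Dn s.f 0 v (Qs s v x) = Qs s v (Dn s.f 0 v x)
    rw [Dn_zero, Dn_zero]
  | succ n ih =>
    have e : (s.f ^ (n + 1)) v = s.f ((s.f ^ n) v) := by
      rw [pow_succ']
      rfl
    rw [e, Dn_succ hs.dif, Dn_succ hs.dif, ih, Qs_inv hs]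

theorem est_s {s : Sk d k} (hs : s.Ok) : ∃ C r : ℝ, 0 < C ∧ 0 < r ∧ r < 1 ∧
    ∀ (v : E d k) (n : ℕ),
      (∀ x, Qs s v x = x → ‖Dn s.f n v x‖ ≤ C * r ^ n * ‖x‖) ∧
      ∀ x y, Qs s v x = x → y.1 = 0 → ‖Dn s.f n v x‖ * ‖y‖ ≤ C * r ^ n * ‖Dn s.f n v y‖ * ‖x‖ := by
  obtain ⟨C, r, hC, hr, hr1, hest⟩ := hs.dom.est
  obtain ⟨K, hK, hKb⟩ := Sk.S_bdd hs
  set M : ℝ := K + ‖s.ps‖ + 1 with hM
  have hMp : 0 < M := by positivity
  -- the norm of the image of a stable vector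
  have key : ∀ (v : E d k) (n : ℕ) (x : E d k), Qs s v x = x →
      ‖Dn s.f n v x‖ ≤ M * ‖s.a ^ n * s.ps‖ * ‖x‖ := by
    intro v n x hx
    have h1 : s.ps x.1 = x.1 := congrArg Prod.fst hx
    have h2 := Qs_Dn hs n v x
    rw [hx, Qs_apply, Dn_fst hs] at h2
    have h3 : (s.a ^ n) x.1 = (s.a ^ n * s.ps) x.1 := by
      conv_lhs => rw [← h1]
      rfl
    have h4 : ‖(s.a ^ n) x.1‖ ≤ ‖s.a ^ n * s.ps‖ * ‖x‖ := by
      rw [h3]
      refine ((s.a ^ n * s.ps).le_opNorm x.1).trans ?_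
      exact mul_le_mul_of_nonneg_left (norm_fst_le x) (norm_nonneg _)
    have h5 : ‖s.ps ((s.a ^ n) x.1)‖ ≤ M * (‖s.a ^ n * s.ps‖ * ‖x‖) := by
      refine (s.ps.le_opNorm _).trans ?_
      refine mul_le_mul ?_ h4 (norm_nonneg _) hMp.le
      rw [hM]
      linarith
    have h6 : ‖s.S ((s.f ^ n) v).1 ((s.a ^ n) x.1)‖ ≤ M * (‖s.a ^ n * s.ps‖ * ‖x‖) := by
      refine ((s.S ((s.f ^ n) v).1).le_opNorm _).trans ?_
      refine mul_le_mul ?_ h4 (norm_nonneg _) hMp.le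
      have := hKb ((s.f ^ n) v).1
      have := norm_nonneg s.ps
      rw [hM]
      linarith
    rw [h2, Prod.norm_def, mul_assoc]
    exact max_le h5 h6
  have key2 : ∀ (v : E d k) (n : ℕ) (y : E d k), y.1 = 0 →
      (s.b ^ n) (Dn s.f n v y).2 = y.2 := by
    intro v n y hy
    induction n with
    | zero =>
      rw [pow_zero]
      change (Dn s.f 0 v y).2 = y.2
      rw [Dn_zero]
    | succ n ih =>
      rw [Dn_succ hs.dif, Sk.fderiv_apply hs, pow_succ]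
      change (s.b ^ n) (s.B.symm (s.B (Dn s.f n v y).2 +
        fderiv ℝ s.h ((s.f ^ n) v).1 (Dn s.f n v y).1)) = y.2
      rw [Dn_fst hs, hy, map_zero, map_zero, add_zero, s.B.symm_apply_apply]
      exact ih
  refine ⟨M * C, r, by positivity, hr, hr1, fun v n => ⟨fun x hx => ?_, fun x y hx hy => ?_⟩⟩
  · refine (key v n x hx).trans ?_
    have h1 : ‖s.a ^ n * s.ps‖ ≤ C * r ^ n := (hest n).1
    calc M * ‖s.a ^ n * s.ps‖ * ‖x‖ ≤ M * (C * r ^ n) * ‖x‖ := by gcongr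
      _ = M * C * r ^ n * ‖x‖ := by ring
  · have h1 : ‖s.a ^ n * s.ps‖ * ‖s.b ^ n‖ ≤ C * r ^ n := (hest n).2.2.1
    have h2 : ‖y‖ = ‖y.2‖ := by
      rw [Prod.norm_def, hy, norm_zero]
      exact max_eq_right (norm_nonneg _)
    have h3 : ‖y.2‖ ≤ ‖s.b ^ n‖ * ‖Dn s.f n v y‖ := by
      rw [← key2 v n y hy]
      refine ((s.b ^ n).le_opNorm _).trans ?_
      refine mul_le_mul_of_nonneg_left ?_ (norm_nonneg _)
      exact (norm_snd_le (Dn s.f n v y))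
    have h4 := key v n x hx
    rw [h2]
    calc ‖Dn s.f n v x‖ * ‖y.2‖
        ≤ (M * ‖s.a ^ n * s.ps‖ * ‖x‖) * (‖s.b ^ n‖ * ‖Dn s.f n v y‖) :=
          mul_le_mul h4 h3 (norm_nonneg _) (by positivity)
      _ = M * (‖s.a ^ n * s.ps‖ * ‖s.b ^ n‖) * ‖Dn s.f n v y‖ * ‖x‖ := by ring
      _ ≤ M * (C * r ^ n) * ‖Dn s.f n v y‖ * ‖x‖ := by gcongr
      _ = M * C * r ^ n * ‖Dn s.f n v y‖ * ‖x‖ := by ring

end Pool.Agent.H44.AC
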