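import Pool.Agent.H44.AC.Peano

/-!
# [H44 AC PLIM] Limits of paths of Euler polygons are `su`-paths

Induction on the list from the right (`List.reverseRecOn`, for all sequences `n`, `tj` and all `q`): `L = L' ++ [c]`, the intermediate points `r_j = prun V (n_j) (ev L' t_j) p` are bounded: each leg moves by at
most `K ‖c.2 t_j‖` (a polygon of `m` steps of length `≤ K ‖ℓ‖ / m`; `poly_move`), bounded because `c.2 t_j` converges; so a subsequence converges to some `r` (`tendsto_subseq_of_bounded`); the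
induction hypothesis for the subsequence gives `SuPath Ps Pu p r`, and `peano` gives the last leg `Leaf Ps r q` (`c.1 = true`) or `Leaf Pu r q`.
-/

set_option autoImplicit false

open Filter Topology

namespace Pool.Agent.H44.AC

variable {d k : ℕ}

theorem poly_move {V : E d k → X d → E d k} (K : ℝ) (hK : ∀ p ℓ, ‖V p ℓ‖ ≤ K * ‖ℓ‖) (m : ℕ)
    (ℓ : X d) (p : E d k) : ‖poly V m ℓ p - p‖ ≤ K * ‖ℓ‖ := by
  have h0 : 0 ≤ K * ‖ℓ‖ := (norm_nonneg _).trans (hK p ℓ)
  have h1 := pts_lip V m ℓ p 0 m (K * ‖ℓ‖) fun x => hK x ℓ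
  rw [zero_add] at h1
  have h2 : (m : ℝ) * (m : ℝ)⁻¹ ≤ 1 := mul_inv_le_one
  have h3 : pts V m ℓ p m = poly V m ℓ p := rfl
  have h4 : pts V m ℓ p 0 = p := rfl
  rw [h3, h4] at h1
  refine h1.trans ?_
  exact mul_le_of_le_one_left h0 h2

theorem prun_limit {Ps Pu : E d k → (E d k →L[ℝ] E d k)} {V : Bool → E d k → X d → E d k}
    (hV : ∀ c, Continuous fun q : E d k × X d => V c q.1 q.2)
    (K : ℝ) (hK : ∀ c p ℓ, ‖V c p ℓ‖ ≤ K * ‖ℓ‖)
    (hs : ∀ p ℓ, Ps p (V true p ℓ) = V true p ℓ) (hu : ∀ p ℓ, Pu p (V false p ℓ) = V false p ℓ)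
    {T : Type*} [TopologicalSpace T] (L : List (Bool × (T → X d))) (hL : ∀ c ∈ L, Continuous c.2)
    (n : ℕ → ℕ) (hn : Tendsto n atTop atTop) (tj : ℕ → T) {t : T} (ht : Tendsto tj atTop (𝓝 t))
    {p q : E d k} (hq : Tendsto (fun j => prun V (n j) (ev L (tj j)) p) atTop (𝓝 q)) :
    SuPath Ps Pu p q := by
  induction L using List.reverseRecOn generalizing n tj q with
  | nil =>
    have h1 : (fun j => prun V (n j) (ev ([] : List (Bool × (T → X d))) (tj j)) p) = fun _ => p := by
      funext j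
      rfl
    rw [h1] at hq
    have h2 : p = q := tendsto_nhds_unique tendsto_const_nhds hq
    rw [h2]
    exact Relation.ReflTransGen.refl
  | append_singleton L c ih =>
    obtain ⟨r, hr⟩ : ∃ r : ℕ → E d k, r = fun j => prun V (n j) (ev L (tj j)) p := ⟨_, rfl⟩
    have h1 : (fun j => prun V (n j) (ev (L ++ [c]) (tj j)) p) =
        fun j => poly (V c.1) (n j) (c.2 (tj j)) (r j) := by
      funext j
      simp only [hr, prun, ev, List.map_append, List.map_cons, List.map_nil, List.foldl_append,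
        List.foldl_cons, List.foldl_nil]
    rw [h1] at hq
    have hc : Tendsto (fun j => c.2 (tj j)) atTop (𝓝 (c.2 t)) :=
      ((hL c (by simp)).tendsto t).comp ht
    obtain ⟨M, hM⟩ := (Metric.isBounded_range_of_tendsto _ hc).exists_norm_le
    obtain ⟨M', hM'⟩ := (Metric.isBounded_range_of_tendsto _ hq).exists_norm_le
    have hb : ∀ j, r j ∈ Metric.closedBall (0 : E d k) (M' + |K| * M) := by
      intro j
      rw [mem_closedBall_zero_iff]
      have h2 := poly_move K (hK c.1) (n j) (c.2 (tj j)) (r j)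
      have h3 := hM' _ ⟨j, rfl⟩
      have h4 := hM _ ⟨j, rfl⟩
      simp only at h3 h4
      have h5 : K * ‖c.2 (tj j)‖ ≤ |K| * M :=
        mul_le_mul (le_abs_self K) h4 (norm_nonneg _) (abs_nonneg K)
      have h6 : r j = poly (V c.1) (n j) (c.2 (tj j)) (r j) -
          (poly (V c.1) (n j) (c.2 (tj j)) (r j) - r j) := by abel
      rw [h6]
      refine (norm_sub_le _ _).trans ?_
      linarith
    obtain ⟨a, -, φ, hφ, ha⟩ := tendsto_subseq_of_bounded Metric.isBounded_closedBall hb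
    have hφt : Tendsto φ atTop atTop := hφ.tendsto_atTop
    have h2 : SuPath Ps Pu p a := by
      refine ih (fun c hc => hL c (by simp [hc])) (n ∘ φ) (hn.comp hφt) (tj ∘ φ) (ht.comp hφt) ?_
      rw [hr] at ha
      exact ha
    obtain ⟨γ, γ', h3, h4, h5, h6, h7⟩ := peano (hV c.1) K (hK c.1) (n ∘ φ) (hn.comp hφt)
      (r ∘ φ) (fun j => c.2 (tj (φ j))) ha (hc.comp hφt) (hq.comp hφt)
    refine Relation.ReflTransGen.tail h2 ?_
    rcases hb' : c.1 with _ | _
    · refine Or.inr ⟨γ, γ', h3, h4, h5, h6, fun s hs' => ?_⟩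
      rw [h7 s hs', hb']
      exact hu _ _
    · refine Or.inl ⟨γ, γ', h3, h4, h5, h6, fun s hs' => ?_⟩
      rw [h7 s hs', hb']
      exact hs _ _

end Pool.Agent.H44.AC
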