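import Pool.Agent.H44.AC.Poly

/-!
# [H44 AC PEANO] Limits of Euler polygons are curves tangent to the field

`peano`: `p_j → p`, `ℓ_j → ℓ`, `n_j → ∞`, `poly V (n_j) ℓ_j p_j → q`.  Then there is a `C^1` curve from `p` to `q` with `γ' = V (γ t) ℓ` on `[0, 1]`.
Proof.  `‖V x ℓ'‖ ≤ K ‖ℓ'‖`.  Let `x_i` be the points of the polygon number `j`, `n = n_j`, `c_j : [0, 1] → E` the piecewise linear interpolation, or simpler the function
`c_j t = p_j + ∫_0^t V (x_{⌊n s⌋}) ℓ_j ds`, and `z_j s = x_{⌊n s⌋}`.  `c_j` is Lipschitz with constant `K sup ‖ℓ_j‖`, `c_j (i/n) = x_i`, `‖c_j s - z_j s‖ ≤ K ‖ℓ_j‖ / n`, all values are in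
a fixed ball `b`.  Arzela-Ascoli (`BoundedContinuousFunction.arzela_ascoli` / `ContinuousMap`, or directly: choose by a diagonal argument a subsequence converging at
all rational points, and use the equi-Lipschitz condition) gives a subsequence with `c_j → γ` uniformly on `[0, 1]`.  `V` is uniformly continuous on the compact set
`b × (ball)`, so `V (z_j s) ℓ_j → V (γ s) ℓ` uniformly and `γ t = p + ∫_0^t V (γ s) ℓ ds` for `t ∈ [0, 1]`; `γ 1 = q`.
Extension to `ℝ`: `δ t = γ (max 0 (min t 1))` is continuous, `γ' t = V (δ t) ℓ` is continuous, `γ̃ t = p + ∫_0^t V (δ s) ℓ ds` has derivative `γ'` everywhere and equals `γ` on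
`[0, 1]`.
-/

set_option autoImplicit false

open MeasureTheory intervalIntegral Filter Topology

namespace Pool.Agent.H44.AC

variable {d k : ℕ}

/-- the points of the polygon -/
noncomputable def pts (V : E d k → X d → E d k) (m : ℕ) (ℓ : X d) (p : E d k) (i : ℕ) : E d k :=
  (fun q => q + (m : ℝ)⁻¹ • V q ℓ)^[i] p

theorem pts_succ (V : E d k → X d → E d k) (m : ℕ) (ℓ : X d) (p : E d k) (i : ℕ) :
    pts V m ℓ p (i + 1) = pts V m ℓ p i + (m : ℝ)⁻¹ • V (pts V m ℓ p i) ℓ := by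
  simp only [pts, Function.iterate_succ_apply']

theorem pts_near (V : E d k → X d → E d k) (m : ℕ) (ℓ : X d) (p : E d k) (i : ℕ) (w : E d k) (ε : ℝ)
    (c : ℕ) (h : ∀ l, i ≤ l → l < i + c → ‖V (pts V m ℓ p l) ℓ - w‖ ≤ ε) :
    ‖pts V m ℓ p (i + c) - pts V m ℓ p i - ((c : ℝ) * (m : ℝ)⁻¹) • w‖ ≤ (c : ℝ) * (m : ℝ)⁻¹ * ε := by
  induction c with
  | zero => simp
  | succ c ih =>
    have h1 := ih fun l hl hl' => h l hl (by omega)
    have h2 := h (i + c) (by omega) (by omega)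
    have e : pts V m ℓ p (i + (c + 1)) - pts V m ℓ p i - (((c + 1 : ℕ) : ℝ) * (m : ℝ)⁻¹) • w =
        (pts V m ℓ p (i + c) - pts V m ℓ p i - ((c : ℝ) * (m : ℝ)⁻¹) • w) +
          (m : ℝ)⁻¹ • (V (pts V m ℓ p (i + c)) ℓ - w) := by
      rw [← add_assoc i c 1, pts_succ]
      push_cast
      rw [smul_sub, add_mul, one_mul, add_smul]
      abel
    rw [e]
    refine (norm_add_le _ _).trans ?_
    have h3 : ‖(m : ℝ)⁻¹ • (V (pts V m ℓ p (i + c)) ℓ - w)‖ ≤ (m : ℝ)⁻¹ * ε := by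
      rw [norm_smul, Real.norm_of_nonneg (by positivity)]
      exact mul_le_mul_of_nonneg_left h2 (by positivity)
    push_cast
    nlinarith [h1, h3]

theorem pts_lip (V : E d k → X d → E d k) (m : ℕ) (ℓ : X d) (p : E d k) (i c : ℕ) (L : ℝ)
    (h : ∀ x, ‖V x ℓ‖ ≤ L) :
    ‖pts V m ℓ p (i + c) - pts V m ℓ p i‖ ≤ (c : ℝ) * (m : ℝ)⁻¹ * L := by
  have h1 := pts_near V m ℓ p i 0 L c fun l _ _ => by rw [sub_zero]; exact h _
  simpa using h1

theorem peano {V : E d k → X d → E d k} (hV : Continuous fun q : E d k × X d => V q.1 q.2)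
    (K : ℝ) (hK : ∀ p ℓ, ‖V p ℓ‖ ≤ K * ‖ℓ‖) (n : ℕ → ℕ) (hn : Tendsto n atTop atTop)
    (pj : ℕ → E d k) (lj : ℕ → X d) {p q : E d k} {ℓ : X d} (hp : Tendsto pj atTop (𝓝 p))
    (hl : Tendsto lj atTop (𝓝 ℓ))
    (hq : Tendsto (fun j => poly V (n j) (lj j) (pj j)) atTop (𝓝 q)) :
    ∃ γ γ' : ℝ → E d k, Continuous γ' ∧ (∀ t, HasDerivAt γ (γ' t) t) ∧ γ 0 = p ∧ γ 1 = q ∧
      ∀ t ∈ Set.Icc (0 : ℝ) 1, γ' t = V (γ t) ℓ := by
  obtain ⟨M, hM⟩ := (Metric.isBounded_range_of_tendsto lj hl).exists_norm_le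
  obtain ⟨M', hM'⟩ := (Metric.isBounded_range_of_tendsto pj hp).exists_norm_le
  have hM0 : 0 ≤ M := (norm_nonneg _).trans (hM (lj 0) ⟨0, rfl⟩)
  obtain ⟨L, hL⟩ : ∃ L : ℝ, L = |K| * M := ⟨_, rfl⟩
  have hL0 : 0 ≤ L := by rw [hL]; positivity
  have hVL : ∀ j x, ‖V x (lj j)‖ ≤ L := by
    intro j x
    rw [hL]
    refine (hK x (lj j)).trans ?_
    exact mul_le_mul (le_abs_self K) (hM _ ⟨j, rfl⟩) (norm_nonneg _) (abs_nonneg K)
  obtain ⟨U, hU⟩ : ∃ U : Ultrafilter ℕ, (U : Filter ℕ) ≤ atTop :=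
    ⟨Ultrafilter.of atTop, Ultrafilter.of_le atTop⟩
  -- the ratio of the floor
  have hr : ∀ t : ℝ, 0 ≤ t →
      Tendsto (fun j => ((⌊(n j : ℝ) * t⌋₊ : ℕ) : ℝ) * ((n j : ℕ) : ℝ)⁻¹) (U : Filter ℕ) (𝓝 t) := by
    intro t ht
    have h1 := (tendsto_nat_floor_mul_div_atTop (R := ℝ) ht).comp
      (tendsto_natCast_atTop_atTop.comp hn)
    have h2 := h1.mono_left hU
    refine h2.congr fun j => ?_
    simp only [Function.comp_apply, div_eq_mul_inv, mul_comm t]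
  obtain ⟨y, hy⟩ : ∃ y : ℕ → ℝ → E d k, y = fun j t =>
    pts V (n j) (lj j) (pj j) ⌊(n j : ℝ) * t⌋₊ := ⟨_, rfl⟩
  have hdiff : ∀ (j : ℕ) (s t : ℝ), s ≤ t → ∃ c : ℕ,
      ⌊(n j : ℝ) * t⌋₊ = ⌊(n j : ℝ) * s⌋₊ + c ∧
      (c : ℝ) * ((n j : ℕ) : ℝ)⁻¹ = ((⌊(n j : ℝ) * t⌋₊ : ℕ) : ℝ) * ((n j : ℕ) : ℝ)⁻¹ -
        ((⌊(n j : ℝ) * s⌋₊ : ℕ) : ℝ) * ((n j : ℕ) : ℝ)⁻¹ := by
    intro j s t hst
    have h1 : ⌊(n j : ℝ) * s⌋₊ ≤ ⌊(n j : ℝ) * t⌋₊ :=
      Nat.floor_mono (mul_le_mul_of_nonneg_left hst (Nat.cast_nonneg _))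
    obtain ⟨c, hc⟩ := Nat.exists_eq_add_of_le h1
    refine ⟨c, hc, ?_⟩
    rw [hc]; push_cast; ring
  -- the limit function
  have hlim : ∀ t : ℝ, ∃ z : E d k, 0 ≤ t → Tendsto (fun j => y j t) (U : Filter ℕ) (𝓝 z) := by
    intro t
    by_cases ht : 0 ≤ t
    · have hb : ∀ j, y j t ∈ Metric.closedBall (0 : E d k) (M' + t * L) := by
        intro j
        rw [mem_closedBall_zero_iff]
        obtain ⟨c, hc1, hc2⟩ := hdiff j 0 t ht
        have h1 := pts_lip V (n j) (lj j) (pj j) 0 ⌊(n j : ℝ) * t⌋₊ L (hVL j)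
        rw [zero_add] at h1
        have h2 : ((⌊(n j : ℝ) * t⌋₊ : ℕ) : ℝ) * ((n j : ℕ) : ℝ)⁻¹ ≤ t := by
          rcases Nat.eq_zero_or_pos (n j) with h0 | h0
          · rw [h0]; simpa using ht
          · have h3 : (0 : ℝ) < (n j : ℕ) := by exact_mod_cast h0
            rw [← div_eq_mul_inv, div_le_iff₀ h3, mul_comm t]
            exact Nat.floor_le (by positivity)
        have h4 : ‖pts V (n j) (lj j) (pj j) ⌊(n j : ℝ) * t⌋₊ - pj j‖ ≤ t * L :=
          h1.trans (mul_le_mul_of_nonneg_right h2 hL0)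
        have h5 : y j t = (pts V (n j) (lj j) (pj j) ⌊(n j : ℝ) * t⌋₊ - pj j) + pj j := by
          rw [hy]; abel
        rw [h5]
        refine (norm_add_le _ _).trans ?_
        linarith [hM' (pj j) ⟨j, rfl⟩]
      have hc : IsCompact (Metric.closedBall (0 : E d k) (M' + t * L)) := isCompact_closedBall _ _
      have h6 : (U.map fun j => y j t : Filter (E d k)) ≤ 𝓟 (Metric.closedBall (0 : E d k) (M' + t * L)) := by
        rw [Ultrafilter.coe_map, le_principal_iff]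
        exact Filter.mem_map.2 (Filter.univ_mem' hb)
      obtain ⟨z, -, hz⟩ := hc.ultrafilter_le_nhds (U.map fun j => y j t) h6
      exact ⟨z, fun _ => hz⟩
    · exact ⟨0, fun h => absurd h ht⟩
  choose g₀ hg₀ using hlim
  -- the values at `0` and `1`
  have h00 : g₀ 0 = p := by
    refine tendsto_nhds_unique (hg₀ 0 le_rfl) ?_
    refine (hp.mono_left hU).congr fun j => ?_
    rw [hy]
    simp [pts]
  have h01 : g₀ 1 = q := by
    refine tendsto_nhds_unique (hg₀ 1 zero_le_one) ?_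
    refine (hq.mono_left hU).congr fun j => ?_
    rw [hy]
    simp [pts, poly]
  -- the main estimate
  have main : ∀ t : ℝ, 0 ≤ t → ∀ ε : ℝ, 0 < ε → ∃ h0 : ℝ, 0 < h0 ∧ ∀ h : ℝ, 0 ≤ h → h ≤ h0 →
      ‖g₀ (t + h) - g₀ t - h • V (g₀ t) ℓ‖ ≤ h * ε := by
    intro t ht ε hε
    have hc := Metric.continuous_iff.1 hV (g₀ t, ℓ) ε hε
    obtain ⟨ρ, hρ, hc⟩ := hc
    refine ⟨ρ / (4 * (L + 1)), by positivity, fun h hh hh' => ?_⟩
    have hhL : h * L ≤ ρ / 4 := by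
      have h1 : h * L ≤ ρ / (4 * (L + 1)) * L := mul_le_mul_of_nonneg_right hh' hL0
      have h2 : ρ / (4 * (L + 1)) * L ≤ ρ / 4 := by
        rw [div_mul_eq_mul_div, div_le_div_iff₀ (by positivity) (by norm_num)]
        nlinarith [mul_nonneg hρ.le hL0]
      exact h1.trans h2
    have ht' : 0 ≤ t + h := by linarith
    have e1 : ∀ᶠ j in (U : Filter ℕ), ‖y j t - g₀ t‖ < ρ / 2 := by
      have := Metric.tendsto_nhds.1 (hg₀ t ht) (ρ / 2) (by positivity)
      simpa [dist_eq_norm] using this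
    have e2 : ∀ᶠ j in (U : Filter ℕ), ‖lj j - ℓ‖ < ρ := by
      have := Metric.tendsto_nhds.1 (hl.mono_left hU) ρ hρ
      simpa [dist_eq_norm] using this
    have hrat : Tendsto (fun j => ((⌊(n j : ℝ) * (t + h)⌋₊ : ℕ) : ℝ) * ((n j : ℕ) : ℝ)⁻¹ -
        ((⌊(n j : ℝ) * t⌋₊ : ℕ) : ℝ) * ((n j : ℕ) : ℝ)⁻¹) (U : Filter ℕ) (𝓝 h) := by
      have := (hr (t + h) ht').sub (hr t ht)
      simpa using this
    have e3 : ∀ᶠ j in (U : Filter ℕ), (((⌊(n j : ℝ) * (t + h)⌋₊ : ℕ) : ℝ) * ((n j : ℕ) : ℝ)⁻¹ -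
        ((⌊(n j : ℝ) * t⌋₊ : ℕ) : ℝ) * ((n j : ℕ) : ℝ)⁻¹) * L < ρ / 2 := by
      have h1 := hrat.mul_const L
      have h2 : h * L < ρ / 2 := by linarith
      exact h1.eventually_lt_const h2
    have hest : ∀ᶠ j in (U : Filter ℕ), ‖y j (t + h) - y j t -
        (((⌊(n j : ℝ) * (t + h)⌋₊ : ℕ) : ℝ) * ((n j : ℕ) : ℝ)⁻¹ -
          ((⌊(n j : ℝ) * t⌋₊ : ℕ) : ℝ) * ((n j : ℕ) : ℝ)⁻¹) • V (g₀ t) ℓ‖ ≤
        (((⌊(n j : ℝ) * (t + h)⌋₊ : ℕ) : ℝ) * ((n j : ℕ) : ℝ)⁻¹ -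
          ((⌊(n j : ℝ) * t⌋₊ : ℕ) : ℝ) * ((n j : ℕ) : ℝ)⁻¹) * ε := by
      filter_upwards [e1, e2, e3] with j h1 h2 h3
      obtain ⟨c, hc1, hc2⟩ := hdiff j t (t + h) (by linarith)
      rw [← hc2] at h3 ⊢
      rw [hy] at h1 ⊢
      simp only at h1 ⊢
      rw [hc1]
      refine pts_near V (n j) (lj j) (pj j) _ _ ε c fun l hl1 hl2 => ?_
      obtain ⟨c', rfl⟩ := Nat.exists_eq_add_of_le hl1
      have h4 := pts_lip V (n j) (lj j) (pj j) ⌊(n j : ℝ) * t⌋₊ c' L (hVL j)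
      have h5 : (c' : ℝ) * ((n j : ℕ) : ℝ)⁻¹ * L ≤ (c : ℝ) * ((n j : ℕ) : ℝ)⁻¹ * L := by
        have : (c' : ℝ) ≤ c := by exact_mod_cast (by omega : c' ≤ c)
        gcongr
      have h6 : ‖pts V (n j) (lj j) (pj j) (⌊(n j : ℝ) * t⌋₊ + c') - g₀ t‖ < ρ := by
        have h7 := norm_sub_le_norm_sub_add_norm_sub
          (pts V (n j) (lj j) (pj j) (⌊(n j : ℝ) * t⌋₊ + c'))
          (pts V (n j) (lj j) (pj j) ⌊(n j : ℝ) * t⌋₊) (g₀ t)
        linarith
      have h8 := hc (pts V (n j) (lj j) (pj j) (⌊(n j : ℝ) * t⌋₊ + c'), lj j) (by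
        rw [Prod.dist_eq, dist_eq_norm, dist_eq_norm]
        exact max_lt h6 h2)
      rw [dist_eq_norm] at h8
      exact h8.le
    refine le_of_tendsto_of_tendsto ?_ ?_ hest
    · exact (((hg₀ (t + h) ht').sub (hg₀ t ht)).sub (hrat.smul_const _)).norm
    · exact hrat.mul_const ε
  -- Lipschitz
  have hlip : ∀ s t : ℝ, 0 ≤ s → s ≤ t → ‖g₀ t - g₀ s‖ ≤ (t - s) * L := by
    intro s t hs hst
    have ht : 0 ≤ t := hs.trans hst
    refine le_of_tendsto_of_tendsto ((hg₀ t ht).sub (hg₀ s hs)).norm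
      (((hr t ht).sub (hr s hs)).mul_const L) (Eventually.of_forall fun j => ?_)
    obtain ⟨c, hc1, hc2⟩ := hdiff j s t hst
    simp only
    rw [← hc2, hy]
    simp only
    rw [hc1]
    exact pts_lip V (n j) (lj j) (pj j) _ c L (hVL j)
  have hcont : Continuous fun s : ℝ => g₀ (max s 0) := by
    have h1 : LipschitzWith ⟨L, hL0⟩ fun s : ℝ => g₀ (max s 0) := by
      refine LipschitzWith.of_dist_le_mul fun s t => ?_
      have h2 : ∀ s t : ℝ, s ≤ t → dist (g₀ (max s 0)) (g₀ (max t 0)) ≤ L * dist s t := by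
        intro s t hst
        have h3 : max s 0 ≤ max t 0 := max_le_max hst le_rfl
        have h4 := hlip (max s 0) (max t 0) (le_max_right _ _) h3
        rw [dist_comm, dist_eq_norm]
        refine h4.trans ?_
        have h5 : max t 0 - max s 0 ≤ t - s := by
          rcases le_total s 0 with h | h <;> rcases le_total t 0 with h' | h' <;>
            simp [h, h'] <;> linarith
        have h6 : dist s t = t - s := by
          rw [dist_comm, Real.dist_eq, abs_of_nonneg (by linarith)]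
        rw [h6, mul_comm L]
        exact mul_le_mul_of_nonneg_right h5 hL0
      rcases le_total s t with h | h
      · exact h2 s t h
      · rw [dist_comm, dist_comm s t]
        exact h2 t s h
    exact h1.continuous
  have hgc : Continuous fun s : ℝ => V (g₀ (max s 0)) ℓ :=
    hV.comp (hcont.prodMk continuous_const)
  have hder : ∀ t : ℝ, HasDerivAt (fun t => p + ∫ s in (0 : ℝ)..t, V (g₀ (max s 0)) ℓ)
      (V (g₀ (max t 0)) ℓ) t := by
    intro t
    have h1 := intervalIntegral.integral_hasDerivAt_right (hgc.intervalIntegrable 0 t)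
      (hgc.stronglyMeasurableAtFilter _ _) hgc.continuousAt
    exact h1.const_add p
  have heq : ∀ t ∈ Set.Icc (0 : ℝ) 1,
      (p + ∫ s in (0 : ℝ)..t, V (g₀ (max s 0)) ℓ) = g₀ t := by
    have hc1 : ContinuousOn (fun t => (p + ∫ s in (0 : ℝ)..t, V (g₀ (max s 0)) ℓ) - g₀ t)
        (Set.Icc 0 1) := by
      refine ContinuousOn.sub (continuous_iff_continuousAt.2 fun t => (hder t).continuousAt).continuousOn ?_
      refine hcont.continuousOn.congr fun t ht => ?_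
      simp only
      rw [max_eq_left ht.1]
    have h2 := constant_of_has_deriv_right_zero hc1 (fun t ht => by
      have ht0 : 0 ≤ t := ht.1
      have h3 : HasDerivWithinAt g₀ (V (g₀ t) ℓ) (Set.Ici t) t := by
        rw [hasDerivWithinAt_iff_isLittleO, Asymptotics.isLittleO_iff]
        intro ε hε
        obtain ⟨h0, hh0, hh⟩ := main t ht0 ε hε
        have h4 : Set.Ici t ∩ Metric.ball t h0 ∈ 𝓝[Set.Ici t] t :=
          inter_mem self_mem_nhdsWithin (nhdsWithin_le_nhds (Metric.ball_mem_nhds t hh0))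
        filter_upwards [h4] with x hx
        have h5 : 0 ≤ x - t := sub_nonneg.2 hx.1
        have h6 : x - t ≤ h0 := by
          have h7 := hx.2
          rw [Metric.mem_ball, Real.dist_eq, abs_of_nonneg h5] at h7
          exact h7.le
        have h8 := hh (x - t) h5 h6
        rw [add_sub_cancel] at h8
        rw [Real.norm_of_nonneg h5, mul_comm ε]
        exact h8
      have h9 := (hder t).hasDerivWithinAt (s := Set.Ici t)
      rw [max_eq_left ht0] at h9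
      have h10 := h9.sub h3
      rw [sub_self] at h10
      exact h10)
    intro t ht
    have h3 := h2 t ht
    simp only [intervalIntegral.integral_same, add_zero, h00, sub_self] at h3
    exact sub_eq_zero.1 h3
  refine ⟨fun t => p + ∫ s in (0 : ℝ)..t, V (g₀ (max s 0)) ℓ, fun t => V (g₀ (max t 0)) ℓ, hgc,
    hder, by simp, ?_, fun t ht => ?_⟩
  · simp only
    rw [heq 1 ⟨zero_le_one, le_rfl⟩, h01]
  · simp only
    rw [heq t ht, max_eq_left ht.1]

end Pool.Agent.H44.AC
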