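import Pool.Agent.H44.AC.Basic

/-!
# [H44 AC PER] Periodic functions and lifts of diffeomorphisms

* `per_unif`: a continuous function on `E` with `P (v + z) = P v` for integral `z` is bounded and uniformly continuous.
  Proof: the closed ball of radius `3` is compact, so `P` is bounded there and uniformly continuous there
  (`IsCompact.uniformContinuousOn_of_continuous`, `IsCompact.exists_bound_of_continuousOn`); every `v` is `z + v'` with
  `‖v'‖ ≤ 1` (`exists_int2`), and two points at distance `< 1` can be moved by the same `z` into the ball.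
* `Dif.shift`: `v ↦ f (v + z) - f v` is continuous with integral values, so it is constant: each coordinate is a continuous
  function `E → ℝ` with integer values on the connected space `E` (for example: if it took two values it would take
  a non integer value, `IsPreconnected.image` / `intermediate_value_univ`, or compose with
  `Int.isClosedEmbedding_coe_real` and use `IsPreconnected.constant`).
* `Dif.fderiv_per` follows from `Dif.shift` (`fderiv_comp_add_right`, `fderiv_add_const`), `Dif.bdd`, `Dif.unif` from `per_unif`
  (`ContDiff.continuous_fderiv`).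
* `Dif.fderiv_inv`: chain rule for `f⁻¹ (f v) = v`.
-/

set_option autoImplicit false

namespace Pool.Agent.H44.AC

variable {d k : ℕ}

theorem per_unif {F : Type*} [NormedAddCommGroup F] (P : E d k → F) (hc : Continuous P)
    (hp : ∀ v z, Int2 z → P (v + z) = P v) :
    UniformContinuous P ∧ ∃ K : ℝ, 0 < K ∧ ∀ v, ‖P v‖ ≤ K := by
  have hK : IsCompact (Metric.closedBall (0 : E d k) 3) := isCompact_closedBall _ _
  have hzero : ∀ v : E d k, ∀ z, Int2 z → P (v - z) = P v := by
    intro v z hz
    have h := hp (v - z) z hz
    rw [sub_add_cancel] at h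
    exact h.symm
  constructor
  · have hu : UniformContinuousOn P (Metric.closedBall (0 : E d k) 3) :=
      hK.uniformContinuousOn_of_continuous hc.continuousOn
    rw [Metric.uniformContinuous_iff]
    intro ε hε
    rw [Metric.uniformContinuousOn_iff] at hu
    obtain ⟨δ, hδ, h⟩ := hu ε hε
    refine ⟨min δ 1, lt_min hδ one_pos, ?_⟩
    intro a b hab
    obtain ⟨z, hz, hz1⟩ := exists_int2 a
    rw [← hzero a z hz, ← hzero b z hz]
    apply h
    · rw [Metric.mem_closedBall, dist_zero_right]
      linarith
    · rw [Metric.mem_closedBall, dist_zero_right]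
      have h1 : ‖b - z‖ ≤ ‖b - a‖ + ‖a - z‖ := by
        have := norm_add_le (b - a) (a - z)
        rwa [sub_add_sub_cancel] at this
      have h2 : ‖b - a‖ < 1 := by
        rw [← dist_eq_norm, dist_comm]
        exact lt_of_lt_of_le hab (min_le_right _ _)
      linarith
    · rw [dist_sub_right]
      exact lt_of_lt_of_le hab (min_le_left _ _)
  · obtain ⟨K, hKb⟩ := hK.exists_bound_of_continuousOn hc.continuousOn
    refine ⟨max K 1, lt_max_of_lt_right one_pos, ?_⟩
    intro v
    obtain ⟨z, hz, hz1⟩ := exists_int2 v
    rw [← hzero v z hz]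
    refine (hKb (v - z) ?_).trans (le_max_left _ _)
    rw [Metric.mem_closedBall, dist_zero_right]
    linarith

theorem Dif.shift {f : Equiv.Perm (E d k)} (hf : Dif f) (z : E d k) (hz : Int2 z) :
    ∃ z', Int2 z' ∧ ∀ v, f (v + z) = f v + z' := by
  -- a continuous function with integer values is constant
  have key : ∀ g : E d k → ℝ, Continuous g → (∀ v, ∃ m : ℤ, g v = m) → ∀ v w, g v = g w := by
    intro g hg hm v w
    choose m hm using hm
    have hmc : Continuous m := by
      have h1 : Continuous fun v => ((m v : ℤ) : ℝ) := by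
        have : (fun v => ((m v : ℤ) : ℝ)) = g := funext fun v => (hm v).symm
        rw [this]
        exact hg
      exact Int.isClosedEmbedding_coe_real.isEmbedding.continuous_iff.2 h1
    have h2 : m v = m w := IsPreconnected.constant isPreconnected_univ hmc.continuousOn
      (Set.mem_univ _) (Set.mem_univ _)
    rw [hm, hm, h2]
  have hcont : Continuous fun v : E d k => f (v + z) - f v :=
    (hf.c1.continuous.comp (continuous_id.add continuous_const)).sub hf.c1.continuous
  refine ⟨f (0 + z) - f 0, hf.per 0 z hz, fun v => ?_⟩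
  have h1 : ∀ v : E d k, f (v + z) - f v = f (0 + z) - f 0 := by
    intro v
    refine Prod.ext (funext fun i => ?_) (funext fun i => ?_)
    · exact key (fun v => (f (v + z) - f v).1 i)
        ((continuous_apply i).comp (continuous_fst.comp hcont)) (fun v => (hf.per v z hz).1 i) v 0
    · exact key (fun v => (f (v + z) - f v).2 i)
        ((continuous_apply i).comp (continuous_snd.comp hcont)) (fun v => (hf.per v z hz).2 i) v 0
  rw [← h1 v]
  abel

theorem Dif.fderiv_per {f : Equiv.Perm (E d k)} (hf : Dif f) (v z : E d k) (hz : Int2 z) :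
    fderiv ℝ f (v + z) = fderiv ℝ f v := by
  obtain ⟨z', -, hz'⟩ := hf.shift z hz
  have h1 : fderiv ℝ (fun v => f (v + z)) v = fderiv ℝ f (v + z) := fderiv_comp_add_right z
  have h2 : (fun v => f (v + z)) = fun v => f v + z' := funext hz'
  rw [← h1, h2, fderiv_add_const]

theorem Dif.bdd {f : Equiv.Perm (E d k)} (hf : Dif f) : ∃ K : ℝ, 0 < K ∧ ∀ v, ‖fderiv ℝ f v‖ ≤ K := by
  exact (per_unif (fun v => fderiv ℝ f v) (hf.c1.continuous_fderiv one_ne_zero)
    (fun v z hz => hf.fderiv_per v z hz)).2

theorem Dif.unif {f : Equiv.Perm (E d k)} (hf : Dif f) : UniformContinuous (fderiv ℝ f) := by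
  exact (per_unif (fun v => fderiv ℝ f v) (hf.c1.continuous_fderiv one_ne_zero)
    (fun v z hz => hf.fderiv_per v z hz)).1

theorem Dif.fderiv_inv {f : Equiv.Perm (E d k)} (hf : Dif f) (v x : E d k) :
    fderiv ℝ (f⁻¹ : Equiv.Perm (E d k)) (f v) (fderiv ℝ f v x) = x := by
  have h1 : DifferentiableAt ℝ (f⁻¹ : Equiv.Perm (E d k)) (f v) :=
    hf.c1'.differentiable one_ne_zero _
  have h2 : DifferentiableAt ℝ f v := hf.c1.differentiable one_ne_zero _
  have h3 : fderiv ℝ ((f⁻¹ : Equiv.Perm (E d k)) ∘ f) v =
      (fderiv ℝ (f⁻¹ : Equiv.Perm (E d k)) (f v)).comp (fderiv ℝ f v) := fderiv_comp v h1 h2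
  have h4 : ((f⁻¹ : Equiv.Perm (E d k)) ∘ f) = id := funext fun w => f.symm_apply_apply w
  rw [h4, fderiv_id] at h3
  have h5 := congrArg (fun T : E d k →L[ℝ] E d k => T x) h3
  exact h5.symm

end Pool.Agent.H44.AC
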