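import Pool.Agent.H44.AC.Run
import Pool.Agent.H44.AC.SWc

/-!
# [H44 AC POLY] Euler polygons: definitions and continuity

`poly V m ℓ p`: `m` Euler steps of size `1/m` for the vector field `V · ℓ`.  `prun V m L p`: a list of legs.
* `poly_cont`, `prun_cont`: compositions of continuous maps (induction on the number of steps, and on the list from the right or with the starting point continuous too).
* `leg_unif`: the legs with `‖ℓ‖ ≤ R` are equi-uniformly continuous in `p`: `leg c ℓ p - leg c ℓ p' = (p.1 - p'.1, p.2 - p'.2 + W p.1 ℓ - W p'.1 ℓ)`; `W` (for `s` or `s.inv`) is uniformly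
  continuous on the compact set `{‖x‖ ≤ 3, ‖ℓ‖ ≤ R}` (`W_cont`), and `x`, `x'` at distance `< 1` may be shifted by the same integral vector into this set (`W_per`, `exists_int2`).
-/

set_option autoImplicit false

open MeasureTheory intervalIntegral

namespace Pool.Agent.H44.AC

variable {d k : ℕ}

/-- `m` Euler steps of size `1/m` -/
noncomputable def poly (V : E d k → X d → E d k) (m : ℕ) (ℓ : X d) (p : E d k) : E d k :=
  (fun q => q + (m : ℝ)⁻¹ • V q ℓ)^[m] p

/-- the endpoint of a path of Euler polygons -/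
noncomputable def prun (V : Bool → E d k → X d → E d k) (m : ℕ) (L : List (Bool × X d))
    (p : E d k) : E d k := L.foldl (fun q c => poly (V c.1) m c.2 q) p

/-- a list of legs depending on a parameter -/
def ev {T : Type*} (L : List (Bool × (T → X d))) (t : T) : List (Bool × X d) :=
  L.map fun c => (c.1, c.2 t)

private theorem iter_cont {V : E d k → X d → E d k}
    (hV : Continuous fun q : E d k × X d => V q.1 q.2) (m n : ℕ) :
    Continuous fun q : E d k × X d => (fun p => p + (m : ℝ)⁻¹ • V p q.2)^[n] q.1 := by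
  induction n with
  | zero => exact continuous_fst
  | succ n ih =>
    have h1 : (fun q : E d k × X d => (fun p => p + (m : ℝ)⁻¹ • V p q.2)^[n + 1] q.1)
        = fun q : E d k × X d => (fun p => p + (m : ℝ)⁻¹ • V p q.2)^[n] q.1
          + (m : ℝ)⁻¹ • V ((fun p => p + (m : ℝ)⁻¹ • V p q.2)^[n] q.1) q.2 := by
      funext q
      rw [Function.iterate_succ_apply']
    rw [h1]
    have h2 : Continuous fun q : E d k × X d =>
        V ((fun p => p + (m : ℝ)⁻¹ • V p q.2)^[n] q.1) q.2 :=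
      hV.comp (ih.prodMk continuous_snd)
    have h3 : Continuous fun q : E d k × X d =>
        (m : ℝ)⁻¹ • V ((fun p => p + (m : ℝ)⁻¹ • V p q.2)^[n] q.1) q.2 :=
      Continuous.const_smul h2 ((m : ℝ)⁻¹)
    exact ih.add h3

theorem poly_cont {V : E d k → X d → E d k} (hV : Continuous fun q : E d k × X d => V q.1 q.2)
    (m : ℕ) : Continuous fun q : E d k × X d => poly V m q.2 q.1 :=
  iter_cont hV m m

theorem prun_cont {V : Bool → E d k → X d → E d k}
    (hV : ∀ c, Continuous fun q : E d k × X d => V c q.1 q.2) (m : ℕ) {T : Type*}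
    [TopologicalSpace T] (L : List (Bool × (T → X d))) (hL : ∀ c ∈ L, Continuous c.2) (p : E d k) :
    Continuous fun t => prun V m (ev L t) p := by
  have key : ∀ (L : List (Bool × (T → X d))), (∀ c ∈ L, Continuous c.2) →
      ∀ p : T → E d k, Continuous p → Continuous fun t => prun V m (ev L t) (p t) := by
    intro L
    induction L with
    | nil => intro _ p hp; exact hp
    | cons c L ih =>
      intro hL p hp
      have h1 : Continuous fun t => poly (V c.1) m (c.2 t) (p t) :=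
        (poly_cont (hV c.1) m).comp (hp.prodMk (hL c (List.mem_cons_self)))
      exact ih (fun c' hc' => hL c' (List.mem_cons_of_mem _ hc')) _ h1
  exact key L hL (fun _ => p) continuous_const

private theorem W_unif {s : Sk d k} (hs : s.Ok) (R η : ℝ) (hη : 0 < η) : ∃ θ : ℝ, 0 < θ ∧
    ∀ (ℓ : X d), ‖ℓ‖ ≤ R → ∀ x x', ‖x - x'‖ ≤ θ → ‖s.W x ℓ - s.W x' ℓ‖ ≤ η := by
  have hcomp : IsCompact (Metric.closedBall (0 : X d) 3 ×ˢ Metric.closedBall (0 : X d) R) :=
    (isCompact_closedBall _ _).prod (isCompact_closedBall _ _)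
  have huc := hcomp.uniformContinuousOn_of_continuous (Sk.W_cont hs).continuousOn
  rw [Metric.uniformContinuousOn_iff] at huc
  obtain ⟨δ, hδ, hd⟩ := huc η hη
  refine ⟨min 1 (δ / 2), lt_min one_pos (by positivity), ?_⟩
  intro ℓ hℓ x x' hxx
  obtain ⟨z, hz, hzx⟩ := exists_int2 ((x, 0) : E d k)
  have hx1 : ‖x - z.1‖ ≤ 1 := by
    refine le_trans ?_ hzx
    exact norm_fst_le ((x, 0) - z : E d k)
  have e1 : s.W x ℓ = s.W (x - z.1) ℓ := by
    have := Sk.W_per hs (x - z.1) z.1 ℓ hz.1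
    rwa [sub_add_cancel] at this
  have e2 : s.W x' ℓ = s.W (x' - z.1) ℓ := by
    have := Sk.W_per hs (x' - z.1) z.1 ℓ hz.1
    rwa [sub_add_cancel] at this
  have h1 : ‖x - x'‖ ≤ 1 := hxx.trans (min_le_left _ _)
  have h2 : ‖x - x'‖ < δ := lt_of_le_of_lt (hxx.trans (min_le_right _ _)) (by linarith)
  have h3 : ‖x' - z.1‖ ≤ 2 := by
    have : x' - z.1 = (x - z.1) - (x - x') := by abel
    rw [this]
    refine (norm_sub_le _ _).trans ?_
    linarith
  have h4 := hd (x - z.1, ℓ) ⟨by rw [mem_closedBall_zero_iff]; linarith,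
    by rw [mem_closedBall_zero_iff]; exact hℓ⟩ (x' - z.1, ℓ)
    ⟨by rw [mem_closedBall_zero_iff]; linarith, by rw [mem_closedBall_zero_iff]; exact hℓ⟩
    (by
      rw [Prod.dist_eq, dist_self, dist_eq_norm]
      have : x - z.1 - (x' - z.1) = x - x' := by abel
      rw [this, max_eq_left (norm_nonneg _)]
      exact h2)
  rw [dist_eq_norm] at h4
  rw [e1, e2]
  exact h4.le

private theorem st_unif {s : Sk d k} (hs : s.Ok) (R η : ℝ) (hη : 0 < η) : ∃ θ : ℝ, 0 < θ ∧
    ∀ (ℓ : X d), ‖ℓ‖ ≤ R → ∀ p p', ‖p - p'‖ ≤ θ → ‖s.st ℓ p - s.st ℓ p'‖ ≤ η := by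
  obtain ⟨θ, hθ, h⟩ := W_unif hs R (η / 2) (by positivity)
  refine ⟨min θ (η / 2), lt_min hθ (by positivity), ?_⟩
  intro ℓ hℓ p p' hpp
  have h1 : ‖p.1 - p'.1‖ ≤ ‖p - p'‖ := norm_fst_le (p - p')
  have h2 : ‖p.2 - p'.2‖ ≤ ‖p - p'‖ := norm_snd_le (p - p')
  have h3 := hpp.trans (min_le_left _ _)
  have h4 := hpp.trans (min_le_right _ _)
  have h5 := h ℓ hℓ p.1 p'.1 (h1.trans h3)
  have e1 : s.st ℓ p - s.st ℓ p'
      = (p.1 - p'.1, (p.2 - p'.2) + (s.W p.1 ℓ - s.W p'.1 ℓ)) := by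
    unfold Sk.st
    ext1
    · simp
    · simp only [Prod.snd_sub]
      abel
  rw [e1]
  refine norm_prod_le_iff.mpr ⟨?_, ?_⟩
  · simp only
    linarith
  · simp only
    refine (norm_add_le _ _).trans ?_
    linarith

theorem leg_unif {s : Sk d k} (hs : s.Ok) (R η : ℝ) (hη : 0 < η) : ∃ θ : ℝ, 0 < θ ∧
    ∀ (c : Bool) (ℓ : X d), ‖ℓ‖ ≤ R → ∀ p p', ‖p - p'‖ ≤ θ → ‖s.leg c ℓ p - s.leg c ℓ p'‖ ≤ η := by
  obtain ⟨θ1, h1, h1'⟩ := st_unif hs R η hη
  obtain ⟨θ2, h2, h2'⟩ := st_unif hs.inv R η hη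
  refine ⟨min θ1 θ2, lt_min h1 h2, ?_⟩
  intro c ℓ hℓ p p' hpp
  cases c
  · simp only [Sk.leg, Bool.false_eq_true, if_false]
    exact h2' ℓ hℓ p p' (hpp.trans (min_le_right _ _))
  · simp only [Sk.leg, if_true]
    exact h1' ℓ hℓ p p' (hpp.trans (min_le_left _ _))

end Pool.Agent.H44.AC
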