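import Pool.Agent.H44.AC.Poly

/-!
# [H44 AC POLYN] Euler polygons of a field close to the explicit one

It is enough to treat the stable case (`poly_near_s`; for `c = false` use `s.inv`: `s.vf false = s.inv.vf true`, `s.leg false = s.inv.leg true` by definition).
Let `q_i` be the points of the polygon, `‖ℓ‖ ≤ R`, `R ≥ 0`.  `‖(q_i).1 - (p.1 + (i/m) ps ℓ)‖ ≤ δ R` (induction), `(q_m).2 - p.2 = (1/m) ∑_{i<m} V(q_i)(ℓ).2` and
`‖V(q_i)(ℓ).2 - S(p.1 + (i/m) ps ℓ) ℓ‖ ≤ δ R + ω R` if `‖S x - S x'‖ ≤ ω` for `‖x - x'‖ ≤ δ R` (`S_unif`).  `W_seg`: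
`W p.1 ℓ = ∫_0^1 S(p.1 + t ps ℓ) ℓ dt = ∑_i ∫_{i/m}^{(i+1)/m}` (`intervalIntegral.sum_integral_adjacent_intervals`), which differs from the Riemann sum by at most `ω' R`, if `‖S x - S x'‖ ≤ ω'` for
`‖x - x'‖ ≤ ‖ps‖ R / m`.  (Or by induction on `i`: `‖(q_i).2 - p.2 - ∫_0^{i/m} S(p.1 + t ps ℓ) ℓ dt‖ ≤ (i/m) (δ R + ω R + ω' R)`.)
-/

set_option autoImplicit false

open MeasureTheory intervalIntegral

namespace Pool.Agent.H44.AC

variable {d k : ℕ}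

/-- one step of the Riemann sum -/
theorem int_step {F : Type*} [NormedAddCommGroup F] [NormedSpace ℝ F] [CompleteSpace F] (f : ℝ → F)
    (hf : Continuous f) (a b : ℝ) (hab : a ≤ b) (c : F) (ε : ℝ) (h : ∀ t ∈ Set.Icc a b, ‖f t - c‖ ≤ ε) :
    ‖(∫ t in (0 : ℝ)..b, f t) - (∫ t in (0 : ℝ)..a, f t) - (b - a) • c‖ ≤ ε * (b - a) := by
  have h1 : (∫ t in (0 : ℝ)..b, f t) - (∫ t in (0 : ℝ)..a, f t) = ∫ t in a..b, f t := by
    rw [sub_eq_iff_eq_add, add_comm]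
    exact (intervalIntegral.integral_add_adjacent_intervals (hf.intervalIntegrable _ _)
      (hf.intervalIntegrable _ _)).symm
  have h2 : (b - a) • c = ∫ _t in a..b, c := by rw [intervalIntegral.integral_const]
  rw [h1, h2, ← intervalIntegral.integral_sub (hf.intervalIntegrable _ _)
    (continuous_const.intervalIntegrable _ _)]
  have h3 := intervalIntegral.norm_integral_le_of_norm_le_const (a := a) (b := b) (C := ε)
    (f := fun t => f t - c) (fun t ht => h t (by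
      rw [Set.uIoc_of_le hab] at ht
      exact ⟨ht.1.le, ht.2⟩))
  rwa [abs_of_nonneg (sub_nonneg.2 hab)] at h3

theorem poly_near_s {s : Sk d k} (hs : s.Ok) (R η : ℝ) (hη : 0 < η) :
    ∃ δ : ℝ, 0 < δ ∧ ∃ m0 : ℕ, ∀ V : E d k → X d → E d k,
      (∀ p ℓ, ‖V p ℓ - (s.ps ℓ, s.S p.1 ℓ)‖ ≤ δ * ‖ℓ‖) → ∀ m ≥ m0, ∀ ℓ, ‖ℓ‖ ≤ R → ∀ p,
        ‖poly V m ℓ p - s.st ℓ p‖ ≤ η := by
  obtain ⟨R1, hR1, hRR⟩ : ∃ R1 : ℝ, 0 < R1 ∧ R ≤ R1 :=
    ⟨max R 0 + 1, by positivity, by linarith [le_max_left R 0]⟩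
  obtain ⟨ε1, hε1⟩ : ∃ ε1 : ℝ, ε1 = η / (2 * R1) := ⟨_, rfl⟩
  have hε1pos : 0 < ε1 := by rw [hε1]; positivity
  obtain ⟨ρ, hρ, hS⟩ := Metric.uniformContinuous_iff.1 (Sk.S_unif hs) ε1 hε1pos
  obtain ⟨P, hP⟩ : ∃ P : ℝ, P = ‖s.ps‖ := ⟨_, rfl⟩
  have hP0 : 0 ≤ P := by rw [hP]; exact norm_nonneg _
  obtain ⟨δ, hδ⟩ : ∃ δ : ℝ, δ = min ε1 (ρ / (4 * R1)) := ⟨_, rfl⟩
  have hδpos : 0 < δ := by rw [hδ]; exact lt_min hε1pos (by positivity)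
  have hδ2 : δ ≤ ε1 := by rw [hδ]; exact min_le_left _ _
  have hδ1 : δ * R1 ≤ ρ / 4 := by
    have h1 : δ ≤ ρ / (4 * R1) := by rw [hδ]; exact min_le_right _ _
    have h2 : δ * R1 ≤ ρ / (4 * R1) * R1 := mul_le_mul_of_nonneg_right h1 hR1.le
    have h3 : ρ / (4 * R1) * R1 = ρ / 4 := by field_simp
    linarith
  refine ⟨δ, hδpos, ⌈4 * P * R1 / ρ⌉₊ + 1, fun V hV m hm ℓ hℓ p => ?_⟩
  have hℓ' : ‖ℓ‖ ≤ R1 := hℓ.trans hRR
  have hm1 : 4 * P * R1 / ρ + 1 ≤ m := by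
    have h1 := Nat.le_ceil (4 * P * R1 / ρ)
    have h2 : ((⌈4 * P * R1 / ρ⌉₊ + 1 : ℕ) : ℝ) ≤ m := by exact_mod_cast hm
    push_cast at h2
    linarith
  have hm0 : (0 : ℝ) < m := by
    have : 0 ≤ 4 * P * R1 / ρ := by positivity
    linarith
  have hmi : (m : ℝ) * (m : ℝ)⁻¹ = 1 := mul_inv_cancel₀ hm0.ne'
  have hmP : (m : ℝ)⁻¹ * (P * R1) < ρ / 4 := by
    rw [inv_mul_lt_iff₀ hm0]
    have h1 : 4 * P * R1 / ρ < m := by linarith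
    rw [div_lt_iff₀ hρ] at h1
    linarith
  have hpsl : ‖s.ps ℓ‖ ≤ P * R1 := by
    refine (s.ps.le_opNorm ℓ).trans ?_
    rw [← hP]
    exact mul_le_mul_of_nonneg_left hℓ' hP0
  have hfc : Continuous fun t : ℝ => s.S (p.1 + t • s.ps ℓ) ℓ := by
    have h1 : Continuous fun t : ℝ => s.S (p.1 + t • s.ps ℓ) :=
      (Sk.S_cont hs).comp (continuous_const.add (continuous_id.smul continuous_const))
    exact h1.clm_apply continuous_const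
  obtain ⟨qs, hqs⟩ : ∃ qs : ℕ → E d k, qs = fun i => (fun q => q + (m : ℝ)⁻¹ • V q ℓ)^[i] p :=
    ⟨_, rfl⟩
  have hq0 : qs 0 = p := by rw [hqs]; rfl
  have hqS : ∀ i, qs (i + 1) = qs i + (m : ℝ)⁻¹ • V (qs i) ℓ := by
    intro i
    rw [hqs]
    simp only [Function.iterate_succ_apply']
  have hVq : ∀ q, ‖(V q ℓ).1 - s.ps ℓ‖ ≤ δ * R1 ∧ ‖(V q ℓ).2 - s.S q.1 ℓ‖ ≤ δ * R1 := by
    intro q
    have h1 := (hV q ℓ).trans (mul_le_mul_of_nonneg_left hℓ' hδpos.le)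
    have h2 := Prod.norm_def (V q ℓ - (s.ps ℓ, s.S q.1 ℓ))
    rw [h2] at h1
    exact ⟨(le_max_left _ _).trans h1, (le_max_right _ _).trans h1⟩
  have key1 : ∀ i : ℕ, ‖(qs i).1 - (p.1 + ((i : ℝ) * (m : ℝ)⁻¹) • s.ps ℓ)‖ ≤
      (i : ℝ) * (m : ℝ)⁻¹ * (δ * R1) := by
    intro i
    induction i with
    | zero => rw [hq0]; simp
    | succ i ih =>
      have e : (qs (i + 1)).1 - (p.1 + (((i + 1 : ℕ) : ℝ) * (m : ℝ)⁻¹) • s.ps ℓ) =
          ((qs i).1 - (p.1 + ((i : ℝ) * (m : ℝ)⁻¹) • s.ps ℓ)) +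
            (m : ℝ)⁻¹ • ((V (qs i) ℓ).1 - s.ps ℓ) := by
        rw [hqS, Prod.fst_add, Prod.smul_fst, smul_sub]
        push_cast
        rw [add_mul, one_mul, add_smul]
        abel
      rw [e]
      refine (norm_add_le _ _).trans ?_
      have h3 : ‖(m : ℝ)⁻¹ • ((V (qs i) ℓ).1 - s.ps ℓ)‖ ≤ (m : ℝ)⁻¹ * (δ * R1) := by
        rw [norm_smul, Real.norm_of_nonneg (by positivity)]
        exact mul_le_mul_of_nonneg_left (hVq _).1 (by positivity)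
      push_cast
      nlinarith [ih, h3]
  have key2 : ∀ i : ℕ, i ≤ m → ‖(qs i).2 - p.2 -
      ∫ t in (0 : ℝ)..((i : ℝ) * (m : ℝ)⁻¹), s.S (p.1 + t • s.ps ℓ) ℓ‖ ≤
      (i : ℝ) * (m : ℝ)⁻¹ * ((δ + ε1) * R1) := by
    intro i
    induction i with
    | zero => intro _; rw [hq0]; simp
    | succ i ih =>
      intro hi
      have ih' := ih (by omega)
      have hle : (i : ℝ) * (m : ℝ)⁻¹ ≤ ((i + 1 : ℕ) : ℝ) * (m : ℝ)⁻¹ := by
        push_cast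
        have : (0 : ℝ) ≤ (m : ℝ)⁻¹ := by positivity
        nlinarith
      have hstep : ((i + 1 : ℕ) : ℝ) * (m : ℝ)⁻¹ - (i : ℝ) * (m : ℝ)⁻¹ = (m : ℝ)⁻¹ := by
        push_cast; ring
      have hi1 : (i : ℝ) * (m : ℝ)⁻¹ ≤ 1 := by
        rw [← hmi]
        have : (i : ℝ) ≤ m := by exact_mod_cast (by omega : i ≤ m)
        gcongr
      have h4 := int_step (fun t : ℝ => s.S (p.1 + t • s.ps ℓ) ℓ) hfc ((i : ℝ) * (m : ℝ)⁻¹)
        (((i + 1 : ℕ) : ℝ) * (m : ℝ)⁻¹) hle (s.S (qs i).1 ℓ) (ε1 * R1) (by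
          intro t ht
          have h5 : ‖(p.1 + t • s.ps ℓ) - (qs i).1‖ < ρ := by
            have e : (p.1 + t • s.ps ℓ) - (qs i).1 =
                (t - (i : ℝ) * (m : ℝ)⁻¹) • s.ps ℓ -
                  ((qs i).1 - (p.1 + ((i : ℝ) * (m : ℝ)⁻¹) • s.ps ℓ)) := by
              rw [sub_smul]; abel
            rw [e]
            refine (norm_sub_le _ _).trans_lt ?_
            have h6 : ‖(t - (i : ℝ) * (m : ℝ)⁻¹) • s.ps ℓ‖ ≤ (m : ℝ)⁻¹ * (P * R1) := by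
              rw [norm_smul, Real.norm_of_nonneg (by linarith [ht.1])]
              have h7 : t - (i : ℝ) * (m : ℝ)⁻¹ ≤ (m : ℝ)⁻¹ := by linarith [ht.2]
              exact mul_le_mul h7 hpsl (norm_nonneg _) (by positivity)
            have h8 := key1 i
            have h9 : (i : ℝ) * (m : ℝ)⁻¹ * (δ * R1) ≤ δ * R1 := by
              have : 0 ≤ δ * R1 := by positivity
              nlinarith
            linarith
          have h10 := hS (a := p.1 + t • s.ps ℓ) (b := (qs i).1) (by rw [dist_eq_norm]; exact h5)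
          rw [dist_eq_norm] at h10
          have h11 : s.S (p.1 + t • s.ps ℓ) ℓ - s.S (qs i).1 ℓ =
              (s.S (p.1 + t • s.ps ℓ) - s.S (qs i).1) ℓ := by simp
          rw [h11]
          refine (ContinuousLinearMap.le_opNorm _ _).trans ?_
          exact mul_le_mul h10.le hℓ' (norm_nonneg _) hε1pos.le)
      rw [hstep] at h4
      have e : (qs (i + 1)).2 - p.2 -
          (∫ t in (0 : ℝ)..(((i + 1 : ℕ) : ℝ) * (m : ℝ)⁻¹), s.S (p.1 + t • s.ps ℓ) ℓ) =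
          ((qs i).2 - p.2 -
            ∫ t in (0 : ℝ)..((i : ℝ) * (m : ℝ)⁻¹), s.S (p.1 + t • s.ps ℓ) ℓ) +
          (m : ℝ)⁻¹ • ((V (qs i) ℓ).2 - s.S (qs i).1 ℓ) -
          ((∫ t in (0 : ℝ)..(((i + 1 : ℕ) : ℝ) * (m : ℝ)⁻¹), s.S (p.1 + t • s.ps ℓ) ℓ) -
            (∫ t in (0 : ℝ)..((i : ℝ) * (m : ℝ)⁻¹), s.S (p.1 + t • s.ps ℓ) ℓ) -
            (m : ℝ)⁻¹ • s.S (qs i).1 ℓ) := by
        rw [hqS, Prod.snd_add, Prod.smul_snd, smul_sub]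
        abel
      rw [e]
      refine (norm_sub_le _ _).trans ?_
      have h12 : ‖(m : ℝ)⁻¹ • ((V (qs i) ℓ).2 - s.S (qs i).1 ℓ)‖ ≤ (m : ℝ)⁻¹ * (δ * R1) := by
        rw [norm_smul, Real.norm_of_nonneg (by positivity)]
        exact mul_le_mul_of_nonneg_left (hVq _).2 (by positivity)
      have h13 := norm_add_le ((qs i).2 - p.2 -
            ∫ t in (0 : ℝ)..((i : ℝ) * (m : ℝ)⁻¹), s.S (p.1 + t • s.ps ℓ) ℓ)
          ((m : ℝ)⁻¹ • ((V (qs i) ℓ).2 - s.S (qs i).1 ℓ))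
      have h14 : ((i + 1 : ℕ) : ℝ) * (m : ℝ)⁻¹ * ((δ + ε1) * R1) =
          (i : ℝ) * (m : ℝ)⁻¹ * ((δ + ε1) * R1) + (m : ℝ)⁻¹ * (δ * R1) + ε1 * R1 * (m : ℝ)⁻¹ := by
        push_cast; ring
      rw [h14]
      linarith
  have hfin : (δ + ε1) * R1 ≤ η := by
    have h1 : ε1 * R1 = η / 2 := by rw [hε1]; field_simp
    have h2 : δ * R1 ≤ ε1 * R1 := mul_le_mul_of_nonneg_right hδ2 hR1.le
    nlinarith
  have hpoly : poly V m ℓ p = qs m := by rw [hqs]; rfl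
  rw [hpoly, Prod.norm_def]
  refine max_le ?_ ?_
  · have h1 := key1 m
    rw [hmi, one_smul, one_mul] at h1
    refine le_trans ?_ (h1.trans ?_)
    · exact le_of_eq rfl
    · have : 0 ≤ ε1 * R1 := by positivity
      nlinarith
  · have h1 := key2 m le_rfl
    rw [hmi, one_mul, ← Sk.W_seg hs] at h1
    refine le_trans ?_ (h1.trans hfin)
    show ‖(qs m).2 - (p.2 + s.W p.1 ℓ)‖ ≤ _
    rw [← sub_sub]

theorem poly_near {s : Sk d k} (hs : s.Ok) (c : Bool) (R η : ℝ) (hη : 0 < η) :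
    ∃ δ : ℝ, 0 < δ ∧ ∃ m0 : ℕ, ∀ V : E d k → X d → E d k,
      (∀ p ℓ, ‖V p ℓ - s.vf c p ℓ‖ ≤ δ * ‖ℓ‖) → ∀ m ≥ m0, ∀ ℓ, ‖ℓ‖ ≤ R → ∀ p,
        ‖poly V m ℓ p - s.leg c ℓ p‖ ≤ η := by
  cases c with
  | true => simpa [Sk.vf, Sk.leg] using poly_near_s hs R η hη
  | false => simpa [Sk.vf, Sk.leg, Sk.inv] using poly_near_s hs.inv R η hη

end Pool.Agent.H44.AC
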