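import Pool.Agent.H44.AC.PolyN

/-!
# [H44 AC PRUNN] Paths of Euler polygons close to the explicit paths

Induction on `M`; a list of length `≤ M + 1` is empty or `L ++ [c]` (`List.eq_nil_or_concat`, `List.foldl_append`), and
`‖poly V m c.2 (prun L p) - leg c (run L p)‖ ≤ ‖poly V m c.2 (prun L p) - leg c (prun L p)‖ + ‖leg c (prun L p) - leg c (run L p)‖`: `poly_near` (for `η / 2` and both values of `c.1`: the minimum of the two
`δ`, the maximum of the two `m0`) and `leg_unif` (for `η / 2`), with the induction hypothesis for the `θ` of `leg_unif`.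
-/

set_option autoImplicit false

namespace Pool.Agent.H44.AC

variable {d k : ℕ}

theorem prun_near {s : Sk d k} (hs : s.Ok) (M : ℕ) (R η : ℝ) (hη : 0 < η) :
    ∃ δ : ℝ, 0 < δ ∧ ∃ m0 : ℕ, ∀ V : Bool → E d k → X d → E d k,
      (∀ c p ℓ, ‖V c p ℓ - s.vf c p ℓ‖ ≤ δ * ‖ℓ‖) → ∀ m ≥ m0, ∀ L : List (Bool × X d),
        L.length ≤ M → (∀ c ∈ L, ‖c.2‖ ≤ R) → ∀ p, ‖prun V m L p - s.run L p‖ ≤ η := by
  induction M generalizing η with
  | zero =>
    refine ⟨1, one_pos, 0, fun V _ m _ L hL _ p => ?_⟩
    have hL0 : L = [] := List.length_eq_zero_iff.1 (Nat.le_zero.1 hL)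
    subst hL0
    simp only [prun, Sk.run, List.foldl_nil, sub_self, norm_zero]
    exact hη.le
  | succ M ih =>
    obtain ⟨θ, hθ, hleg⟩ := leg_unif hs R (η / 2) (by linarith)
    obtain ⟨δt, hδt, mt, ht⟩ := poly_near hs true R (η / 2) (by linarith)
    obtain ⟨δf, hδf, mf, hf⟩ := poly_near hs false R (η / 2) (by linarith)
    obtain ⟨δM, hδM, mM, hM⟩ := ih θ hθ
    refine ⟨min (min δt δf) δM, lt_min (lt_min hδt hδf) hδM, max (max mt mf) mM,
      fun V hV m hm L hL hR p => ?_⟩
    have hm1 : mt ≤ m := (le_max_left mt mf).trans ((le_max_left _ _).trans hm)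
    have hm2 : mf ≤ m := (le_max_right mt mf).trans ((le_max_left _ _).trans hm)
    have hm3 : mM ≤ m := (le_max_right _ _).trans hm
    rcases List.eq_nil_or_concat L with h0 | ⟨L', c, h0⟩
    · subst h0
      simp only [prun, Sk.run, List.foldl_nil, sub_self, norm_zero]
      exact hη.le
    · rw [List.concat_eq_append] at h0
      subst h0
      have e1 : prun V m (L' ++ [c]) p = poly (V c.1) m c.2 (prun V m L' p) := by
        simp [prun, List.foldl_append]
      have e2 : s.run (L' ++ [c]) p = s.leg c.1 c.2 (s.run L' p) := by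
        simp [Sk.run, List.foldl_append]
      have hL' : L'.length ≤ M := by
        rw [List.length_append, List.length_singleton] at hL
        omega
      have hc : ‖c.2‖ ≤ R := hR c (by simp)
      have h1 : ‖prun V m L' p - s.run L' p‖ ≤ θ := by
        apply hM V _ m hm3 L' hL' (fun c' hc' => hR c' (by simp [hc'])) p
        intro c' p' ℓ
        exact (hV c' p' ℓ).trans (mul_le_mul_of_nonneg_right (min_le_right _ _) (norm_nonneg _))
      have h2 := hleg c.1 c.2 hc _ _ h1
      have h3 : ‖poly (V c.1) m c.2 (prun V m L' p) - s.leg c.1 c.2 (prun V m L' p)‖ ≤ η / 2 := by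
        cases hc1 : c.1 with
        | true =>
          apply ht (V true) _ m hm1 c.2 hc
          intro p' ℓ
          refine (hV true p' ℓ).trans (mul_le_mul_of_nonneg_right ?_ (norm_nonneg _))
          exact (min_le_left _ _).trans (min_le_left _ _)
        | false =>
          apply hf (V false) _ m hm2 c.2 hc
          intro p' ℓ
          refine (hV false p' ℓ).trans (mul_le_mul_of_nonneg_right ?_ (norm_nonneg _))
          exact (min_le_left _ _).trans (min_le_right _ _)
      rw [e1, e2]
      have e3 : poly (V c.1) m c.2 (prun V m L' p) - s.leg c.1 c.2 (s.run L' p) =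
          (poly (V c.1) m c.2 (prun V m L' p) - s.leg c.1 c.2 (prun V m L' p)) +
            (s.leg c.1 c.2 (prun V m L' p) - s.leg c.1 c.2 (s.run L' p)) := by abel
      rw [e3]
      exact (norm_add_le _ _).trans (by linarith)

end Pool.Agent.H44.AC
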