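import Pool.Agent.H44.AC.SWb

/-!
# [H44 AC RUN] Paths given by lists of legs, and the space `V`

All facts for the unstable legs are the facts of `SWb` for `s.inv` (`Ok.inv`, `inv_inv`: `s.inv.ps = s.pu`).
* `run_fst`: the first component of the endpoint does not depend on `p.2`, `run_snd`: the change of the second component depends only on `p.1` (induction on `L`).
* `run_cont`: continuity in the starting point and in the vectors of the legs (induction, `W_cont`): for a list of functions.
* `run_mem_V`: for every list, `y' - y ∈ base x x' + V`.  Induction on the list from the right (`List.reverseRecOn`, `List.foldl_append`).  Step, stable leg `ℓ` from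
  `x' = x + α + β`, `α = ps (x' - x)`, `β = pu (x' - x)`; write `w = x' - x`:
  `base x (x' + ps ℓ) - base x x' = W x (w + ps ℓ) - W x w + W^u (x + α + ps ℓ) w - W^u (x + α) w` (`W` only depends on `ps` of its second argument, `W_ps`, `W^u` on `pu`)
  `= W (x + α) ℓ + W^u (x + α + ps ℓ) w - W^u (x + α) w` (`W_add`), and `J (x + α, ℓ, w) = W (x + α) ℓ + W^u (x + α + ps ℓ) w - W (x + α + β) ℓ - W^u (x + α) w`
  (`W_neg` twice).  So `W x' ℓ = base x (x' + ps ℓ) - base x x' - J (x + α, ℓ, w)`.
  Unstable leg `ℓ` from `x'` : `base x (x' + pu ℓ) - base x x' = W^u (x + α) (w + pu ℓ) - W^u (x + α) w = W^u (x + α + β) ℓ` (`W_add` for `s.inv`): exact, no `J`.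
-/

set_option autoImplicit false

namespace Pool.Agent.H44.AC

variable {d k : ℕ}

namespace Sk

/-- the endpoint of the path in `ℝ^d` -/
noncomputable def runx (s : Sk d k) (L : List (Bool × X d)) (x : X d) : X d :=
  L.foldl (fun z c => z + if c.1 then s.ps c.2 else s.pu c.2) x

/-- the change of `y` along the path starting over `x` -/
noncomputable def inc (s : Sk d k) (L : List (Bool × X d)) (x : X d) : X k :=
  (s.run L (x, 0)).2

theorem Run_leg (s : Sk d k) (c : Bool) (ℓ : X d) (p : E d k) :
    s.leg c ℓ p = (p.1 + (if c then s.ps ℓ else s.pu ℓ), p.2 + (if c then s.W p.1 ℓ else s.inv.W p.1 ℓ)) := by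
  cases c <;> rfl

theorem run_eq (s : Sk d k) (L : List (Bool × X d)) (p : E d k) :
    s.run L p = (s.runx L p.1, p.2 + s.inc L p.1) := by
  induction L generalizing p with
  | nil =>
    change p = (p.1, p.2 + (((p.1, 0) : E d k)).2)
    rw [add_zero]
  | cons c L ih =>
    have h1 : ∀ q : E d k, s.run (c :: L) q = s.run L (s.leg c.1 c.2 q) := fun q => rfl
    have h2 : s.runx (c :: L) p.1 = s.runx L (p.1 + if c.1 then s.ps c.2 else s.pu c.2) := rfl
    have h3 : s.inc (c :: L) p.1 = (s.run (c :: L) (p.1, 0)).2 := rfl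
    rw [h3, h1, h1, ih, ih, Run_leg, Run_leg, h2]
    simp only [zero_add, add_assoc]

theorem Run_inc_cons (s : Sk d k) (c : Bool × X d) (L : List (Bool × X d)) (x : X d) :
    s.inc (c :: L) x = (if c.1 then s.W x c.2 else s.inv.W x c.2) +
      s.inc L (x + if c.1 then s.ps c.2 else s.pu c.2) := by
  have h1 : s.inc (c :: L) x = (s.run L (s.leg c.1 c.2 (x, 0))).2 := rfl
  rw [h1, run_eq, Run_leg]
  simp only [zero_add]

theorem Run_inc_nil (s : Sk d k) (x : X d) : s.inc [] x = 0 := rfl

theorem runx_append (s : Sk d k) (L L' : List (Bool × X d)) (x : X d) :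
    s.runx (L ++ L') x = s.runx L' (s.runx L x) := by
  unfold runx
  rw [List.foldl_append]

theorem inc_append (s : Sk d k) (L L' : List (Bool × X d)) (x : X d) :
    s.inc (L ++ L') x = s.inc L x + s.inc L' (s.runx L x) := by
  induction L generalizing x with
  | nil =>
    rw [Run_inc_nil, zero_add]
    rfl
  | cons c L ih =>
    rw [List.cons_append, Run_inc_cons, Run_inc_cons, ih, add_assoc]
    rfl

theorem Run_cont {s : Sk d k} (hs : s.Ok) {T : Type*} [TopologicalSpace T] (f : T × X d → X d)
    (hf : Continuous f) : Continuous fun q : T × X d => s.W q.2 (f q) :=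
  (W_cont hs).comp (continuous_snd.prodMk hf)

/-- continuity of the change of `y` in the starting point and the vectors of the legs -/
theorem inc_cont {s : Sk d k} (hs : s.Ok) {T : Type*} [TopologicalSpace T] (L : List (Bool × (T → X d)))
    (hL : ∀ c ∈ L, Continuous c.2) :
    Continuous fun q : T × X d => s.inc (L.map fun c => (c.1, c.2 q.1)) q.2 := by
  induction L with
  | nil =>
    simp only [List.map_nil, Run_inc_nil]
    exact continuous_const
  | cons c L ih =>
    have ih' := ih fun c hc => hL c (List.mem_cons_of_mem _ hc)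
    have hc : Continuous c.2 := hL c List.mem_cons_self
    simp only [List.map_cons, Run_inc_cons]
    have h0 : Continuous fun q : T × X d => c.2 q.1 := hc.comp continuous_fst
    have hW := Run_cont hs (fun q : T × X d => c.2 q.1) h0
    have hWu := Run_cont hs.inv (fun q : T × X d => c.2 q.1) h0
    have hps : Continuous fun q : T × X d => s.ps (c.2 q.1) := s.ps.continuous.comp h0
    have hpu : Continuous fun q : T × X d => s.pu (c.2 q.1) := s.pu.continuous.comp h0
    cases hb : c.1
    · simp only [Bool.false_eq_true, if_false]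
      have h1 : Continuous fun q : T × X d => (q.1, q.2 + s.pu (c.2 q.1)) :=
        continuous_fst.prodMk (continuous_snd.add hpu)
      have h2 : Continuous fun q : T × X d =>
          s.inc (L.map fun c => (c.1, c.2 q.1)) (q.2 + s.pu (c.2 q.1)) := ih'.comp h1
      exact Continuous.add hWu h2
    · simp only [if_true]
      have h1 : Continuous fun q : T × X d => (q.1, q.2 + s.ps (c.2 q.1)) :=
        continuous_fst.prodMk (continuous_snd.add hps)
      have h2 : Continuous fun q : T × X d =>
          s.inc (L.map fun c => (c.1, c.2 q.1)) (q.2 + s.ps (c.2 q.1)) := ih'.comp h1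
      exact Continuous.add hW h2

theorem Run_W_eq {s : Sk d k} (hs : s.Ok) {x ℓ ℓ' : X d} (h : s.ps ℓ = s.ps ℓ') : s.W x ℓ = s.W x ℓ' := by
  rw [← W_ps hs x ℓ, h, W_ps hs x ℓ']

theorem run_mem_V {s : Sk d k} (hs : s.Ok) (L : List (Bool × X d)) (x : X d) :
    s.inc L x - s.base x (s.runx L x) ∈ s.V := by
  induction L using List.reverseRecOn with
  | nil =>
    have h1 : s.base x (s.runx [] x) = 0 := by
      change s.W x (x - x) + s.inv.W (x + s.ps (x - x)) (x - x) = 0
      rw [sub_self, W_zero, W_zero, add_zero]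
    rw [h1, Run_inc_nil, sub_zero]
    exact s.V.zero_mem
  | append_singleton L c ih =>
    obtain ⟨c, ℓ⟩ := c
    rw [inc_append, runx_append, Run_inc_cons, Run_inc_nil, add_zero]
    generalize s.inc L x = I at ih ⊢
    generalize s.runx L x = x' at ih ⊢
    obtain ⟨w, rfl⟩ : ∃ w, x' = x + w := ⟨x' - x, by abel⟩
    have hdom := hs.dom
    have hx' : x + s.ps w + s.pu w = x + w := by rw [add_assoc, hdom.sum]
    cases c
    · change I + s.inv.W (x + w) ℓ - s.base x (x + w + s.pu ℓ) ∈ s.V
      have h1 : s.base x (x + w + s.pu ℓ) = s.base x (x + w) + s.inv.W (x + w) ℓ := by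
        unfold base
        rw [show x + w + s.pu ℓ - x = w + s.pu ℓ by abel, show x + w - x = w by abel]
        have e1 : s.ps (w + s.pu ℓ) = s.ps w := by rw [map_add, hdom.su, add_zero]
        have e2 := W_add hs.inv (x + s.ps w) w (s.pu ℓ)
        have e3 : s.inv.W (x + s.ps w + s.inv.ps w) (s.pu ℓ) = s.inv.W (x + w) ℓ := by
          change s.inv.W (x + s.ps w + s.pu w) (s.inv.ps ℓ) = _
          rw [W_ps hs.inv, hx']
        rw [e1, Run_W_eq hs e1, e2, e3]
        abel
      rw [h1]
      have h2 : I + s.inv.W (x + w) ℓ - (s.base x (x + w) + s.inv.W (x + w) ℓ) = I - s.base x (x + w) := by abel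
      rw [h2]
      exact ih
    · change I + s.W (x + w) ℓ - s.base x (x + w + s.ps ℓ) ∈ s.V
      have h1 : s.base x (x + w + s.ps ℓ) = s.base x (x + w) + s.W (x + w) ℓ + s.J (x + s.ps w, ℓ, w) := by
        unfold base J
        rw [show x + w + s.ps ℓ - x = w + s.ps ℓ by abel, show x + w - x = w by abel]
        simp only
        have e1 : s.ps (w + s.ps ℓ) = s.ps w + s.ps ℓ := by rw [map_add, hdom.ss]
        have e2 : s.inv.W (x + (s.ps w + s.ps ℓ)) (w + s.ps ℓ) = s.inv.W (x + (s.ps w + s.ps ℓ)) w := by
          refine Run_W_eq hs.inv ?_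
          change s.pu (w + s.ps ℓ) = s.pu w
          rw [map_add, hdom.us, add_zero]
        have e3 : s.W x (w + s.ps ℓ) = s.W x w + s.W (x + s.ps w) ℓ := by
          rw [W_add hs, W_ps hs]
        have e4 : s.W (x + s.ps w + s.ps ℓ + s.pu w) (-ℓ) = -s.W (x + w) ℓ := by
          rw [← W_neg hs, ← hx']
          congr 1
          abel
        have e5 : s.inv.W (x + s.ps w + s.pu w) (-w) = -s.inv.W (x + s.ps w) w := W_neg hs.inv _ _
        rw [e1, e2, e3, e4, e5, add_assoc x (s.ps w) (s.ps ℓ)]
        abel
      rw [h1]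
      have h2 : I + s.W (x + w) ℓ - (s.base x (x + w) + s.W (x + w) ℓ + s.J (x + s.ps w, ℓ, w)) =
          (I - s.base x (x + w)) - s.J (x + s.ps w, ℓ, w) := by abel
      rw [h2]
      exact s.V.sub_mem ih (Submodule.subset_span ⟨_, rfl⟩)

end Sk

end Pool.Agent.H44.AC
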