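import Pool.Agent.H44.AC.Defs

/-!
# Affine skew products: the explicit bundles and holonomies (definitions)

For `f (x, y) = (A x, B y + h x)` the stable bundle at `(x, y)` is `{(a, S x a) : a ∈ im ps}` with
`S x a = - ∑_{j ≥ 0} B^(-j-1) Dh(A^j x) A^j a`, and a curve in a stable leaf over a curve from `x` to `x + ps ℓ` changes
`y` by `W x ℓ = - ∑_{j ≥ 0} B^(-j-1) (h (A^j (x + ps ℓ)) - h (A^j x))`.  The unstable bundle is the stable bundle of the
inverse (`Sk.inv`).
-/

set_option autoImplicit false

namespace Pool.Agent.H44.AC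

variable {d k : ℕ}

namespace Sk

/-- the data of the inverse map -/
noncomputable def inv (s : Sk d k) : Sk d k :=
  ⟨s.A.symm, s.B.symm, s.pu, s.ps, fun x => -s.B.symm (s.h (s.A.symm x))⟩

/-- `A` as an element of the ring of operators -/
noncomputable def a (s : Sk d k) : X d →L[ℝ] X d := s.A

/-- the inverse of `B` as an element of the ring of operators -/
noncomputable def b (s : Sk d k) : X k →L[ℝ] X k := s.B.symm

/-- the dimension of the stable bundle -/
noncomputable def rs (s : Sk d k) : ℕ := Module.finrank ℝ (LinearMap.range (s.ps : X d →ₗ[ℝ] X d))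

/-- the dimension of the unstable bundle -/
noncomputable def ru (s : Sk d k) : ℕ := Module.finrank ℝ (LinearMap.range (s.pu : X d →ₗ[ℝ] X d))

/-- the stable bundle at `(x, y)` is `{(a, S x a) : a ∈ im ps}` -/
noncomputable def S (s : Sk d k) (x : X d) : X d →L[ℝ] X k :=
  -∑' j : ℕ, (s.b ^ (j + 1)).comp ((fderiv ℝ s.h ((s.a ^ j) x)).comp (s.a ^ j * s.ps))

/-- the change of `y` along a curve in a stable leaf over a curve from `x` to `x + ps ℓ` -/
noncomputable def W (s : Sk d k) (x ℓ : X d) : X k :=
  -∑' j : ℕ, (s.b ^ (j + 1)) (s.h ((s.a ^ j) (x + s.ps ℓ)) - s.h ((s.a ^ j) x))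

/-- one stable leg -/
noncomputable def st (s : Sk d k) (ℓ : X d) (p : E d k) : E d k := (p.1 + s.ps ℓ, p.2 + s.W p.1 ℓ)

/-- one leg, stable if `c = true`, unstable if `c = false` -/
noncomputable def leg (s : Sk d k) (c : Bool) (ℓ : X d) (p : E d k) : E d k :=
  if c then s.st ℓ p else s.inv.st ℓ p

/-- the vector of the bundle over `ℓ` -/
noncomputable def vf (s : Sk d k) (c : Bool) (p : E d k) (ℓ : X d) : E d k :=
  if c then (s.ps ℓ, s.S p.1 ℓ) else (s.pu ℓ, s.inv.S p.1 ℓ)

/-- an `su`-path, given by its list of legs -/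
noncomputable def run (s : Sk d k) (L : List (Bool × X d)) (p : E d k) : E d k :=
  L.foldl (fun q c => s.leg c.1 c.2 q) p

/-- the change of `y` along the quadrilateral `x, x + ps a, x + ps a + pu b, x + pu b, x` -/
noncomputable def J (s : Sk d k) (q : X d × X d × X d) : X k :=
  s.W q.1 q.2.1 + s.inv.W (q.1 + s.ps q.2.1) q.2.2 +
    s.W (q.1 + s.ps q.2.1 + s.pu q.2.2) (-q.2.1) + s.inv.W (q.1 + s.pu q.2.2) (-q.2.2)

/-- the span of the changes along quadrilaterals -/
def V (s : Sk d k) : Submodule ℝ (X k) := Submodule.span ℝ (Set.range s.J)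

/-- the change of `y` along the stable leg followed by the unstable leg from `x` to `x'` -/
noncomputable def base (s : Sk d k) (x x' : X d) : X k :=
  s.W x (x' - x) + s.inv.W (x + s.ps (x' - x)) (x' - x)

end Sk

end Pool.Agent.H44.AC
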