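import Pool.Agent.H44.AC.Basic

/-!
# Affine skew products (definitions of the main theorem)
-/

set_option autoImplicit false

namespace Pool.Agent.H44.AC

variable {d k : ℕ}

/-- (the lift of) the affine skew product `(x, y) ↦ (A x, B y + h x)` -/
def skew (A : X d ≃L[ℝ] X d) (B : X k ≃L[ℝ] X k) (h : X d → X k) : Equiv.Perm (E d k) where
  toFun v := (A v.1, B v.2 + h v.1)
  invFun v := (A.symm v.1, B.symm (v.2 - h (A.symm v.1)))
  left_inv v := by simp
  right_inv v := by simp

/-- the dimension of the image of `p` -/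
noncomputable def rk (p : X d →L[ℝ] X d) : ℕ :=
  Module.finrank ℝ (LinearMap.range (p : X d →ₗ[ℝ] X d))

end Pool.Agent.H44.AC
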