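import Pool.Agent.H44.AC.Leaf
import Pool.Agent.H44.AC.Hit
import Pool.Agent.H44.AC.Fam
import Pool.Agent.H44.AC.PrunN
import Pool.Agent.H44.AC.PLim
import Pool.Agent.H44.AC.LinT
import Pool.Agent.H44.AC.VField

/-!
# [H44 AC TOP] If `V = ⊤` then `f` is stably accessible

* `reach`: take `q`, `Lin` from `lin_of_top`, `κ` = operator norm of `Lin⁻¹`, `C` from `fam_est`, a natural number `N` with `κ (C + 1/2) ≤ N / 2`, `R` from `fam_bd`,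
  and `δ`, `m0` from `prun_near` with `M = k (N * 8) + 2`, `R`, `η = 1/4`; `δ` may be decreased to `≤ 1`.  `P = Lin (N/2)`.  Let `Ps`, `Pu`, `V` be as in the statement, `‖p‖ ≤ 2` and `‖u‖ ≤ 1/4`.  For
  `m ≥ m0` the map `G z = prun V m (ev (fam q N p.1) z) p` is continuous (`prun_cont`, `fam_cont`), and on the box `‖G z - run (ev …) p‖ ≤ 1/4` (`prun_near`, `fam_len`,
  `ev` has the same length), `run (ev …) p = (p.1 + z.1, p.2 + inc)`, `‖inc - Lin z.2‖ ≤ C` (`run_eq`, `fam_est`).  So `hit` gives `z_m` in the box with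
  `G z_m = (p.1 + u.1, p.2 + P + u.2)`.  A subsequence of `z_m` converges in the compact box (`box_compact`, `IsCompact.tendsto_subseq`) and `prun_limit` (the bound `K` from `S_bdd`
  for `s` and `s.inv`: `‖vf c p ℓ‖ ≤ K ‖ℓ‖`) gives `SuPath p (p.1 + u.1, p.2 + P + u.2)`.
* `top_main`: for `‖p‖, ‖p'‖ ≤ 2`, `‖p - p'‖ ≤ 1/4`: `reach` for `p` with `u = 0` and for `p'` with `u = p - p'` has the same endpoint, so `p` and `p'` are joined (`su_symm`).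
  `acc_of_local`.
* `stacc_of_top`: `top_main` and `vfield` with `ε = δ`; `PH.per_s`, `PH.per_u` (proved).
-/

set_option autoImplicit false

open Filter Topology

namespace Pool.Agent.H44.AC

variable {d k : ℕ}

theorem vf_bd {s : Sk d k} (hs : s.Ok) : ∃ K : ℝ, 0 < K ∧ ∀ c p ℓ, ‖s.vf c p ℓ‖ ≤ K * ‖ℓ‖ := by
  obtain ⟨K1, hK1, h1⟩ := Sk.S_bdd hs
  obtain ⟨K2, hK2, h2⟩ := Sk.S_bdd hs.inv
  refine ⟨‖s.ps‖ + ‖s.pu‖ + K1 + K2, by positivity, fun c p ℓ => ?_⟩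
  have n0 := norm_nonneg ℓ
  have n1 := norm_nonneg s.ps
  have n2 := norm_nonneg s.pu
  cases c with
  | true =>
    show ‖((s.ps ℓ, s.S p.1 ℓ) : E d k)‖ ≤ _
    have h3 := s.ps.le_opNorm ℓ
    have h4 := ((s.S p.1).le_opNorm ℓ).trans (mul_le_mul_of_nonneg_right (h1 p.1) n0)
    rw [Prod.norm_def]
    refine max_le ?_ ?_
    · show ‖s.ps ℓ‖ ≤ _
      nlinarith
    · show ‖s.S p.1 ℓ‖ ≤ _
      nlinarith
  | false =>
    show ‖((s.pu ℓ, s.inv.S p.1 ℓ) : E d k)‖ ≤ _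
    have h3 := s.pu.le_opNorm ℓ
    have h4 := ((s.inv.S p.1).le_opNorm ℓ).trans (mul_le_mul_of_nonneg_right (h2 p.1) n0)
    rw [Prod.norm_def]
    refine max_le ?_ ?_
    · show ‖s.pu ℓ‖ ≤ _
      nlinarith
    · show ‖s.inv.S p.1 ℓ‖ ≤ _
      nlinarith

theorem reach {s : Sk d k} (hs : s.Ok) (hV : s.V = ⊤) : ∃ δ : ℝ, 0 < δ ∧ ∃ P : X k,
    ∀ (Ps Pu : E d k → (E d k →L[ℝ] E d k)) (V : Bool → E d k → X d → E d k),
      (∀ c, Continuous fun q : E d k × X d => V c q.1 q.2) →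
      (∀ p ℓ, Ps p (V true p ℓ) = V true p ℓ) → (∀ p ℓ, Pu p (V false p ℓ) = V false p ℓ) →
      (∀ c p ℓ, ‖V c p ℓ - s.vf c p ℓ‖ ≤ δ * ‖ℓ‖) →
      ∀ p u : E d k, ‖p‖ ≤ 2 → ‖u‖ ≤ 1 / 4 → SuPath Ps Pu p (p + (0, P) + u) := by
  obtain ⟨q, Lin, hLin⟩ := lin_of_top hV
  obtain ⟨C, hC, hfam⟩ := fam_est hs q
  obtain ⟨R, hR, hbd⟩ := fam_bd q
  obtain ⟨κ, hκ0, hκ⟩ : ∃ κ : ℝ, 0 ≤ κ ∧ ∀ y, ‖Lin.symm y‖ ≤ κ * ‖y‖ :=
    ⟨‖(Lin.symm : X k →L[ℝ] X k)‖, norm_nonneg _, fun y => (Lin.symm : X k →L[ℝ] X k).le_opNorm y⟩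
  obtain ⟨N, hN⟩ := exists_nat_ge (2 * (κ * (C + 1 / 2)))
  have hN' : κ * (C + 1 / 2) ≤ (N : ℝ) / 2 := by linarith
  obtain ⟨δ0, hδ0, m0, hnear⟩ := prun_near hs (k * (N * 8) + 2) R (1 / 4) (by norm_num)
  obtain ⟨K, hK, hvf⟩ := vf_bd hs
  refine ⟨min δ0 1, lt_min hδ0 one_pos, Lin (fun _ => (N : ℝ) / 2),
    fun Ps Pu V hVc hVs hVu hVn p u hp hu => ?_⟩
  have hVn0 : ∀ c p ℓ, ‖V c p ℓ - s.vf c p ℓ‖ ≤ δ0 * ‖ℓ‖ := fun c p ℓ =>
    (hVn c p ℓ).trans (mul_le_mul_of_nonneg_right (min_le_left _ _) (norm_nonneg _))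
  have hVK : ∀ c p ℓ, ‖V c p ℓ‖ ≤ (K + 1) * ‖ℓ‖ := by
    intro c p ℓ
    have h1 : ‖V c p ℓ - s.vf c p ℓ‖ ≤ 1 * ‖ℓ‖ :=
      (hVn c p ℓ).trans (mul_le_mul_of_nonneg_right (min_le_right _ _) (norm_nonneg _))
    have h2 := hvf c p ℓ
    have h3 : ‖V c p ℓ‖ ≤ ‖V c p ℓ - s.vf c p ℓ‖ + ‖s.vf c p ℓ‖ := by
      have := norm_add_le (V c p ℓ - s.vf c p ℓ) (s.vf c p ℓ)
      rwa [sub_add_cancel] at this
    nlinarith
  have hp1 : ‖p.1‖ ≤ 2 := (norm_fst_le p).trans hp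
  have near : ∀ m ≥ m0, ∀ z ∈ box d k (N : ℝ),
      ‖(prun V m (ev (fam q N p.1) z) p).1 - p.1 - z.1‖ ≤ 1 / 4 ∧
      ‖(prun V m (ev (fam q N p.1) z) p).2 - p.2 - Lin z.2‖ ≤ C + 1 / 4 := by
    intro m hm z hz
    have hlen : (ev (fam q N p.1) z).length ≤ k * (N * 8) + 2 := by
      rw [ev, List.length_map, fam_len]
    have h1 := hnear V hVn0 m hm (ev (fam q N p.1) z) hlen (hbd N p.1 z hp1 hz.1) p
    obtain ⟨h2, h3⟩ := hfam N p.1 z hp1 hz.1 hz.2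
    rw [Sk.run_eq, h2, Prod.norm_def] at h1
    have h4 := (le_max_left _ _).trans h1
    have h5 := (le_max_right _ _).trans h1
    constructor
    · have e : (prun V m (ev (fam q N p.1) z) p).1 - p.1 - z.1 =
          (prun V m (ev (fam q N p.1) z) p - (p.1 + z.1, p.2 + s.inc (ev (fam q N p.1) z) p.1)).1 := by
        rw [Prod.fst_sub, sub_sub]
      rw [e]
      exact h4
    · have e : (prun V m (ev (fam q N p.1) z) p).2 - p.2 - Lin z.2 =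
          (prun V m (ev (fam q N p.1) z) p - (p.1 + z.1, p.2 + s.inc (ev (fam q N p.1) z) p.1)).2 +
            (s.inc (ev (fam q N p.1) z) p.1 - ∑ i, z.2 i • s.J (q i)) := by
        rw [Prod.snd_sub, hLin]
        simp only
        abel
      rw [e]
      refine (norm_add_le _ _).trans ?_
      linarith
  have step : ∀ m : ℕ, ∃ z ∈ box d k (N : ℝ), prun V (m0 + m) (ev (fam q N p.1) z) p =
      (p.1 + u.1, p.2 + Lin (fun _ => (N : ℝ) / 2) + u.2) := by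
    intro m
    exact hit Lin hκ0 hC.le (Nat.cast_nonneg N) hκ hN'
      (fun z => prun V (m0 + m) (ev (fam q N p.1) z) p)
      (prun_cont hVc (m0 + m) _ (fam_cont q N p.1) p) p
      (fun z hz => (near (m0 + m) (Nat.le_add_right _ _) z hz).1)
      (fun z hz => (near (m0 + m) (Nat.le_add_right _ _) z hz).2) u hu
  choose zs hzb hz using step
  obtain ⟨z0, -, φ, hφ, hlim⟩ := (box_compact (d := d) (k := k) (N : ℝ)).tendsto_subseq hzb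
  have htar : p + (0, Lin (fun _ => (N : ℝ) / 2)) + u =
      (p.1 + u.1, p.2 + Lin (fun _ => (N : ℝ) / 2) + u.2) := by
    ext i <;> simp
  rw [htar]
  refine prun_limit hVc (K + 1) hVK hVs hVu (fam q N p.1) (fam_cont q N p.1)
    (fun j => m0 + φ j) ?_ (fun j => zs (φ j)) hlim ?_
  · exact tendsto_atTop_mono (fun j => Nat.le_add_left _ _) hφ.tendsto_atTop
  · refine tendsto_const_nhds.congr fun j => ?_
    exact (hz (φ j)).symm

theorem top_main {s : Sk d k} (hs : s.Ok) (hV : s.V = ⊤) : ∃ δ : ℝ, 0 < δ ∧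
    ∀ (Ps Pu : E d k → (E d k →L[ℝ] E d k)) (V : Bool → E d k → X d → E d k),
      (∀ v z, Int2 z → Ps (v + z) = Ps v) → (∀ v z, Int2 z → Pu (v + z) = Pu v) →
      (∀ c, Continuous fun q : E d k × X d => V c q.1 q.2) →
      (∀ p ℓ, Ps p (V true p ℓ) = V true p ℓ) → (∀ p ℓ, Pu p (V false p ℓ) = V false p ℓ) →
      (∀ c p ℓ, ‖V c p ℓ - s.vf c p ℓ‖ ≤ δ * ‖ℓ‖) → Acc Ps Pu := by
  obtain ⟨δ, hδ, P, h⟩ := reach hs hV
  refine ⟨δ, hδ, fun Ps Pu V hps hpu hV1 hV2 hV3 hV4 => ?_⟩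
  refine acc_of_local hps hpu fun p p' hp hp' hpp => ?_
  have h1 := h Ps Pu V hV1 hV2 hV3 hV4 p 0 hp (by rw [norm_zero]; norm_num)
  have h2 := h Ps Pu V hV1 hV2 hV3 hV4 p' (p - p') hp' hpp
  have e : p' + (0, P) + (p - p') = p + (0, P) + 0 := by abel
  rw [e] at h2
  exact h1.trans (su_symm h2)

theorem stacc_of_top {s : Sk d k} (hs : s.Ok) (hV : s.V = ⊤) : StAcc s.rs s.ru s.f := by
  obtain ⟨δ, hδ, h⟩ := top_main hs hV
  obtain ⟨δ', hδ', h'⟩ := vfield hs δ hδ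
  refine ⟨δ', hδ', fun g hg hc Ps Pc Pu hP hs' hu' => ?_⟩
  obtain ⟨V, hV1, hV2, hV3, hV4⟩ := h' g hg hc Ps Pc Pu hP hs' hu'
  exact h Ps Pu V hP.per_s hP.per_u hV1 hV2 hV3 hV4

end Pool.Agent.H44.AC
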